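import Pool.Agent.LibCycU.Defs

/-!
TASK A: admissibility in terms of the autocorrelation of the function `gg D` (0 at 0, 1 on `D`,
-1 elsewhere) and of its Fourier transform.

`gg D = 2·1_D - 1 + δ₀`; for `x ≠ 0`:
`∑_y gg(y) gg(y+x) = 4 N(x) - 4 #D + q + (2·1_D(x) - 1) + (2·1_D(-x) - 1)`,
`N(x) = diffCount D x` (`= #{y | y ∈ D ∧ y + x ∈ D}`), and `2 #D = q - 1`.
Fourier: with `R(x) = ∑_y g(y) g(y+x)`, `∑_x R(x) ψ(a x) = ĝ(a) ĝ(-a)`; `R(0) = q - 1`,
`∑_x R(x) = 0`.
-/

set_option autoImplicit false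

open Finset

namespace Pool.Agent.CycU

open Classical in
/-- the `±1` function of `D` -/
noncomputable def gg {F : Type} [Field F] (D : Set F) (x : F) : ℤ :=
  if x = 0 then 0 else if x ∈ D then 1 else -1

open Classical in
/-- indicator -/
noncomputable def ii {F : Type} [Field F] (D : Set F) (x : F) : ℤ := if x ∈ D then 1 else 0

open Classical in
theorem gg_eq {F : Type} [Field F] {D : Set F} (h0 : (0 : F) ∉ D) (x : F) :
    gg D x = 2 * ii D x - 1 + (if x = 0 then 1 else 0) := by
  unfold gg ii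
  by_cases hx : x = 0
  · subst hx; simp [h0]
  · by_cases hD : x ∈ D <;> simp [hx, hD]

theorem sum_ii {F : Type} [Field F] [Fintype F] (D : Set F) :
    ∑ x, ii D x = (D.ncard : ℤ) := by
  classical
  unfold ii
  rw [Finset.sum_boole, Set.ncard_eq_toFinset_card' D]
  congr 2
  ext x
  simp

theorem sum_ii_mul {F : Type} [Field F] [Fintype F] (D : Set F) (x : F) :
    ∑ y, ii D y * ii D (y + x) = (diffCount D x : ℤ) := by
  classical
  have h1 : ∀ y, ii D y * ii D (y + x) = if (y ∈ D ∧ y + x ∈ D) then 1 else 0 := by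
    intro y
    unfold ii
    by_cases h : y ∈ D <;> by_cases h' : y + x ∈ D <;> simp [h, h']
  simp_rw [h1]
  rw [Finset.sum_boole]
  unfold diffCount
  norm_cast
  have h2 : {z : F × F | z.1 ∈ D ∧ z.2 ∈ D ∧ z.1 - z.2 = x} =
      (fun y => (y + x, y)) '' {y : F | y ∈ D ∧ y + x ∈ D} := by
    ext z
    simp only [Set.mem_ofPred_eq, Set.mem_image]
    constructor
    · rintro ⟨ha, hb, hc⟩
      refine ⟨z.2, ⟨hb, ?_⟩, ?_⟩
      · rw [← hc]; simpa using ha
      · ext
        · simp [← hc]
        · rfl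
    · rintro ⟨y, ⟨ha, hb⟩, rfl⟩
      exact ⟨hb, ha, by simp⟩
  rw [h2, Set.ncard_image_of_injective _ (fun a b hab => by simpa using congrArg Prod.snd hab),
    Set.ncard_eq_toFinset_card']
  congr 1
  ext y
  simp

/-- the autocorrelation in terms of `diffCount` -/
theorem autocorr {F : Type} [Field F] [Fintype F] {D : Set F} (h0 : (0 : F) ∉ D)
    (hD : 2 * D.ncard + 1 = Fintype.card F) {x : F} (hx : x ≠ 0) :
    ∑ y, gg D y * gg D (y + x) =
      4 * (diffCount D x : ℤ) - Fintype.card F + 2 * ii D x + 2 * ii D (-x) := by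
  classical
  have h1 : ∀ y, gg D y * gg D (y + x) =
      4 * (ii D y * ii D (y + x)) - 2 * ii D y + 2 * (ii D y * (if y + x = 0 then 1 else 0))
        - 2 * ii D (y + x) + 1 - (if y + x = 0 then 1 else 0)
        + 2 * ((if y = 0 then 1 else 0) * ii D (y + x)) - (if y = 0 then 1 else 0)
        + (if y = 0 then 1 else 0) * (if y + x = 0 then 1 else 0) := by
    intro y
    rw [gg_eq h0, gg_eq h0]
    ring
  have hshift : ∑ y, ii D (y + x) = (D.ncard : ℤ) := by
    rw [← sum_ii D]
    exact Fintype.sum_equiv (Equiv.addRight x) _ _ (fun y => rfl)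
  have e0 : ∀ y : F, (y + x = 0) ↔ (y = -x) := fun y => add_eq_zero_iff_eq_neg
  have hs1 : ∑ y, ii D y * (if y + x = 0 then (1 : ℤ) else 0) = ii D (-x) := by
    simp_rw [e0]
    simp
  have hs2 : ∑ y : F, (if y + x = 0 then (1 : ℤ) else 0) = 1 := by
    simp_rw [e0]
    simp
  have hs3 : ∑ y : F, (if y = 0 then (1 : ℤ) else 0) * ii D (y + x) = ii D x := by
    simp
  have hs4 : ∑ y : F, (if y = 0 then (1 : ℤ) else 0) = 1 := by simp
  have hs5 : ∑ y : F, (if y = 0 then (1 : ℤ) else 0) * (if y + x = 0 then (1 : ℤ) else 0) = 0 := by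
    refine Finset.sum_eq_zero (fun y _ => ?_)
    by_cases hy : y = 0
    · subst hy; simp [hx]
    · simp [hy]
  have hcard : ∑ _y : F, (1 : ℤ) = Fintype.card F := by simp
  have hDz : 2 * (D.ncard : ℤ) + 1 = Fintype.card F := by exact_mod_cast hD
  simp_rw [h1]
  simp only [Finset.sum_add_distrib, Finset.sum_sub_distrib, ← Finset.mul_sum]
  rw [sum_ii_mul, sum_ii, hs1, hshift, hs2, hs3, hs4, hs5, hcard]
  linarith

theorem gg_zero {F : Type} [Field F] (D : Set F) : gg D 0 = 0 := by
  simp [gg]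

theorem gg_mem {F : Type} [Field F] {D : Set F} {x : F} (hx : x ≠ 0) (h : x ∈ D) :
    gg D x = 1 := by
  simp [gg, hx, h]

theorem gg_not_mem {F : Type} [Field F] {D : Set F} {x : F} (hx : x ≠ 0) (h : x ∉ D) :
    gg D x = -1 := by
  simp [gg, hx, h]

theorem ii_mem {F : Type} [Field F] {D : Set F} {x : F} (h : x ∈ D) : ii D x = 1 := by
  simp [ii, h]

theorem ii_not_mem {F : Type} [Field F] {D : Set F} {x : F} (h : x ∉ D) : ii D x = 0 := by
  simp [ii, h]

theorem skew_iff {F : Type} [Field F] [Fintype F] (D : Set F) (h0 : (0 : F) ∉ D)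
    (hD : 2 * D.ncard + 1 = Fintype.card F) :
    SkewHadamard D ↔ (∀ x, gg D (-x) = -gg D x) ∧ ∀ x, x ≠ 0 → ∑ y, gg D y * gg D (y + x) = -1 := by
  have key : ∀ x, x ≠ 0 → ((gg D (-x) = -gg D x) ↔ (x ∈ D ↔ -x ∉ D)) := by
    intro x hx
    have hnx : -x ≠ 0 := neg_ne_zero.mpr hx
    by_cases h1 : x ∈ D <;> by_cases h2 : -x ∈ D
    · simp [gg_mem hx h1, gg_mem hnx h2, h1, h2]
    · simp [gg_mem hx h1, gg_not_mem hnx h2, h1, h2]
    · simp [gg_not_mem hx h1, gg_mem hnx h2, h1, h2]
    · simp [gg_not_mem hx h1, gg_not_mem hnx h2, h1, h2]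
  have hone : ∀ x, x ≠ 0 → (x ∈ D ↔ -x ∉ D) → 2 * ii D x + 2 * ii D (-x) = 2 := by
    intro x _ h
    by_cases h1 : x ∈ D
    · rw [ii_mem h1, ii_not_mem (h.mp h1)]; rfl
    · have h2 : -x ∈ D := by
        by_contra h3
        exact h1 (h.mpr h3)
      rw [ii_not_mem h1, ii_mem h2]; rfl
  constructor
  · rintro ⟨_, hi, hu, hc⟩
    have hs : ∀ x, x ≠ 0 → (x ∈ D ↔ -x ∉ D) := by
      intro x hx
      constructor
      · intro h1 h2
        have : x ∈ D ∩ (-D) := ⟨h1, by simpa using h2⟩
        rw [hi] at this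
        exact this
      · intro h2
        have : x ∈ D ∪ (-D) := by rw [hu]; exact hx
        rcases this with h | h
        · exact h
        · exact absurd (by simpa using h) h2
    refine ⟨fun x => ?_, fun x hx => ?_⟩
    · by_cases hx : x = 0
      · subst hx; simp [gg_zero]
      · exact (key x hx).mpr (hs x hx)
    · rw [autocorr h0 hD hx]
      have h1 := hone x hx (hs x hx)
      have h2 : 4 * (diffCount D x : ℤ) + 3 = Fintype.card F := by exact_mod_cast hc x hx
      linarith
  · rintro ⟨hg, ha⟩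
    have hs : ∀ x, x ≠ 0 → (x ∈ D ↔ -x ∉ D) := fun x hx => (key x hx).mp (hg x)
    refine ⟨hD, ?_, ?_, ?_⟩
    · ext x
      simp only [Set.mem_inter_iff, Set.mem_neg, Set.mem_empty_iff_false, iff_false, not_and]
      intro h1
      have hx : x ≠ 0 := fun h => h0 (h ▸ h1)
      exact (hs x hx).mp h1
    · ext x
      simp only [Set.mem_union, Set.mem_neg, Set.mem_ofPred_eq]
      constructor
      · rintro (h | h) rfl
        · exact h0 h
        · exact h0 (by simpa using h)
      · intro hx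
        by_cases h1 : x ∈ D
        · exact Or.inl h1
        · right
          by_contra h3
          exact h1 ((hs x hx).mpr h3)
    · intro x hx
      have h1 := ha x hx
      rw [autocorr h0 hD hx] at h1
      have h2 := hone x hx (hs x hx)
      have h3 : 4 * (diffCount D x : ℤ) + 3 = Fintype.card F := by linarith
      exact_mod_cast h3

theorem paley_iff {F : Type} [Field F] [Fintype F] (D : Set F) (h0 : (0 : F) ∉ D)
    (hD : 2 * D.ncard + 1 = Fintype.card F) :
    PaleyType D ↔ (∀ x, gg D (-x) = gg D x) ∧ ∀ x, x ≠ 0 → ∑ y, gg D y * gg D (y + x) = -1 := by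
  have key : ∀ x, x ≠ 0 → ((gg D (-x) = gg D x) ↔ (-x ∈ D ↔ x ∈ D)) := by
    intro x hx
    have hnx : -x ≠ 0 := neg_ne_zero.mpr hx
    by_cases h1 : x ∈ D <;> by_cases h2 : -x ∈ D
    · simp [gg_mem hx h1, gg_mem hnx h2, h1, h2]
    · simp [gg_mem hx h1, gg_not_mem hnx h2, h1, h2]
    · simp [gg_not_mem hx h1, gg_mem hnx h2, h1, h2]
    · simp [gg_not_mem hx h1, gg_not_mem hnx h2, h1, h2]
  constructor
  · rintro ⟨_, hi, _, hc⟩
    have hs : ∀ x, (-x ∈ D ↔ x ∈ D) := by
      intro x
      rw [← Set.mem_neg, hi]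
    refine ⟨fun x => ?_, fun x hx => ?_⟩
    · by_cases hx : x = 0
      · subst hx; simp
      · exact (key x hx).mpr (hs x)
    · rw [autocorr h0 hD hx]
      by_cases h1 : x ∈ D
      · rw [ii_mem h1, ii_mem ((hs x).mpr h1)]
        have h2 : 4 * (diffCount D x : ℤ) + 5 = Fintype.card F := by
          exact_mod_cast (hc x hx).1 h1
        linarith
      · rw [ii_not_mem h1, ii_not_mem (fun h => h1 ((hs x).mp h))]
        have h2 : 4 * (diffCount D x : ℤ) + 1 = Fintype.card F := by
          exact_mod_cast (hc x hx).2 h1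
        linarith
  · rintro ⟨hg, ha⟩
    have hs : ∀ x, (-x ∈ D ↔ x ∈ D) := by
      intro x
      by_cases hx : x = 0
      · subst hx; simp
      · exact (key x hx).mp (hg x)
    refine ⟨hD, ?_, h0, ?_⟩
    · ext x
      rw [Set.mem_neg]
      exact hs x
    · intro x hx
      have h1 := ha x hx
      rw [autocorr h0 hD hx] at h1
      constructor
      · intro h2
        rw [ii_mem h2, ii_mem ((hs x).mpr h2)] at h1
        have h3 : 4 * (diffCount D x : ℤ) + 5 = Fintype.card F := by linarith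
        exact_mod_cast h3
      · intro h2
        rw [ii_not_mem h2, ii_not_mem (fun h => h2 ((hs x).mp h))] at h1
        have h3 : 4 * (diffCount D x : ℤ) + 1 = Fintype.card F := by linarith
        exact_mod_cast h3

theorem sum_gg {F : Type} [Field F] [Fintype F] (D : Set F) (h0 : (0 : F) ∉ D)
    (hD : 2 * D.ncard + 1 = Fintype.card F) : ∑ x, gg D x = 0 := by
  classical
  simp_rw [gg_eq h0]
  simp only [Finset.sum_add_distrib, Finset.sum_sub_distrib, ← Finset.mul_sum]
  rw [sum_ii]
  have hDz : 2 * (D.ncard : ℤ) + 1 = Fintype.card F := by exact_mod_cast hD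
  have hs4 : ∑ y : F, (if y = 0 then (1 : ℤ) else 0) = 1 := by simp
  have hcard : ∑ _y : F, (1 : ℤ) = Fintype.card F := by simp
  rw [hs4, hcard]
  linarith

theorem sum_gg_sq {F : Type} [Field F] [Fintype F] (D : Set F) :
    ∑ x, gg D x ^ 2 = (Fintype.card F : ℤ) - 1 := by
  classical
  have h1 : ∀ x, gg D x ^ 2 = 1 - (if x = 0 then 1 else 0) := by
    intro x
    by_cases hx : x = 0
    · subst hx; simp [gg_zero]
    · by_cases h : x ∈ D
      · simp [gg_mem hx h, hx]
      · simp [gg_not_mem hx h, hx]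
  simp_rw [h1]
  rw [Finset.sum_sub_distrib]
  simp

theorem fourier_iff {F Ω : Type} [Field F] [Fintype F] [Field Ω] [CharZero Ω] {ψ : AddChar F Ω}
    (hψ : ψ.IsPrimitive) (g : F → ℤ) (h0 : ∑ x, g x = 0)
    (h2 : ∑ x, g x ^ 2 = (Fintype.card F : ℤ) - 1) :
    (∀ x, x ≠ 0 → ∑ y, g y * g (y + x) = -1) ↔
      ∀ a, a ≠ 0 → (∑ y, (g y : Ω) * ψ (a * y)) * (∑ y, (g y : Ω) * ψ (-a * y)) =
        (Fintype.card F : Ω) := by
  classical
  set R : F → ℤ := fun x => ∑ y, g y * g (y + x) with hR
  have hS : ∀ a : F, (∑ y, (g y : Ω) * ψ (a * y)) * (∑ y, (g y : Ω) * ψ (-a * y)) =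
      ∑ x, (R x : Ω) * ψ (x * a) := by
    intro a
    rw [mul_comm, Finset.sum_mul_sum]
    have h1 : ∀ y, ∑ z, (g y : Ω) * ψ (-a * y) * ((g z : Ω) * ψ (a * z)) =
        ∑ x, (g y : Ω) * (g (y + x) : Ω) * ψ (x * a) := by
      intro y
      refine (Fintype.sum_equiv (Equiv.addLeft y) _ _ (fun x => ?_)).symm
      simp only [Equiv.coe_addLeft]
      have : ψ (x * a) = ψ (-a * y) * ψ (a * (y + x)) := by
        rw [← AddChar.map_add_eq_mul]
        congr 1
        ring
      rw [this]
      ring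
    simp_rw [h1]
    rw [Finset.sum_comm]
    refine Finset.sum_congr rfl (fun x _ => ?_)
    rw [← Finset.sum_mul]
    congr 1
    simp only [hR]
    push_cast
    rfl
  have hR0 : R 0 = (Fintype.card F : ℤ) - 1 := by
    rw [← h2]
    simp only [hR, add_zero]
    exact Finset.sum_congr rfl (fun y _ => by ring)
  have hcard0 : (Fintype.card F : Ω) ≠ 0 := by
    exact_mod_cast Fintype.card_ne_zero
  constructor
  · intro h a ha
    rw [hS a]
    have h3 : ∀ x, (R x : Ω) * ψ (x * a) =
        (if x = 0 then (Fintype.card F : Ω) else 0) - ψ (x * a) := by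
      intro x
      by_cases hx : x = 0
      · subst hx
        rw [hR0]
        simp
      · have : R x = -1 := h x hx
        rw [this]
        simp [hx]
    simp_rw [h3]
    rw [Finset.sum_sub_distrib, AddChar.sum_mulShift a hψ]
    simp [ha]
  · intro h x hx
    have hS0 : ∑ y, (R y : Ω) = 0 := by
      have h3 := hS 0
      have h4 : ∑ y, (g y : Ω) = 0 := by exact_mod_cast congrArg (Int.cast : ℤ → Ω) h0
      simp only [neg_zero, zero_mul, mul_zero, AddChar.map_zero_eq_one, mul_one] at h3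
      rw [h4, zero_mul] at h3
      exact h3.symm
    have h5 : ∀ a, ∑ y, (R y : Ω) * ψ (y * a) =
        (Fintype.card F : Ω) - (if a = 0 then (Fintype.card F : Ω) else 0) := by
      intro a
      by_cases ha : a = 0
      · subst ha
        simp [hS0]
      · rw [← hS a, h a ha]
        simp [ha]
    have h6 : ∑ a, (∑ y, (R y : Ω) * ψ (y * a)) * ψ (-x * a) =
        (Fintype.card F : Ω) * (R x : Ω) := by
      simp_rw [Finset.sum_mul]
      rw [Finset.sum_comm]
      have h7 : ∀ y, ∑ a, (R y : Ω) * ψ (y * a) * ψ (-x * a) =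
          (R y : Ω) * (if y - x = 0 then (Fintype.card F : Ω) else 0) := by
        intro y
        have h7a := AddChar.sum_mulShift (y - x) hψ
        push_cast at h7a
        rw [← h7a, Finset.mul_sum]
        refine Finset.sum_congr rfl (fun a _ => ?_)
        rw [mul_assoc, ← AddChar.map_add_eq_mul]
        congr 2
        ring
      simp_rw [h7, sub_eq_zero]
      simp [mul_comm]
    have h8 : ∑ a, (∑ y, (R y : Ω) * ψ (y * a)) * ψ (-x * a) = -(Fintype.card F : Ω) := by
      simp_rw [h5, sub_mul]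
      rw [Finset.sum_sub_distrib, ← Finset.mul_sum]
      have h9 : ∑ a, ψ (-x * a) = 0 := by
        have := AddChar.sum_mulShift (-x) hψ
        simp only [neg_eq_zero, hx, if_false, Nat.cast_zero] at this
        rw [← this]
        exact Finset.sum_congr rfl (fun a _ => by rw [mul_comm])
      rw [h9]
      simp
    rw [h6] at h8
    have h10 : (R x : Ω) = -1 := by
      have : (Fintype.card F : Ω) * (R x : Ω) = (Fintype.card F : Ω) * (-1) := by
        rw [h8]; ring
      exact mul_left_cancel₀ hcard0 this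
    exact_mod_cast h10

end Pool.Agent.CycU
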