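import Pool.Agent.LibCycU.A

/-!
TASK C: the function `gg` on powers of `ω`, and the size of `D`.

The index 2 subgroup `Q` of the cyclic group `(ZMod (2N))ˣ` is the set of squares; under
`(ZMod (2N))ˣ ≃ (ZMod N)ˣ` it is the set of quadratic residues mod `N`. An index `j` lies in
`{0} ∪ Q ∪ 2Q` iff `j = 0`, or `j` odd, `j mod N ≠ 0` a residue, or `j` even, `j mod N ≠ 0` and
`j/2` a residue mod `N`. The `2N` classes are disjoint and each has `(q-1)/(2N)` elements.
-/

set_option autoImplicit false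

open Finset

namespace Pool.Agent.CycU

/-- the values of `gg` -/
def eps (N : ℕ) [Fact N.Prime] (s : ℤ) (i : ℕ) : ℤ :=
  if (i : ZMod N) = 0 then s * (-1) ^ i
  else if Even i then quadraticChar (ZMod N) 2 * quadraticChar (ZMod N) (i : ZMod N)
  else quadraticChar (ZMod N) (i : ZMod N)

/-- `0` or `N` -/
def base (N : ℕ) (s : ℤ) : ZMod (2 * N) := if s = 1 then 0 else (N : ZMod (2 * N))

section aux

variable {N : ℕ} [hNp : Fact N.Prime]

theorem odd_of_ne_two (hN : N ≠ 2) : Odd N := hNp.out.odd_of_ne_two hN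

theorem mem_cls_iff {F : Type} [Field F] [Fintype F] {ω : F}
    (hω : IsPrimitiveRoot ω (Fintype.card F - 1)) (hd : 2 * N ∣ Fintype.card F - 1)
    (i : ℕ) (j : ZMod (2 * N)) : ω ^ i ∈ cls N ω j ↔ ((i : ℕ) : ZMod (2 * N)) = j := by
  have hN0 : 0 < 2 * N := by have := hNp.out.pos; omega
  have : NeZero (2 * N) := ⟨hN0.ne'⟩
  have hq : 1 < Fintype.card F := Fintype.one_lt_card
  have hω0 : ω ≠ 0 := hω.ne_zero (by omega)
  constructor
  · rintro ⟨k, hk⟩
    rw [← pow_mul, ← pow_add] at hk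
    have h1 : i ≡ j.val + 2 * N * k [MOD (Fintype.card F - 1)] := by
      have hfin : IsOfFinOrder ω := hω.isOfFinOrder (by omega)
      have := hfin.pow_eq_pow_iff_modEq.mp hk
      rwa [← hω.eq_orderOf] at this
    have h2 := h1.of_dvd hd
    have h3 : ((i : ℕ) : ZMod (2 * N)) = ((j.val + 2 * N * k : ℕ) : ZMod (2 * N)) :=
      (ZMod.natCast_eq_natCast_iff _ _ _).mpr h2
    rw [h3]
    push_cast
    rw [ZMod.natCast_zmod_val]
    have : ((2 : ZMod (2 * N)) * (N : ZMod (2 * N))) = 0 := by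
      have := ZMod.natCast_self (2 * N)
      push_cast at this
      exact this
    rw [this]
    ring
  · intro h
    have h2 : i ≡ j.val [MOD (2 * N)] := by
      rw [← ZMod.natCast_eq_natCast_iff, ZMod.natCast_zmod_val, h]
    have hle : j.val ≤ i + (Fintype.card F - 1) * j.val := by
      have : 1 * j.val ≤ (Fintype.card F - 1) * j.val := Nat.mul_le_mul_right _ (by omega)
      omega
    have h3 : j.val ≡ i + (Fintype.card F - 1) * j.val [MOD (2 * N)] := by
      have : (Fintype.card F - 1) * j.val ≡ 0 [MOD (2 * N)] :=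
        (Nat.modEq_zero_iff_dvd).mpr (Dvd.dvd.mul_right hd _)
      calc j.val ≡ i [MOD (2 * N)] := h2.symm
        _ ≡ i + 0 [MOD (2 * N)] := by simp; rfl
        _ ≡ _ [MOD (2 * N)] := Nat.ModEq.add_left _ this.symm
    obtain ⟨k, hk⟩ := (Nat.modEq_iff_dvd' hle).mp h3
    refine ⟨k, ?_⟩
    rw [← pow_mul, ← pow_add]
    have h4 : j.val + 2 * N * k = i + (Fintype.card F - 1) * j.val := by
      rw [← hk]; omega
    rw [h4, pow_add, pow_mul, hω.pow_eq_one]
    simp

theorem mem_DD_iff (Q : Subgroup (ZMod (2 * N))ˣ) {F : Type} [Field F] [Fintype F] {ω : F}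
    (hω : IsPrimitiveRoot ω (Fintype.card F - 1)) (hd : 2 * N ∣ Fintype.card F - 1)
    (i : ℕ) (c : ZMod (2 * N)) :
    ω ^ i ∈ DD N Q ω c ↔ ((i : ℕ) : ZMod (2 * N)) ∈ insert c (idx N Q) := by
  unfold DD
  simp only [Set.mem_iUnion, mem_cls_iff hω hd, exists_prop]
  constructor
  · rintro ⟨j, hj, h⟩; rw [h]; exact hj
  · intro h; exact ⟨_, h, rfl⟩

/-- reduction modulo `N` -/
abbrev red (N : ℕ) : ZMod (2 * N) →+* ZMod N := ZMod.castHom (Dvd.intro_left 2 rfl) (ZMod N)

theorem red_nat (i : ℕ) : red N ((i : ℕ) : ZMod (2 * N)) = (i : ZMod N) := map_natCast _ _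

theorem nat_eq_iff (hN : N ≠ 2) (i j : ℕ) : ((i : ℕ) : ZMod (2 * N)) = ((j : ℕ) : ZMod (2 * N)) ↔
    ((i : ZMod N) = (j : ZMod N) ∧ (Even i ↔ Even j)) := by
  have hodd := odd_of_ne_two hN
  rw [ZMod.natCast_eq_natCast_iff, ZMod.natCast_eq_natCast_iff]
  have hc : Nat.Coprime 2 N := by
    rw [Nat.coprime_two_left]; exact hodd
  rw [← Nat.modEq_and_modEq_iff_modEq_mul hc]
  have : i ≡ j [MOD 2] ↔ (Even i ↔ Even j) := by
    rw [Nat.even_iff, Nat.even_iff]; unfold Nat.ModEq; omega
  rw [this]; tauto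

theorem chi_sq_cases {r : ZMod N} (hr : r ≠ 0) :
    quadraticChar (ZMod N) r = 1 ∨ quadraticChar (ZMod N) r = -1 := quadraticChar_dichotomy hr

/-- lift: each nonzero residue mod `N` is the reduction of a unit -/
theorem exists_unit (hN : N ≠ 2) {r : ZMod N} (hr : r ≠ 0) :
    ∃ u : (ZMod (2 * N))ˣ, red N (u : ZMod (2 * N)) = r ∧
      ∃ k : ℕ, Odd k ∧ ((k : ℕ) : ZMod (2 * N)) = (u : ZMod (2 * N)) := by
  have hodd := odd_of_ne_two hN
  have hN0 : 0 < N := hNp.out.pos
  have : NeZero N := ⟨hN0.ne'⟩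
  obtain ⟨k, hk, hkr⟩ : ∃ k : ℕ, Odd k ∧ (k : ZMod N) = r := by
    rcases Nat.even_or_odd r.val with h | h
    · exact ⟨r.val + N, h.add_odd hodd, by simp⟩
    · exact ⟨r.val, h, by simp⟩
  have hcop : Nat.Coprime k (2 * N) := by
    apply Nat.Coprime.mul_right
    · rw [Nat.coprime_two_right]; exact hk
    · rw [Nat.coprime_comm]
      apply (Nat.Prime.coprime_iff_not_dvd hNp.out).mpr
      intro h
      apply hr
      rw [← hkr]
      exact (ZMod.natCast_eq_zero_iff _ _).mpr h
  refine ⟨ZMod.unitOfCoprime k hcop, ?_, k, hk, ?_⟩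
  · rw [ZMod.coe_unitOfCoprime, red_nat, hkr]
  · rw [ZMod.coe_unitOfCoprime]

theorem red_unit_ne_zero (u : (ZMod (2 * N))ˣ) : red N (u : ZMod (2 * N)) ≠ 0 :=
  (u.isUnit.map (red N)).ne_zero

theorem exists_odd_rep (_hN : N ≠ 2) (u : (ZMod (2 * N))ˣ) :
    ∃ k : ℕ, Odd k ∧ ((k : ℕ) : ZMod (2 * N)) = (u : ZMod (2 * N)) := by
  have hN0 : 0 < 2 * N := by have := hNp.out.pos; omega
  have : NeZero (2 * N) := ⟨hN0.ne'⟩
  have h := ZMod.val_coe_unit_coprime u
  refine ⟨(u : ZMod (2 * N)).val, ?_, ZMod.natCast_zmod_val _⟩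
  have := Nat.Coprime.coprime_mul_right_right h
  rwa [Nat.coprime_two_right] at this

theorem unit_ext (hN : N ≠ 2) {u v : (ZMod (2 * N))ˣ}
    (h : red N (u : ZMod (2 * N)) = red N (v : ZMod (2 * N))) : u = v := by
  obtain ⟨k, hk, hk'⟩ := exists_odd_rep hN u
  obtain ⟨l, hl, hl'⟩ := exists_odd_rep hN v
  apply Units.ext
  rw [← hk', ← hl', nat_eq_iff hN]
  rw [← hk', ← hl', red_nat, red_nat] at h
  refine ⟨h, ?_⟩
  rw [← Nat.not_odd_iff_even, ← Nat.not_odd_iff_even]
  tauto

theorem mem_Q_of_chi (hN : N ≠ 2) (Q : Subgroup (ZMod (2 * N))ˣ) (hQ : Q.index = 2)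
    {u : (ZMod (2 * N))ˣ} (h : quadraticChar (ZMod N) (red N (u : ZMod (2 * N))) = 1) : u ∈ Q := by
  rw [quadraticChar_one_iff_isSquare (red_unit_ne_zero u)] at h
  obtain ⟨r, hr⟩ := h
  have hr0 : r ≠ 0 := by
    rintro rfl
    exact red_unit_ne_zero u (by simpa using hr)
  obtain ⟨v, hv, -⟩ := exists_unit hN hr0
  have : u = v ^ 2 := by
    apply unit_ext hN
    rw [hr, Units.val_pow_eq_pow_val, map_pow, hv, pow_two]
  rw [this]
  exact Subgroup.sq_mem_of_index_two hQ v

theorem mem_Q_iff (hN : N ≠ 2) (Q : Subgroup (ZMod (2 * N))ˣ) (hQ : Q.index = 2)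
    (u : (ZMod (2 * N))ˣ) :
    u ∈ Q ↔ quadraticChar (ZMod N) (red N (u : ZMod (2 * N))) = 1 := by
  refine ⟨fun hu => ?_, mem_Q_of_chi hN Q hQ⟩
  by_contra hne
  have h1 : quadraticChar (ZMod N) (red N (u : ZMod (2 * N))) = -1 :=
    (chi_sq_cases (red_unit_ne_zero u)).resolve_left hne
  have hex : ∃ t, t ∉ Q := by
    by_contra hall
    push Not at hall
    have : Q = ⊤ := by ext; simp [hall]
    rw [this, Subgroup.index_top] at hQ
    omega
  obtain ⟨t, ht⟩ := hex
  have h2 : quadraticChar (ZMod N) (red N (t : ZMod (2 * N))) = -1 := by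
    refine (chi_sq_cases (red_unit_ne_zero t)).resolve_left fun h => ht ?_
    exact mem_Q_of_chi hN Q hQ h
  have h3 : u * t ∈ Q := by
    apply mem_Q_of_chi hN Q hQ
    rw [Units.val_mul, map_mul, map_mul, h1, h2]; norm_num
  exact ht ((Subgroup.mul_mem_cancel_left Q hu).mp h3)

theorem two_ne_zero' (hN : N ≠ 2) : (2 : ZMod N) ≠ 0 := by
  have hodd := odd_of_ne_two hN
  intro h
  have : ((2 : ℕ) : ZMod N) = 0 := by exact_mod_cast h
  rw [ZMod.natCast_eq_zero_iff] at this
  have h2 := Nat.le_of_dvd (by norm_num) this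
  have := hNp.out.two_le
  omega

theorem mem_idx_iff (hN : N ≠ 2) (Q : Subgroup (ZMod (2 * N))ˣ) (hQ : Q.index = 2) (i : ℕ) :
    ((i : ℕ) : ZMod (2 * N)) ∈ idx N Q ↔ (i : ZMod N) ≠ 0 ∧
      ((Even i ∧ quadraticChar (ZMod N) 2 * quadraticChar (ZMod N) (i : ZMod N) = 1) ∨
       (¬ Even i ∧ quadraticChar (ZMod N) (i : ZMod N) = 1)) := by
  have h20 := two_ne_zero' hN
  have h22 : quadraticChar (ZMod N) 2 * quadraticChar (ZMod N) 2 = 1 := by
    rw [← pow_two]; exact quadraticChar_sq_one h20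
  constructor
  · rintro (⟨u, hu, h⟩ | ⟨u, hu, h⟩)
    · obtain ⟨k, hk, hk'⟩ := exists_odd_rep hN u
      have h' := h
      rw [← hk', nat_eq_iff hN] at h'
      have hr : (i : ZMod N) = red N (u : ZMod (2 * N)) := by rw [← h, red_nat]
      rw [hr]
      refine ⟨red_unit_ne_zero u, Or.inr ⟨?_, (mem_Q_iff hN Q hQ u).mp hu⟩⟩
      rw [h'.2, Nat.not_even_iff_odd]; exact hk
    · obtain ⟨k, hk, hk'⟩ := exists_odd_rep hN u
      have h' : ((i : ℕ) : ZMod (2 * N)) = ((2 * k : ℕ) : ZMod (2 * N)) := by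
        rw [h, ← hk']; push_cast; ring
      rw [nat_eq_iff hN] at h'
      have hr : (i : ZMod N) = 2 * red N (u : ZMod (2 * N)) := by
        rw [← red_nat i, h, map_mul, map_ofNat]
      rw [hr]
      refine ⟨mul_ne_zero h20 (red_unit_ne_zero u), Or.inl ⟨?_, ?_⟩⟩
      · rw [h'.2]; exact even_two_mul k
      · rw [map_mul, ← mul_assoc, h22, one_mul]
        exact (mem_Q_iff hN Q hQ u).mp hu
  · rintro ⟨hi, ⟨he, h⟩ | ⟨ho, h⟩⟩
    · right
      have hr0 : (i : ZMod N) / 2 ≠ 0 := div_ne_zero hi h20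
      obtain ⟨u, hu, k, hk, hk'⟩ := exists_unit hN hr0
      refine ⟨u, ?_, ?_⟩
      · rw [mem_Q_iff hN Q hQ, hu]
        have h5 : quadraticChar (ZMod N) ((i : ZMod N) / 2) * quadraticChar (ZMod N) 2 =
            quadraticChar (ZMod N) (i : ZMod N) := by
          rw [← map_mul, div_mul_cancel₀ _ h20]
        calc quadraticChar (ZMod N) ((i : ZMod N) / 2)
            = quadraticChar (ZMod N) ((i : ZMod N) / 2) *
              (quadraticChar (ZMod N) 2 * quadraticChar (ZMod N) 2) := by rw [h22, mul_one]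
          _ = quadraticChar (ZMod N) 2 * (quadraticChar (ZMod N) ((i : ZMod N) / 2) *
              quadraticChar (ZMod N) 2) := by ring
          _ = 1 := by rw [h5, h]
      · have h6 : ((i : ℕ) : ZMod (2 * N)) = ((2 * k : ℕ) : ZMod (2 * N)) := by
          rw [nat_eq_iff hN]
          constructor
          · push_cast
            have : (k : ZMod N) = (i : ZMod N) / 2 := by rw [← red_nat k, hk', hu]
            rw [this, mul_div_cancel₀ _ h20]
          · simp [he]
        rw [h6, ← hk']; push_cast; ring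
    · left
      obtain ⟨u, hu, k, hk, hk'⟩ := exists_unit hN hi
      refine ⟨u, ?_, ?_⟩
      · rw [mem_Q_iff hN Q hQ, hu, h]
      · rw [← hk', nat_eq_iff hN]
        constructor
        · rw [← red_nat k, hk', hu]
        · rw [← Nat.not_odd_iff_even, ← Nat.not_odd_iff_even]
          rw [Nat.not_even_iff_odd] at ho
          tauto

end aux

theorem gg_pow {N : ℕ} [Fact N.Prime] (hN : N ≠ 2) (Q : Subgroup (ZMod (2 * N))ˣ)
    (hQ : Q.index = 2) {F : Type} [Field F] [Fintype F] {ω : F}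
    (hω : IsPrimitiveRoot ω (Fintype.card F - 1)) (hd : 2 * N ∣ Fintype.card F - 1) {s : ℤ}
    (hs : s = 1 ∨ s = -1) (i : ℕ) :
    gg (DD N Q ω (base N s)) (ω ^ i) = eps N s i := by
  classical
  have hq : 1 < Fintype.card F := Fintype.one_lt_card
  have hω0 : ω ≠ 0 := hω.ne_zero (by omega)
  have hodd := odd_of_ne_two hN
  unfold gg
  rw [if_neg (pow_ne_zero _ hω0)]
  have key := mem_DD_iff Q hω hd i (base N s)
  rw [Set.mem_insert_iff, mem_idx_iff hN Q hQ] at key
  have hbase : ∀ _ : (i : ZMod N) ≠ 0, ((i : ℕ) : ZMod (2 * N)) ≠ base N s := by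
    intro hi h
    apply hi
    rw [← red_nat i, h]
    unfold base
    split_ifs
    · exact map_zero _
    · rw [map_natCast]; exact ZMod.natCast_self N
  by_cases hi : (i : ZMod N) = 0
  · have hb : ((i : ℕ) : ZMod (2 * N)) = base N s ↔ (if s = 1 then Even i else ¬ Even i) := by
      unfold base
      split_ifs with h1
      · rw [show (0 : ZMod (2 * N)) = ((0 : ℕ) : ZMod (2 * N)) by simp, nat_eq_iff hN]
        simp [hi]
      · rw [nat_eq_iff hN]
        have : ¬ Even N := by rw [Nat.not_even_iff_odd]; exact hodd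
        simp [hi, this]
    unfold eps
    rw [if_pos hi]
    have hk2 : ω ^ i ∈ DD N Q ω (base N s) ↔ (if s = 1 then Even i else ¬ Even i) := by
      rw [key, hb]
      constructor
      · rintro (h | ⟨h, -⟩)
        · exact h
        · exact absurd hi h
      · exact fun h => Or.inl h
    by_cases he : Even i
    · rcases hs with rfl | rfl
      · rw [if_pos (hk2.mpr (by simpa using he)), he.neg_one_pow]; norm_num
      · rw [if_neg (fun h => by
          have := hk2.mp h
          simp [he] at this), he.neg_one_pow]; norm_num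
    · have ho : Odd i := Nat.not_even_iff_odd.mp he
      rcases hs with rfl | rfl
      · rw [if_neg (fun h => by
          have := hk2.mp h
          simp [he] at this), ho.neg_one_pow]; norm_num
      · rw [if_pos (hk2.mpr (by simp [he])), ho.neg_one_pow]; norm_num
  · have hk2 : ω ^ i ∈ DD N Q ω (base N s) ↔
        ((Even i ∧ quadraticChar (ZMod N) 2 * quadraticChar (ZMod N) (i : ZMod N) = 1) ∨
       (¬ Even i ∧ quadraticChar (ZMod N) (i : ZMod N) = 1)) := by
      rw [key]
      constructor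
      · rintro (h | ⟨-, h⟩)
        · exact absurd h (hbase hi)
        · exact h
      · exact fun h => Or.inr ⟨hi, h⟩
    have h20 := two_ne_zero' hN
    unfold eps
    rw [if_neg hi]
    by_cases he : Even i
    · rw [if_pos he]
      have hc : quadraticChar (ZMod N) 2 * quadraticChar (ZMod N) (i : ZMod N) = 1 ∨
          quadraticChar (ZMod N) 2 * quadraticChar (ZMod N) (i : ZMod N) = -1 := by
        rw [← map_mul]
        exact quadraticChar_dichotomy (mul_ne_zero h20 hi)
      rcases hc with h | h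
      · rw [if_pos (hk2.mpr (Or.inl ⟨he, h⟩)), h]
      · rw [if_neg (fun h' => by
          rcases hk2.mp h' with ⟨-, h''⟩ | ⟨h'', -⟩
          · rw [h] at h''; norm_num at h''
          · exact h'' he), h]
    · rw [if_neg he]
      rcases quadraticChar_dichotomy hi with h | h
      · rw [if_pos (hk2.mpr (Or.inr ⟨he, h⟩)), h]
      · rw [if_neg (fun h' => by
          rcases hk2.mp h' with ⟨h'', -⟩ | ⟨-, h''⟩
          · exact he h''
          · rw [h] at h''; norm_num at h''), h]

theorem zero_notMem_DD {N : ℕ} [Fact N.Prime] (Q : Subgroup (ZMod (2 * N))ˣ)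
    {F : Type} [Field F] [Fintype F] {ω : F} (hω : ω ≠ 0) (c : ZMod (2 * N)) :
    (0 : F) ∉ DD N Q ω c := by
  unfold DD
  simp only [Set.mem_iUnion, exists_prop, not_exists, not_and]
  rintro j - ⟨k, hk⟩
  exact (mul_ne_zero (pow_ne_zero _ hω) (pow_ne_zero _ (pow_ne_zero _ hω))) hk.symm

theorem eps_sum_two {N : ℕ} [Fact N.Prime] (hN : N ≠ 2) (s : ℤ) :
    ∑ i ∈ range (2 * N), eps N s i = 0 := by
  have hodd := odd_of_ne_two hN
  have hNp : N.Prime := Fact.out
  have hN0 : 0 < N := hNp.pos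
  have : NeZero N := ⟨hN0.ne'⟩
  have h20 := two_ne_zero' (N := N) hN
  have hchar : ringChar (ZMod N) ≠ 2 := by rw [ZMod.ringChar_zmod_n]; exact hN
  have hsum : ∑ r : ZMod N, quadraticChar (ZMod N) r = 0 := quadraticChar_sum_zero hchar
  have hz : ∑ j ∈ range N, quadraticChar (ZMod N) (j : ZMod N) = 0 := by
    rw [← hsum]
    apply Finset.sum_bij' (fun (j : ℕ) _ => (j : ZMod N)) (fun r _ => r.val)
    · intro a _; exact mem_univ _
    · intro a _; exact mem_range.mpr (ZMod.val_lt a)
    · intro a ha; exact ZMod.val_cast_of_lt (mem_range.mp ha)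
    · intro a _; exact ZMod.natCast_zmod_val a
    · intro a _; rfl
  have hsplit : ∀ i, eps N s i = (if (i : ZMod N) = 0 then s * (-1) ^ i else 0) +
      (if Even i then quadraticChar (ZMod N) 2 * quadraticChar (ZMod N) (i : ZMod N)
        else quadraticChar (ZMod N) (i : ZMod N)) := by
    intro i
    unfold eps
    by_cases hi : (i : ZMod N) = 0
    · simp [hi]
    · simp [hi]
  simp_rw [hsplit]
  rw [sum_add_distrib]
  have h1 : ∑ i ∈ range (2 * N), (if (i : ZMod N) = 0 then s * (-1) ^ i else 0) = 0 := by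
    rw [← sum_filter]
    have : (range (2 * N)).filter (fun i : ℕ => (i : ZMod N) = 0) = {0, N} := by
      ext i
      simp only [mem_filter, mem_range, mem_insert, mem_singleton, ZMod.natCast_eq_zero_iff]
      constructor
      · rintro ⟨h, k, rfl⟩
        have : k < 2 := by
          by_contra hk
          have : N * 2 ≤ N * k := Nat.mul_le_mul_left _ (by omega)
          omega
        interval_cases k
        · left; simp
        · right; simp
      · rintro (rfl | rfl)
        · exact ⟨by omega, dvd_zero _⟩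
        · exact ⟨by omega, dvd_rfl⟩
    rw [this, sum_pair hN0.ne, hodd.neg_one_pow]
    ring
  rw [h1, zero_add]
  have h2 : ∀ (f : ℕ → ℤ) (n : ℕ), ∑ i ∈ range (2 * n), f i =
      ∑ j ∈ range n, f (2 * j) + ∑ j ∈ range n, f (2 * j + 1) := by
    intro f n
    induction n with
    | zero => simp
    | succ n ih =>
      rw [show 2 * (n + 1) = 2 * n + 1 + 1 by ring, sum_range_succ, sum_range_succ, ih,
        sum_range_succ, sum_range_succ]
      ring
  rw [h2]
  have h3 : ∑ j ∈ range N, (if Even (2 * j) then quadraticChar (ZMod N) 2 *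
      quadraticChar (ZMod N) ((2 * j : ℕ) : ZMod N)
        else quadraticChar (ZMod N) ((2 * j : ℕ) : ZMod N)) = 0 := by
    rw [← hz]
    apply sum_congr rfl
    intro j _
    rw [if_pos (even_two_mul j)]
    push_cast
    rw [map_mul, ← mul_assoc, ← pow_two, quadraticChar_sq_one h20, one_mul]
  have h4 : ∑ j ∈ range N, (if Even (2 * j + 1) then quadraticChar (ZMod N) 2 *
      quadraticChar (ZMod N) ((2 * j + 1 : ℕ) : ZMod N)
        else quadraticChar (ZMod N) ((2 * j + 1 : ℕ) : ZMod N)) = 0 := by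
    rw [← hsum]
    apply Finset.sum_bij' (fun (j : ℕ) _ => 2 * (j : ZMod N) + 1)
      (fun r _ => ((r - 1) / 2 : ZMod N).val)
    · intro a _; exact mem_univ _
    · intro a _; exact mem_range.mpr (ZMod.val_lt _)
    · intro a ha
      have : (2 * (a : ZMod N) + 1 - 1) / 2 = (a : ZMod N) := by
        field_simp; ring
      rw [this]
      exact ZMod.val_cast_of_lt (mem_range.mp ha)
    · intro a _
      rw [ZMod.natCast_zmod_val]
      field_simp; ring
    · intro a _
      rw [if_neg (by simp)]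
      push_cast; rfl
  rw [h3, h4, add_zero]

theorem eps_add {N : ℕ} [Fact N.Prime] (s : ℤ) (i : ℕ) :
    eps N s (i + 2 * N) = eps N s i := by
  have h : ((i + 2 * N : ℕ) : ZMod N) = (i : ZMod N) := by simp
  have he : Even (i + 2 * N) ↔ Even i := by
    rw [Nat.even_add]; simp
  unfold eps
  rw [h]
  have hp : (-1 : ℤ) ^ (i + 2 * N) = (-1) ^ i := by
    rw [pow_add, pow_mul]; simp
  rw [hp]
  simp only [he]

theorem eps_add_mul {N : ℕ} [Fact N.Prime] (s : ℤ) (k x : ℕ) :
    eps N s (2 * N * k + x) = eps N s x := by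
  induction k with
  | zero => simp
  | succ k ih =>
    rw [show 2 * N * (k + 1) + x = 2 * N * k + x + 2 * N by ring, eps_add, ih]

theorem eps_sum {N : ℕ} [Fact N.Prime] (hN : N ≠ 2) (s : ℤ) (k : ℕ) :
    ∑ i ∈ range (2 * N * k), eps N s i = 0 := by
  induction k with
  | zero => simp
  | succ k ih =>
    rw [show 2 * N * (k + 1) = 2 * N * k + 2 * N by ring, sum_range_add, ih, zero_add]
    simp_rw [eps_add_mul]
    exact eps_sum_two hN s

theorem ncard_DD {N : ℕ} [Fact N.Prime] (hN : N ≠ 2) (Q : Subgroup (ZMod (2 * N))ˣ)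
    (hQ : Q.index = 2) {F : Type} [Field F] [Fintype F] {ω : F}
    (hω : IsPrimitiveRoot ω (Fintype.card F - 1)) (hd : 2 * N ∣ Fintype.card F - 1) {s : ℤ}
    (hs : s = 1 ∨ s = -1) : 2 * (DD N Q ω (base N s)).ncard + 1 = Fintype.card F := by
  classical
  have hq : 1 < Fintype.card F := Fintype.one_lt_card
  have hω0 : ω ≠ 0 := hω.ne_zero (by omega)
  set D := DD N Q ω (base N s) with hD
  have h0D : (0 : F) ∉ D := zero_notMem_DD Q hω0 _
  have himg : (range (Fintype.card F - 1)).image (fun i => ω ^ i) =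
      (univ : Finset F).erase 0 := by
    apply eq_of_subset_of_card_le
    · intro x hx
      obtain ⟨i, -, rfl⟩ := mem_image.mp hx
      exact mem_erase.mpr ⟨pow_ne_zero _ hω0, mem_univ _⟩
    · rw [card_erase_of_mem (mem_univ _), card_univ, card_image_of_injOn, card_range]
      intro i hi j hj hij
      simp only [coe_range, Set.mem_Iio] at hi hj
      exact hω.pow_inj hi hj hij
  have hinj : Set.InjOn (fun i => ω ^ i) (range (Fintype.card F - 1) : Set ℕ) := by
    intro i hi j hj hij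
    simp only [coe_range, Set.mem_Iio] at hi hj
    exact hω.pow_inj hi hj hij
  have hsum : ∑ x ∈ (univ : Finset F).erase 0, gg D x = 0 := by
    rw [← himg, sum_image hinj]
    obtain ⟨k, hk⟩ := hd
    rw [hk]
    rw [← eps_sum hN s k]
    apply sum_congr rfl
    intro i _
    exact gg_pow hN Q hQ hω ⟨k, hk⟩ hs i
  have hval : ∀ x ∈ (univ : Finset F).erase 0, gg D x = 2 * (if x ∈ D then 1 else 0) - 1 := by
    intro x hx
    unfold gg
    rw [if_neg (mem_erase.mp hx).1]
    split_ifs <;> norm_num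
  rw [sum_congr rfl hval, sum_sub_distrib, ← mul_sum, sum_boole] at hsum
  have hcard : (((univ : Finset F).erase 0).filter (fun x => x ∈ D)).card = D.ncard := by
    rw [← Set.ncard_coe_finset]
    congr 1
    ext x
    simp only [coe_filter, mem_erase, mem_univ, and_true, Set.mem_setOf_eq]
    constructor
    · exact fun h => h.2
    · exact fun h => ⟨fun h0 => h0D (h0 ▸ h), h⟩
  rw [hcard, sum_const, card_erase_of_mem (mem_univ _), card_univ, nsmul_eq_mul, mul_one] at hsum
  omega

end Pool.Agent.CycU
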