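import Pool.Agent.LibCycU.Defs

/-! # The additive character `x ↦ ζ^{Tr x}` and the quadratic character with values in `Ω` -/

set_option autoImplicit false

open Finset

namespace Pool.Agent.CycU

/-- `ψ(x) = ζ^{Tr x}` -/
noncomputable def psi {p : ℕ} [Fact p.Prime] {Ω : Type} [Field Ω] {ζ : Ω} (hζ : ζ ^ p = 1)
    (F : Type) [Field F] [Fintype F] [Algebra (ZMod p) F] : AddChar F Ω :=
  (AddChar.zmodChar p hζ).compAddMonoidHom (Algebra.trace (ZMod p) F).toAddMonoidHom

theorem psi_apply {p : ℕ} [Fact p.Prime] {Ω : Type} [Field Ω] {ζ : Ω} (hζ : ζ ^ p = 1)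
    {F : Type} [Field F] [Fintype F] [Algebra (ZMod p) F] (x : F) :
    psi hζ F x = ζ ^ (Algebra.trace (ZMod p) F x).val := by
  simp [psi, AddChar.zmodChar_apply]

/-- the quadratic character of `F` with values in `Ω` -/
noncomputable def rho (F Ω : Type) [Field F] [Fintype F] [DecidableEq F] [Field Ω] :
    MulChar F Ω := (quadraticChar F).ringHomComp (Int.castRingHom Ω)

theorem rho_apply {F Ω : Type} [Field F] [Fintype F] [DecidableEq F] [Field Ω] (x : F) :
    rho F Ω x = (quadraticChar F x : Ω) := rfl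

end Pool.Agent.CycU
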