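import Mathlib

/-!
# Cyclotomic unions of order `2 p₁`: definitions

`N` is the prime `p₁` of the problem.
-/

set_option autoImplicit false

open Finset

namespace Pool.Agent.CycU

/-- The cyclotomic class `C_j` of order `2N` with respect to `ω`. -/
def cls (N : ℕ) {F : Type} [Field F] (ω : F) (j : ZMod (2 * N)) : Set F :=
  {x | ∃ k : ℕ, x = ω ^ j.val * (ω ^ (2 * N)) ^ k}

/-- The index set `Q ∪ 2Q`. -/
def idx (N : ℕ) (Q : Subgroup (ZMod (2 * N))ˣ) : Set (ZMod (2 * N)) :=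
  {j | ∃ u ∈ Q, j = ((u : (ZMod (2 * N))ˣ) : ZMod (2 * N))} ∪
  {j | ∃ u ∈ Q, j = 2 * ((u : (ZMod (2 * N))ˣ) : ZMod (2 * N))}

/-- The union of the classes with index in `{c} ∪ Q ∪ 2Q`; `D₀` is `DD N Q ω 0` and `D₁` is
`DD N Q ω N`. -/
def DD (N : ℕ) (Q : Subgroup (ZMod (2 * N))ˣ) {F : Type} [Field F] (ω : F) (c : ZMod (2 * N)) :
    Set F := ⋃ j ∈ insert c (idx N Q), cls N ω j

/-- The number of pairs `(d, d')` in `D × D` with `d - d' = x`. -/
noncomputable def diffCount {F : Type} [Field F] (D : Set F) (x : F) : ℕ :=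
  Set.ncard {z : F × F | z.1 ∈ D ∧ z.2 ∈ D ∧ z.1 - z.2 = x}

/-- Skew Hadamard difference set in `(F, +)`. -/
def SkewHadamard {F : Type} [Field F] [Fintype F] (D : Set F) : Prop :=
  2 * D.ncard + 1 = Fintype.card F ∧ D ∩ (-D) = ∅ ∧ D ∪ (-D) = {x | x ≠ 0} ∧
    ∀ x : F, x ≠ 0 → 4 * diffCount D x + 3 = Fintype.card F

/-- Paley type partial difference set in `(F, +)`. -/
def PaleyType {F : Type} [Field F] [Fintype F] (D : Set F) : Prop :=
  2 * D.ncard + 1 = Fintype.card F ∧ -D = D ∧ (0 : F) ∉ D ∧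
    ∀ x : F, x ≠ 0 → (x ∈ D → 4 * diffCount D x + 5 = Fintype.card F) ∧
      (x ∉ D → 4 * diffCount D x + 1 = Fintype.card F)

/-- Admissible sets. -/
def Admissible {F : Type} [Field F] [Fintype F] (D : Set F) : Prop :=
  SkewHadamard D ∨ PaleyType D

/-- `W p N f s` is the sum of the least absolute residues modulo `N` of `s, ps, …, p^(f-1) s`. -/
def W (p N f : ℕ) (s : ZMod N) : ℤ := ∑ i ∈ range f, ((p : ZMod N) ^ i * s).valMinAbs

/-- `L p N f s` is the sum of the residues in `[0, N-1]` of `s, ps, …, p^(f-1) s`. -/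
def L (p N f : ℕ) (s : ZMod N) : ℕ := ∑ i ∈ range f, ((p : ZMod N) ^ i * s).val

end Pool.Agent.CycU
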