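import Pool.Agent.LibCycU.C

/-!
TASK E (you may use A.lean and C.lean, their sorries are other tasks; base N 1 = 0) (the case of even `f`).

Paper proof. `q = p^f = r^2`, `r = p^(f/2)`. As `f` is the order of `p` mod the prime `N`,
`r ≡ -1 mod N`, so `2N ∣ r + 1`. Let `K = {x : F | x^r = x}` (closed under addition,
multiplication; `#K = r`); the nonzero elements of `K` are the powers of `ω^(r+1)`, so they lie in
`⟨ω^(2N)⟩`. Let `g x = 0, 1, -1` according to `x = 0`, `x ∈ D`, `x ∉ D` (`D = DD N Q ω 0`); then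
`g (x z) = g x` for `z ∈ K \ {0}`, `g (-x) = g x` (`-1 ∈ K`), `∑ g = 0` (`N` of the `2N` classes
are in `D`: the index set is `{0} ∪ Q ∪ 2Q`, with `N` elements, `Q` = units that are squares).
For a nontrivial additive character `ψ` of `F` (values in `ℂ`, or any field of char 0) and `a ≠ 0`:
`(r-1) ĝ(a) = ∑_y g(y) ∑_{z ∈ K\0} ψ(a y z) = r ∑_{y ∈ T_a} g(y) - ∑_y g(y)`, where
`T_a = {y | ψ(a y z) = 1 ∀ z ∈ K}`. `#T_a = r` (count `∑_y ∑_{z ∈ K} ψ(ayz) = q = r #T_a`), and
`T_a` is stable under `K \ 0`, so `T_a \ 0 = y₀ (K \ 0)` and `ĝ(a) = r g(y₀) = ± r`.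
So `ĝ(a) ĝ(-a) = ĝ(a)² = q` for all `a ≠ 0` and by Fourier inversion
`∑_y g(y) g(y+x) = -1` for all `x ≠ 0`; expanding `g = 2·1_D - 1 + δ₀` gives the counts.
-/

set_option autoImplicit false

open Finset

namespace Pool.Agent.CycU

theorem E_dvd {p N f : ℕ} [Fact p.Prime] [Fact N.Prime] (hp : p ≠ 2) (hN : N ≠ 2)
    (hf : f = orderOf (p : ZMod N)) (hf0 : f ≠ 0) (hfe : Even f) : 2 * N ∣ p ^ (f / 2) + 1 := by
  have hpp : p.Prime := Fact.out
  have hNp : N.Prime := Fact.out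
  obtain ⟨h, hh⟩ := hfe
  have hfh : f / 2 = h := by omega
  rw [hfh]
  have hh0 : 0 < h := by omega
  have h1 : ((p : ZMod N) ^ h) ^ 2 = 1 := by
    rw [← pow_mul, show h * 2 = f by omega, hf, pow_orderOf_eq_one]
  have h2 : (p : ZMod N) ^ h ≠ 1 := pow_ne_one_of_lt_orderOf hh0.ne' (by rw [← hf]; omega)
  have h3 : (p : ZMod N) ^ h = -1 := by
    rcases sq_eq_one_iff.mp h1 with h | h
    · exact absurd h h2
    · exact h
  have h4 : N ∣ p ^ h + 1 := by
    rw [← ZMod.natCast_eq_zero_iff]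
    push_cast
    rw [h3]; ring
  have h5 : 2 ∣ p ^ h + 1 := by
    have : Odd (p ^ h) := (hpp.odd_of_ne_two hp).pow
    exact (this.add_odd odd_one).two_dvd
  exact Nat.Coprime.mul_dvd_of_dvd_of_dvd
    ((Nat.coprime_primes Nat.prime_two hNp).mpr (Ne.symm hN)) h5 h4

theorem E_eps {N : ℕ} [Fact N.Prime] (s : ℤ) (i m : ℕ) (hm : 2 * N ∣ m) :
    eps N s (i + m) = eps N s i := by
  obtain ⟨c, rfl⟩ := hm
  have h1 : ((i + 2 * N * c : ℕ) : ZMod N) = (i : ZMod N) := by
    push_cast; simp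
  have h2 : Even (i + 2 * N * c) ↔ Even i := by
    rw [Nat.even_add]
    have : Even (2 * N * c) := by rw [mul_assoc]; exact even_two_mul _
    simp [this]
  have h3 : (-1 : ℤ) ^ (i + 2 * N * c) = (-1) ^ i := by
    rw [pow_add, mul_assoc, pow_mul]; simp
  unfold eps
  rw [h1, h3]
  by_cases h : Even i
  · simp only [h, h2.mpr h]
  · simp only [h, mt h2.mp h]

/-- the Fourier transform of a function invariant under a multiplicative subgroup of the form
`K \ 0`, `K` an additive subgroup with `r` elements, `#F = r ^ 2` -/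
theorem E_fourier {F : Type} [Field F] [Fintype F] [DecidableEq F] {r : ℕ} (hr : 2 ≤ r)
    (hq : Fintype.card F = r ^ 2) (K : Finset F) (hK : K.card = r) (hK0 : (0 : F) ∈ K)
    (hadd : ∀ x ∈ K, ∀ y ∈ K, x + y ∈ K) (hneg : ∀ x ∈ K, -x ∈ K)
    (hmul : ∀ x ∈ K, ∀ y ∈ K, x * y ∈ K)
    (g : F → ℤ) (hg0 : g 0 = 0) (hgK : ∀ x, ∀ z ∈ K, z ≠ 0 → g (x * z) = g x)
    (hgs : ∑ x, g x = 0) {ψ : AddChar F ℂ} (hψ : ψ.IsPrimitive) {a : F} (ha : a ≠ 0) :
    ∃ y₀ : F, y₀ ≠ 0 ∧ ∑ y, (g y : ℂ) * ψ (a * y) = r * g y₀ := by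
  classical
  have hr0 : (r : ℂ) ≠ 0 := by exact_mod_cast (by omega : r ≠ 0)
  -- character sums over K
  have hS : ∀ b : F, ∑ z ∈ K, ψ (b * z) = if (∀ z ∈ K, ψ (b * z) = 1) then (r : ℂ) else 0 := by
    intro b
    split_ifs with h
    · rw [Finset.sum_congr rfl h]; simp [hK]
    · push Not at h
      obtain ⟨z₀, hz₀, h1⟩ := h
      have h2 : ∑ z ∈ K, ψ (b * z) = ∑ z ∈ K, ψ (b * (z + z₀)) := by
        symm
        refine Finset.sum_bij' (fun z _ => z + z₀) (fun z _ => z + -z₀) ?_ ?_ ?_ ?_ ?_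
        · intro z hz; exact hadd _ hz _ hz₀
        · intro z hz; exact hadd _ hz _ (hneg _ hz₀)
        · intro z _; ring
        · intro z _; ring
        · intro z _; rfl
      have h3 : ∑ z ∈ K, ψ (b * (z + z₀)) = (∑ z ∈ K, ψ (b * z)) * ψ (b * z₀) := by
        rw [Finset.sum_mul]
        apply Finset.sum_congr rfl
        intro z _
        rw [mul_add, AddChar.map_add_eq_mul]
      rw [h3] at h2
      have h4 : (∑ z ∈ K, ψ (b * z)) * (1 - ψ (b * z₀)) = 0 := by
        rw [mul_sub, mul_one, ← h2, sub_self]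
      rcases mul_eq_zero.mp h4 with h | h
      · exact h
      · exact absurd (sub_eq_zero.mp h).symm h1
  set T : Finset F := univ.filter fun y => ∀ z ∈ K, ψ (a * y * z) = 1 with hT
  have hTc : T.card = r := by
    have h1 : ∑ y : F, ∑ z ∈ K, ψ (a * y * z) = (r : ℂ) * T.card := by
      have : ∀ y : F, ∑ z ∈ K, ψ (a * y * z) = if y ∈ T then (r : ℂ) else 0 := by
        intro y
        rw [hS (a * y)]
        simp only [hT, mem_filter, mem_univ, true_and]
      rw [Finset.sum_congr rfl (fun y _ => this y)]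
      rw [Finset.sum_ite_mem]
      simp [mul_comm]
    have h2 : ∑ y : F, ∑ z ∈ K, ψ (a * y * z) = (r : ℂ) ^ 2 := by
      rw [Finset.sum_comm]
      have : ∀ z ∈ K, ∑ y : F, ψ (a * y * z) = if z = 0 then (r : ℂ) ^ 2 else 0 := by
        intro z _
        have h3 : ∑ y : F, ψ (a * y * z) = ∑ y : F, ψ (y * (a * z)) := by
          apply Finset.sum_congr rfl; intro y _; congr 1; ring
        rw [h3, AddChar.sum_mulShift _ hψ]
        by_cases hz : z = 0
        · simp [hz, hq]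
        · simp [hz, ha]
      rw [Finset.sum_congr rfl this, Finset.sum_ite_eq' K 0, if_pos hK0]
    rw [h1, pow_two] at h2
    exact_mod_cast mul_left_cancel₀ hr0 h2
  have hT0 : (0 : F) ∈ T := by simp [hT]
  obtain ⟨y₀, hy₀T, hy₀⟩ : ∃ y ∈ T, y ≠ 0 := by
    by_contra hcon
    push Not at hcon
    have : T ⊆ {0} := fun y hy => Finset.mem_singleton.mpr (hcon y hy)
    have := Finset.card_le_card this
    rw [hTc, Finset.card_singleton] at this
    omega
  have hTK : T = K.image fun z => y₀ * z := by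
    symm
    apply Finset.eq_of_subset_of_card_le
    · intro y hy
      rw [Finset.mem_image] at hy
      obtain ⟨z, hz, rfl⟩ := hy
      rw [hT, Finset.mem_filter] at hy₀T ⊢
      refine ⟨mem_univ _, fun w hw => ?_⟩
      have := hy₀T.2 (z * w) (hmul _ hz _ hw)
      rwa [show a * (y₀ * z) * w = a * y₀ * (z * w) by ring]
    · rw [hTc, Finset.card_image_of_injective _ (mul_right_injective₀ hy₀), hK]
  refine ⟨y₀, hy₀, ?_⟩
  have hTs : ∑ y ∈ T, (g y : ℂ) = ((r : ℂ) - 1) * g y₀ := by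
    rw [hTK, Finset.sum_image (fun x _ y _ h => mul_right_injective₀ hy₀ h),
      ← Finset.add_sum_erase K _ hK0]
    simp only [mul_zero, hg0, Int.cast_zero, zero_add]
    have : ∀ z ∈ K.erase 0, ((g (y₀ * z) : ℤ) : ℂ) = g y₀ := by
      intro z hz
      rw [Finset.mem_erase] at hz
      rw [hgK _ _ hz.2 hz.1]
    rw [Finset.sum_congr rfl this, Finset.sum_const, Finset.card_erase_of_mem hK0, hK,
      nsmul_eq_mul, Nat.cast_sub (by omega : 1 ≤ r), Nat.cast_one]
  have hmain : ((r : ℂ) - 1) * ∑ y, (g y : ℂ) * ψ (a * y) = r * (((r : ℂ) - 1) * g y₀) := by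
    have h1 : ∀ z ∈ K.erase 0, ∑ y, (g y : ℂ) * ψ (a * y * z) = ∑ y, (g y : ℂ) * ψ (a * y) := by
      intro z hz
      rw [Finset.mem_erase] at hz
      have h2 := Fintype.sum_equiv (Equiv.mulRight₀ z hz.1)
        (fun y => (g y : ℂ) * ψ (a * y * z)) (fun y => (g y : ℂ) * ψ (a * y)) (by
          intro y
          simp only [Equiv.mulRight₀_apply]
          rw [hgK _ _ hz.2 hz.1, mul_assoc a y z])
      exact h2
    have h3 : ∑ z ∈ K.erase 0, ∑ y, (g y : ℂ) * ψ (a * y * z)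
        = ((r : ℂ) - 1) * ∑ y, (g y : ℂ) * ψ (a * y) := by
      rw [Finset.sum_congr rfl h1, Finset.sum_const, Finset.card_erase_of_mem hK0, hK,
        nsmul_eq_mul, Nat.cast_sub (by omega : 1 ≤ r), Nat.cast_one]
    rw [← h3, Finset.sum_comm]
    have h4 : ∀ y : F, ∑ z ∈ K.erase 0, (g y : ℂ) * ψ (a * y * z)
        = (r : ℂ) * (if y ∈ T then (g y : ℂ) else 0) - g y := by
      intro y
      rw [← Finset.mul_sum, Finset.sum_erase_eq_sub hK0, hS (a * y)]
      simp only [mul_zero, AddChar.map_zero_eq_one]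
      by_cases hy : y ∈ T
      · rw [if_pos hy, if_pos (by rw [hT, mem_filter] at hy; exact hy.2)]; ring
      · rw [if_neg hy, if_neg (by rw [hT, mem_filter] at hy; simpa using hy)]; ring
    rw [Finset.sum_congr rfl (fun y _ => h4 y), Finset.sum_sub_distrib, ← Finset.mul_sum,
      Finset.sum_ite_mem, Finset.univ_inter, hTs]
    have : ∑ y, (g y : ℂ) = 0 := by exact_mod_cast hgs
    rw [this, sub_zero]
  have hr1 : (r : ℂ) - 1 ≠ 0 := by
    intro h
    have : (r : ℂ) = 1 := by linear_combination h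
    have : r = 1 := by exact_mod_cast this
    omega
  apply mul_left_cancel₀ hr1
  rw [hmain]; ring

theorem even_case {p N f : ℕ} [Fact p.Prime] [Fact N.Prime] (hp : p ≠ 2) (hN : N ≠ 2)
    (hpN : p ≠ N) (hf : f = orderOf (p : ZMod N)) (hfe : Even f)
    {F : Type} [Field F] [Fintype F] (hF : Fintype.card F = p ^ f)
    (Q : Subgroup (ZMod (2 * N))ˣ) (hQ : Q.index = 2) {ω : F}
    (hω : IsPrimitiveRoot ω (p ^ f - 1)) : PaleyType (DD N Q ω 0) := by
  classical
  have hpp : p.Prime := Fact.out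
  have hf0 : f ≠ 0 := by
    rintro h0
    rw [h0, pow_zero] at hF
    have := Fintype.one_lt_card (α := F)
    omega
  have hdv := E_dvd hp hN hf hf0 hfe
  set r : ℕ := p ^ (f / 2) with hr
  have hrr : p ^ f = r ^ 2 := by
    rw [hr, ← pow_mul]; congr 1; obtain ⟨h, hh⟩ := hfe; omega
  have hf2 : f / 2 ≠ 0 := by obtain ⟨h, hh⟩ := hfe; omega
  have hr2 : 2 ≤ r := by
    have : 1 < p ^ (f / 2) := Nat.one_lt_pow hf2 hpp.one_lt
    omega
  have hq : Fintype.card F = r ^ 2 := by rw [hF, hrr]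
  have hfac : Fintype.card F - 1 = (r + 1) * (r - 1) := by
    rw [hq]
    obtain ⟨t, ht⟩ : ∃ t, r = t + 1 := ⟨r - 1, by omega⟩
    rw [ht]
    simp only [Nat.add_sub_cancel]
    rw [show (t + 1) ^ 2 = (t + 1 + 1) * t + 1 by ring, Nat.add_sub_cancel]
  have hω' : IsPrimitiveRoot ω (Fintype.card F - 1) := by rw [hF]; exact hω
  have hd : 2 * N ∣ Fintype.card F - 1 := by rw [hfac]; exact Dvd.dvd.mul_right hdv _
  have hqpos : 0 < Fintype.card F - 1 := by
    have := Fintype.one_lt_card (α := F); omega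
  have hω0 : ω ≠ 0 := hω'.ne_zero hqpos.ne'
  have : NeZero (Fintype.card F - 1) := ⟨hqpos.ne'⟩
  have hbase : base N 1 = 0 := by simp [base]
  set D : Set F := DD N Q ω 0 with hD
  have hgp : ∀ i, gg D (ω ^ i) = eps N 1 i := by
    intro i
    have := gg_pow hN Q hQ hω' hd (s := 1) (Or.inl rfl) i
    rwa [hbase] at this
  have h0 : (0 : F) ∉ D := zero_notMem_DD Q hω0 0
  have hcard : 2 * D.ncard + 1 = Fintype.card F := by
    have := ncard_DD hN Q hQ hω' hd (s := 1) (Or.inl rfl)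
    rwa [hbase] at this
  -- powers
  have hpow : ∀ x : F, x ≠ 0 → ∃ i, x = ω ^ i := by
    intro x hx
    obtain ⟨i, -, hi⟩ := hω'.eq_pow_of_pow_eq_one (FiniteField.pow_card_sub_one_eq_one x hx)
    exact ⟨i, hi.symm⟩
  set K : Finset F := univ.filter fun z => z ^ r = z with hKdef
  have hmemK : ∀ z, z ∈ K ↔ z ^ r = z := by intro z; simp [hKdef]
  have hKω : ∀ z ∈ K, z ≠ 0 → ∃ m, z = ω ^ ((r + 1) * m) := by
    intro z hz hz0
    obtain ⟨i, rfl⟩ := hpow z hz0
    rw [hmemK] at hz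
    have h1 : ω ^ (i * (r - 1)) = 1 := by
      have h2 : ω ^ i * ω ^ (i * (r - 1)) = ω ^ i * 1 := by
        rw [mul_one, ← pow_add]
        have : i + i * (r - 1) = i * r := by
          obtain ⟨t, ht⟩ : ∃ t, r = t + 1 := ⟨r - 1, by omega⟩
          rw [ht]; simp; ring
        rw [this, pow_mul]; exact hz
      exact mul_left_cancel₀ hz0 h2
    rw [hω'.pow_eq_one_iff_dvd, hfac] at h1
    obtain ⟨m, hm⟩ := Nat.dvd_of_mul_dvd_mul_right (by omega : 0 < r - 1) h1
    exact ⟨m, by rw [hm]⟩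
  have hgK : ∀ x, ∀ z ∈ K, z ≠ 0 → gg D (x * z) = gg D x := by
    intro x z hz hz0
    by_cases hx : x = 0
    · rw [hx, zero_mul]
    · obtain ⟨m, rfl⟩ := hKω z hz hz0
      obtain ⟨j, rfl⟩ := hpow x hx
      rw [← pow_add, hgp, hgp]
      exact E_eps 1 j _ (Dvd.dvd.mul_right hdv _)
  have hKimg : K = insert 0 ((range (r - 1)).image fun m => ω ^ ((r + 1) * m)) := by
    ext z
    rw [mem_insert, mem_image]
    constructor
    · intro hz
      by_cases hz0 : z = 0
      · exact Or.inl hz0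
      · right
        obtain ⟨m, hm⟩ := hKω z hz hz0
        refine ⟨m % (r - 1), mem_range.mpr (Nat.mod_lt _ (by omega)), ?_⟩
        rw [hm]
        have h1 : ω ^ ((r + 1) * (r - 1)) = 1 := by rw [← hfac]; exact hω'.pow_eq_one
        have h2 : (r + 1) * m = (r + 1) * (m % (r - 1)) + (r + 1) * (r - 1) * (m / (r - 1)) := by
          conv_lhs => rw [← Nat.mod_add_div m (r - 1)]
          ring
        rw [h2, pow_add, pow_mul ω ((r + 1) * (r - 1)) (m / (r - 1)), h1, one_pow, mul_one]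
    · rintro (rfl | ⟨m, -, rfl⟩)
      · rw [hmemK]; exact zero_pow (by omega)
      · rw [hmemK, ← pow_mul]
        have h1 : ω ^ ((r + 1) * (r - 1)) = 1 := by rw [← hfac]; exact hω'.pow_eq_one
        have : (r + 1) * m * r = (r + 1) * m + (r + 1) * (r - 1) * m := by
          obtain ⟨t, ht⟩ : ∃ t, r = t + 1 := ⟨r - 1, by omega⟩
          rw [ht]; simp; ring
        rw [this, pow_add, pow_mul ω ((r + 1) * (r - 1)) m, h1, one_pow, mul_one]
  have hKc : K.card = r := by
    rw [hKimg, card_insert_of_notMem, card_image_of_injOn, card_range]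
    · omega
    · intro m hm n hn h
      simp only [coe_range, Set.mem_Iio] at hm hn
      simp only at h
      have h1 : (r + 1) * m = (r + 1) * n := by
        refine hω'.pow_inj ?_ ?_ h
        · rw [hfac]; exact Nat.mul_lt_mul_of_pos_left hm (by omega)
        · rw [hfac]; exact Nat.mul_lt_mul_of_pos_left hn (by omega)
      exact Nat.eq_of_mul_eq_mul_left (by omega) h1
    · rw [mem_image]
      rintro ⟨m, -, h⟩
      exact pow_ne_zero _ hω0 h
  have : CharP F p := charP_of_card_eq_prime_pow hF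
  have hodd : Odd r := (hpp.odd_of_ne_two hp).pow
  have hneg1 : (-1 : F) ∈ K := by rw [hmemK]; exact hodd.neg_one_pow
  have hmul : ∀ x ∈ K, ∀ y ∈ K, x * y ∈ K := by
    intro x hx y hy
    rw [hmemK] at hx hy ⊢
    rw [mul_pow, hx, hy]
  have hadd : ∀ x ∈ K, ∀ y ∈ K, x + y ∈ K := by
    intro x hx y hy
    rw [hmemK] at hx hy ⊢
    rw [hr, add_pow_char_pow, ← hr, hx, hy]
  have hneg : ∀ x ∈ K, -x ∈ K := by
    intro x hx
    have := hmul _ hneg1 _ hx
    rwa [neg_one_mul] at this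
  have hK0 : (0 : F) ∈ K := by rw [hmemK]; exact zero_pow (by omega)
  have hgeven : ∀ x, gg D (-x) = gg D x := by
    intro x
    rw [← mul_neg_one]
    exact hgK x (-1) hneg1 (by norm_num)
  have hg0 : gg D 0 = 0 := by simp [gg]
  have hgsq : ∀ x : F, x ≠ 0 → gg D x ^ 2 = 1 := by
    intro x hx
    unfold gg
    rw [if_neg hx]
    split_ifs <;> norm_num
  rw [paley_iff D h0 hcard]
  refine ⟨hgeven, ?_⟩
  have hψ := AddChar.FiniteField.primitiveChar_to_Complex_isPrimitive F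
  rw [fourier_iff hψ (gg D) (sum_gg D h0 hcard) (sum_gg_sq D)]
  intro a ha
  obtain ⟨y₀, hy₀, h1⟩ := E_fourier hr2 hq K hKc hK0 hadd hneg hmul (gg D) hg0 hgK
    (sum_gg D h0 hcard) hψ ha
  have h2 : ∑ y, (gg D y : ℂ) * AddChar.FiniteField.primitiveChar_to_Complex F (-a * y)
      = ∑ y, (gg D y : ℂ) * AddChar.FiniteField.primitiveChar_to_Complex F (a * y) := by
    refine Fintype.sum_equiv (Equiv.neg F) _ _ ?_
    intro y
    simp only [Equiv.neg_apply]
    rw [hgeven, neg_mul, mul_neg]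
  rw [h2, h1, hq]
  have h3 : ((gg D y₀ : ℤ) : ℂ) ^ 2 = 1 := by exact_mod_cast hgsq y₀ hy₀
  push_cast
  linear_combination (r : ℂ) ^ 2 * h3

end Pool.Agent.CycU
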