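import Pool.Agent.LibCycU.K2

/-! # Discrete logarithms and the quadratic character on the prime field -/

set_option autoImplicit false

open Finset

namespace Pool.Agent.CycU

section

variable {F : Type} [Field F] [Fintype F] {ω : F}

theorem exists_pow_eq (hω : IsPrimitiveRoot ω (Fintype.card F - 1)) {x : F} (hx : x ≠ 0) :
    ∃ i : ℕ, ω ^ i = x := by
  have hpos : 0 < Fintype.card F - 1 := by
    have := Fintype.one_lt_card (α := F)
    omega
  have : NeZero (Fintype.card F - 1) := ⟨hpos.ne'⟩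
  obtain ⟨i, _, hi⟩ := hω.eq_pow_of_pow_eq_one (FiniteField.pow_card_sub_one_eq_one x hx)
  exact ⟨i, hi⟩

open Classical in
/-- discrete logarithm -/
noncomputable def dl (ω x : F) : ℕ := if h : ∃ i : ℕ, ω ^ i = x then Nat.find h else 0

theorem dl_spec (hω : IsPrimitiveRoot ω (Fintype.card F - 1)) {x : F} (hx : x ≠ 0) :
    ω ^ dl ω x = x := by
  classical
  have h := exists_pow_eq hω hx
  unfold dl
  rw [dif_pos h]
  exact Nat.find_spec h

/-- discrete logarithm modulo `N` -/
noncomputable def ix (N : ℕ) (ω x : F) : ZMod N := (dl ω x : ZMod N)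

theorem cast_eq_of_pow_eq {N : ℕ} (hω : IsPrimitiveRoot ω (Fintype.card F - 1))
    (hN : N ∣ Fintype.card F - 1) {i j : ℕ} (h : ω ^ i = ω ^ j) : (i : ZMod N) = j := by
  have hω0 : ω ≠ 0 := hω.ne_zero (by have := Fintype.one_lt_card (α := F); omega)
  have h1 : i ≡ j [MOD Fintype.card F - 1] := by
    rw [hω.eq_orderOf]
    have h2 : (Units.mk0 ω hω0) ^ i = (Units.mk0 ω hω0) ^ j := by
      apply Units.ext; simpa using h
    have h3 := pow_eq_pow_iff_modEq.1 h2
    rwa [← orderOf_units, Units.val_mk0] at h3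
  exact (ZMod.natCast_eq_natCast_iff i j N).2 (h1.of_dvd hN)

theorem ix_pow {N : ℕ} (hω : IsPrimitiveRoot ω (Fintype.card F - 1))
    (hN : N ∣ Fintype.card F - 1) (i : ℕ) : ix N ω (ω ^ i) = i := by
  have hω0 : ω ≠ 0 := hω.ne_zero (by have := Fintype.one_lt_card (α := F); omega)
  exact cast_eq_of_pow_eq hω hN (dl_spec hω (pow_ne_zero i hω0))

theorem ix_mul {N : ℕ} (hω : IsPrimitiveRoot ω (Fintype.card F - 1))
    (hN : N ∣ Fintype.card F - 1) {x y : F} (hx : x ≠ 0) (hy : y ≠ 0) :
    ix N ω (x * y) = ix N ω x + ix N ω y := by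
  conv_lhs => rw [← dl_spec hω hx, ← dl_spec hω hy, ← pow_add, ix_pow hω hN]
  push_cast
  rfl

theorem ix_npow {N : ℕ} (hω : IsPrimitiveRoot ω (Fintype.card F - 1))
    (hN : N ∣ Fintype.card F - 1) {x : F} (hx : x ≠ 0) (k : ℕ) :
    ix N ω (x ^ k) = k * ix N ω x := by
  conv_lhs => rw [← dl_spec hω hx, ← pow_mul, ix_pow hω hN]
  push_cast
  rw [mul_comm]
  rfl

theorem ix_one {N : ℕ} (hω : IsPrimitiveRoot ω (Fintype.card F - 1))
    (hN : N ∣ Fintype.card F - 1) : ix N ω (1 : F) = 0 := by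
  have := ix_pow hω hN 0
  simpa using this

end

section

variable {p : ℕ} [Fact p.Prime] {F : Type} [Field F] [Fintype F] [DecidableEq F]
  [Algebra (ZMod p) F] {f : ℕ}

theorem ringChar_eq (p : ℕ) [Fact p.Prime] (F : Type) [Field F] [Algebra (ZMod p) F] :
    ringChar F = p := by
  have : CharP F p := (Algebra.charP_iff (ZMod p) F p).1 inferInstance
  exact ringChar.eq F p ▸ rfl

theorem quadChar_algebraMap (hp : p ≠ 2) (hF : Fintype.card F = p ^ f) (hf : Odd f)
    (c : ZMod p) : quadraticChar F (algebraMap (ZMod p) F c) = quadraticChar (ZMod p) c := by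
  have hpp := (Fact.out : p.Prime)
  have hpo : p % 2 = 1 := (hpp.eq_two_or_odd).resolve_left hp
  by_cases hc : c = 0
  · subst hc; simp
  have hchF : ringChar F ≠ 2 := by rwa [ringChar_eq p F]
  have hchp : ringChar (ZMod p) ≠ 2 := by rwa [ZMod.ringChar_zmod_n]
  have h1 := quadraticChar_eq_pow_of_char_ne_two' hchF (algebraMap (ZMod p) F c)
  have h2 := quadraticChar_eq_pow_of_char_ne_two' hchp c
  rw [ZMod.card] at h2
  rw [hF] at h1
  obtain ⟨k, hk⟩ : ∃ k, p = 2 * k + 1 := ⟨p / 2, by omega⟩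
  set S := ∑ i ∈ range f, p ^ i with hS
  have hgeom : p ^ f = (p - 1) * S + 1 := by
    have := Nat.geomSum_eq hpp.two_le f
    have hd : (p - 1) ∣ p ^ f - 1 := by
      simpa using Nat.sub_dvd_pow_sub_pow p 1 f
    have h3 : (p - 1) * S = p ^ f - 1 := by
      rw [hS, this, Nat.mul_div_cancel' hd]
    have : 0 < p ^ f := pow_pos hpp.pos f
    omega
  have hSodd : Odd S := by
    rw [hS, Finset.odd_sum_iff_odd_card_odd]
    have : (range f).filter (fun i => Odd (p ^ i)) = range f := by
      apply Finset.filter_true_of_mem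
      intro i _
      exact Odd.pow (Nat.odd_iff.2 hpo)
    rw [this, Finset.card_range]
    exact hf
  have hdiv : p ^ f / 2 = (p / 2) * S := by
    rw [hgeom, hk]
    have : (2 * k + 1 - 1) * S + 1 = 2 * (k * S) + 1 := by
      rw [show 2 * k + 1 - 1 = 2 * k by omega]; ring
    rw [this, show (2 * k + 1) / 2 = k by omega]
    omega
  rw [hdiv, pow_mul, ← map_pow, ← h2] at h1
  have h3 : ((quadraticChar F (algebraMap (ZMod p) F c) : ℤ) : F) =
      ((quadraticChar (ZMod p) c : ℤ) : F) := by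
    rw [h1]
    rcases quadraticChar_dichotomy hc with h | h
    · rw [h]; simp
    · rw [h]; simp [hSodd.neg_one_pow]
  have hc' : algebraMap (ZMod p) F c ≠ 0 := by
    intro h0
    exact hc ((map_eq_zero _).1 h0)
  have h20 : (2 : F) ≠ 0 := Ring.two_ne_zero hchF
  rcases quadraticChar_dichotomy hc with h | h <;> rcases quadraticChar_dichotomy hc' with h' | h'
  · rw [h, h']
  · exfalso
    rw [h, h'] at h3
    push_cast at h3
    exact h20 (by linear_combination -h3)
  · exfalso
    rw [h, h'] at h3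
    push_cast at h3
    exact h20 (by linear_combination h3)
  · rw [h, h']

end

end Pool.Agent.CycU
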