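import Pool.Agent.LibCycU.Chars

/-! # The function `κ` on `Z/N`, its Fourier transform, and norms of integers -/

set_option autoImplicit false

open Finset

namespace Pool.Agent.CycU

section norms

variable {p : ℕ} [Fact p.Prime] {Ω : Type} [NormedField Ω] [IsUltrametricDist Ω]

theorem norm_int_le_one (z : ℤ) : ‖(z : Ω)‖ ≤ 1 := IsUltrametricDist.norm_intCast_le_one Ω z

theorem norm_int_eq_one (hpn : ‖(p : Ω)‖ = (p : ℝ)⁻¹) {z : ℤ} (hz : ¬ (p : ℤ) ∣ z) :
    ‖(z : Ω)‖ = 1 := by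
  have hp := (Fact.out : p.Prime)
  have hc : IsCoprime (p : ℤ) z := by
    rw [Int.isCoprime_iff_gcd_eq_one]
    have := (Nat.Prime.coprime_iff_not_dvd hp).2 (fun h => hz (Int.natCast_dvd.2 h))
    simpa [Int.gcd] using this
  obtain ⟨a, b, hab⟩ := hc
  have h1 : (a : Ω) * (p : Ω) + (b : Ω) * (z : Ω) = 1 := by exact_mod_cast congrArg (Int.cast : ℤ → Ω) hab
  refine le_antisymm (norm_int_le_one z) ?_
  by_contra hlt
  push Not at hlt
  have h2 : ‖(1 : Ω)‖ ≤ max ‖(a : Ω) * (p : Ω)‖ ‖(b : Ω) * (z : Ω)‖ := by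
    rw [← h1]; exact IsUltrametricDist.norm_add_le_max _ _
  have h3 : ‖(a : Ω) * (p : Ω)‖ < 1 := by
    rw [norm_mul, hpn]
    have : (p : ℝ)⁻¹ < 1 := inv_lt_one_of_one_lt₀ (by exact_mod_cast hp.one_lt)
    calc ‖(a : Ω)‖ * (p : ℝ)⁻¹ ≤ 1 * (p : ℝ)⁻¹ := by
          gcongr
          exact norm_int_le_one a
      _ < 1 := by linarith
  have h4 : ‖(b : Ω) * (z : Ω)‖ < 1 := by
    rw [norm_mul]
    calc ‖(b : Ω)‖ * ‖(z : Ω)‖ ≤ 1 * ‖(z : Ω)‖ := by
          gcongr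
          exact norm_int_le_one b
      _ < 1 := by linarith
  rw [norm_one] at h2
  have := lt_of_le_of_lt h2 (max_lt h3 h4)
  exact lt_irrefl _ this

theorem norm_nat_eq_one (hpn : ‖(p : Ω)‖ = (p : ℝ)⁻¹) {z : ℕ} (hz : ¬ p ∣ z) :
    ‖(z : Ω)‖ = 1 := by
  have := norm_int_eq_one (Ω := Ω) hpn (z := (z : ℤ)) (by exact_mod_cast hz)
  simpa using this

theorem norm_nat_eq (hpn : ‖(p : Ω)‖ = (p : ℝ)⁻¹) {z : ℕ} (hz : z ≠ 0) :
    ‖(z : Ω)‖ = (p : ℝ) ^ (-(padicValNat p z : ℝ)) := by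
  have hp := (Fact.out : p.Prime)
  obtain ⟨m, hm1, hm2⟩ := (show ∃ m : ℕ, z = p ^ padicValNat p z * m ∧ ¬ p ∣ m by
    obtain ⟨m, hm⟩ := pow_padicValNat_dvd (p := p) (n := z)
    refine ⟨m, hm, fun hd => ?_⟩
    obtain ⟨k, hk⟩ := hd
    have : p ^ (padicValNat p z + 1) ∣ z := ⟨k, by rw [hk] at hm; rw [pow_succ]; linarith⟩
    exact pow_succ_padicValNat_not_dvd hz this)
  rw [Real.rpow_neg (by positivity), Real.rpow_natCast]
  conv_lhs => rw [hm1]
  rw [Nat.cast_mul, Nat.cast_pow, norm_mul, norm_pow, hpn, norm_nat_eq_one hpn hm2, mul_one,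
    inv_pow]

/-- divisibility by a power of `p` from the norm -/
theorem dvd_of_norm_le (hpn : ‖(p : Ω)‖ = (p : ℝ)⁻¹) {z : ℤ} {k : ℕ}
    (h : ‖(z : Ω)‖ ≤ (p : ℝ) ^ (-(k : ℝ))) : (p : ℤ) ^ k ∣ z := by
  have hp := (Fact.out : p.Prime)
  by_cases hz : z = 0
  · simp [hz]
  have hz' : z.natAbs ≠ 0 := Int.natAbs_ne_zero.2 hz
  have h1 : ‖(z : Ω)‖ = ‖(z.natAbs : Ω)‖ := by
    rcases Int.natAbs_eq z with h | h
    · conv_lhs => rw [h]
      simp
    · conv_lhs => rw [h]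
      simp
  rw [h1, norm_nat_eq hpn hz'] at h
  have h2 : (k : ℝ) ≤ padicValNat p z.natAbs := by
    by_contra hlt
    push Not at hlt
    have := Real.rpow_lt_rpow_of_exponent_lt (x := (p : ℝ)) (by exact_mod_cast hp.one_lt)
      (neg_lt_neg hlt)
    linarith
  have h3 : k ≤ padicValNat p z.natAbs := by exact_mod_cast h2
  have h4 : p ^ k ∣ z.natAbs := (pow_dvd_pow p h3).trans pow_padicValNat_dvd
  have h5 : ((p ^ k : ℕ) : ℤ) ∣ z := Int.natCast_dvd.2 h4
  exact_mod_cast h5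

omit [Fact p.Prime] in
theorem norm_le_of_dvd (hpn : ‖(p : Ω)‖ = (p : ℝ)⁻¹) {z : ℤ} {k : ℕ} (h : (p : ℤ) ^ k ∣ z) :
    ‖(z : Ω)‖ ≤ (p : ℝ) ^ (-(k : ℝ)) := by
  obtain ⟨m, rfl⟩ := h
  push_cast
  rw [norm_mul, norm_pow, hpn, Real.rpow_neg (by positivity), Real.rpow_natCast, inv_pow]
  have := norm_int_le_one (Ω := Ω) m
  have h2 : (0 : ℝ) ≤ ((p : ℝ) ^ k)⁻¹ := by positivity
  nlinarith

end norms

/-- the function `κ_s` -/
def kap (N : ℕ) [Fact N.Prime] (s : ℤ) (v : ZMod N) : ℤ :=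
  if v = 0 then s else -quadraticChar (ZMod N) v

theorem kap_sq {N : ℕ} [Fact N.Prime] {s : ℤ} (hs : s = 1 ∨ s = -1) (v : ZMod N) :
    kap N s v ^ 2 = 1 := by
  unfold kap
  split_ifs with h
  · rcases hs with h | h <;> simp [h]
  · rw [neg_sq]; exact quadraticChar_sq_one h

theorem kap_odd {N : ℕ} [Fact N.Prime] {s : ℤ} (hs : s = 1 ∨ s = -1) (v : ZMod N) :
    Odd (kap N s v) := by
  have := kap_sq hs v
  have h2 : kap N s v = 1 ∨ kap N s v = -1 := by
    have : (kap N s v - 1) * (kap N s v + 1) = 0 := by linear_combination this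
    rcases mul_eq_zero.1 this with h | h
    · left; linarith
    · right; linarith
  rcases h2 with h | h <;> rw [h] <;> decide

/-- `λ(-1) N` -/
def Nst (N : ℕ) [Fact N.Prime] : ℤ := quadraticChar (ZMod N) (-1) * N

section four

variable {N : ℕ} [Fact N.Prime] {Ω : Type} [Field Ω] {z : Ω}

/-- the character `v ↦ z^v` of `Z/N` -/
noncomputable abbrev chN (hz : z ^ N = 1) : AddChar (ZMod N) Ω := AddChar.zmodChar N hz

/-- the quadratic Gauss sum of `Z/N` -/
noncomputable def tau (hz : z ^ N = 1) : Ω :=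
  ∑ v : ZMod N, (quadraticChar (ZMod N) v : Ω) * chN hz v

theorem tau_eq (hz : z ^ N = 1) :
    tau hz = gaussSum ((quadraticChar (ZMod N)).ringHomComp (Int.castRingHom Ω)) (chN hz) := by
  unfold tau gaussSum
  rfl

theorem tau_mul (hz : z ^ N = 1) {t : ZMod N} (ht : t ≠ 0) :
    ∑ v : ZMod N, (quadraticChar (ZMod N) v : Ω) * chN hz (t * v) =
      (quadraticChar (ZMod N) t : Ω) * tau hz := by
  have hq := quadraticChar_sq_one ht
  unfold tau
  rw [Finset.mul_sum]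
  rw [← Equiv.sum_comp (Equiv.mulLeft₀ t ht) (fun v => (quadraticChar (ZMod N) t : Ω) *
    ((quadraticChar (ZMod N) v : Ω) * chN hz v))]
  apply Finset.sum_congr rfl
  intro v _
  show _ = (quadraticChar (ZMod N) t : Ω) * ((quadraticChar (ZMod N) (t * v) : Ω) * chN hz (t * v))
  rw [map_mul (quadraticChar (ZMod N))]
  have : (quadraticChar (ZMod N) t : Ω) * (quadraticChar (ZMod N) t : Ω) = 1 := by
    rw [← pow_two]
    have := congrArg (Int.cast : ℤ → Ω) hq
    push_cast at this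
    exact this
  push_cast
  linear_combination (-(quadraticChar (ZMod N) v : Ω) * chN hz (t * v)) * this

theorem tau_sq [CharZero Ω] (hN : N ≠ 2) (hz : IsPrimitiveRoot z N) :
    tau hz.pow_eq_one ^ 2 = (Nst N : Ω) := by
  rw [tau_eq]
  have hchar : ringChar (ZMod N) ≠ 2 := by rwa [ZMod.ringChar_zmod_n]
  rw [gaussSum_sq (χ := (quadraticChar (ZMod N)).ringHomComp (Int.castRingHom Ω)) ?_ ?_ ?_]
  · unfold Nst
    simp [ZMod.card]
  · intro h
    obtain ⟨a, ha⟩ := quadraticChar_exists_neg_one hchar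
    have h1 := congrArg (fun χ : MulChar (ZMod N) Ω => χ a) h
    simp only [MulChar.ringHomComp_apply, ha] at h1
    have ha0 : IsUnit a := by
      rw [isUnit_iff_ne_zero]; intro h0; rw [h0] at ha; simp at ha
    rw [MulChar.one_apply ha0] at h1
    norm_num at h1
  · exact (quadraticChar_isQuadratic (ZMod N)).comp _
  · exact AddChar.zmodChar_primitive_of_primitive_root N hz

/-- Fourier transform of `κ` -/
theorem kap_four (s : ℤ) (hz : z ^ N = 1) {t : ZMod N} (ht : t ≠ 0) :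
    ∑ v : ZMod N, (kap N s v : Ω) * chN hz (t * v) =
      (s : Ω) - (quadraticChar (ZMod N) t : Ω) * tau hz := by
  rw [← tau_mul hz ht]
  have h1 : ∀ v : ZMod N, (kap N s v : Ω) * chN hz (t * v) =
      (if v = 0 then (s : Ω) else 0) - (quadraticChar (ZMod N) v : Ω) * chN hz (t * v) := by
    intro v
    unfold kap
    by_cases h : v = 0
    · subst h; simp
    · rw [if_neg h, if_neg h]; push_cast; ring
  rw [Finset.sum_congr rfl fun v _ => h1 v, Finset.sum_sub_distrib]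
  simp

end four

end Pool.Agent.CycU
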