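import Pool.Agent.LibCycU.K

set_option autoImplicit false

open Finset

namespace Pool.Agent.CycU

/-- the exponent of `p` in `N + 1` (`N ≡ 3 mod 4`) or `N - 1` (`N ≡ 1 mod 4`) -/
def wN (p N : ℕ) : ℕ := padicValNat p (if N % 4 = 3 then N + 1 else N - 1)

theorem Nst_eq {N : ℕ} [Fact N.Prime] (hN : N ≠ 2) : Nst N = if N % 4 = 3 then -(N : ℤ) else N := by
  have hodd : N % 2 = 1 := (Nat.Prime.eq_two_or_odd (Fact.out : N.Prime)).resolve_left hN
  unfold Nst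
  have h := quadraticChar_neg_one (F := ZMod N) (by rwa [ZMod.ringChar_zmod_n])
  rw [h, ZMod.card]
  split_ifs with h3
  · rw [ZMod.χ₄_nat_three_mod_four h3]; ring
  · rw [ZMod.χ₄_nat_one_mod_four (by omega)]; ring

theorem khat_norm {p : ℕ} [Fact p.Prime] (hp : p ≠ 2) {N : ℕ} [Fact N.Prime] (hN : N ≠ 2)
    {Ω : Type} [NormedField Ω] [IsUltrametricDist Ω] [CharZero Ω]
    (hpn : ‖(p : Ω)‖ = (p : ℝ)⁻¹) {z : Ω} (hz : IsPrimitiveRoot z N) :
    ∃ ε : ℤ, (ε = 1 ∨ ε = -1) ∧ ∀ s : ℤ, (s = 1 ∨ s = -1) → ∀ t : ZMod N, t ≠ 0 →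
      ‖(s : Ω) - (quadraticChar (ZMod N) t : Ω) * tau hz.pow_eq_one‖ =
        if s * quadraticChar (ZMod N) t = ε then (p : ℝ) ^ (-(wN p N : ℝ)) else 1 := by
  have hpp := (Fact.out : p.Prime)
  set τ := tau hz.pow_eq_one with hτ
  have hsq : τ ^ 2 = (Nst N : Ω) := tau_sq hN hz
  have hN1 : 1 < N := (Fact.out : N.Prime).one_lt
  have hprod : ‖(1 : Ω) - τ‖ * ‖(1 : Ω) + τ‖ = (p : ℝ) ^ (-(wN p N : ℝ)) := by
    rw [← norm_mul]
    have e1 : (1 - τ) * (1 + τ) = 1 - (Nst N : Ω) := by rw [← hsq]; ring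
    rw [e1, Nst_eq hN]
    unfold wN
    split_ifs with h3
    · have : (1 : Ω) - ((-(N : ℤ) : ℤ) : Ω) = ((N + 1 : ℕ) : Ω) := by push_cast; ring
      rw [this, norm_nat_eq hpn (by omega)]
    · have : (1 : Ω) - (((N : ℤ) : ℤ) : Ω) = -((N - 1 : ℕ) : Ω) := by
        rw [Nat.cast_sub hN1.le]; push_cast; ring
      rw [this, norm_neg, norm_nat_eq hpn (by omega)]
  have hτ1 : ‖τ‖ ≤ 1 := by
    have h1 : ‖τ‖ ^ 2 ≤ 1 := by
      rw [← norm_pow, hsq]; exact norm_int_le_one _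
    nlinarith [norm_nonneg τ]
  have hle1 : ‖(1 : Ω) - τ‖ ≤ 1 := by
    have := IsUltrametricDist.norm_add_le_max (1 : Ω) (-τ)
    rw [norm_one, norm_neg, ← sub_eq_add_neg] at this
    exact this.trans (max_le le_rfl hτ1)
  have hle2 : ‖(1 : Ω) + τ‖ ≤ 1 := by
    have := IsUltrametricDist.norm_add_le_max (1 : Ω) τ
    rw [norm_one] at this
    exact this.trans (max_le le_rfl hτ1)
  have h2 : ‖(2 : Ω)‖ = 1 := by
    have := norm_nat_eq_one (Ω := Ω) hpn (z := 2) (by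
      intro h; exact hp ((Nat.prime_dvd_prime_iff_eq hpp Nat.prime_two).1 h))
    simpa using this
  have hmax : 1 ≤ max ‖(1 : Ω) - τ‖ ‖(1 : Ω) + τ‖ := by
    have := IsUltrametricDist.norm_add_le_max ((1 : Ω) - τ) (1 + τ)
    have e : (1 : Ω) - τ + (1 + τ) = 2 := by ring
    rwa [e, h2] at this
  have key : ∀ s : ℤ, (s = 1 ∨ s = -1) → ∀ t : ZMod N, t ≠ 0 →
      ‖(s : Ω) - (quadraticChar (ZMod N) t : Ω) * τ‖ =
        if s * quadraticChar (ZMod N) t = 1 then ‖(1 : Ω) - τ‖ else ‖(1 : Ω) + τ‖ := by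
    intro s hs t ht
    rcases quadraticChar_dichotomy ht with hl | hl
    · rw [hl]
      rcases hs with rfl | rfl
      · simp
      · rw [if_neg (by norm_num)]
        have : (((-1 : ℤ) : ℤ) : Ω) - ((1 : ℤ) : Ω) * τ = -(1 + τ) := by push_cast; ring
        rw [this, norm_neg]
    · rw [hl]
      rcases hs with rfl | rfl
      · rw [if_neg (by norm_num)]
        have : ((1 : ℤ) : Ω) - ((-1 : ℤ) : Ω) * τ = (1 + τ) := by push_cast; ring
        rw [this]
      · rw [if_pos (by norm_num)]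
        have : (((-1 : ℤ) : ℤ) : Ω) - ((-1 : ℤ) : Ω) * τ = -(1 - τ) := by push_cast; ring
        rw [this, norm_neg]
  have hpm : ∀ s : ℤ, (s = 1 ∨ s = -1) → ∀ t : ZMod N, t ≠ 0 →
      s * quadraticChar (ZMod N) t = 1 ∨ s * quadraticChar (ZMod N) t = -1 := by
    intro s hs t ht
    rcases quadraticChar_dichotomy ht with hl | hl <;> rcases hs with rfl | rfl <;> simp [hl]
  by_cases hc : ‖(1 : Ω) + τ‖ = 1
  · refine ⟨1, Or.inl rfl, ?_⟩
    intro s hs t ht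
    rw [key s hs t ht]
    rw [hc, mul_one] at hprod
    rw [hprod, hc]
  · have h1 : ‖(1 : Ω) - τ‖ = 1 := by
      refine le_antisymm hle1 ?_
      rcases le_max_iff.1 hmax with h | h
      · exact h
      · exact absurd (le_antisymm hle2 h) hc
    refine ⟨-1, Or.inr rfl, ?_⟩
    intro s hs t ht
    rw [key s hs t ht]
    rw [h1, one_mul] at hprod
    rw [hprod, h1]
    rcases hpm s hs t ht with h | h
    · rw [if_pos h, if_neg (by rw [h]; norm_num)]
    · rw [if_neg (by rw [h]; norm_num), if_pos h]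

end Pool.Agent.CycU
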