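import Pool.Agent.LibCycU.I

/-! # Sums over `F` grouped by the trace -/

set_option autoImplicit false

open Finset

namespace Pool.Agent.CycU

section

variable {p : ℕ} [Fact p.Prime] {F : Type} [Field F] [Fintype F]
  [Algebra (ZMod p) F] {Ω : Type} [Field Ω] {ζ : Ω}

/-- sum over the elements of trace `c` -/
noncomputable def trs (p : ℕ) [Fact p.Prime] {F : Type} [Field F] [Fintype F]
    [Algebra (ZMod p) F] (E : F → ℤ) (c : ZMod p) : ℤ :=
  ∑ y : F, if Algebra.trace (ZMod p) F y = c then E y else 0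

theorem sum_by_trace (hζ : ζ ^ p = 1) (E : F → ℤ) :
    ∑ y, (E y : Ω) * psi hζ F y = ∑ c : ZMod p, (trs p E c : Ω) * chN hζ c := by
  unfold trs
  simp only [Int.cast_sum, Finset.sum_mul]
  rw [Finset.sum_comm]
  apply Finset.sum_congr rfl
  intro y _
  rw [Finset.sum_eq_single (Algebra.trace (ZMod p) F y)]
  · rw [if_pos rfl]; rfl
  · intro c _ hc
    rw [if_neg (Ne.symm hc)]; simp
  · intro h; exact absurd (mem_univ _) h

theorem trs_smul (E : F → ℤ) {c : ZMod p} (hc : c ≠ 0) {k : ℤ}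
    (h : ∀ y, E (algebraMap (ZMod p) F c * y) = k * E y) (d : ZMod p) :
    trs p E (c * d) = k * trs p E d := by
  unfold trs
  have hc' : algebraMap (ZMod p) F c ≠ 0 := by
    intro h0; exact hc ((map_eq_zero _).1 h0)
  rw [← Equiv.sum_comp (Equiv.mulLeft₀ _ hc'), Finset.mul_sum]
  apply Finset.sum_congr rfl
  intro y _
  have e1 : Equiv.mulLeft₀ (algebraMap (ZMod p) F c) hc' y = algebraMap (ZMod p) F c * y := rfl
  rw [e1, h y]
  have e2 : Algebra.trace (ZMod p) F (algebraMap (ZMod p) F c * y) =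
      c * Algebra.trace (ZMod p) F y := by
    rw [← Algebra.smul_def, map_smul, smul_eq_mul]
  rw [e2]
  by_cases hd : Algebra.trace (ZMod p) F y = d
  · rw [if_pos (by rw [hd]), if_pos hd]
  · rw [if_neg, if_neg hd, mul_zero]
    intro h1
    exact hd (mul_left_cancel₀ hc h1)

/-- twisted case -/
theorem sum_twisted (hp : p ≠ 2) (hζ : ζ ^ p = 1) (E : F → ℤ)
    (h : ∀ c : ZMod p, c ≠ 0 → ∀ y, E (algebraMap (ZMod p) F c * y) =
      quadraticChar (ZMod p) c * E y) :
    ∑ y, (E y : Ω) * psi hζ F y = (trs p E 1 : Ω) * tau hζ := by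
  rw [sum_by_trace]
  unfold tau
  rw [Finset.mul_sum]
  apply Finset.sum_congr rfl
  intro c _
  by_cases hc : c = 0
  · subst hc
    obtain ⟨a, ha⟩ := quadraticChar_exists_neg_one (F := ZMod p) (by rwa [ZMod.ringChar_zmod_n])
    have ha0 : a ≠ 0 := by
      intro h0; rw [h0] at ha; simp at ha
    have h1 := trs_smul E ha0 (h a ha0) 0
    rw [ha, mul_zero] at h1
    have : trs p E 0 = 0 := by linarith
    rw [this]; simp
  · have h1 := trs_smul E hc (h c hc) 1
    rw [mul_one] at h1
    rw [h1]; push_cast; ring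

/-- untwisted case -/
theorem sum_untwisted (hζ : IsPrimitiveRoot ζ p) (E : F → ℤ)
    (h : ∀ c : ZMod p, c ≠ 0 → ∀ y, E (algebraMap (ZMod p) F c * y) = E y) :
    ∑ y, (E y : Ω) * psi hζ.pow_eq_one F y = ((trs p E 0 - trs p E 1 : ℤ) : Ω) := by
  rw [sum_by_trace]
  have h0 : ∑ c : ZMod p, chN hζ.pow_eq_one c = 0 := by
    apply AddChar.sum_eq_zero_of_ne_one
    intro h1
    have h2 := congrArg (fun φ : AddChar (ZMod p) Ω => φ 1) h1
    simp only [AddChar.one_apply] at h2
    have h3 : chN hζ.pow_eq_one (1 : ZMod p) = ζ := by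
      have := AddChar.zmodChar_apply' hζ.pow_eq_one 1
      simpa using this
    rw [h3] at h2
    exact hζ.ne_one (Fact.out : p.Prime).one_lt h2
  have h1 : ∀ c : ZMod p, (trs p E c : Ω) * chN hζ.pow_eq_one c =
      (trs p E 1 : Ω) * chN hζ.pow_eq_one c +
        if c = 0 then ((trs p E 0 : Ω) - trs p E 1) else 0 := by
    intro c
    by_cases hc : c = 0
    · subst hc; simp
    · have := trs_smul E hc (k := 1) (by intro y; rw [h c hc y, one_mul]) 1
      rw [mul_one, one_mul] at this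
      rw [this, if_neg hc, add_zero]
  rw [Finset.sum_congr rfl fun c _ => h1 c, Finset.sum_add_distrib, ← Finset.mul_sum, h0]
  simp

end

end Pool.Agent.CycU
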