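import Pool.Agent.LibCycU.O2

/-! # Odd `f`, `2` a non-residue: admissibility in terms of the integers `m(v)` -/

set_option autoImplicit false

open Finset

namespace Pool.Agent.CycU

section

variable {p : ℕ} [Fact p.Prime] {F : Type} [Field F] [Fintype F] [Algebra (ZMod p) F]

theorem exists_trace_one (p : ℕ) [Fact p.Prime] (F : Type) [Field F] [Fintype F]
    [Algebra (ZMod p) F] : ∃ y : F, Algebra.trace (ZMod p) F y = 1 :=
  Algebra.trace_surjective (ZMod p) F 1

theorem psi_primitive {Ω : Type} [Field Ω] {ζ : Ω} (hζ : IsPrimitiveRoot ζ p) :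
    (psi hζ.pow_eq_one F).IsPrimitive := by
  apply AddChar.IsPrimitive.of_ne_one
  intro h
  obtain ⟨y, hy⟩ := exists_trace_one p F
  have h1 := congrArg (fun φ : AddChar F Ω => φ y) h
  simp only [AddChar.one_apply] at h1
  rw [psi_apply, hy] at h1
  have : (1 : ZMod p).val = 1 := by
    have : Fact (1 < p) := ⟨(Fact.out : p.Prime).one_lt⟩
    exact ZMod.val_one p
  rw [this, pow_one] at h1
  exact hζ.ne_one (Fact.out : p.Prime).one_lt h1

end

section

variable {p : ℕ} [Fact p.Prime] {F : Type} [Field F] [Fintype F] [DecidableEq F]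
  [Algebra (ZMod p) F] {f : ℕ} {ω : F} {N : ℕ} [Fact N.Prime]

theorem adm_iff_m (hp : p ≠ 2) (hN : N ≠ 2) (hF : Fintype.card F = p ^ f) (hf : Odd f)
    (hNp : ¬ N ∣ p - 1) (hω : IsPrimitiveRoot ω (Fintype.card F - 1))
    (hd : 2 * N ∣ Fintype.card F - 1) (Q : Subgroup (ZMod (2 * N))ˣ) (hQ : Q.index = 2)
    {s : ℤ} (hs : s = 1 ∨ s = -1) (h2 : quadraticChar (ZMod N) 2 = -1)
    {Ω : Type} [Field Ω] [CharZero Ω] {ζ : Ω} (hζ : IsPrimitiveRoot ζ p) :
    Admissible (DD N Q ω (base N s)) ↔ ∀ v : ZMod N, (p : ℤ) * mm p N s ω v ^ 2 = p ^ f := by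
  have hch : ringChar F ≠ 2 := by rwa [ringChar_eq p F]
  have hd' : N ∣ Fintype.card F - 1 := (dvd_mul_left N 2).trans hd
  have hω0 : ω ≠ 0 := hω.ne_zero (by have := Fintype.one_lt_card (α := F); omega)
  set D := DD N Q ω (base N s) with hD
  have h0 : (0 : F) ∉ D := zero_notMem_DD Q hω0 _
  have hcard : 2 * D.ncard + 1 = Fintype.card F := ncard_DD hN Q hQ hω hd hs
  have hgg : ∀ x, gg D x = quadraticChar F x * kap N s (ix N ω x) :=
    gg_kap hN Q hQ hω hch hd hs h2
  have hm1 : quadraticChar F (-1) ^ 2 = 1 := quadraticChar_sq_one (by simp)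
  have hpar : ∀ x, gg D (-x) = quadraticChar F (-1) * gg D x := by
    intro x
    by_cases hx : x = 0
    · subst hx; rw [neg_zero, ggz]; simp
    rw [hgg, hgg, ← neg_one_mul, map_mul, ix_mul hω hd' (by simp) hx, ix_neg_one hN hω hd',
      zero_add]
    ring
  have hadm : Admissible D ↔ ∀ x, x ≠ 0 → ∑ y, gg D y * gg D (y + x) = -1 := by
    unfold Admissible
    rw [skew_iff D h0 hcard, paley_iff D h0 hcard]
    constructor
    · rintro (h | h) <;> exact h.2
    · intro h
      have hc : quadraticChar F (-1) = 1 ∨ quadraticChar F (-1) = -1 :=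
        quadraticChar_dichotomy (by simp)
      rcases hc with hc | hc
      · right
        exact ⟨fun x => by rw [hpar, hc, one_mul], h⟩
      · left
        exact ⟨fun x => by rw [hpar, hc]; ring, h⟩
  rw [hadm, fourier_iff (psi_primitive hζ) (gg D) (sum_gg D h0 hcard) (sum_gg_sq D)]
  have hfour : ∀ a : F, a ≠ 0 → ∑ y, (gg D y : Ω) * psi hζ.pow_eq_one F (a * y) =
      (quadraticChar F a : Ω) * ((mm p N s ω (ix N ω a) : Ω) * tau hζ.pow_eq_one) := by
    intro a ha
    rw [← sum_EE hζ.pow_eq_one hp hF hf hNp hω hd' s (ix N ω a),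
      ← four_shift hω hd' s (psi hζ.pow_eq_one F) ha]
    apply Finset.sum_congr rfl
    intro y _
    rw [hgg y]
  have hkey : ∀ a : F, a ≠ 0 → (∑ y, (gg D y : Ω) * psi hζ.pow_eq_one F (a * y)) *
      (∑ y, (gg D y : Ω) * psi hζ.pow_eq_one F (-a * y)) =
        ((p * mm p N s ω (ix N ω a) ^ 2 : ℤ) : Ω) := by
    intro a ha
    rw [hfour a ha, hfour (-a) (neg_ne_zero.2 ha)]
    have e1 : ix N ω (-a) = ix N ω a := by
      rw [← neg_one_mul, ix_mul hω hd' (by simp) ha, ix_neg_one hN hω hd', zero_add]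
    have e2 : quadraticChar F (-a) = quadraticChar F (-1) * quadraticChar F a := by
      rw [← neg_one_mul, map_mul]
    have e3 : (quadraticChar F a : Ω) ^ 2 = 1 := by
      have := congrArg (Int.cast : ℤ → Ω) (quadraticChar_sq_one ha)
      push_cast at this
      exact this
    have e4 : quadraticChar F (-1) = quadraticChar (ZMod p) (-1) := by
      have := quadChar_algebraMap hp hF hf (-1 : ZMod p)
      rwa [map_neg, map_one] at this
    have e5 : tau hζ.pow_eq_one ^ 2 = (Nst p : Ω) := tau_sq hp hζ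
    have e6 : (quadraticChar (ZMod p) (-1) : Ω) * (Nst p : Ω) = (p : Ω) := by
      unfold Nst
      have := congrArg (Int.cast : ℤ → Ω) (quadraticChar_sq_one (F := ZMod p) (a := -1) (by simp))
      push_cast at this ⊢
      linear_combination (p : Ω) * this
    rw [e1, e2, e4]
    push_cast
    calc _ = (quadraticChar F a : Ω) ^ 2 * (quadraticChar (ZMod p) (-1) : Ω) *
          (mm p N s ω (ix N ω a) : Ω) ^ 2 * tau hζ.pow_eq_one ^ 2 := by ring
      _ = _ := by
        rw [e3, e5]
        linear_combination (mm p N s ω (ix N ω a) : Ω) ^ 2 * e6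
  constructor
  · intro h v
    obtain ⟨i, hi⟩ := ZMod.natCast_zmod_surjective v
    have h1 := h (ω ^ i) (pow_ne_zero i hω0)
    rw [hkey _ (pow_ne_zero i hω0), hF, ix_pow hω hd', hi] at h1
    exact_mod_cast h1
  · intro h a ha
    rw [hkey a ha, h, hF]
    push_cast
    rfl

omit [DecidableEq F] in
/-- number of elements of trace one is odd -/
theorem card_trace_one (hp : p ≠ 2) (hF : Fintype.card F = p ^ f) :
    Odd (Finset.univ.filter fun y : F => Algebra.trace (ZMod p) F y = 1).card := by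
  have hpp := (Fact.out : p.Prime)
  have hpo : Odd p := Nat.odd_iff.2 ((hpp.eq_two_or_odd).resolve_left hp)
  set T := (Algebra.trace (ZMod p) F).toAddMonoidHom with hT
  have h1 : ∀ c : ZMod p, (Finset.univ.filter fun y : F => Algebra.trace (ZMod p) F y = c).card =
      (Finset.univ.filter fun y : F => Algebra.trace (ZMod p) F y = 1).card := by
    intro c
    exact AddMonoidHom.card_fiber_eq_of_mem_range T (Algebra.trace_surjective (ZMod p) F c)
      (Algebra.trace_surjective (ZMod p) F 1)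
  have h2 : Fintype.card F = ∑ c : ZMod p,
      (Finset.univ.filter fun y : F => Algebra.trace (ZMod p) F y = c).card := by
    rw [← Finset.card_univ]
    exact Finset.card_eq_sum_card_fiberwise (fun _ _ => Finset.mem_coe.2 (mem_univ _))
  rw [Finset.sum_congr rfl fun c _ => h1 c, Finset.sum_const, hF, smul_eq_mul] at h2
  have h3 : Odd (p ^ f) := hpo.pow
  rw [h2] at h3
  exact (Nat.odd_mul.1 h3).2

theorem mm_odd (hp : p ≠ 2) (hF : Fintype.card F = p ^ f) {s : ℤ} (hs : s = 1 ∨ s = -1)
    (ω : F) (v : ZMod N) : Odd (mm p N s ω v) := by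
  unfold mm trs
  rw [← Finset.sum_filter]
  have key : ∀ S : Finset F, (∀ y ∈ S, Odd (EE N s ω v y)) → Odd S.card →
      Odd (∑ y ∈ S, EE N s ω v y) := by
    intro S hS hc
    rw [← ZMod.intCast_eq_one_iff_odd, Int.cast_sum,
      Finset.sum_congr rfl fun y hy => ZMod.intCast_eq_one_iff_odd.2 (hS y hy)]
    simpa using ZMod.natCast_eq_one_iff_odd.2 hc
  apply key _ _ (card_trace_one hp hF)
  intro y hy
  rw [Finset.mem_filter] at hy
  have hy0 : y ≠ 0 := by
    intro h0
    rw [h0, map_zero] at hy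
    exact zero_ne_one hy.2
  unfold EE
  apply Odd.mul
  · rcases quadraticChar_dichotomy hy0 with h | h <;> rw [h] <;> decide
  · exact kap_odd hs _

end

end Pool.Agent.CycU
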