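import Pool.Agent.LibCycU.O2
import Pool.Agent.LibCycU.O3

/-! # The case `f = 1` -/

set_option autoImplicit false

open Finset

namespace Pool.Agent.CycU

/-- a vanishing sum of `p`-th roots of unity has equal coefficients -/
theorem lin_indep {p : ℕ} [Fact p.Prime] {Ω : Type} [Field Ω] [CharZero Ω] {ζ : Ω}
    (hζ : IsPrimitiveRoot ζ p) (a : ZMod p → ℤ)
    (h : ∑ c : ZMod p, (a c : Ω) * chN hζ.pow_eq_one c = 0) (c : ZMod p) : a c = a 0 := by
  classical
  have hpp := (Fact.out : p.Prime)
  set P : Polynomial ℚ := ∑ c : ZMod p, Polynomial.C (a c : ℚ) * Polynomial.X ^ c.val with hP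
  have h1 : Polynomial.aeval ζ P = 0 := by
    rw [hP, map_sum, ← h]
    apply Finset.sum_congr rfl
    intro c _
    rw [map_mul, map_pow, Polynomial.aeval_C, Polynomial.aeval_X, AddChar.zmodChar_apply]
    simp
  have h2 : Polynomial.cyclotomic p ℚ ∣ P := by
    rw [Polynomial.cyclotomic_eq_minpoly_rat hζ hpp.pos]
    exact minpoly.dvd ℚ ζ h1
  have hcoeff : ∀ d : ZMod p, P.coeff d.val = a d := by
    intro d
    rw [hP, Polynomial.finsetSum_coeff, Finset.sum_eq_single d]
    · simp
    · intro b _ hb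
      rw [Polynomial.coeff_C_mul, Polynomial.coeff_X_pow, if_neg, mul_zero]
      intro h3
      exact hb (ZMod.val_injective p h3.symm)
    · intro h3; exact absurd (mem_univ _) h3
  have hdeg : P.degree < p := by
    rw [hP]
    refine lt_of_le_of_lt (Polynomial.degree_sum_le _ _) ?_
    rw [Finset.sup_lt_iff (by exact_mod_cast WithBot.bot_lt_coe p)]
    intro b _
    refine lt_of_le_of_lt (Polynomial.degree_C_mul_X_pow_le _ _) ?_
    exact_mod_cast ZMod.val_lt b
  obtain ⟨R, hR⟩ := h2
  have hcoeffs : ∀ d : ZMod p, P.coeff d.val = R.coeff 0 := by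
    by_cases hR0 : R = 0
    · intro d; rw [hR, hR0]; simp
    have hP0 : P ≠ 0 := by
      rw [hR]
      exact mul_ne_zero (Polynomial.cyclotomic_ne_zero p ℚ) hR0
    have hdR : R.natDegree = 0 := by
      have e1 : P.natDegree < p := (Polynomial.natDegree_lt_iff_degree_lt hP0).2 hdeg
      have e2 : P.natDegree = (p - 1) + R.natDegree := by
        rw [hR, Polynomial.natDegree_mul (Polynomial.cyclotomic_ne_zero p ℚ) hR0,
          Polynomial.natDegree_cyclotomic, Nat.totient_prime hpp]
      omega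
    rw [Polynomial.natDegree_eq_zero] at hdR
    obtain ⟨r, hr⟩ := hdR
    intro d
    rw [hR, ← hr, mul_comm, Polynomial.coeff_C_mul, Polynomial.cyclotomic_prime,
      Polynomial.finsetSum_coeff, Finset.sum_eq_single d.val]
    · simp
    · intro b _ hb
      rw [Polynomial.coeff_X_pow, if_neg (Ne.symm hb)]
    · intro h3
      exact absurd (Finset.mem_range.2 (ZMod.val_lt d)) h3
  have e1 := hcoeffs c
  have e2 := hcoeffs 0
  rw [hcoeff] at e1 e2
  have : (a c : ℚ) = a 0 := by rw [e1, e2]
  exact_mod_cast this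

section

variable {p : ℕ} [Fact p.Prime] {F : Type} [Field F] [Fintype F] [DecidableEq F]
  [Algebra (ZMod p) F] {ω : F} {N : ℕ} [Fact N.Prime]

omit [DecidableEq F] in
theorem trace_algebraMap_one (hF : Fintype.card F = p) (c : ZMod p) :
    Algebra.trace (ZMod p) F (algebraMap (ZMod p) F c) = c := by
  rw [Algebra.trace_algebraMap]
  have hpp := (Fact.out : p.Prime)
  have h1 : Fintype.card F = (Fintype.card (ZMod p)) ^ Module.finrank (ZMod p) F :=
    Module.card_eq_pow_finrank
  rw [hF, ZMod.card] at h1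
  have h2 : Module.finrank (ZMod p) F = 1 := by
    have := Nat.pow_right_injective hpp.two_le (a₁ := 1) (a₂ := Module.finrank (ZMod p) F)
      (by simpa using h1)
    exact this.symm
  rw [h2, one_smul]

omit [DecidableEq F] in
theorem bij_algebraMap (hF : Fintype.card F = p) :
    Function.Bijective (algebraMap (ZMod p) F) := by
  rw [Fintype.bijective_iff_injective_and_card]
  exact ⟨(algebraMap (ZMod p) F).injective, by rw [hF, ZMod.card]⟩

theorem one_case (hp : p ≠ 2) (hN : N ≠ 2) (hF : Fintype.card F = p)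
    (hω : IsPrimitiveRoot ω (Fintype.card F - 1))
    (hd : 2 * N ∣ Fintype.card F - 1) (Q : Subgroup (ZMod (2 * N))ˣ) (hQ : Q.index = 2)
    {s : ℤ} (hs : s = 1 ∨ s = -1)
    {Ω : Type} [Field Ω] [CharZero Ω] {ζ : Ω} (hζ : IsPrimitiveRoot ζ p) :
    ¬ Admissible (DD N Q ω (base N s)) := by
  intro hadm
  have hpp := (Fact.out : p.Prime)
  have hNN := (Fact.out : N.Prime)
  have hch : ringChar F ≠ 2 := by rwa [ringChar_eq p F]
  have hω0 : ω ≠ 0 := hω.ne_zero (by have := Fintype.one_lt_card (α := F); omega)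
  set D := DD N Q ω (base N s) with hD
  have h0 : (0 : F) ∉ D := zero_notMem_DD Q hω0 _
  have hcard : 2 * D.ncard + 1 = Fintype.card F := ncard_DD hN Q hQ hω hd hs
  -- in both cases: parity `g(-x) = ρ(-1) g(x)`, and autocorrelation
  have hkey : (∀ x, gg D (-x) = quadraticChar F (-1) * gg D x) ∧
      ∀ x, x ≠ 0 → ∑ y, gg D y * gg D (y + x) = -1 := by
    have hneg1 := quadraticChar_neg_one hch
    rcases hadm with h | h
    · have h1 := (skew_iff D h0 hcard).1 h
      refine ⟨?_, h1.2⟩
      have h3 : Fintype.card F % 4 = 3 := by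
        have := h.2.2.2 1 one_ne_zero
        omega
      rw [hneg1, ZMod.χ₄_nat_three_mod_four h3]
      intro x; rw [h1.1]; ring
    · have h1 := (paley_iff D h0 hcard).1 h
      refine ⟨?_, h1.2⟩
      have h3 : Fintype.card F % 4 = 1 := by
        have := h.2.2.2 1 one_ne_zero
        by_cases hm : (1 : F) ∈ D
        · have := this.1 hm; omega
        · have := this.2 hm; omega
      rw [hneg1, ZMod.χ₄_nat_one_mod_four h3]
      intro x; rw [h1.1]; ring
  obtain ⟨hpar, hauto⟩ := hkey
  rw [fourier_iff (psi_primitive hζ) (gg D) (sum_gg D h0 hcard) (sum_gg_sq D)] at hauto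
  -- the transform at `1` in terms of `ZMod p`
  have hF' : Fintype.card F = p ^ 1 := by rw [hF, pow_one]
  set a : ZMod p → ℤ := fun c => gg D (algebraMap (ZMod p) F c) with ha
  have hsum : ∑ y, (gg D y : Ω) * psi hζ.pow_eq_one F (1 * y) =
      ∑ c : ZMod p, (a c : Ω) * chN hζ.pow_eq_one c := by
    rw [← Equiv.sum_comp (Equiv.ofBijective _ (bij_algebraMap hF))]
    apply Finset.sum_congr rfl
    intro c _
    rw [one_mul]
    show (gg D (algebraMap (ZMod p) F c) : Ω) * psi hζ.pow_eq_one F (algebraMap (ZMod p) F c) = _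
    congr 1
    show AddChar.zmodChar p hζ.pow_eq_one (Algebra.trace (ZMod p) F (algebraMap (ZMod p) F c)) = _
    rw [trace_algebraMap_one hF]
  have hsum' : ∑ y, (gg D y : Ω) * psi hζ.pow_eq_one F (-1 * y) =
      (quadraticChar F (-1) : Ω) * ∑ y, (gg D y : Ω) * psi hζ.pow_eq_one F (1 * y) := by
    rw [← Equiv.sum_comp (Equiv.neg F), Finset.mul_sum]
    apply Finset.sum_congr rfl
    intro y _
    rw [Equiv.neg_apply, hpar]
    push_cast
    rw [show -1 * -y = 1 * y by ring]
    ring
  have h1 := hauto 1 one_ne_zero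
  rw [hsum', hsum, hF] at h1
  set S := ∑ c : ZMod p, (a c : Ω) * chN hζ.pow_eq_one c with hS
  have e4 : quadraticChar F (-1) = quadraticChar (ZMod p) (-1) := by
    have := quadChar_algebraMap hp hF' (by decide) (-1 : ZMod p)
    rwa [map_neg, map_one] at this
  have e5 : tau hζ.pow_eq_one ^ 2 = (Nst p : Ω) := tau_sq hp hζ
  have e6 : (quadraticChar (ZMod p) (-1) : Ω) ^ 2 = 1 := by
    have := congrArg (Int.cast : ℤ → Ω) (quadraticChar_sq_one (F := ZMod p) (a := -1) (by simp))
    push_cast at this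
    exact this
  have hS2 : S ^ 2 = tau hζ.pow_eq_one ^ 2 := by
    rw [e5]
    unfold Nst
    rw [e4] at h1
    push_cast
    have : (quadraticChar (ZMod p) (-1) : Ω) ^ 2 * S ^ 2 =
        (quadraticChar (ZMod p) (-1) : Ω) * (p : Ω) := by
      rw [← h1]; ring
    rw [e6, one_mul] at this
    exact this
  have hfin : ∃ k : ℤ, ∀ c : ZMod p, a c = k * quadraticChar (ZMod p) c := by
    have key : ∀ k : ℤ, S = (k : Ω) * tau hζ.pow_eq_one → ∀ c : ZMod p,
        a c = k * quadraticChar (ZMod p) c := by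
      intro k hk c
      have h3 : ∑ c : ZMod p, ((a c - k * quadraticChar (ZMod p) c : ℤ) : Ω) *
          chN hζ.pow_eq_one c = 0 := by
        have : ∀ c : ZMod p, ((a c - k * quadraticChar (ZMod p) c : ℤ) : Ω) *
          chN hζ.pow_eq_one c = (a c : Ω) * chN hζ.pow_eq_one c -
            (k : Ω) * ((quadraticChar (ZMod p) c : Ω) * chN hζ.pow_eq_one c) := by
          intro c; push_cast; ring
        rw [Finset.sum_congr rfl fun c _ => this c, Finset.sum_sub_distrib, ← Finset.mul_sum,
          ← hS, hk]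
        unfold tau
        ring
      have h4 := lin_indep hζ _ h3 c
      have h5 : a 0 = 0 := by
        rw [ha]; simp only; rw [map_zero, gg_zero]
      simp only [h5, MulChar.map_zero, mul_zero, sub_zero] at h4
      linarith
    rcases sq_eq_sq_iff_eq_or_eq_neg.1 hS2 with h | h
    · exact ⟨1, key 1 (by rw [h]; simp)⟩
    · exact ⟨-1, key (-1) (by rw [h]; simp)⟩
  obtain ⟨k, hk⟩ := hfin
  have hgk : ∀ x : F, gg D x = k * quadraticChar F x := by
    intro x
    obtain ⟨c, rfl⟩ := (bij_algebraMap hF).2 x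
    rw [quadChar_algebraMap hp hF' (by decide)]
    exact hk c
  have g1 := gg_pow hN Q hQ hω hd hs 1
  have g2 := gg_pow hN Q hQ hω hd hs 2
  rw [← hD, hgk, quadChar_pow hω hch] at g1 g2
  have h2N : ((2 : ℕ) : ZMod N) ≠ 0 := by
    intro h2
    rw [ZMod.natCast_eq_zero_iff] at h2
    exact hN ((Nat.prime_dvd_prime_iff_eq hNN Nat.prime_two).1 h2)
  have e1 : eps N s 1 = 1 := by
    unfold eps
    rw [if_neg (by simp), if_neg (by decide)]
    simp
  have e2 : eps N s 2 = 1 := by
    unfold eps
    rw [if_neg h2N, if_pos (by decide)]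
    have := quadraticChar_sq_one h2N
    rw [pow_two] at this
    exact_mod_cast this
  rw [e1] at g1
  rw [e2] at g2
  linarith

end

end Pool.Agent.CycU
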