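import Pool.Agent.LibCycU.O4
import Pool.Agent.LibCycU.O8

/-! # The case where `f` is odd and `2` is a residue modulo `N` -/

set_option autoImplicit false

open Finset

namespace Pool.Agent.CycU

section

variable {p : ℕ} [Fact p.Prime] {F : Type} [Field F] [Fintype F] [DecidableEq F]
  [Algebra (ZMod p) F] {f : ℕ} {ω : F} {N : ℕ} [Fact N.Prime]

theorem res_case (hp : p ≠ 2) (hN : N ≠ 2) (hF : Fintype.card F = p ^ f) (hf : Odd f)
    (hNp : ¬ N ∣ p - 1) (hω : IsPrimitiveRoot ω (Fintype.card F - 1))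
    (hd : 2 * N ∣ Fintype.card F - 1) (Q : Subgroup (ZMod (2 * N))ˣ) (hQ : Q.index = 2)
    {s : ℤ} (hs : s = 1 ∨ s = -1) (h2 : quadraticChar (ZMod N) 2 = 1)
    {Ω : Type} [Field Ω] [CharZero Ω] {ζ : Ω} (hζ : IsPrimitiveRoot ζ p) :
    ¬ Admissible (DD N Q ω (base N s)) := by
  intro hadm
  have hpp := (Fact.out : p.Prime)
  have hNN := (Fact.out : N.Prime)
  have hch : ringChar F ≠ 2 := by rwa [ringChar_eq p F]
  have hd' : N ∣ Fintype.card F - 1 := (dvd_mul_left N 2).trans hd
  have hω0 : ω ≠ 0 := hω.ne_zero (by have := Fintype.one_lt_card (α := F); omega)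
  set D := DD N Q ω (base N s) with hD
  have h0 : (0 : F) ∉ D := zero_notMem_DD Q hω0 _
  have hcard : 2 * D.ncard + 1 = Fintype.card F := ncard_DD hN Q hQ hω hd hs
  -- the values of `gg`
  set g1 : F → ℤ := fun y => if ix N ω y = 0 then s * quadraticChar F y else 0 with hg1
  set g2 : F → ℤ := fun y => if y = 0 then 0 else quadraticChar (ZMod N) (ix N ω y) with hg2
  have hgg : ∀ y, gg D y = g1 y + g2 y := by
    intro y
    by_cases hy : y = 0
    · subst hy; rw [gg_zero]; simp [hg1, hg2]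
    obtain ⟨i, rfl⟩ := exists_pow_eq hω hy
    rw [hD, gg_pow hN Q hQ hω hd hs]
    simp only [hg1, hg2, if_neg hy]
    rw [quadChar_pow hω hch, ix_pow hω hd']
    unfold eps
    by_cases hi : (i : ZMod N) = 0
    · rw [if_pos hi, if_pos hi, hi]; simp
    · rw [if_neg hi, if_neg hi, h2, one_mul, zero_add]
      split_ifs <;> rfl
  have hixneg : ∀ y : F, y ≠ 0 → ix N ω (-y) = ix N ω y := by
    intro y hy
    rw [← neg_one_mul, ix_mul hω hd' (by simp) hy, ix_neg_one hN hω hd', zero_add]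
  -- not skew
  have hgω : gg D ω = 1 := by
    have := gg_pow hN Q hQ hω hd hs 1
    rw [pow_one] at this
    rw [hD, this]
    unfold eps
    rw [if_neg (by simp), if_neg (by decide)]
    simp
  have hgω' : gg D (-ω) = 1 := by
    have e1 : ix N ω ω = 1 := by have := ix_pow hω hd' 1; simpa using this
    have e2 : ix N ω (-ω) = 1 := by rw [hixneg ω hω0, e1]
    rw [hgg]
    simp only [hg1, hg2]
    rw [e2, if_neg (by simp), if_neg (neg_ne_zero.2 hω0)]
    simp
  have hpaley : PaleyType D := by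
    rcases hadm with h | h
    · exfalso
      have h1 := (skew_iff D h0 hcard).1 h
      have h3 := h1.1 ω
      rw [hgω, hgω'] at h3
      norm_num at h3
    · exact h
  have hP := (paley_iff D h0 hcard).1 hpaley
  have hq4 : Fintype.card F % 4 = 1 := by
    have := hpaley.2.2.2 1 one_ne_zero
    by_cases hm : (1 : F) ∈ D
    · have := this.1 hm; omega
    · have := this.2 hm; omega
  have hm1F : quadraticChar F (-1) = 1 := by
    rw [quadraticChar_neg_one hch, ZMod.χ₄_nat_one_mod_four hq4]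
  have hm1 : quadraticChar (ZMod p) (-1) = 1 := by
    have := quadChar_algebraMap hp hF hf (-1 : ZMod p)
    rw [map_neg, map_one, hm1F] at this
    exact this.symm
  have hτ : tau hζ.pow_eq_one ^ 2 = (p : Ω) := by
    rw [tau_sq hp hζ]; unfold Nst; rw [hm1]; simp
  have hauto := (fourier_iff (psi_primitive hζ) (gg D) (sum_gg D h0 hcard) (sum_gg_sq D)).1 hP.2
  -- transforms of `g1` and `g2`
  have hsc1 : ∀ a : F, a ≠ 0 → ∀ c : ZMod p, c ≠ 0 → ∀ y,
      g1 (a⁻¹ * (algebraMap (ZMod p) F c * y)) = quadraticChar (ZMod p) c * g1 (a⁻¹ * y) := by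
    intro a ha c hc y
    by_cases hy : y = 0
    · subst hy; simp [hg1]
    have hc' : algebraMap (ZMod p) F c ≠ 0 := by
      intro h0; exact hc ((map_eq_zero _).1 h0)
    have hay : a⁻¹ * y ≠ 0 := mul_ne_zero (inv_ne_zero ha) hy
    simp only [hg1]
    rw [show a⁻¹ * (algebraMap (ZMod p) F c * y) = algebraMap (ZMod p) F c * (a⁻¹ * y) by ring,
      ix_mul hω hd' hc' hay, ix_algebraMap hNp hω hd' hc, zero_add, map_mul,
      quadChar_algebraMap hp hF hf]
    split_ifs <;> ring
  have hsc2 : ∀ a : F, a ≠ 0 → ∀ c : ZMod p, c ≠ 0 → ∀ y,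
      g2 (a⁻¹ * (algebraMap (ZMod p) F c * y)) = g2 (a⁻¹ * y) := by
    intro a ha c hc y
    by_cases hy : y = 0
    · subst hy; simp [hg2]
    have hc' : algebraMap (ZMod p) F c ≠ 0 := by
      intro h0; exact hc ((map_eq_zero _).1 h0)
    have hay : a⁻¹ * y ≠ 0 := mul_ne_zero (inv_ne_zero ha) hy
    simp only [hg2]
    rw [show a⁻¹ * (algebraMap (ZMod p) F c * y) = algebraMap (ZMod p) F c * (a⁻¹ * y) by ring,
      if_neg (mul_ne_zero hc' hay), if_neg hay, ix_mul hω hd' hc' hay,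
      ix_algebraMap hNp hω hd' hc, zero_add]
  have htr : ∀ (g : F → ℤ) (a : F), a ≠ 0 → ∑ y, (g y : Ω) * psi hζ.pow_eq_one F (a * y) =
      ∑ y, (g (a⁻¹ * y) : Ω) * psi hζ.pow_eq_one F y := by
    intro g a ha
    rw [← Equiv.sum_comp (Equiv.mulLeft₀ a⁻¹ (inv_ne_zero ha))]
    apply Finset.sum_congr rfl
    intro y _
    have e1 : Equiv.mulLeft₀ a⁻¹ (inv_ne_zero ha) y = a⁻¹ * y := rfl
    rw [e1, mul_inv_cancel_left₀ ha]
  have hB0 : ∀ a : F, a ≠ 0 → ∑ y, (g2 y : Ω) * psi hζ.pow_eq_one F (a * y) = 0 := by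
    intro a ha
    have e1 : ∑ y, (g1 y : Ω) * psi hζ.pow_eq_one F (a * y) =
        (trs p (fun y => g1 (a⁻¹ * y)) 1 : Ω) * tau hζ.pow_eq_one := by
      rw [htr g1 a ha]
      exact sum_twisted hp hζ.pow_eq_one (fun y => g1 (a⁻¹ * y)) (hsc1 a ha)
    have e2 : ∑ y, (g2 y : Ω) * psi hζ.pow_eq_one F (a * y) =
        ((trs p (fun y => g2 (a⁻¹ * y)) 0 - trs p (fun y => g2 (a⁻¹ * y)) 1 : ℤ) : Ω) := by
      rw [htr g2 a ha]
      exact sum_untwisted hζ (fun y => g2 (a⁻¹ * y)) (hsc2 a ha)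
    set m := trs p (fun y => g1 (a⁻¹ * y)) 1 with hm
    set B := trs p (fun y => g2 (a⁻¹ * y)) 0 - trs p (fun y => g2 (a⁻¹ * y)) 1 with hB
    have e3 : ∑ y, (gg D y : Ω) * psi hζ.pow_eq_one F (a * y) =
        (m : Ω) * tau hζ.pow_eq_one + (B : Ω) := by
      rw [← e1, ← e2, ← Finset.sum_add_distrib]
      apply Finset.sum_congr rfl
      intro y _
      rw [hgg y]; push_cast; ring
    have e4 : ∑ y, (gg D y : Ω) * psi hζ.pow_eq_one F (-a * y) =
        ∑ y, (gg D y : Ω) * psi hζ.pow_eq_one F (a * y) := by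
      rw [← Equiv.sum_comp (Equiv.neg F)]
      apply Finset.sum_congr rfl
      intro y _
      rw [Equiv.neg_apply, hP.1, show -a * -y = a * y by ring]
    have e5 := hauto a ha
    rw [e4, e3, hF] at e5
    have e6 : 2 * (m : Ω) * B * tau hζ.pow_eq_one = (p : Ω) ^ f - m ^ 2 * p - B ^ 2 := by
      have : ((m : Ω) * tau hζ.pow_eq_one + (B : Ω)) * ((m : Ω) * tau hζ.pow_eq_one + (B : Ω)) =
          m ^ 2 * tau hζ.pow_eq_one ^ 2 + B ^ 2 + 2 * (m : Ω) * B * tau hζ.pow_eq_one := by ring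
      rw [this, hτ] at e5
      push_cast at e5
      linear_combination e5
    have e7 : (p : ℤ) * (2 * m * B) ^ 2 = ((p : ℤ) ^ f - m ^ 2 * p - B ^ 2) ^ 2 := by
      have : ((((p : ℤ) * (2 * m * B) ^ 2 : ℤ)) : Ω) =
          ((((p : ℤ) ^ f - m ^ 2 * p - B ^ 2) ^ 2 : ℤ) : Ω) := by
        push_cast
        rw [← e6, ← hτ]
        ring
      exact_mod_cast this
    -- `p x² = y²` forces `x = 0`
    have hsq : ∀ x y : ℤ, (p : ℤ) * x ^ 2 = y ^ 2 → x = 0 := by
      intro x y hxy
      by_contra hx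
      have hy : y ≠ 0 := by
        intro hy
        rw [hy] at hxy
        have : (p : ℤ) * x ^ 2 ≠ 0 := mul_ne_zero (by exact_mod_cast hpp.ne_zero) (pow_ne_zero 2 hx)
        apply this
        rw [hxy]; ring
      have hv := congrArg (padicValInt p) hxy
      rw [padicValInt.mul (by exact_mod_cast hpp.ne_zero) (pow_ne_zero 2 hx), pow_two, pow_two,
        padicValInt.mul hx hx, padicValInt.mul hy hy] at hv
      have : padicValInt p (p : ℤ) = 1 := padicValInt_self
      rw [this] at hv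
      omega
    have e8 := hsq _ _ e7
    have hBz : B = 0 := by
      rcases mul_eq_zero.1 e8 with h | h
      · have hm0 : m = 0 := by
          rcases mul_eq_zero.1 h with h' | h'
          · norm_num at h'
          · exact h'
        exfalso
        rw [hm0] at e7
        have e9 : B ^ 2 = (p : ℤ) ^ f := by
          have : ((p : ℤ) ^ f - B ^ 2) ^ 2 = 0 := by linear_combination -e7
          have := pow_eq_zero_iff (n := 2) (by norm_num) |>.1 this
          linarith
        obtain ⟨k, hk⟩ := hf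
        have e10 : (p : ℤ) * (p ^ k) ^ 2 = B ^ 2 := by rw [e9, hk]; ring
        have e11 := hsq _ _ e10
        exact absurd e11 (pow_ne_zero _ (by exact_mod_cast hpp.ne_zero))
      · exact h
    rw [e2, hBz]
    simp
  -- `g2` sums to zero
  have hs0 : ∑ y, g2 y = 0 := by
    have h1 := sum_ix hω hd' (fun v => quadraticChar (ZMod N) v)
    rw [quadraticChar_sum_zero (by rwa [ZMod.ringChar_zmod_n]), mul_zero] at h1
    rcases mul_eq_zero.1 h1 with h | h
    · exact absurd h (by exact_mod_cast hNN.ne_zero)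
    · exact h
  have hpars := parseval (psi_primitive hζ) (fun y => (g2 y : Ω))
  have hz : ∀ a : F, ∑ y, (g2 y : Ω) * psi hζ.pow_eq_one F (a * y) = 0 := by
    intro a
    by_cases ha : a = 0
    · subst ha
      simp only [zero_mul, AddChar.map_zero_eq_one, mul_one]
      exact_mod_cast hs0
    · exact hB0 a ha
  have hz2 : ∑ a, (∑ y, (g2 y : Ω) * psi hζ.pow_eq_one F (a * y)) *
      (∑ y, (g2 y : Ω) * psi hζ.pow_eq_one F (-a * y)) = 0 := by
    apply Finset.sum_eq_zero
    intro a _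
    rw [hz a, zero_mul]
  rw [hz2] at hpars
  have h5 : ((Fintype.card F : ℤ) * ∑ y, g2 y ^ 2) = 0 := by
    have : (((Fintype.card F : ℤ) * ∑ y, g2 y ^ 2 : ℤ) : Ω) = 0 := by
      push_cast
      exact hpars.symm
    exact_mod_cast this
  rcases mul_eq_zero.1 h5 with h | h
  · have := Fintype.card_pos (α := F)
    have : (Fintype.card F : ℤ) ≠ 0 := by exact_mod_cast this.ne'
    exact this h
  · have h6 := (Finset.sum_eq_zero_iff_of_nonneg (fun y _ => sq_nonneg (g2 y))).1 h ω (mem_univ _)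
    have e1 : ix N ω ω = 1 := by have := ix_pow hω hd' 1; simpa using this
    simp only [hg2, if_neg hω0, e1] at h6
    simp at h6

end

end Pool.Agent.CycU
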