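import Pool.Agent.LibCycU.O7
import Pool.Agent.LibCycU.O9
import Pool.Agent.LibCycU.E

/-! # The criterion in all cases -/

set_option autoImplicit false

open Finset

namespace Pool.Agent.CycU

theorem quadChar_two {N : ℕ} [Fact N.Prime] (hN : N ≠ 2) :
    quadraticChar (ZMod N) 2 = if N % 8 = 3 ∨ N % 8 = 5 then -1 else 1 := by
  have hodd : N % 2 = 1 := (Nat.Prime.eq_two_or_odd (Fact.out : N.Prime)).resolve_left hN
  rw [quadraticChar_two (by rwa [ZMod.ringChar_zmod_n]), ZMod.card, ZMod.χ₈_nat_eq_if_mod_eight]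
  split_ifs <;> omega

theorem W_neg_one_one (p : ℕ) {N : ℕ} [Fact N.Prime] (hN : N ≠ 2) :
    W p N 1 (-1 : ZMod N) = -1 := by
  have hNN := (Fact.out : N.Prime)
  have h3 : 2 < N := lt_of_le_of_ne hNN.two_le (Ne.symm hN)
  unfold W
  simp only [Finset.sum_range_one, pow_zero, one_mul]
  have h1 := ZMod.valMinAbs_spec (-1 : ZMod N) (-1)
  rw [h1]
  refine ⟨by simp, ?_⟩
  rw [Set.mem_Ioc]
  constructor <;> omega

theorem main_crit {p N f : ℕ} [Fact p.Prime] [Fact N.Prime] (hp : p ≠ 2) (hN : N ≠ 2)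
    (hpN : p ≠ N) (hf : f = orderOf (p : ZMod N))
    {F : Type} [Field F] [Fintype F] (hF : Fintype.card F = p ^ f)
    (Q : Subgroup (ZMod (2 * N))ˣ) (hQ : Q.index = 2) {ω : F}
    (hω : IsPrimitiveRoot ω (p ^ f - 1)) :
    (Admissible (DD N Q ω 0) ∨ Admissible (DD N Q ω (N : ZMod (2 * N)))) ↔
      Even f ∨ (Odd f ∧ (N % 8 = 3 ∨ N % 8 = 5) ∧ (Crit p N f 1 ∨ Crit p N f (-1))) := by
  classical
  have hpp := (Fact.out : p.Prime)
  have hNN := (Fact.out : N.Prime)
  have h3 : 2 < N := lt_of_le_of_ne hNN.two_le (Ne.symm hN)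
  have hp3 : 2 < p := lt_of_le_of_ne hpp.two_le (Ne.symm hp)
  have hpodd : Odd p := hpp.odd_of_ne_two hp
  have hNodd : Odd N := hNN.odd_of_ne_two hN
  rcases Nat.even_or_odd f with hfe | hfo
  · exact ⟨fun _ => Or.inl hfe, fun _ => Or.inl (Or.inr (even_case hp hN hpN hf hfe hF Q hQ hω))⟩
  have hω' : IsPrimitiveRoot ω (Fintype.card F - 1) := by rw [hF]; exact hω
  -- divisibility
  have hNd : N ∣ p ^ f - 1 := by
    have h1 : ((p ^ f - 1 : ℕ) : ZMod N) = 0 := by
      rw [Nat.cast_sub (Nat.one_le_pow _ _ hpp.pos)]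
      push_cast
      rw [hf, pow_orderOf_eq_one]
      ring
    exact (ZMod.natCast_eq_zero_iff _ _).1 h1
  have h2d : 2 ∣ p ^ f - 1 := by
    obtain ⟨k, hk⟩ := (hpodd.pow : Odd (p ^ f))
    exact ⟨k, by omega⟩
  have hd : 2 * N ∣ Fintype.card F - 1 := by
    rw [hF]
    exact Nat.Coprime.mul_dvd_of_dvd_of_dvd
      ((Nat.coprime_primes Nat.prime_two hNN).mpr (Ne.symm hN)) h2d hNd
  -- the algebra structure
  have hchar : CharP F p := by
    obtain ⟨r, hr⟩ := CharP.exists F
    have hrp : r.Prime := by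
      have := CharP.char_is_prime F r
      exact this
    obtain ⟨n, _, hn⟩ := FiniteField.card F r
    have h1 : r ∣ p ^ f := by
      rw [← hF, hn]
      exact dvd_pow_self r n.pos.ne'
    have h2 := (Nat.prime_dvd_prime_iff_eq hrp hpp).1 (hrp.dvd_of_dvd_pow h1)
    subst h2
    exact hr
  let _ : Algebra (ZMod p) F := ZMod.algebra F p
  have hpne : NeZero ((p : ℕ) : PadicAlgCl p) := ⟨by exact_mod_cast hpp.ne_zero⟩
  obtain ⟨ζ, hζ⟩ := HasEnoughRootsOfUnity.exists_primitiveRoot (PadicAlgCl p) p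
  have hb1 : base N 1 = 0 := by unfold base; simp
  have hb2 : base N (-1) = (N : ZMod (2 * N)) := by unfold base; simp
  have hne : ¬ Even f := by rwa [Nat.not_even_iff_odd]
  by_cases hf1 : f = 1
  · -- `f = 1`
    subst hf1
    have hF1 : Fintype.card F = p := by rw [hF, pow_one]
    have n1 := one_case hp hN hF1 hω' hd Q hQ (s := 1) (Or.inl rfl) hζ
    have n2 := one_case hp hN hF1 hω' hd Q hQ (s := -1) (Or.inr rfl) hζ
    rw [hb1] at n1
    rw [hb2] at n2
    have hw : wN p N = 0 := by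
      have hle : 2 * N ≤ p - 1 := by
        rw [hF, pow_one] at hd
        exact Nat.le_of_dvd (by omega) hd
      unfold wN
      apply padicValNat.eq_zero_of_not_dvd
      intro hdv
      have := Nat.le_of_dvd (by split_ifs <;> omega) hdv
      split_ifs at this <;> omega
    have hno : ∀ ε : ℤ, ¬ Crit p N 1 ε := by
      intro ε hc
      have h1 := hc (-1) (by simp)
      rw [W_neg_one_one p hN, hw] at h1
      simp at h1
    constructor
    · rintro (h | h)
      · exact absurd h n1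
      · exact absurd h n2
    · rintro (h | ⟨_, _, h | h⟩)
      · exact absurd h (by decide)
      · exact absurd h (hno _)
      · exact absurd h (hno _)
  -- `f > 1`
  have hNp : ¬ N ∣ p - 1 := by
    intro hdv
    apply hf1
    rw [hf, orderOf_eq_one_iff]
    have h1 : ((p - 1 : ℕ) : ZMod N) = 0 := (ZMod.natCast_eq_zero_iff _ _).2 hdv
    rw [Nat.cast_sub hpp.one_le] at h1
    push_cast at h1
    exact sub_eq_zero.1 h1
  by_cases h8 : N % 8 = 3 ∨ N % 8 = 5
  · have h2 : quadraticChar (ZMod N) 2 = -1 := by rw [quadChar_two hN, if_pos h8]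
    rw [odd_crit hp hN hpN hF hfo hNp hω' hd Q hQ h2]
    constructor
    · intro h; exact Or.inr ⟨hfo, h8, h⟩
    · rintro (h | ⟨_, _, h⟩)
      · exact absurd h hne
      · exact h
  · have h2 : quadraticChar (ZMod N) 2 = 1 := by rw [quadChar_two hN, if_neg h8]
    have n1 := res_case hp hN hF hfo hNp hω' hd Q hQ (s := 1) (Or.inl rfl) h2 hζ
    have n2 := res_case hp hN hF hfo hNp hω' hd Q hQ (s := -1) (Or.inr rfl) h2 hζ
    rw [hb1] at n1
    rw [hb2] at n2
    constructor
    · rintro (h | h)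
      · exact absurd h n1
      · exact absurd h n2
    · rintro (h | ⟨_, h, _⟩)
      · exact absurd h hne
      · exact absurd h h8

end Pool.Agent.CycU
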