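import Pool.Agent.LibCycU.O1
import Pool.Agent.LibCycU.C

/-! # The case of odd `f`, `2` a non-residue: reduction to the integers `m(v)` -/

set_option autoImplicit false

open Finset

namespace Pool.Agent.CycU

section

variable {F : Type} [Field F] [Fintype F] [DecidableEq F] {ω : F}

theorem quadChar_prim (hω : IsPrimitiveRoot ω (Fintype.card F - 1)) (hch : ringChar F ≠ 2) :
    quadraticChar F ω = -1 := by
  rw [quadraticChar_neg_one_iff_not_isSquare]
  intro hsq
  have h1 : 2 < Fintype.card F := by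
    have h2 := Fintype.one_lt_card (α := F)
    have h3 := FiniteField.odd_card_of_char_ne_two hch
    omega
  have hω0 : ω ≠ 0 := hω.ne_zero (by omega)
  have h2 := (FiniteField.isSquare_iff hch hω0).1 hsq
  have h3 := hω.pow_ne_one_of_pos_of_lt (l := Fintype.card F / 2) (by omega) (by omega)
  exact h3 h2

theorem quadChar_pow (hω : IsPrimitiveRoot ω (Fintype.card F - 1)) (hch : ringChar F ≠ 2)
    (i : ℕ) : quadraticChar F (ω ^ i) = (-1) ^ i := by
  rw [map_pow, quadChar_prim hω hch]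

omit [Fintype F] [DecidableEq F] in
theorem ggz (D : Set F) : gg D 0 = 0 := by
  unfold gg; simp

theorem gg_kap {N : ℕ} [Fact N.Prime] (hN : N ≠ 2) (Q : Subgroup (ZMod (2 * N))ˣ)
    (hQ : Q.index = 2) (hω : IsPrimitiveRoot ω (Fintype.card F - 1)) (hch : ringChar F ≠ 2)
    (hd : 2 * N ∣ Fintype.card F - 1) {s : ℤ} (hs : s = 1 ∨ s = -1)
    (h2 : quadraticChar (ZMod N) 2 = -1) (x : F) :
    gg (DD N Q ω (base N s)) x = quadraticChar F x * kap N s (ix N ω x) := by
  by_cases hx : x = 0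
  · subst hx; rw [ggz]; simp
  obtain ⟨i, rfl⟩ := exists_pow_eq hω hx
  rw [gg_pow hN Q hQ hω hd hs, quadChar_pow hω hch, ix_pow hω ((dvd_mul_left N 2).trans hd)]
  unfold eps kap
  by_cases hi : (i : ZMod N) = 0
  · rw [if_pos hi, if_pos hi]; ring
  · rw [if_neg hi, if_neg hi, h2]
    by_cases he : Even i
    · rw [if_pos he, he.neg_one_pow]; ring
    · rw [if_neg he, (Nat.not_even_iff_odd.1 he).neg_one_pow]; ring

omit [DecidableEq F] in
theorem ix_neg_one {N : ℕ} [Fact N.Prime] (hN : N ≠ 2)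
    (hω : IsPrimitiveRoot ω (Fintype.card F - 1)) (hd : N ∣ Fintype.card F - 1) :
    ix N ω (-1 : F) = 0 := by
  have h1 := ix_npow hω hd (x := (-1 : F)) (by simp) 2
  rw [neg_one_sq, ix_one hω hd] at h1
  have h2 : (2 : ZMod N) ≠ 0 := Ring.two_ne_zero (by rwa [ZMod.ringChar_zmod_n])
  rcases mul_eq_zero.1 h1.symm with h | h
  · exact absurd h (by exact_mod_cast h2)
  · exact h

omit [DecidableEq F] in
theorem ix_inv {N : ℕ} (hω : IsPrimitiveRoot ω (Fintype.card F - 1))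
    (hd : N ∣ Fintype.card F - 1) {x : F} (hx : x ≠ 0) : ix N ω x⁻¹ = -ix N ω x := by
  have h1 := ix_mul hω hd hx (inv_ne_zero hx)
  rw [mul_inv_cancel₀ hx, ix_one hω hd] at h1
  exact (neg_eq_of_add_eq_zero_right h1.symm).symm

/-- shifted function -/
noncomputable def EE (N : ℕ) [Fact N.Prime] (s : ℤ) (ω : F) (v : ZMod N) (y : F) : ℤ :=
  quadraticChar F y * kap N s (ix N ω y - v)

theorem four_shift {N : ℕ} [Fact N.Prime] {Ω : Type} [Field Ω]
    (hω : IsPrimitiveRoot ω (Fintype.card F - 1)) (hd : N ∣ Fintype.card F - 1) (s : ℤ)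
    (ψ : AddChar F Ω) {a : F} (ha : a ≠ 0) :
    ∑ y, ((quadraticChar F y * kap N s (ix N ω y) : ℤ) : Ω) * ψ (a * y) =
      (quadraticChar F a : Ω) * ∑ y, (EE N s ω (ix N ω a) y : Ω) * ψ y := by
  rw [← Equiv.sum_comp (Equiv.mulLeft₀ a⁻¹ (inv_ne_zero ha)), Finset.mul_sum]
  apply Finset.sum_congr rfl
  intro y _
  have e1 : Equiv.mulLeft₀ a⁻¹ (inv_ne_zero ha) y = a⁻¹ * y := rfl
  rw [e1, mul_inv_cancel_left₀ ha]
  have hq : quadraticChar F a⁻¹ = quadraticChar F a := by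
    have h1 := quadraticChar_sq_one ha
    have h2 : quadraticChar F a * quadraticChar F a⁻¹ = 1 := by
      rw [← map_mul, mul_inv_cancel₀ ha, map_one]
    have h3 : quadraticChar F a ≠ 0 := by
      intro h0; rw [h0] at h1; norm_num at h1
    apply mul_left_cancel₀ h3
    rw [h2, ← pow_two, h1]
  unfold EE
  by_cases hy : y = 0
  · subst hy; simp
  rw [map_mul, hq, ix_mul hω hd (inv_ne_zero ha) hy, ix_inv hω hd ha]
  rw [show -ix N ω a + ix N ω y = ix N ω y - ix N ω a by ring]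
  push_cast
  ring

end

section

variable {p : ℕ} [Fact p.Prime] {F : Type} [Field F] [Fintype F] [DecidableEq F]
  [Algebra (ZMod p) F] {f : ℕ} {ω : F}

omit [DecidableEq F] in
theorem ix_algebraMap {N : ℕ} [Fact N.Prime] (hNp : ¬ N ∣ p - 1)
    (hω : IsPrimitiveRoot ω (Fintype.card F - 1)) (hd : N ∣ Fintype.card F - 1) {c : ZMod p}
    (hc : c ≠ 0) : ix N ω (algebraMap (ZMod p) F c) = 0 := by
  have hc' : algebraMap (ZMod p) F c ≠ 0 := by
    intro h0; exact hc ((map_eq_zero _).1 h0)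
  have h1 := ix_npow hω hd hc' (p - 1)
  rw [← map_pow, ZMod.pow_card_sub_one_eq_one hc, map_one, ix_one hω hd] at h1
  rcases mul_eq_zero.1 h1.symm with h | h
  · exact absurd ((ZMod.natCast_eq_zero_iff _ _).1 h) hNp
  · exact h

theorem EE_smul {N : ℕ} [Fact N.Prime] (hp : p ≠ 2) (hF : Fintype.card F = p ^ f) (hf : Odd f)
    (hNp : ¬ N ∣ p - 1) (hω : IsPrimitiveRoot ω (Fintype.card F - 1))
    (hd : N ∣ Fintype.card F - 1) (s : ℤ) (v : ZMod N) {c : ZMod p} (hc : c ≠ 0) (y : F) :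
    EE N s ω v (algebraMap (ZMod p) F c * y) = quadraticChar (ZMod p) c * EE N s ω v y := by
  unfold EE
  by_cases hy : y = 0
  · subst hy; simp
  have hc' : algebraMap (ZMod p) F c ≠ 0 := by
    intro h0; exact hc ((map_eq_zero _).1 h0)
  rw [map_mul, quadChar_algebraMap hp hF hf, ix_mul hω hd hc' hy, ix_algebraMap hNp hω hd hc,
    zero_add, mul_assoc]

/-- the integers `m(v)` -/
noncomputable def mm (p : ℕ) [Fact p.Prime] [Algebra (ZMod p) F] (N : ℕ) [Fact N.Prime] (s : ℤ)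
    (ω : F) (v : ZMod N) : ℤ := trs p (EE N s ω v) 1

theorem sum_EE {N : ℕ} [Fact N.Prime] {Ω : Type} [Field Ω] {ζ : Ω} (hζ : ζ ^ p = 1)
    (hp : p ≠ 2) (hF : Fintype.card F = p ^ f) (hf : Odd f)
    (hNp : ¬ N ∣ p - 1) (hω : IsPrimitiveRoot ω (Fintype.card F - 1))
    (hd : N ∣ Fintype.card F - 1) (s : ℤ) (v : ZMod N) :
    ∑ y, (EE N s ω v y : Ω) * psi hζ F y = (mm p N s ω v : Ω) * tau hζ :=
  sum_twisted hp hζ _ fun _ hc y => EE_smul hp hF hf hNp hω hd s v hc y

end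

end Pool.Agent.CycU
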