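import Pool.Agent.LibCycU.O3

/-! # Parseval and the divisibility criterion -/

set_option autoImplicit false

open Finset

namespace Pool.Agent.CycU

theorem parseval {F Ω : Type} [Field F] [Fintype F] [DecidableEq F] [Field Ω]
    {ψ : AddChar F Ω} (hψ : ψ.IsPrimitive) (g : F → Ω) :
    ∑ a, (∑ y, g y * ψ (a * y)) * (∑ y, g y * ψ (-a * y)) = (Fintype.card F : Ω) * ∑ y, g y ^ 2 := by
  have h1 : ∀ a : F, (∑ y, g y * ψ (a * y)) * (∑ y, g y * ψ (-a * y)) =
      ∑ y, ∑ z, g y * g z * ψ (a * (y - z)) := by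
    intro a
    rw [Finset.sum_mul_sum]
    apply Finset.sum_congr rfl
    intro y _
    apply Finset.sum_congr rfl
    intro z _
    rw [show a * (y - z) = a * y + -a * z by ring, AddChar.map_add_eq_mul]
    ring
  rw [Finset.sum_congr rfl fun a _ => h1 a, Finset.sum_comm, Finset.mul_sum]
  apply Finset.sum_congr rfl
  intro y _
  rw [Finset.sum_comm]
  rw [Finset.sum_eq_single y]
  · have : ∀ a : F, g y * g y * ψ (a * (y - y)) = g y ^ 2 := by
      intro a; rw [sub_self, mul_zero, AddChar.map_zero_eq_one]; ring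
    rw [Finset.sum_congr rfl fun a _ => this a, Finset.sum_const, Finset.card_univ, nsmul_eq_mul]
  · intro z _ hz
    rw [← Finset.mul_sum]
    have h2 : ∑ a : F, ψ (a * (y - z)) = 0 := by
      have := AddChar.sum_mulShift (y - z) hψ
      rw [if_neg (sub_ne_zero.2 (Ne.symm hz))] at this
      exact_mod_cast this
    rw [h2, mul_zero]
  · intro h; exact absurd (mem_univ _) h

section

variable {F : Type} [Field F] [Fintype F] [DecidableEq F] {ω : F} {N : ℕ} [Fact N.Prime]

theorem sum_ix (hω : IsPrimitiveRoot ω (Fintype.card F - 1)) (hd : N ∣ Fintype.card F - 1)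
    (φ : ZMod N → ℤ) :
    (N : ℤ) * ∑ a : F, (if a = 0 then 0 else φ (ix N ω a)) =
      ((Fintype.card F : ℤ) - 1) * ∑ v, φ v := by
  have hω0 : ω ≠ 0 := hω.ne_zero (by have := Fintype.one_lt_card (α := F); omega)
  set c : ZMod N → ℕ := fun v => (Finset.univ.filter fun a : F => a ≠ 0 ∧ ix N ω a = v).card with hc
  have h1 : ∀ v, c v = c 0 := by
    intro v
    obtain ⟨i, hi⟩ := ZMod.natCast_zmod_surjective v
    apply Eq.symm
    apply Finset.card_bij (fun a _ => ω ^ i * a)
    · intro a ha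
      rw [Finset.mem_filter] at ha ⊢
      refine ⟨mem_univ _, mul_ne_zero (pow_ne_zero i hω0) ha.2.1, ?_⟩
      rw [ix_mul hω hd (pow_ne_zero i hω0) ha.2.1, ix_pow hω hd, ha.2.2, hi, add_zero]
    · intro a _ b _ hab
      exact mul_left_cancel₀ (pow_ne_zero i hω0) hab
    · intro b hb
      rw [Finset.mem_filter] at hb
      refine ⟨(ω ^ i)⁻¹ * b, ?_, ?_⟩
      · rw [Finset.mem_filter]
        refine ⟨mem_univ _, mul_ne_zero (inv_ne_zero (pow_ne_zero i hω0)) hb.2.1, ?_⟩
        rw [ix_mul hω hd (inv_ne_zero (pow_ne_zero i hω0)) hb.2.1,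
          ix_inv hω hd (pow_ne_zero i hω0), ix_pow hω hd, hb.2.2, hi]
        ring
      · rw [mul_inv_cancel_left₀ (pow_ne_zero i hω0)]
  have h2 : ∀ ψ : ZMod N → ℤ, ∑ a : F, (if a = 0 then 0 else ψ (ix N ω a)) = ∑ v, (c v : ℤ) * ψ v := by
    intro ψ
    have h3 : ∀ v, (c v : ℤ) * ψ v = ∑ a : F, if a ≠ 0 ∧ ix N ω a = v then ψ v else 0 := by
      intro v
      rw [← Finset.sum_filter, Finset.sum_const, nsmul_eq_mul]
    rw [Finset.sum_congr rfl fun v _ => h3 v, Finset.sum_comm]
    apply Finset.sum_congr rfl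
    intro a _
    by_cases ha : a = 0
    · simp [ha]
    · rw [if_neg ha, Finset.sum_eq_single (ix N ω a)]
      · rw [if_pos ⟨ha, rfl⟩]
      · intro v _ hv
        rw [if_neg]
        rintro ⟨_, h⟩; exact hv h.symm
      · intro h; exact absurd (mem_univ _) h
  have h3 := h2 (fun _ => 1)
  have h4 : ∑ a : F, (if a = 0 then (0 : ℤ) else 1) = (Fintype.card F : ℤ) - 1 := by
    have : ∀ a : F, (if a = 0 then (0 : ℤ) else 1) = 1 - if a = 0 then 1 else 0 := by
      intro a; split_ifs <;> simp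
    rw [Finset.sum_congr rfl fun a _ => this a, Finset.sum_sub_distrib]
    simp
  rw [h4] at h3
  rw [h2 φ]
  have h5 : ∑ v, (c v : ℤ) * φ v = (c 0 : ℤ) * ∑ v, φ v := by
    rw [Finset.mul_sum]
    apply Finset.sum_congr rfl
    intro v _
    rw [h1 v]
  have h6 : ∑ v : ZMod N, (c v : ℤ) * 1 = N * (c 0 : ℤ) := by
    have : ∀ v, (c v : ℤ) * 1 = c 0 := by intro v; rw [h1 v, mul_one]
    rw [Finset.sum_congr rfl fun v _ => this v, Finset.sum_const, Finset.card_univ, ZMod.card,
      nsmul_eq_mul]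
  rw [h6] at h3
  rw [h5, h3]
  ring

end

section

variable {p : ℕ} [Fact p.Prime] {F : Type} [Field F] [Fintype F] [DecidableEq F]
  [Algebra (ZMod p) F] {f : ℕ} {ω : F} {N : ℕ} [Fact N.Prime]

theorem sum_mm_sq (hp : p ≠ 2) (hN : N ≠ 2) (hF : Fintype.card F = p ^ f) (hf : Odd f)
    (hNp : ¬ N ∣ p - 1) (hω : IsPrimitiveRoot ω (Fintype.card F - 1))
    (hd : N ∣ Fintype.card F - 1)
    {s : ℤ} (hs : s = 1 ∨ s = -1)
    {Ω : Type} [Field Ω] [CharZero Ω] {ζ : Ω} (hζ : IsPrimitiveRoot ζ p) :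
    (p : ℤ) * ∑ v : ZMod N, mm p N s ω v ^ 2 = N * p ^ f := by
  have hpp := (Fact.out : p.Prime)
  have hNN := (Fact.out : N.Prime)
  have hch : ringChar F ≠ 2 := by rwa [ringChar_eq p F]
  set g : F → ℤ := fun y => quadraticChar F y * kap N s (ix N ω y) with hg
  have hfour : ∀ a : F, a ≠ 0 → ∑ y, (g y : Ω) * psi hζ.pow_eq_one F (a * y) =
      (quadraticChar F a : Ω) * ((mm p N s ω (ix N ω a) : Ω) * tau hζ.pow_eq_one) := by
    intro a ha
    rw [← sum_EE hζ.pow_eq_one hp hF hf hNp hω hd s (ix N ω a),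
      ← four_shift hω hd s (psi hζ.pow_eq_one F) ha]
  have hkey : ∀ a : F, a ≠ 0 → (∑ y, (g y : Ω) * psi hζ.pow_eq_one F (a * y)) *
      (∑ y, (g y : Ω) * psi hζ.pow_eq_one F (-a * y)) =
        ((p * mm p N s ω (ix N ω a) ^ 2 : ℤ) : Ω) := by
    intro a ha
    rw [hfour a ha, hfour (-a) (neg_ne_zero.2 ha)]
    have e1 : ix N ω (-a) = ix N ω a := by
      rw [← neg_one_mul, ix_mul hω hd (by simp) ha, ix_neg_one hN hω hd, zero_add]
    have e2 : quadraticChar F (-a) = quadraticChar F (-1) * quadraticChar F a := by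
      rw [← neg_one_mul, map_mul]
    have e3 : (quadraticChar F a : Ω) ^ 2 = 1 := by
      have := congrArg (Int.cast : ℤ → Ω) (quadraticChar_sq_one ha)
      push_cast at this
      exact this
    have e4 : quadraticChar F (-1) = quadraticChar (ZMod p) (-1) := by
      have := quadChar_algebraMap hp hF hf (-1 : ZMod p)
      rwa [map_neg, map_one] at this
    have e5 : tau hζ.pow_eq_one ^ 2 = (Nst p : Ω) := tau_sq hp hζ
    have e6 : (quadraticChar (ZMod p) (-1) : Ω) * (Nst p : Ω) = (p : Ω) := by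
      unfold Nst
      have := congrArg (Int.cast : ℤ → Ω) (quadraticChar_sq_one (F := ZMod p) (a := -1) (by simp))
      push_cast at this ⊢
      linear_combination (p : Ω) * this
    rw [e1, e2, e4]
    push_cast
    calc _ = (quadraticChar F a : Ω) ^ 2 * (quadraticChar (ZMod p) (-1) : Ω) *
          (mm p N s ω (ix N ω a) : Ω) ^ 2 * tau hζ.pow_eq_one ^ 2 := by ring
      _ = _ := by
        rw [e3, e5]
        linear_combination (mm p N s ω (ix N ω a) : Ω) ^ 2 * e6
  -- sum of g is zero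
  have hg0 : ∑ y, g y = 0 := by
    obtain ⟨c, hc⟩ := quadraticChar_exists_neg_one (F := ZMod p) (by rwa [ZMod.ringChar_zmod_n])
    have hc0 : c ≠ 0 := by
      intro h0; rw [h0] at hc; simp at hc
    have hc' : algebraMap (ZMod p) F c ≠ 0 := by
      intro h0; exact hc0 ((map_eq_zero _).1 h0)
    have h1 : ∑ y, g y = ∑ y, g (algebraMap (ZMod p) F c * y) :=
      (Equiv.sum_comp (Equiv.mulLeft₀ _ hc') g).symm
    have h2 : ∀ y, g (algebraMap (ZMod p) F c * y) = -g y := by
      intro y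
      have := EE_smul hp hF hf hNp hω hd s 0 hc0 y
      unfold EE at this
      simp only [sub_zero] at this
      rw [hg]
      simp only
      rw [this, hc]
      ring
    rw [Finset.sum_congr rfl fun y _ => h2 y, Finset.sum_neg_distrib] at h1
    linarith
  have hg2 : ∑ y, g y ^ 2 = (Fintype.card F : ℤ) - 1 := by
    have : ∀ y, g y ^ 2 = 1 - if y = 0 then 1 else 0 := by
      intro y
      by_cases hy : y = 0
      · subst hy; simp [hg]
      · rw [if_neg hy, hg]
        simp only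
        rw [mul_pow, kap_sq hs, quadraticChar_sq_one hy]; norm_num
    rw [Finset.sum_congr rfl fun y _ => this y, Finset.sum_sub_distrib]
    simp
  have hP := parseval (psi_primitive hζ) (fun y => (g y : Ω))
  have hL : ∑ a : F, (∑ y, (g y : Ω) * psi hζ.pow_eq_one F (a * y)) *
      (∑ y, (g y : Ω) * psi hζ.pow_eq_one F (-a * y)) =
      ((∑ a : F, (if a = 0 then 0 else p * mm p N s ω (ix N ω a) ^ 2) : ℤ) : Ω) := by
    rw [Int.cast_sum]
    apply Finset.sum_congr rfl
    intro a _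
    by_cases ha : a = 0
    · subst ha
      rw [if_pos rfl]
      have : ∑ y, (g y : Ω) * psi hζ.pow_eq_one F (0 * y) = 0 := by
        simp only [zero_mul, AddChar.map_zero_eq_one, mul_one]
        exact_mod_cast hg0
      rw [this]; simp
    · rw [if_neg ha, hkey a ha]
  rw [hL] at hP
  have hP2 : ∑ a : F, (if a = 0 then 0 else p * mm p N s ω (ix N ω a) ^ 2) =
      (Fintype.card F : ℤ) * ((Fintype.card F : ℤ) - 1) := by
    rw [← hg2]
    exact_mod_cast hP
  have h7 := sum_ix hω hd (fun v => (p : ℤ) * mm p N s ω v ^ 2)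
  rw [hP2, ← Finset.mul_sum] at h7
  have hq1 : ((Fintype.card F : ℤ) - 1) ≠ 0 := by
    have := Fintype.one_lt_card (α := F)
    have : (1 : ℤ) < Fintype.card F := by exact_mod_cast this
    linarith
  apply mul_left_cancel₀ hq1
  rw [← h7, hF]
  push_cast
  ring

/-- the divisibility criterion -/
theorem m_iff_dvd (hp : p ≠ 2) (hN : N ≠ 2) (hF : Fintype.card F = p ^ f) (hf : Odd f)
    (hNp : ¬ N ∣ p - 1) (hω : IsPrimitiveRoot ω (Fintype.card F - 1))
    (hd : N ∣ Fintype.card F - 1)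
    {s : ℤ} (hs : s = 1 ∨ s = -1)
    {Ω : Type} [Field Ω] [CharZero Ω] {ζ : Ω} (hζ : IsPrimitiveRoot ζ p) :
    (∀ v : ZMod N, (p : ℤ) * mm p N s ω v ^ 2 = p ^ f) ↔
      ∀ v : ZMod N, (p : ℤ) ^ ((f - 1) / 2) ∣ mm p N s ω v := by
  have hpp := (Fact.out : p.Prime)
  obtain ⟨k, hk⟩ := hf
  have hk2 : (f - 1) / 2 = k := by omega
  rw [hk2]
  have hp0 : (p : ℤ) ≠ 0 := by exact_mod_cast hpp.ne_zero
  constructor
  · intro h v
    have h1 := h v
    have h2 : mm p N s ω v ^ 2 = ((p : ℤ) ^ k) ^ 2 := by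
      apply mul_left_cancel₀ hp0
      rw [h1, hk]; ring
    exact (Int.pow_dvd_pow_iff (n := 2) (by norm_num)).1 (by rw [h2])
  · intro h
    choose hh hhv using h
    have h1 := sum_mm_sq hp hN hF ⟨k, hk⟩ hNp hω hd hs hζ
    have h2 : ∀ v, Odd (hh v) := by
      intro v
      have := mm_odd (N := N) hp hF hs ω v
      rw [hhv v] at this
      exact (Int.odd_mul.1 this).2
    have h3 : ∑ v : ZMod N, (hh v ^ 2 - 1) = 0 := by
      have e1 : ∑ v : ZMod N, mm p N s ω v ^ 2 = (p : ℤ) ^ (2 * k) * ∑ v, hh v ^ 2 := by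
        rw [Finset.mul_sum]
        apply Finset.sum_congr rfl
        intro v _
        rw [hhv v]; ring
      rw [e1, hk] at h1
      have hpk : (p : ℤ) ^ (2 * k + 1) ≠ 0 := pow_ne_zero _ hp0
      have e2 : ∑ v, hh v ^ 2 = (N : ℤ) := by
        apply mul_left_cancel₀ hpk
        rw [pow_succ] at h1 ⊢
        linarith
      rw [Finset.sum_sub_distrib, e2]
      simp
    have h4 : ∀ v ∈ (Finset.univ : Finset (ZMod N)), 0 ≤ hh v ^ 2 - 1 := by
      intro v _
      have h5 : hh v ≠ 0 := by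
        intro h0
        have := h2 v
        rw [h0] at this
        exact absurd this (by decide)
      have : 0 < hh v ^ 2 := by positivity
      linarith
    have h5 := (Finset.sum_eq_zero_iff_of_nonneg h4).1 h3
    intro v
    have h6 := h5 v (mem_univ v)
    rw [hhv v, hk]
    have : hh v ^ 2 = 1 := by linarith
    rw [mul_pow, this]
    ring

end

end Pool.Agent.CycU
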