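import Pool.Agent.LibCycU.Chars

/-!
TASK S1 (Stickelberger, valuations of the Gauss sums).

Paper proof. Put `q = p^f`, `π = ζ - 1`. All norms: `‖(p : Ω)‖ = 1/p`, ultrametric.
(a) `‖n‖ = 1` for integers prime to `p`; roots of unity have norm 1; `‖π‖^(p-1) = 1/p`
    (`∏_{0<i<p} (1 - ζ^i) = p` and `‖1 - ζ^i‖ = ‖1 - ζ‖`).
(b) For a multiplicative character `χ` let `S χ = ∑_{x ≠ 0} χ(x) n_x`, `n_x = (Tr x).val`. As
    `ζ^n = (1+π)^n ≡ 1 + nπ mod π²`: for `χ ≠ 1`, `‖G(χ) - π S(χ)‖ ≤ ‖π‖²`.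
    Some `χ ≠ 1` has `‖S χ‖ = 1`: all `‖S χ‖ ≤ 1`, and `(q-1) n_x = ∑_χ S(χ) χ⁻¹(x)`
    (all characters `F → Ω`, orthogonality; `Ω` has enough roots of unity), take `x` with
    `Tr x = 1`; and `S(1) = (q/p) p (p-1)/2` has norm `< 1`. Hence `‖G(χ)‖ = ‖π‖`. Fix this `χ`.
(c) For all characters `α β`: `‖G(α)‖ ‖G(β)‖ ≤ ‖G(α β)‖` (`jacobiSum_mul_nontrivial` if
    `α β ≠ 1`; `G(1) = -1` and all `‖G‖ ≤ 1`).  `G(α^p) = G(α)` (substitution `x ↦ x^p`,
    `Tr (x^p) = Tr x`). So `‖π‖^(digit sum of a) ≤ ‖G(χ^a)‖` by strong induction on `a`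
    (`a = p b + r`).
(d) `‖G(α)‖ ‖G(α⁻¹)‖ = p^{-f}` for `α ≠ 1`.
(e) digit sums: `s(a) + s(q-1-a) = f (p-1)` for `a < q` (induction on `f`).
(f) `d := orderOf χ` divides `q - 1`. If `d < q - 1` then `d - 1 ≤ (q-3)/2` and
    `‖π‖^{s(d-1)} ≤ ‖G(χ^{d-1})‖ = ‖G(χ⁻¹)‖ = p^{-f}/‖π‖ = ‖π‖^{f(p-1)-1}`, so
    `s(d-1) ≥ f(p-1) - 1`, `s(q-d) ≤ 1`; but `(q+1)/2 ≤ q - d < q` is not `0` nor a power of `p`
    (`p ≥ 3`). Contradiction, so `d = q - 1`.
(g) for `0 < a < q-1`: `χ^a ≠ 1`, and (c), (d), (e) for `a` and `q-1-a` give equality.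
-/

set_option autoImplicit false

open Finset

namespace Pool.Agent.CycU

namespace S1

variable {p : ℕ} [hpr : Fact p.Prime] {Ω : Type} [NormedField Ω] [IsUltrametricDist Ω]

theorem norm_nat_le (n : ℕ) : ‖(n : Ω)‖ ≤ 1 := IsUltrametricDist.norm_natCast_le_one Ω n

theorem norm_int_le (n : ℤ) : ‖(n : Ω)‖ ≤ 1 := IsUltrametricDist.norm_intCast_le_one Ω n

omit [IsUltrametricDist Ω] in
theorem norm_root {x : Ω} {n : ℕ} (hn : n ≠ 0) (h : x ^ n = 1) : ‖x‖ = 1 :=
  by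
  have h1 : ‖x‖ ^ n = 1 := by rw [← norm_pow, h, norm_one]
  exact (pow_eq_one_iff_of_nonneg (norm_nonneg _) hn).1 h1

theorem norm_coprime (hpn : ‖(p : Ω)‖ = (p : ℝ)⁻¹) {n : ℕ} (hn : n.Coprime p) :
    ‖(n : Ω)‖ = 1 := by
  apply le_antisymm (norm_nat_le n)
  have h1 : ((n.gcdA p : ℤ) : Ω) * n + ((n.gcdB p : ℤ) : Ω) * p = 1 := by
    have := Nat.gcd_eq_gcd_ab n p
    rw [hn] at this
    have h2 : ((1 : ℕ) : ℤ) = n * n.gcdA p + p * n.gcdB p := by exact_mod_cast this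
    have h3 : ((1 : ℤ) : Ω) = ((n * n.gcdA p + p * n.gcdB p : ℤ) : Ω) := by
      exact_mod_cast congrArg (Int.cast : ℤ → Ω) h2
    push_cast at h3
    rw [h3]; ring
  have hp1 : (1 : ℝ) < p := by exact_mod_cast hpr.out.one_lt
  have hlt : ‖((n.gcdB p : ℤ) : Ω) * p‖ < 1 := by
    rw [norm_mul, hpn]
    calc _ ≤ 1 * (p : ℝ)⁻¹ := by
          apply mul_le_mul_of_nonneg_right (norm_int_le _) (by positivity)
      _ < 1 := by rw [one_mul]; exact inv_lt_one_of_one_lt₀ hp1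
  have h4 : (1 : ℝ) ≤ max ‖((n.gcdA p : ℤ) : Ω) * n‖ ‖((n.gcdB p : ℤ) : Ω) * p‖ := by
    have := IsUltrametricDist.norm_add_le_max (((n.gcdA p : ℤ) : Ω) * n) (((n.gcdB p : ℤ) : Ω) * p)
    rw [h1, norm_one] at this
    exact this
  rcases le_max_iff.1 h4 with h | h
  · rw [norm_mul] at h
    calc (1 : ℝ) ≤ _ := h
      _ ≤ 1 * ‖(n : Ω)‖ := by
          apply mul_le_mul_of_nonneg_right (norm_int_le _) (norm_nonneg _)
      _ = _ := one_mul _
  · exact absurd h (not_le.2 hlt)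

/-- `‖ζ^n - 1 - n (ζ-1)‖ ≤ ‖ζ-1‖^2` -/
theorem pow_approx {ζ : Ω} (hζ : ‖ζ‖ ≤ 1) (n : ℕ) :
    ‖ζ ^ n - 1 - n * (ζ - 1)‖ ≤ ‖ζ - 1‖ ^ 2 := by
  induction n with
  | zero => simp
  | succ n ih =>
    have h : ζ ^ (n + 1) - 1 - ((n + 1 : ℕ) : Ω) * (ζ - 1)
        = ζ * (ζ ^ n - 1 - n * (ζ - 1)) + n * (ζ - 1) ^ 2 := by
      push_cast; ring
    rw [h]
    refine (IsUltrametricDist.norm_add_le_max _ _).trans (max_le ?_ ?_)
    · rw [norm_mul]
      calc _ ≤ 1 * ‖ζ ^ n - 1 - n * (ζ - 1)‖ :=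
            mul_le_mul_of_nonneg_right hζ (norm_nonneg _)
        _ ≤ _ := by rw [one_mul]; exact ih
    · rw [norm_mul, norm_pow]
      calc _ ≤ 1 * ‖ζ - 1‖ ^ 2 :=
            mul_le_mul_of_nonneg_right (norm_nat_le n) (by positivity)
        _ = _ := one_mul _

theorem norm_one_sub_pow_le {ζ : Ω} (hζ : ‖ζ‖ ≤ 1) (n : ℕ) : ‖ζ ^ n - 1‖ ≤ ‖ζ - 1‖ := by
  rw [← mul_geom_sum ζ n, norm_mul]
  calc _ ≤ ‖ζ - 1‖ * 1 := by
        apply mul_le_mul_of_nonneg_left _ (norm_nonneg _)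
        apply IsUltrametricDist.norm_sum_le_of_forall_le_of_nonneg zero_le_one
        intro i _
        rw [norm_pow]
        exact pow_le_one₀ (norm_nonneg _) hζ
    _ = _ := mul_one _

theorem norm_pi_pow (hpn : ‖(p : Ω)‖ = (p : ℝ)⁻¹) {ζ : Ω} (hζ : IsPrimitiveRoot ζ p) :
    ‖ζ - 1‖ ^ (p - 1) = (p : ℝ)⁻¹ := by
  have hp0 : p ≠ 0 := hpr.out.ne_zero
  have key : ∀ μ ∈ primitiveRoots p Ω, ‖1 - μ‖ = ‖ζ - 1‖ := by
    intro μ hμ
    rw [mem_primitiveRoots hpr.out.pos] at hμ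
    have h1 : ‖μ‖ ≤ 1 := (norm_root hp0 hμ.pow_eq_one).le
    have h2 : ‖ζ‖ ≤ 1 := (norm_root hp0 hζ.pow_eq_one).le
    obtain ⟨i, _, hi⟩ := hζ.eq_pow_of_pow_eq_one hμ.pow_eq_one
    obtain ⟨j, _, hj⟩ := hμ.eq_pow_of_pow_eq_one hζ.pow_eq_one
    rw [norm_sub_rev]
    apply le_antisymm
    · rw [← hi]; exact norm_one_sub_pow_le h2 i
    · rw [← hj]; exact norm_one_sub_pow_le h1 j
  have hprod : (p : Ω) = ∏ μ ∈ primitiveRoots p Ω, (1 - μ) := by
    have h := Polynomial.cyclotomic_eq_prod_X_sub_primitiveRoots hζ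
    have h2 := Polynomial.eval_one_cyclotomic_prime (R := Ω) (p := p)
    rw [h, Polynomial.eval_prod] at h2
    simpa using h2.symm
  rw [← hpn, hprod, norm_prod, Finset.prod_congr rfl key, Finset.prod_const, hζ.card_primitiveRoots,
    Nat.totient_prime hpr.out]

omit [IsUltrametricDist Ω] in
theorem norm_pi_pos {ζ : Ω} (hζ : IsPrimitiveRoot ζ p) :
    0 < ‖ζ - 1‖ := by
  have h := hζ.sub_one_ne_zero hpr.out.one_lt
  exact norm_pos_iff.2 h

theorem norm_pi_lt (hpn : ‖(p : Ω)‖ = (p : ℝ)⁻¹) {ζ : Ω} (hζ : IsPrimitiveRoot ζ p) :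
    ‖ζ - 1‖ < 1 := by
  by_contra hcon
  push Not at hcon
  have h := norm_pi_pow hpn hζ
  have h1 : (1 : ℝ) ≤ ‖ζ - 1‖ ^ (p - 1) := one_le_pow₀ hcon
  rw [h] at h1
  have hp1 : (1 : ℝ) < p := by exact_mod_cast hpr.out.one_lt
  exact absurd h1 (not_le.2 (inv_lt_one_of_one_lt₀ hp1))

/-! digit sums -/

omit hpr in
theorem digits_succ (hp : 1 < p) (b r : ℕ) (hr : r < p) :
    (Nat.digits p (p * b + r)).sum = (Nat.digits p b).sum + r := by
  rcases Nat.eq_zero_or_pos (p * b + r) with h0 | h0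
  · have hb : b = 0 := by
      rcases Nat.eq_zero_or_pos b with h | h
      · exact h
      · have : 0 < p * b := Nat.mul_pos (by omega) h
        omega
    have hr0 : r = 0 := by omega
    subst hb; subst hr0; simp
  · rw [Nat.digits_def' hp h0]
    have h1 : (p * b + r) % p = r := by
      rw [Nat.mul_add_mod]; exact Nat.mod_eq_of_lt hr
    have h2 : (p * b + r) / p = b := by
      rw [Nat.mul_add_div (by omega), Nat.div_eq_of_lt hr]; simp
    rw [h1, h2]; simp; omega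

omit hpr in
theorem digits_compl (hp : 1 < p) (f : ℕ) : ∀ a, a < p ^ f →
    (Nat.digits p a).sum + (Nat.digits p (p ^ f - 1 - a)).sum = f * (p - 1) := by
  induction f with
  | zero => intro a ha; simp at ha; subst ha; simp
  | succ f ih =>
    intro a ha
    have hpp : 0 < p := by omega
    obtain ⟨b, r, hr, rfl⟩ : ∃ b r, r < p ∧ a = p * b + r :=
      ⟨a / p, a % p, Nat.mod_lt _ hpp, (Nat.div_add_mod a p).symm⟩
    have hb : b < p ^ f := by
      by_contra hcon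
      push Not at hcon
      have : p * p ^ f ≤ p * b := Nat.mul_le_mul_left _ hcon
      rw [pow_succ, mul_comm (p ^ f) p] at ha
      omega
    have e2 : p ^ (f + 1) - 1 - (p * b + r) = p * (p ^ f - 1 - b) + (p - 1 - r) := by
      have h3 : p * (p ^ f - 1 - b) = p ^ (f + 1) - p - p * b := by
        rw [Nat.mul_sub, Nat.mul_sub, mul_one, pow_succ, mul_comm (p ^ f) p]
      have h4 : p * b + p ≤ p ^ (f + 1) := by
        have : p * (b + 1) ≤ p * p ^ f := Nat.mul_le_mul_left _ hb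
        rw [pow_succ, mul_comm (p ^ f) p]; linarith [this, Nat.mul_add p b 1]
      rw [h3]
      omega
    rw [e2, digits_succ hp b r hr, digits_succ hp (p ^ f - 1 - b) (p - 1 - r) (by omega)]
    have := ih b hb
    have h5 : (f + 1) * (p - 1) = f * (p - 1) + (p - 1) := by ring
    rw [h5, ← this]
    omega

omit hpr in
theorem digits_small (hp : 1 < p) (f : ℕ) : ∀ a, a < p ^ (f + 1) → (Nat.digits p a).sum ≤ 1 →
    a ≤ p ^ f := by
  induction f with
  | zero =>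
    intro a ha hs
    simp at ha
    have := digits_succ (p := p) hp 0 a ha
    simp at this
    rw [pow_zero]
    rcases Nat.eq_zero_or_pos a with h | h
    · omega
    · rw [Nat.digits_of_lt p a (by omega) ha] at hs
      simpa using hs
  | succ f ih =>
    intro a ha hs
    have hpp : 0 < p := by omega
    have hb : a / p < p ^ (f + 1) := by
      rw [Nat.div_lt_iff_lt_mul hpp]; rw [pow_succ] at ha; exact ha
    have hr : a % p < p := Nat.mod_lt _ hpp
    have e1 : a = p * (a / p) + a % p := (Nat.div_add_mod a p).symm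
    have h1 := digits_succ (p := p) hp (a / p) (a % p) hr
    rw [← e1] at h1
    have h2 : (Nat.digits p (a / p)).sum ≤ 1 := by omega
    have h3 := ih _ hb h2
    rcases Nat.eq_zero_or_pos (a % p) with h0 | h0
    · rw [e1, h0, pow_succ, mul_comm (p ^ f) p]
      simpa using Nat.mul_le_mul_left p h3
    · have h4 : (Nat.digits p (a / p)).sum = 0 := by omega
      have h5 : a / p = 0 := by
        by_contra hne
        have hmem := Nat.getLast_digit_ne_zero p hne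
        have : (Nat.digits p (a / p)).getLast (Nat.digits_ne_nil_iff_ne_zero.mpr hne) ∈
            Nat.digits p (a / p) := List.getLast_mem _
        have h6 := List.single_le_sum (by simp) _ this
        omega
      rw [e1, h5]
      have : a % p ≤ 1 := by omega
      have h7 : 1 ≤ p ^ (f + 1) := Nat.one_le_pow _ _ hpp
      simp; omega

/-! Gauss sums -/

section gauss

variable {F : Type} [Field F] [Fintype F] [DecidableEq F] [Algebra (ZMod p) F]

omit [IsUltrametricDist Ω] in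
theorem norm_char_le (χ : MulChar F Ω) (x : F) : ‖χ x‖ ≤ 1 := by
  by_cases hx : x = 0
  · rw [hx, MulChar.map_zero, norm_zero]; exact zero_le_one
  · have h : χ x ^ (Fintype.card F - 1) = 1 := by
      rw [← map_pow, FiniteField.pow_card_sub_one_eq_one x hx, map_one]
    have h2 : Fintype.card F - 1 ≠ 0 := by
      have := Fintype.one_lt_card (α := F); omega
    exact (norm_root h2 h).le

omit [IsUltrametricDist Ω] in
theorem norm_char_unit (χ : MulChar F Ω) {x : F} (hx : x ≠ 0) : ‖χ x‖ = 1 := by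
  have h : χ x ^ (Fintype.card F - 1) = 1 := by
    rw [← map_pow, FiniteField.pow_card_sub_one_eq_one x hx, map_one]
  have h2 : Fintype.card F - 1 ≠ 0 := by
    have := Fintype.one_lt_card (α := F); omega
  exact norm_root h2 h

theorem norm_gauss_le {ζ : Ω} (hζ : ζ ^ p = 1) (χ : MulChar F Ω) :
    ‖gaussSum χ (psi hζ F)‖ ≤ 1 := by
  unfold gaussSum
  apply IsUltrametricDist.norm_sum_le_of_forall_le_of_nonneg zero_le_one
  intro x _
  rw [norm_mul, psi_apply, norm_pow, norm_root hpr.out.ne_zero hζ, one_pow, mul_one]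
  exact norm_char_le χ x

theorem norm_jacobi_le (α β : MulChar F Ω) : ‖jacobiSum α β‖ ≤ 1 := by
  unfold jacobiSum
  apply IsUltrametricDist.norm_sum_le_of_forall_le_of_nonneg zero_le_one
  intro x _
  rw [norm_mul]
  exact mul_le_one₀ (norm_char_le _ _) (norm_nonneg _) (norm_char_le _ _)

omit [NormedField Ω] [IsUltrametricDist Ω] [DecidableEq F] in
theorem psi_ne_one [Field Ω] {ζ : Ω} (hζ : IsPrimitiveRoot ζ p) :
    psi hζ.pow_eq_one F ≠ 1 := by
  intro h
  obtain ⟨x, hx⟩ := Algebra.trace_surjective (ZMod p) F 1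
  have h1 := psi_apply hζ.pow_eq_one x
  rw [h, hx] at h1
  have h2 : (1 : ZMod p).val = 1 := ZMod.val_one p
  rw [h2, pow_one] at h1
  simp at h1
  exact hζ.ne_one hpr.out.one_lt h1.symm

theorem gauss_mul_le {ζ : Ω} (hζ : IsPrimitiveRoot ζ p) (α β : MulChar F Ω) :
    ‖gaussSum α (psi hζ.pow_eq_one F)‖ * ‖gaussSum β (psi hζ.pow_eq_one F)‖ ≤
      ‖gaussSum (α * β) (psi hζ.pow_eq_one F)‖ := by
  by_cases h : α * β = 1
  · rw [h, gaussSum_one_left (psi_ne_one hζ), norm_neg, norm_one]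
    exact mul_le_one₀ (norm_gauss_le _ _) (norm_nonneg _) (norm_gauss_le _ _)
  · rw [← norm_mul, ← jacobiSum_mul_nontrivial h, norm_mul]
    calc _ ≤ ‖gaussSum (α * β) (psi hζ.pow_eq_one F)‖ * 1 :=
          mul_le_mul_of_nonneg_left (norm_jacobi_le _ _) (norm_nonneg _)
      _ = _ := mul_one _

omit [NormedField Ω] [IsUltrametricDist Ω] [DecidableEq F] in
theorem gauss_frob [Field Ω] {ζ : Ω} (hζ : ζ ^ p = 1) (α : MulChar F Ω) :
    gaussSum (α ^ p) (psi hζ F) = gaussSum α (psi hζ F) := by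
  have hbij : Function.Bijective (FiniteField.frobeniusAlgEquivOfAlgebraic (ZMod p) F) :=
    (FiniteField.frobeniusAlgEquivOfAlgebraic (ZMod p) F).bijective
  unfold gaussSum
  refine Fintype.sum_bijective _ hbij _ _ fun x => ?_
  have hfx : (FiniteField.frobeniusAlgEquivOfAlgebraic (ZMod p) F) x = x ^ p := by
    rw [FiniteField.coe_frobeniusAlgEquivOfAlgebraic]; simp [ZMod.card]
  have htr : Algebra.trace (ZMod p) F (x ^ p) = Algebra.trace (ZMod p) F x := by
    rw [← hfx]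
    exact Algebra.trace_eq_of_algEquiv _ x
  rw [psi_apply, psi_apply, hfx, htr, MulChar.pow_apply' _ hpr.out.ne_zero, map_pow]

theorem gauss_inv {ζ : Ω} (hζ : IsPrimitiveRoot ζ p) {α : MulChar F Ω} (hα : α ≠ 1) :
    ‖gaussSum α (psi hζ.pow_eq_one F)‖ * ‖gaussSum α⁻¹ (psi hζ.pow_eq_one F)‖ =
      ‖(Fintype.card F : Ω)‖ := by
  have h := gaussSum_mul_gaussSum_eq_card hα
    (AddChar.IsPrimitive.of_ne_one (psi_ne_one (F := F) hζ))
  rw [← h, norm_mul]
  congr 1
  rw [← mul_gaussSum_inv_eq_gaussSum α⁻¹ (psi hζ.pow_eq_one F), norm_mul,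
    norm_char_unit _ (neg_ne_zero.2 one_ne_zero), one_mul]

/-- lower bound -/
theorem gauss_lower {ζ : Ω} (hζ : IsPrimitiveRoot ζ p) {χ : MulChar F Ω}
    (hχ : ‖gaussSum χ (psi hζ.pow_eq_one F)‖ = ‖ζ - 1‖) (a : ℕ) :
    ‖ζ - 1‖ ^ (Nat.digits p a).sum ≤ ‖gaussSum (χ ^ a) (psi hζ.pow_eq_one F)‖ := by
  have hsmall : ∀ r : ℕ, ‖ζ - 1‖ ^ r ≤ ‖gaussSum (χ ^ r) (psi hζ.pow_eq_one F)‖ := by
    intro r
    induction r with
    | zero =>
      rw [pow_zero, pow_zero, gaussSum_one_left (psi_ne_one hζ), norm_neg, norm_one]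
    | succ r ih =>
      rw [pow_succ, pow_succ]
      refine le_trans ?_ (gauss_mul_le hζ _ _)
      rw [hχ]
      exact mul_le_mul_of_nonneg_right ih (norm_nonneg _)
  induction a using Nat.strong_induction_on with
  | _ a ih =>
    rcases Nat.eq_zero_or_pos a with h0 | h0
    · subst h0; simpa using hsmall 0
    · obtain ⟨b, r, hr, rfl⟩ : ∃ b r, r < p ∧ a = p * b + r :=
        ⟨a / p, a % p, Nat.mod_lt _ hpr.out.pos, (Nat.div_add_mod a p).symm⟩
      rw [digits_succ hpr.out.one_lt b r hr, pow_add]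
      have hb : b < p * b + r := by
        rcases Nat.eq_zero_or_pos b with h | h
        · subst h; omega
        · have := Nat.mul_le_mul_right b hpr.out.two_le
          omega
      have h1 := ih b hb
      have h2 := hsmall r
      have h3 : χ ^ (p * b + r) = (χ ^ b) ^ p * χ ^ r := by
        rw [pow_add, mul_comm p b, pow_mul]
      rw [h3]
      refine le_trans ?_ (gauss_mul_le hζ _ _)
      rw [gauss_frob]
      exact mul_le_mul h1 h2 (by positivity) (norm_nonneg _)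

/-- the character sum `S` -/
noncomputable def SS (p : ℕ) {Ω F : Type} [NormedField Ω] [Field F] [Fintype F]
    [Algebra (ZMod p) F] (χ : MulChar F Ω) : Ω :=
  ∑ x : F, χ x * (((Algebra.trace (ZMod p) F x).val : ℕ) : Ω)

theorem gauss_approx {ζ : Ω} (hζ : IsPrimitiveRoot ζ p) {χ : MulChar F Ω} (hχ : χ ≠ 1) :
    ‖gaussSum χ (psi hζ.pow_eq_one F) - (ζ - 1) * SS p χ‖ ≤ ‖ζ - 1‖ ^ 2 := by
  have h0 : ∑ x : F, χ x = 0 := MulChar.sum_eq_zero_of_ne_one hχ
  have h1 : gaussSum χ (psi hζ.pow_eq_one F) - (ζ - 1) * SS p χ =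
      ∑ x : F, χ x * (ζ ^ (Algebra.trace (ZMod p) F x).val - 1 -
        (((Algebra.trace (ZMod p) F x).val : ℕ) : Ω) * (ζ - 1)) := by
    have h2 : ∑ x : F, χ x * (ζ ^ (Algebra.trace (ZMod p) F x).val - 1 -
        (((Algebra.trace (ZMod p) F x).val : ℕ) : Ω) * (ζ - 1)) =
        ∑ x : F, χ x * ζ ^ (Algebra.trace (ZMod p) F x).val - ∑ x : F, χ x -
          (ζ - 1) * ∑ x : F, χ x * (((Algebra.trace (ZMod p) F x).val : ℕ) : Ω) := by
      rw [Finset.mul_sum, ← Finset.sum_sub_distrib, ← Finset.sum_sub_distrib]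
      refine Finset.sum_congr rfl fun x _ => ?_
      ring
    rw [h2, h0, sub_zero]
    unfold gaussSum SS
    simp only [psi_apply]
  rw [h1]
  apply IsUltrametricDist.norm_sum_le_of_forall_le_of_nonneg (by positivity)
  intro x _
  rw [norm_mul]
  calc _ ≤ 1 * ‖ζ - 1‖ ^ 2 := by
        apply mul_le_mul (norm_char_le _ _) _ (norm_nonneg _) zero_le_one
        exact pow_approx (norm_root hpr.out.ne_zero hζ.pow_eq_one).le _
    _ = _ := one_mul _

theorem norm_SS_le (χ : MulChar F Ω) : ‖SS p χ‖ ≤ 1 := by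
  unfold SS
  apply IsUltrametricDist.norm_sum_le_of_forall_le_of_nonneg zero_le_one
  intro x _
  rw [norm_mul]
  exact mul_le_one₀ (norm_char_le _ _) (norm_nonneg _) (norm_nat_le _)

/-- number of elements with a given trace -/
theorem card_trace_fiber (f : ℕ) (hF : Fintype.card F = p ^ f) (t : ZMod p) :
    (Finset.univ.filter fun x : F => Algebra.trace (ZMod p) F x = t).card = p ^ (f - 1) := by
  have hfib : ∀ s t : ZMod p,
      (Finset.univ.filter fun x : F => Algebra.trace (ZMod p) F x = s).card =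
      (Finset.univ.filter fun x : F => Algebra.trace (ZMod p) F x = t).card := by
    intro s t
    obtain ⟨y, hy⟩ := Algebra.trace_surjective (ZMod p) F (t - s)
    refine Finset.card_bij (fun x _ => x + y) ?_ ?_ ?_
    · intro x hx
      simp only [Finset.mem_filter, Finset.mem_univ, true_and] at hx ⊢
      rw [map_add, hx, hy]; ring
    · intro a _ b _ h; exact add_right_cancel h
    · intro b hb
      simp only [Finset.mem_filter, Finset.mem_univ, true_and] at hb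
      refine ⟨b - y, ?_, by ring⟩
      simp only [Finset.mem_filter, Finset.mem_univ, true_and]
      rw [map_sub, hb, hy]; ring
  have htot : ∑ s : ZMod p, (Finset.univ.filter fun x : F => Algebra.trace (ZMod p) F x = s).card
      = p ^ f := by
    rw [← hF, ← Finset.card_univ (α := F)]
    exact (Finset.card_eq_sum_card_fiberwise (fun x _ => Finset.mem_univ _)).symm
  have h2 : p * (Finset.univ.filter fun x : F => Algebra.trace (ZMod p) F x = t).card = p ^ f := by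
    rw [← htot, Finset.sum_congr rfl (fun s _ => hfib s t), Finset.sum_const, Finset.card_univ,
      ZMod.card, smul_eq_mul]
  have hf : f ≠ 0 := by
    rintro rfl
    have := Fintype.one_lt_card (α := F)
    rw [hF] at this; simp at this
  obtain ⟨g, rfl⟩ := Nat.exists_eq_succ_of_ne_zero hf
  rw [Nat.succ_eq_add_one, pow_succ, mul_comm (p ^ g) p] at h2
  simpa using Nat.eq_of_mul_eq_mul_left hpr.out.pos h2

theorem norm_SS_one (hp : p ≠ 2) (hpn : ‖(p : Ω)‖ = (p : ℝ)⁻¹) {f : ℕ}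
    (hF : Fintype.card F = p ^ f) : ‖SS p (1 : MulChar F Ω)‖ < 1 := by
  have hp1 : (1 : ℝ) < p := by exact_mod_cast hpr.out.one_lt
  -- the sum over all x of the trace values
  have h1 : SS p (1 : MulChar F Ω) = ((∑ x : F, (Algebra.trace (ZMod p) F x).val : ℕ) : Ω) := by
    unfold SS
    push_cast
    refine Finset.sum_congr rfl fun x _ => ?_
    by_cases hx : x = 0
    · subst hx; simp
    · rw [MulChar.one_apply (Ne.isUnit hx), one_mul]
  have h2 : (∑ x : F, (Algebra.trace (ZMod p) F x).val) = p ^ (f - 1) * ∑ t : ZMod p, t.val := by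
    rw [← Finset.sum_fiberwise_of_maps_to (s := Finset.univ) (t := Finset.univ)
      (g := fun x : F => Algebra.trace (ZMod p) F x) (fun x _ => Finset.mem_univ _)]
    rw [Finset.mul_sum]
    refine Finset.sum_congr rfl fun t _ => ?_
    rw [← card_trace_fiber f hF t, ← smul_eq_mul, ← Finset.sum_const]
    refine Finset.sum_congr rfl fun x hx => ?_
    simp only [Finset.mem_filter, Finset.mem_univ, true_and] at hx
    rw [hx]
  have h3 : (∑ t : ZMod p, t.val) * 2 = p * (p - 1) := by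
    have h4 : ∑ t : ZMod p, t.val = ∑ i ∈ Finset.range p, i := by
      refine Finset.sum_bij (fun t _ => t.val) (fun t _ => Finset.mem_range.2 (ZMod.val_lt t))
        (fun a _ b _ h => ZMod.val_injective p h) (fun b hb => ⟨(b : ZMod p), Finset.mem_univ _,
          ZMod.val_cast_of_lt (Finset.mem_range.1 hb)⟩) (fun _ _ => rfl)
    rw [h4, Finset.sum_range_id_mul_two]
  have h5 : p ∣ ∑ t : ZMod p, t.val := by
    have : p ∣ (∑ t : ZMod p, t.val) * 2 := by rw [h3]; exact Dvd.intro _ rfl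
    exact ((Nat.Prime.coprime_iff_not_dvd hpr.out).2 (fun h => hp
      ((Nat.prime_dvd_prime_iff_eq hpr.out Nat.prime_two).1 h))).dvd_of_dvd_mul_right this
  obtain ⟨m, hm⟩ := h5
  rw [h1, h2, hm]
  push_cast
  rw [norm_mul, norm_mul, hpn]
  calc _ ≤ 1 * ((p : ℝ)⁻¹ * 1) := by
        apply mul_le_mul _ _ (by positivity) zero_le_one
        · have := norm_nat_le (Ω := Ω) (p ^ (f - 1)); simpa using this
        · exact mul_le_mul_of_nonneg_left (norm_nat_le m) (by positivity)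
    _ < 1 := by rw [one_mul, mul_one]; exact inv_lt_one_of_one_lt₀ hp1

theorem exists_SS [CharZero Ω] [IsAlgClosed Ω] (hp : p ≠ 2) (hpn : ‖(p : Ω)‖ = (p : ℝ)⁻¹) {f : ℕ}
    (hF : Fintype.card F = p ^ f) : ∃ χ : MulChar F Ω, χ ≠ 1 ∧ ‖SS p χ‖ = 1 := by
  have hexp : Monoid.exponent Fˣ ≠ 0 := Monoid.exponent_ne_zero_of_finite
  haveI : NeZero (Monoid.exponent Fˣ) := ⟨hexp⟩
  haveI : NeZero ((Monoid.exponent Fˣ : ℕ) : Ω) := ⟨by exact_mod_cast hexp⟩
  haveI : Fintype (MulChar F Ω) := Fintype.ofFinite _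
  obtain ⟨x, hx⟩ := Algebra.trace_surjective (ZMod p) F 1
  have hx0 : x ≠ 0 := by
    rintro rfl
    rw [map_zero] at hx
    exact zero_ne_one hx
  have hcard : (Fintype.card (MulChar F Ω) : ℕ) = Fintype.card F - 1 := by
    rw [← Nat.card_eq_fintype_card, MulChar.card_eq_card_units_of_hasEnoughRootsOfUnity,
      Nat.card_eq_fintype_card, Fintype.card_units]
  have horth : ∀ y : F, ∑ χ : MulChar F Ω, χ y * χ x⁻¹ =
      if y = x then ((Fintype.card F - 1 : ℕ) : Ω) else 0 := by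
    intro y
    by_cases hy : y = x
    · rw [if_pos hy, hy]
      have : ∀ χ : MulChar F Ω, χ x * χ x⁻¹ = 1 := by
        intro χ; rw [← map_mul, mul_inv_cancel₀ hx0, map_one]
      rw [Finset.sum_congr rfl (fun χ _ => this χ), Finset.sum_const, Finset.card_univ, hcard]
      simp
    · rw [if_neg hy]
      have hne : y * x⁻¹ ≠ 1 := by
        intro h
        apply hy
        field_simp at h
        exact h
      obtain ⟨χ₀, hχ₀⟩ := MulChar.exists_apply_ne_one_of_hasEnoughRootsOfUnity F Ω hne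
      have h1 : ∑ χ : MulChar F Ω, χ y * χ x⁻¹ = χ₀ (y * x⁻¹) * ∑ χ : MulChar F Ω, χ y * χ x⁻¹ := by
        rw [Finset.mul_sum]
        refine Fintype.sum_equiv (Equiv.mulLeft χ₀⁻¹) _ _ fun χ => ?_
        have h3 : χ y * χ x⁻¹ = χ (y * x⁻¹) := (map_mul _ _ _).symm
        have h4 : (χ₀⁻¹ * χ) y * (χ₀⁻¹ * χ) x⁻¹ = (χ₀⁻¹ * χ) (y * x⁻¹) := (map_mul _ _ _).symm
        rw [h3, Equiv.coe_mulLeft, h4]
        by_cases hy0 : y = 0
        · rw [hy0, zero_mul, MulChar.map_zero, MulChar.map_zero, zero_mul]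
        · have h5 : IsUnit (y * x⁻¹) := Ne.isUnit (mul_ne_zero hy0 (inv_ne_zero hx0))
          have h6 : χ₀ (y * x⁻¹) * χ₀⁻¹ (y * x⁻¹) = 1 := by
            rw [← MulChar.mul_apply, mul_inv_cancel, MulChar.one_apply h5]
          rw [MulChar.mul_apply, ← mul_assoc, h6, one_mul]
      have h2 : (χ₀ (y * x⁻¹) - 1) * ∑ χ : MulChar F Ω, χ y * χ x⁻¹ = 0 := by
        rw [sub_mul, one_mul, ← h1, sub_self]
      rcases mul_eq_zero.1 h2 with h | h
      · exact absurd (sub_eq_zero.1 h) hχ₀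
      · exact h
  have hinv : ∑ χ : MulChar F Ω, SS p χ * χ x⁻¹ = ((Fintype.card F - 1 : ℕ) : Ω) := by
    unfold SS
    simp only [Finset.sum_mul]
    rw [Finset.sum_comm]
    have : ∀ y : F, ∑ χ : MulChar F Ω,
        χ y * (((Algebra.trace (ZMod p) F y).val : ℕ) : Ω) * χ x⁻¹ =
        (((Algebra.trace (ZMod p) F y).val : ℕ) : Ω) * (if y = x then
          ((Fintype.card F - 1 : ℕ) : Ω) else 0) := by
      intro y
      rw [← horth y, Finset.mul_sum]
      refine Finset.sum_congr rfl fun χ _ => ?_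
      ring
    rw [Finset.sum_congr rfl (fun y _ => this y)]
    simp only [mul_ite, mul_zero, Finset.sum_ite_eq', Finset.mem_univ, if_true, hx]
    rw [ZMod.val_one p]; simp
  have hq : ‖((Fintype.card F - 1 : ℕ) : Ω)‖ = 1 := by
    apply norm_coprime hpn
    rw [hF]
    have hf : f ≠ 0 := by
      rintro rfl
      have := Fintype.one_lt_card (α := F)
      rw [hF] at this; simp at this
    have h1 : 1 ≤ p ^ f := Nat.one_le_pow _ _ hpr.out.pos
    rw [Nat.coprime_comm, Nat.Prime.coprime_iff_not_dvd hpr.out]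
    intro hdvd
    have h2 : p ∣ p ^ f := dvd_pow_self p hf
    have h3 : p ∣ 1 := by
      have := (Nat.dvd_sub_iff_right h1 h2).1 hdvd
      exact this
    exact hpr.out.one_lt.ne' (Nat.dvd_one.1 h3)
  by_contra hcon
  push Not at hcon
  have hlt : ∀ χ : MulChar F Ω, ‖SS p χ * χ x⁻¹‖ < 1 := by
    intro χ
    rw [norm_mul, norm_char_unit χ (inv_ne_zero hx0), mul_one]
    by_cases h1 : χ = 1
    · rw [h1]; exact norm_SS_one hp hpn hF
    · exact lt_of_le_of_ne (norm_SS_le χ) (hcon χ h1)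
  have : ‖∑ χ : MulChar F Ω, SS p χ * χ x⁻¹‖ < 1 := by
    obtain ⟨χ₁, _, hχ₁⟩ := IsUltrametricDist.exists_norm_finsetSum_le_of_nonempty
      (t := (Finset.univ : Finset (MulChar F Ω))) ⟨1, Finset.mem_univ _⟩
      (fun χ => SS p χ * χ x⁻¹)
    exact lt_of_le_of_lt hχ₁ (hlt χ₁)
  rw [hinv, hq] at this
  exact lt_irrefl _ this

theorem exists_gauss [CharZero Ω] [IsAlgClosed Ω] (hp : p ≠ 2) (hpn : ‖(p : Ω)‖ = (p : ℝ)⁻¹)
    {f : ℕ} (hF : Fintype.card F = p ^ f) {ζ : Ω} (hζ : IsPrimitiveRoot ζ p) :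
    ∃ χ : MulChar F Ω, χ ≠ 1 ∧ ‖gaussSum χ (psi hζ.pow_eq_one F)‖ = ‖ζ - 1‖ := by
  obtain ⟨χ, hχ1, hχ⟩ := exists_SS (Ω := Ω) (F := F) hp hpn hF
  refine ⟨χ, hχ1, ?_⟩
  have h1 := gauss_approx hζ hχ1
  have h2 : ‖(ζ - 1) * SS p χ‖ = ‖ζ - 1‖ := by rw [norm_mul, hχ, mul_one]
  have h3 : ‖ζ - 1‖ ^ 2 < ‖ζ - 1‖ := by
    have hpos := norm_pi_pos hζ
    have hlt := norm_pi_lt hpn hζ
    nlinarith
  have h4 : ‖gaussSum χ (psi hζ.pow_eq_one F) - (ζ - 1) * SS p χ‖ < ‖(ζ - 1) * SS p χ‖ := by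
    rw [h2]; exact lt_of_le_of_lt h1 h3
  have h5 : gaussSum χ (psi hζ.pow_eq_one F) =
      (gaussSum χ (psi hζ.pow_eq_one F) - (ζ - 1) * SS p χ) + (ζ - 1) * SS p χ := by ring
  rw [h5, IsUltrametricDist.norm_add_eq_max_of_norm_ne_norm (ne_of_lt h4), max_eq_right h4.le, h2]

end gauss

end S1

open S1 in
theorem stick1 {p : ℕ} [Fact p.Prime] (hp : p ≠ 2) {Ω : Type} [NormedField Ω]
    [IsUltrametricDist Ω] [CharZero Ω] [IsAlgClosed Ω] (hpn : ‖(p : Ω)‖ = (p : ℝ)⁻¹)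
    {F : Type} [Field F] [Fintype F] [DecidableEq F] [Algebra (ZMod p) F] {f : ℕ}
    (hF : Fintype.card F = p ^ f) {ζ : Ω} (hζ : IsPrimitiveRoot ζ p) :
    ∃ χ : MulChar F Ω, orderOf χ = p ^ f - 1 ∧ ∀ a : ℕ, 0 < a → a < p ^ f - 1 →
      ‖gaussSum (χ ^ a) (psi hζ.pow_eq_one F)‖ =
        (p : ℝ) ^ (-(((Nat.digits p a).sum : ℝ) / ((p : ℝ) - 1))) := by
  have hpr : p.Prime := Fact.out
  have hp3 : 3 ≤ p := by
    have := hpr.two_le; omega
  have hf : f ≠ 0 := by
    rintro rfl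
    have := Fintype.one_lt_card (α := F)
    rw [hF] at this; simp at this
  obtain ⟨χ, hχ1, hχ⟩ := exists_gauss (F := F) hp hpn hF hζ
  have hpos := norm_pi_pos hζ
  have hlt := norm_pi_lt hpn hζ
  have hpipow := norm_pi_pow hpn hζ
  have hcardn : ‖((Fintype.card F : ℕ) : Ω)‖ = ‖ζ - 1‖ ^ (f * (p - 1)) := by
    rw [hF]; push_cast
    rw [norm_pow, hpn, ← hpipow, ← pow_mul, mul_comm]
  have hlow := fun a => gauss_lower hζ hχ a
  -- order
  have hordpos : 0 < orderOf χ := MulChar.orderOf_pos χ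
  have hord : orderOf χ = p ^ f - 1 := by
    have hdvd : orderOf χ ∣ p ^ f - 1 := by
      apply orderOf_dvd_of_pow_eq_one
      rw [← hF, ← Fintype.card_units]
      exact MulChar.pow_card_eq_one χ
    have hq1 : 1 < p ^ f := Nat.one_lt_pow hf hpr.one_lt
    by_contra hne
    obtain ⟨m, hm⟩ := hdvd
    have hm2 : 2 ≤ m := by
      rcases m with _ | _ | m
      · omega
      · omega
      · omega
    have hd2 : 2 * orderOf χ ≤ p ^ f - 1 := by
      rw [hm, mul_comm 2]; exact Nat.mul_le_mul_left _ hm2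
    have hd : 2 ≤ orderOf χ := by
      have : orderOf χ ≠ 1 := by rw [Ne, orderOf_eq_one_iff]; exact hχ1
      omega
    have h1 : χ ^ (orderOf χ - 1) = χ⁻¹ := by
      refine (inv_eq_of_mul_eq_one_right ?_).symm
      rw [← pow_succ', Nat.sub_one_add_one_eq_of_pos hordpos, pow_orderOf_eq_one]
    have h2 := hlow (orderOf χ - 1)
    rw [h1] at h2
    have h3 := gauss_inv hζ hχ1
    rw [hχ, hcardn] at h3
    have h4 : ‖ζ - 1‖ ^ ((Nat.digits p (orderOf χ - 1)).sum + 1) ≤ ‖ζ - 1‖ ^ (f * (p - 1)) := by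
      rw [← h3, pow_succ, mul_comm]
      exact mul_le_mul_of_nonneg_left h2 (norm_nonneg _)
    have h5 : f * (p - 1) ≤ (Nat.digits p (orderOf χ - 1)).sum + 1 :=
      (pow_le_pow_iff_right_of_lt_one₀ hpos hlt).1 h4
    have h6 := digits_compl hpr.one_lt f (orderOf χ - 1) (by omega)
    have h7 : (Nat.digits p (p ^ f - 1 - (orderOf χ - 1))).sum ≤ 1 := by omega
    obtain ⟨g, rfl⟩ := Nat.exists_eq_succ_of_ne_zero hf
    have h8 := digits_small hpr.one_lt g _ (by
      have : p ^ (g + 1) = p ^ g.succ := rfl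
      omega) h7
    have h9 : 3 * p ^ g ≤ p ^ g.succ := by
      rw [Nat.succ_eq_add_one, pow_succ, mul_comm (p ^ g) p]
      exact Nat.mul_le_mul_right _ hp3
    have h10 : 1 ≤ p ^ g := Nat.one_le_pow _ _ hpr.pos
    omega
  refine ⟨χ, hord, ?_⟩
  intro a ha0 ha
  have hne : χ ^ a ≠ 1 := by
    intro h
    have := Nat.le_of_dvd ha0 (orderOf_dvd_of_pow_eq_one h)
    omega
  have hinv : χ ^ (p ^ f - 1 - a) = (χ ^ a)⁻¹ := by
    refine (inv_eq_of_mul_eq_one_right ?_).symm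
    rw [← pow_add, Nat.add_sub_cancel' ha.le, ← hord, pow_orderOf_eq_one]
  have h1 := hlow a
  have h2 := hlow (p ^ f - 1 - a)
  rw [hinv] at h2
  have h3 := gauss_inv hζ hne
  rw [hcardn] at h3
  have h4 := digits_compl hpr.one_lt f a (by omega)
  have h5 : ‖gaussSum (χ ^ a) (psi hζ.pow_eq_one F)‖ = ‖ζ - 1‖ ^ (Nat.digits p a).sum := by
    apply le_antisymm _ h1
    by_contra hcon
    push Not at hcon
    have h6 : ‖ζ - 1‖ ^ (f * (p - 1)) < ‖gaussSum (χ ^ a) (psi hζ.pow_eq_one F)‖ *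
        ‖gaussSum (χ ^ a)⁻¹ (psi hζ.pow_eq_one F)‖ := by
      rw [← h4, pow_add]
      exact mul_lt_mul hcon h2 (by positivity) (norm_nonneg _)
    rw [h3] at h6
    exact lt_irrefl _ h6
  rw [h5]
  have hp0 : (0 : ℝ) < p := by exact_mod_cast hpr.pos
  have hpm : ((p - 1 : ℕ) : ℝ) = (p : ℝ) - 1 := by
    rw [Nat.cast_sub hpr.one_lt.le]; simp
  have hpm0 : ((p - 1 : ℕ) : ℝ) ≠ 0 := by
    have : p - 1 ≠ 0 := by omega
    exact_mod_cast this
  have h7 : ‖ζ - 1‖ = (p : ℝ) ^ (-(1 / ((p : ℝ) - 1))) := by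
    rw [← hpm]
    have h8 : ‖ζ - 1‖ = (‖ζ - 1‖ ^ (p - 1)) ^ (1 / ((p - 1 : ℕ) : ℝ)) := by
      rw [← Real.rpow_natCast, ← Real.rpow_mul (norm_nonneg _), mul_one_div_cancel hpm0,
        Real.rpow_one]
    rw [h8, hpipow, Real.inv_rpow hp0.le, Real.rpow_neg hp0.le]
  rw [h7, ← Real.rpow_natCast, ← Real.rpow_mul hp0.le]
  congr 1
  ring

end Pool.Agent.CycU
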