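import Pool.Agent.LibCycU.Defs

/-!
TASK S2 (digit sums and residues).

Paper proof. `q = p^f`. For `0 < a < q - 1` and `i < f`, write `a = A p^(f-i) + B`, `B < p^(f-i)`;
`p^i a = A (q-1) + (A + p^i B)` with `A + p^i B < q - 1`, so `⌊p^i a/(q-1)⌋ = ⌊a/p^(f-i)⌋`.
Hence `∑_{i<f} (p^i a mod (q-1)) = a (q-1)/(p-1) - (q-1) ∑_{j=1}^f ⌊a/p^j⌋
  = (q-1)/(p-1) · s(a)` (Legendre: `s(a) = a - (p-1) ∑ ⌊a/p^j⌋`,
`Nat.sub_one_mul_sum_div_pow_eq_sub_sum_digits`).
If `2 N a ≡ (q-1)(N + 2 c) (mod 2N(q-1))` then, as `p` is odd,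
`p^i a mod (q-1) = (q-1) (1/2 + ⟨p^i c⟩/N)` with `⟨ ⟩` the least absolute residue mod `N`
(`|⟨ ⟩| < N/2`).
-/

set_option autoImplicit false

open Finset

namespace Pool.Agent.CycU

/-- Legendre's formula for `a < p^f` -/
theorem legendre_digits {p : ℕ} (hp : 1 < p) (f : ℕ) : ∀ a : ℕ, a < p ^ f →
    (p - 1) * ∑ j ∈ range f, a / p ^ (j + 1) + (Nat.digits p a).sum = a := by
  induction f with
  | zero =>
    intro a ha
    have : a = 0 := by simpa using ha
    subst this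
    simp
  | succ f ih =>
    intro a ha
    rcases Nat.eq_zero_or_pos a with h0 | h0
    · subst h0
      simp
    · have h1 : a / p < p ^ f := by
        rw [Nat.div_lt_iff_lt_mul (by omega), ← pow_succ]
        exact ha
      have h2 := ih (a / p) h1
      rw [Finset.sum_range_succ', Nat.digits_def' hp h0, List.sum_cons]
      have h3 : ∀ j, a / p ^ (j + 1 + 1) = a / p / p ^ (j + 1) := by
        intro j
        rw [Nat.div_div_eq_div_mul]
        congr 1
        ring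
      simp only [h3, zero_add, pow_one]
      have h4 := Nat.mod_add_div a p
      obtain ⟨r, rfl⟩ : ∃ r, p = r + 1 := ⟨p - 1, by omega⟩
      simp only [Nat.add_sub_cancel] at h2 ⊢
      nlinarith

/-- the residue of `p^i a` modulo `p^f - 1` -/
theorem pow_mul_mod {p f a : ℕ} (hp : 1 < p) (ha : a < p ^ f - 1) {i : ℕ} (hi : i < f) :
    (p ^ i * a) % (p ^ f - 1) + (p ^ f - 1) * (a / p ^ (f - i)) = p ^ i * a := by
  have hpf : p ^ f = p ^ i * p ^ (f - i) := by
    rw [← pow_add]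
    congr 1
    omega
  have hpi : 0 < p ^ i := pow_pos (by omega) i
  have hpj : 0 < p ^ (f - i) := pow_pos (by omega) (f - i)
  have h1 := Nat.div_add_mod a (p ^ (f - i))
  have hB := Nat.mod_lt a hpj
  generalize hA' : a / p ^ (f - i) = A at h1 ⊢
  generalize hB' : a % p ^ (f - i) = B at h1 hB
  generalize p ^ i = u at hpi hpf ⊢
  generalize hv : p ^ (f - i) = v at h1 hB hpj hpf
  rw [hpf] at ha ⊢
  have hA : A < u := by
    by_contra hc
    have h2 : v * u ≤ v * A := Nat.mul_le_mul_left v (not_lt.mp hc)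
    have h3 : u * v = v * u := mul_comm u v
    omega
  have hlt : A + u * B < u * v - 1 := by
    obtain ⟨A2, hA2⟩ : ∃ A2, u = A + 1 + A2 := ⟨u - A - 1, by omega⟩
    obtain ⟨B2, hB2⟩ : ∃ B2, v = B + 1 + B2 := ⟨v - B - 1, by omega⟩
    have huv : u * v = u * B + u + u * B2 := by
      rw [hB2]
      ring
    by_cases hA0 : A2 = 0
    · by_cases hB0 : B2 = 0
      · exfalso
        have e1 : u = A + 1 := by omega
        have e2 : v = B + 1 := by omega
        have : u * v = a + 1 := by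
          rw [← h1, e1, e2]
          ring
        omega
      · have : u ≤ u * B2 := Nat.le_mul_of_pos_right u (Nat.pos_of_ne_zero hB0)
        omega
    · omega
  have key : u * a = (A + u * B) + (u * v - 1) * A := by
    have h2 : 1 ≤ u * v := Nat.mul_pos hpi hpj
    obtain ⟨w, hw⟩ : ∃ w, u * v = w + 1 := ⟨u * v - 1, by omega⟩
    rw [hw, Nat.add_sub_cancel, ← h1]
    calc u * (v * A + B) = (u * v) * A + u * B := by ring
      _ = (w + 1) * A + u * B := by rw [hw]
      _ = A + u * B + w * A := by ring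
  rw [key, Nat.add_mul_mod_self_left, Nat.mod_eq_of_lt hlt]

/-- `s(a) (q-1) = (p-1) ∑_{i<f} (p^i a mod (q-1))` -/
theorem digits_cyc {p f a : ℕ} (hp : 1 < p) (ha : a < p ^ f - 1) :
    (Nat.digits p a).sum * (p ^ f - 1) = (p - 1) * ∑ i ∈ range f, (p ^ i * a) % (p ^ f - 1) := by
  have h1 := legendre_digits hp f a (by omega)
  have h2 : ∑ i ∈ range f, (p ^ i * a) % (p ^ f - 1) +
      (p ^ f - 1) * ∑ j ∈ range f, a / p ^ (j + 1) = (∑ i ∈ range f, p ^ i) * a := by
    rw [Finset.sum_mul, ← Finset.sum_range_reflect (fun j => a / p ^ (j + 1)), Finset.mul_sum,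
      ← Finset.sum_add_distrib]
    apply Finset.sum_congr rfl
    intro i hi
    have hi' := Finset.mem_range.mp hi
    have e : f - 1 - i + 1 = f - i := by omega
    rw [e]
    exact pow_mul_mod hp ha hi'
  have h3 : (p - 1) * ∑ i ∈ range f, p ^ i = p ^ f - 1 := by
    have := Nat.geomSum_eq (m := p) hp f
    rw [this]
    apply Nat.mul_div_cancel'
    simpa using Nat.sub_dvd_pow_sub_pow p 1 f
  generalize ∑ i ∈ range f, (p ^ i * a) % (p ^ f - 1) = R at *
  generalize ∑ j ∈ range f, a / p ^ (j + 1) = S at *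
  generalize ∑ i ∈ range f, p ^ i = Gs at *
  generalize (Nat.digits p a).sum = s at *
  generalize p ^ f - 1 = Q at *
  generalize p - 1 = u at *
  have h4 : u * R + Q * (u * S) = Q * a := by
    calc u * R + Q * (u * S) = u * (R + Q * S) := by ring
      _ = u * (Gs * a) := by rw [h2]
      _ = (u * Gs) * a := by ring
      _ = Q * a := by rw [h3]
  have h5 : s * Q + Q * (u * S) = Q * a := by
    rw [← h1]
    ring
  omega

theorem digits_W {p f N a : ℕ} [Fact N.Prime] (hp : 1 < p) (hp2 : Odd p) (hN : N ≠ 2)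
    (hNq : N ∣ p ^ f - 1) (ha : 0 < a) (ha' : a < p ^ f - 1) (c : ℤ)
    (h : (2 * N * (p ^ f - 1) : ℤ) ∣ 2 * N * a - (p ^ f - 1) * (N + 2 * c)) :
    (2 * N * (Nat.digits p a).sum : ℤ) = (p - 1) * (f * N + 2 * W p N f (c : ZMod N)) := by
  have hNp : N.Prime := Fact.out
  have hNodd : Odd N := hNp.odd_of_ne_two hN
  have hNpos : (0 : ℤ) < N := by exact_mod_cast hNp.pos
  have hq1 : 1 ≤ p ^ f := Nat.one_le_pow _ _ (by omega)
  have hQ : ((p ^ f - 1 : ℕ) : ℤ) = (p : ℤ) ^ f - 1 := by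
    rw [Nat.cast_sub hq1]
    push_cast
    ring
  have hQpos : (0 : ℤ) < (p : ℤ) ^ f - 1 := by
    rw [← hQ]
    exact_mod_cast (by omega : 0 < p ^ f - 1)
  obtain ⟨m, hm⟩ := h
  have key : ∀ i, (2 * N * ((p ^ i * a) % (p ^ f - 1) : ℕ) : ℤ) =
      ((p : ℤ) ^ f - 1) * (N + 2 * ((p : ZMod N) ^ i * (c : ZMod N)).valMinAbs) := by
    intro i
    obtain ⟨k, hk⟩ := hp2.pow (n := i)
    have hkz : (p : ℤ) ^ i = 2 * k + 1 := by exact_mod_cast hk
    generalize hr : ((p : ZMod N) ^ i * (c : ZMod N)).valMinAbs = r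
    have hmem := ZMod.valMinAbs_mem_Ioc ((p : ZMod N) ^ i * (c : ZMod N))
    rw [hr] at hmem
    obtain ⟨hr1, hr2⟩ := hmem
    have hr3 : r * 2 ≠ N := by
      intro he
      obtain ⟨j, hj⟩ := hNodd
      have : (N : ℤ) = 2 * j + 1 := by exact_mod_cast hj
      omega
    have hcong : (N : ℤ) ∣ (p : ℤ) ^ i * c - r := by
      rw [← ZMod.intCast_eq_intCast_iff_dvd_sub, ← hr, ZMod.coe_valMinAbs]
      push_cast
      ring
    obtain ⟨s, hs⟩ := hcong
    have hmod := Nat.mod_add_div (p ^ i * a) (p ^ f - 1)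
    have hRlt := Nat.mod_lt (p ^ i * a) (show 0 < p ^ f - 1 by omega)
    generalize (p ^ i * a) % (p ^ f - 1) = R at hmod hRlt ⊢
    generalize (p ^ i * a) / (p ^ f - 1) = t at hmod
    have hmodz : (R : ℤ) + ((p : ℤ) ^ f - 1) * t = (p : ℤ) ^ i * a := by
      rw [← hQ]
      exact_mod_cast hmod
    have hRlt' : (R : ℤ) < (p : ℤ) ^ f - 1 := by
      rw [← hQ]
      exact_mod_cast hRlt
    have hR0 : (0 : ℤ) ≤ R := by positivity
    generalize (p : ℤ) ^ f - 1 = Q at *
    have e1 : 2 * (N : ℤ) * R = Q * (N + 2 * r + 2 * N * (k + s + (p : ℤ) ^ i * m - t)) := by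
      have a1 : 2 * (N : ℤ) * ((p : ℤ) ^ i * a) =
          (p : ℤ) ^ i * (Q * (N + 2 * c) + 2 * N * Q * m) := by
        linear_combination ((p : ℤ) ^ i) * hm
      linear_combination (2 * (N : ℤ)) * hmodz + a1 + 2 * Q * hs + Q * N * hkz
    have hX1 : 0 ≤ (N : ℤ) + 2 * r + 2 * N * (k + s + (p : ℤ) ^ i * m - t) := by
      by_contra hneg
      have : Q * (N + 2 * r + 2 * N * (k + s + (p : ℤ) ^ i * m - t)) < 0 :=
        mul_neg_of_pos_of_neg hQpos (not_le.mp hneg)
      nlinarith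
    have hX2 : (N : ℤ) + 2 * r + 2 * N * (k + s + (p : ℤ) ^ i * m - t) < 2 * N := by
      by_contra hneg
      have h1 : Q * (2 * N) ≤ Q * (N + 2 * r + 2 * N * (k + s + (p : ℤ) ^ i * m - t)) :=
        mul_le_mul_of_nonneg_left (not_lt.mp hneg) hQpos.le
      nlinarith
    have hr4 : r * 2 < N := lt_of_le_of_ne hr2 hr3
    have hX3 : (k : ℤ) + s + (p : ℤ) ^ i * m - t = 0 := by
      generalize (k : ℤ) + s + (p : ℤ) ^ i * m - t = y at *
      rcases lt_trichotomy y 0 with hy | hy | hy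
      · exfalso
        have : (N : ℤ) * y ≤ N * (-1) := mul_le_mul_of_nonneg_left (by omega) hNpos.le
        nlinarith
      · exact hy
      · exfalso
        have : (N : ℤ) * 1 ≤ N * y := mul_le_mul_of_nonneg_left (by omega) hNpos.le
        nlinarith
    rw [hX3] at e1
    rw [e1]
    ring
  have hd := digits_cyc hp ha'
  have hdz : ((Nat.digits p a).sum : ℤ) * ((p : ℤ) ^ f - 1) =
      ((p : ℤ) - 1) * ∑ i ∈ range f, (((p ^ i * a) % (p ^ f - 1) : ℕ) : ℤ) := by
    have hp1 : ((p - 1 : ℕ) : ℤ) = (p : ℤ) - 1 := by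
      rw [Nat.cast_sub (by omega)]
      push_cast
      ring
    rw [← hQ, ← hp1]
    exact_mod_cast hd
  have hsum : 2 * (N : ℤ) * ∑ i ∈ range f, (((p ^ i * a) % (p ^ f - 1) : ℕ) : ℤ) =
      ((p : ℤ) ^ f - 1) * (f * N + 2 * W p N f (c : ZMod N)) := by
    rw [Finset.mul_sum, Finset.sum_congr rfl fun i _ => key i, ← Finset.mul_sum,
      Finset.sum_add_distrib, ← Finset.mul_sum]
    unfold W
    simp
  have hfin : ((p : ℤ) ^ f - 1) * (2 * N * (Nat.digits p a).sum) =
      ((p : ℤ) ^ f - 1) * ((p - 1) * (f * N + 2 * W p N f (c : ZMod N))) := by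
    linear_combination (2 * (N : ℤ)) * hdz + ((p : ℤ) - 1) * hsum
  exact mul_left_cancel₀ hQpos.ne' hfin

end Pool.Agent.CycU
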