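import Pool.Agent.LibCycU.O4
import Pool.Agent.LibCycU.S1
import Pool.Agent.LibCycU.S2

/-! # The Fourier transform over `Z/N` of the integers `m(v)` and the criterion -/

set_option autoImplicit false

open Finset

namespace Pool.Agent.CycU

section

variable {p : ℕ} [Fact p.Prime] {F : Type} [Field F] [Fintype F] [DecidableEq F]
  [Algebra (ZMod p) F] {f : ℕ} {ω : F} {N : ℕ} [Fact N.Prime]

/-- the Gauss sums `G_t` -/
noncomputable def GG {Ω : Type} [Field Ω] {ζ z : Ω} (hζ : ζ ^ p = 1) (hz : z ^ N = 1) (ω : F)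
    (t : ZMod N) : Ω :=
  ∑ y : F, (quadraticChar F y : Ω) * chN hz (t * ix N ω y) * psi hζ F y

/-- Fourier transform of `m` -/
theorem mm_four {Ω : Type} [Field Ω] {ζ z : Ω} (hζ : ζ ^ p = 1) (hz : z ^ N = 1)
    (hp : p ≠ 2) (hF : Fintype.card F = p ^ f) (hf : Odd f)
    (hNp : ¬ N ∣ p - 1) (hω : IsPrimitiveRoot ω (Fintype.card F - 1))
    (hd : N ∣ Fintype.card F - 1) (s : ℤ) (t : ZMod N) :
    (∑ v : ZMod N, (mm p N s ω v : Ω) * chN hz (t * v)) * tau hζ =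
      GG hζ hz ω t * ∑ u : ZMod N, (kap N s u : Ω) * chN hz (-t * u) := by
  have h1 : ∀ v : ZMod N, (mm p N s ω v : Ω) * chN hz (t * v) * tau hζ =
      ∑ y : F, (EE N s ω v y : Ω) * psi hζ F y * chN hz (t * v) := by
    intro v
    rw [← Finset.sum_mul, sum_EE hζ hp hF hf hNp hω hd s v]
    ring
  rw [Finset.sum_mul, Finset.sum_congr rfl fun v _ => h1 v, Finset.sum_comm]
  unfold GG
  rw [Finset.sum_mul]
  apply Finset.sum_congr rfl
  intro y _
  rw [Finset.mul_sum, ← Equiv.sum_comp (Equiv.subLeft (ix N ω y))]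
  apply Finset.sum_congr rfl
  intro u _
  have e1 : (Equiv.subLeft (ix N ω y)) u = ix N ω y - u := rfl
  rw [e1]
  unfold EE
  rw [show ix N ω y - (ix N ω y - u) = u by ring,
    show t * (ix N ω y - u) = t * ix N ω y + -t * u by ring, AddChar.map_add_eq_mul]
  push_cast
  ring

/-- Fourier inversion -/
theorem mm_inv {Ω : Type} [Field Ω] {z : Ω} (hz : IsPrimitiveRoot z N) (m : ZMod N → Ω)
    (v : ZMod N) :
    (N : Ω) * m v = ∑ t : ZMod N, (∑ u : ZMod N, m u * chN hz.pow_eq_one (t * u)) *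
      chN hz.pow_eq_one (-(t * v)) := by
  have hψ : (chN hz.pow_eq_one : AddChar (ZMod N) Ω).IsPrimitive :=
    AddChar.zmodChar_primitive_of_primitive_root N hz
  have h1 : ∀ t : ZMod N, (∑ u : ZMod N, m u * chN hz.pow_eq_one (t * u)) *
      chN hz.pow_eq_one (-(t * v)) = ∑ u : ZMod N, m u * chN hz.pow_eq_one (t * (u - v)) := by
    intro t
    rw [Finset.sum_mul]
    apply Finset.sum_congr rfl
    intro u _
    rw [show t * (u - v) = t * u + -(t * v) by ring, AddChar.map_add_eq_mul]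
    ring
  rw [Finset.sum_congr rfl fun t _ => h1 t, Finset.sum_comm, Finset.sum_eq_single v]
  · simp only [sub_self, mul_zero, AddChar.map_zero_eq_one, mul_one]
    rw [Finset.sum_const, Finset.card_univ, ZMod.card, nsmul_eq_mul]
  · intro u _ hu
    rw [← Finset.mul_sum]
    have := AddChar.sum_mulShift (u - v) hψ
    rw [if_neg (sub_ne_zero.2 hu)] at this
    rw [this]
    simp
  · intro h; exact absurd (mem_univ _) h

end

section norms

variable {p : ℕ} [Fact p.Prime] {N : ℕ} [Fact N.Prime] {Ω : Type} [NormedField Ω]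
  [IsUltrametricDist Ω]

omit [IsUltrametricDist Ω] in
theorem norm_root {z : Ω} {n : ℕ} (hn : n ≠ 0) (hz : z ^ n = 1) : ‖z‖ = 1 := by
  have h1 : ‖z‖ ^ n = 1 := by rw [← norm_pow, hz, norm_one]
  exact (pow_eq_one_iff_of_nonneg (norm_nonneg z) hn).1 h1

theorem norm_chN {z : Ω} (hz : z ^ N = 1) (v : ZMod N) : ‖chN hz v‖ = 1 := by
  have h0 : N ≠ 0 := (Fact.out : N.Prime).ne_zero
  apply norm_root h0
  rw [← AddChar.map_nsmul_eq_pow]
  simp

omit [IsUltrametricDist Ω] in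
theorem norm_tau [CharZero Ω] (hp : p ≠ 2) (hpn : ‖(p : Ω)‖ = (p : ℝ)⁻¹) {ζ : Ω}
    (hζ : IsPrimitiveRoot ζ p) : ‖tau hζ.pow_eq_one‖ = (p : ℝ) ^ (-(1 / 2 : ℝ)) := by
  have h1 : ‖tau hζ.pow_eq_one‖ ^ 2 = (p : ℝ)⁻¹ := by
    rw [← norm_pow, tau_sq hp hζ, Nst_eq hp]
    split_ifs
    · push_cast; rw [norm_neg, hpn]
    · push_cast; rw [hpn]
  have hp0 : (0 : ℝ) < p := by exact_mod_cast (Fact.out : p.Prime).pos
  have h2 : ((p : ℝ) ^ (-(1 / 2 : ℝ))) ^ 2 = (p : ℝ)⁻¹ := by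
    rw [← Real.rpow_natCast, ← Real.rpow_mul hp0.le]
    norm_num
    exact Real.rpow_neg_one _
  rw [← h2] at h1
  exact (pow_left_inj₀ (norm_nonneg _) (by positivity) (by norm_num)).1 h1

theorem norm_sum_le {ι : Type} (S : Finset ι) (g : ι → Ω) {C : ℝ} (hC : 0 ≤ C)
    (h : ∀ i ∈ S, ‖g i‖ ≤ C) : ‖∑ i ∈ S, g i‖ ≤ C :=
  IsUltrametricDist.norm_sum_le_of_forall_le_of_nonneg hC h

end norms

end Pool.Agent.CycU
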