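import Pool.Agent.LibCycU.O5

/-! # Stickelberger's theorem for the Gauss sums `G_t` -/

set_option autoImplicit false

open Finset

namespace Pool.Agent.CycU

theorem stick {p : ℕ} [Fact p.Prime] (hp : p ≠ 2) {N : ℕ} [Fact N.Prime] (hN : N ≠ 2)
    {Ω : Type} [NormedField Ω]
    [IsUltrametricDist Ω] [CharZero Ω] [IsAlgClosed Ω] (hpn : ‖(p : Ω)‖ = (p : ℝ)⁻¹)
    {F : Type} [Field F] [Fintype F] [DecidableEq F] [Algebra (ZMod p) F] {f : ℕ}
    (hF : Fintype.card F = p ^ f) {ω : F} (hω : IsPrimitiveRoot ω (Fintype.card F - 1))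
    (hd : N ∣ Fintype.card F - 1) {ζ : Ω} (hζ : IsPrimitiveRoot ζ p) :
    ∃ (z : Ω) (hz : IsPrimitiveRoot z N), ∀ t : ZMod N,
      ‖GG hζ.pow_eq_one hz.pow_eq_one ω t‖ =
        (p : ℝ) ^ (-((f : ℝ) / 2 + (W p N f t : ℝ) / N)) := by
  have hpp := (Fact.out : p.Prime)
  have hNN := (Fact.out : N.Prime)
  have hpodd : Odd p := hpp.odd_of_ne_two hp
  have hNodd : Odd N := hNN.odd_of_ne_two hN
  have hch : ringChar F ≠ 2 := by rwa [ringChar_eq p F]
  obtain ⟨χ, hχ, hnorm⟩ := stick1 hp hpn hF hζ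
  set q := p ^ f with hq
  have hF1 : Fintype.card F - 1 = q - 1 := by rw [hF]
  have hq1 : 1 < q := by rw [← hF]; exact Fintype.one_lt_card
  have hω0 : ω ≠ 0 := hω.ne_zero (by omega)
  have hωu : IsUnit ω := isUnit_iff_ne_zero.2 hω0
  -- `ξ = χ ω` is a primitive root
  have hξ : IsPrimitiveRoot (χ ω) (q - 1) := by
    have key : ∀ k : ℕ, (χ ω) ^ k = 1 → χ ^ k = 1 := by
      intro k h
      ext a
      have ha : (a : F) ≠ 0 := a.ne_zero
      obtain ⟨i, hi⟩ := exists_pow_eq hω ha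
      rw [MulChar.pow_apply_coe, MulChar.one_apply a.isUnit, ← hi, map_pow, ← pow_mul, mul_comm,
        pow_mul, h, one_pow]
    refine ⟨?_, ?_⟩
    · have h1 : χ ^ (q - 1) = 1 := by rw [← hχ]; exact pow_orderOf_eq_one χ
      have h2 := congrArg (fun φ : MulChar F Ω => φ ω) h1
      simp only [MulChar.one_apply hωu] at h2
      rw [MulChar.pow_apply' χ (by omega)] at h2
      exact h2
    · intro k hk
      rw [← hχ]
      exact orderOf_dvd_of_pow_eq_one (key k hk)
  set ξ := χ ω with hξdef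
  have hqodd : Odd q := hpodd.pow
  have hN0 : 0 < N := hNN.pos
  obtain ⟨r, hr⟩ : ∃ r, q - 1 = 2 * r := by
    obtain ⟨k, hk⟩ := hqodd
    exact ⟨k, by omega⟩
  rw [hF1] at hd
  obtain ⟨g, hg⟩ := hd
  have hg0 : 0 < g := by
    rcases Nat.eq_zero_or_pos g with h | h
    · subst h; omega
    · exact h
  have hr0 : 0 < r := by omega
  have hhalf : ξ ^ r = -1 := by
    have h1 := hξ.pow (by omega : 0 < q - 1) (a := r) (b := 2) (by rw [hr]; ring)
    exact h1.eq_neg_one_of_two_right
  have hz : IsPrimitiveRoot (ξ ^ g) N := hξ.pow (by omega) (by rw [hg]; ring)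
  refine ⟨ξ ^ g, hz, ?_⟩
  intro t
  set a := (r + t.val * g) % (q - 1) with ha
  have haq : a < q - 1 := Nat.mod_lt _ (by omega)
  have hmod := Nat.div_add_mod (r + t.val * g) (q - 1)
  rw [← ha] at hmod
  set j := (r + t.val * g) / (q - 1) with hj
  have ha0 : 0 < a := by
    rcases Nat.eq_zero_or_pos a with h | h
    · exfalso
      rw [h, add_zero] at hmod
      -- `(q-1) j = r + t g`, multiply by `2 N`
      have h1 : (2 * r) * (2 * N * j) = (2 * r) * (N + 2 * t.val) := by
        have : (2 * N) * ((q - 1) * j) = (2 * N) * (r + t.val * g) := by rw [hmod]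
        have e1 : 2 * N * (r + t.val * g) = (2 * r) * N + 2 * t.val * (N * g) := by ring
        rw [e1, ← hg, hr] at this
        linarith
      have h2 := Nat.eq_of_mul_eq_mul_left (by omega) h1
      obtain ⟨k, hk⟩ := hNodd
      have h3 : 2 * N * j = 2 * (N * j) := by ring
      rw [h3] at h2
      omega
    · exact h
  have hξa : ξ ^ a = -(ξ ^ g) ^ t.val := by
    have h1 : ξ ^ (r + t.val * g) = ξ ^ a := by
      rw [← hmod, pow_add, pow_mul, hξ.pow_eq_one, one_pow, one_mul]
    rw [← h1, pow_add, hhalf, mul_comm t.val g, pow_mul]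
    ring
  have hGG : GG hζ.pow_eq_one hz.pow_eq_one ω t = gaussSum (χ ^ a) (psi hζ.pow_eq_one F) := by
    unfold GG gaussSum
    apply Finset.sum_congr rfl
    intro y _
    congr 1
    by_cases hy : y = 0
    · subst hy
      rw [MulChar.pow_apply' χ ha0.ne', MulChar.map_zero χ, zero_pow ha0.ne']
      simp
    · obtain ⟨i, rfl⟩ := exists_pow_eq hω hy
      rw [MulChar.pow_apply' χ ha0.ne', quadChar_pow hω hch,
        ix_pow hω (by rw [hF1, hg]; exact dvd_mul_right N g), map_pow, ← hξdef, ← pow_mul,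
        mul_comm i a, pow_mul, hξa]
      have e1 : t * (i : ZMod N) = ((t.val * i : ℕ) : ZMod N) := by
        push_cast
        rw [ZMod.natCast_zmod_val]
      rw [e1]
      have e2 : chN hz.pow_eq_one ((t.val * i : ℕ) : ZMod N) = (ξ ^ g) ^ (t.val * i) :=
        AddChar.zmodChar_apply' hz.pow_eq_one _
      rw [e2, pow_mul]
      push_cast
      rw [← mul_pow]
      congr 1
      ring
  rw [hGG, hnorm a ha0 haq]
  congr 1
  -- digits
  have hdvd : (2 * N * (p ^ f - 1) : ℤ) ∣ 2 * N * a - (p ^ f - 1) * (N + 2 * (t.val : ℤ)) := by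
    refine ⟨-(j : ℤ), ?_⟩
    have hq1' : ((p : ℤ) ^ f - 1) = 2 * r := by
      have : ((q - 1 : ℕ) : ℤ) = ((2 * r : ℕ) : ℤ) := by rw [hr]
      rw [Nat.cast_sub hq1.le] at this
      push_cast at this
      rw [hq] at this
      push_cast at this
      exact this
    have hq2' : ((p : ℤ) ^ f - 1) = N * g := by
      have : ((q - 1 : ℕ) : ℤ) = ((N * g : ℕ) : ℤ) := by rw [hg]
      rw [Nat.cast_sub hq1.le] at this
      push_cast at this
      rw [hq] at this
      push_cast at this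
      exact this
    have hm : ((p : ℤ) ^ f - 1) * j + a = r + t.val * g := by
      have : (((q - 1) * j + a : ℕ) : ℤ) = ((r + t.val * g : ℕ) : ℤ) := by rw [hmod]
      push_cast at this
      rw [hr] at this
      push_cast at this
      rw [← hq1'] at this
      exact this
    have ea : (a : ℤ) = r + t.val * g - ((p : ℤ) ^ f - 1) * j := by linarith
    rw [ea]
    have e3 : (2 : ℤ) * N * (r + t.val * g - ((p : ℤ) ^ f - 1) * j) =
        N * (2 * r) + 2 * t.val * (N * g) - 2 * N * ((p : ℤ) ^ f - 1) * j := by ring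
    rw [e3, ← hq1', ← hq2']
    ring
  have hW := digits_W (p := p) (f := f) (N := N) (a := a) hpp.one_lt hpodd hN
    (by rw [← hq, hg]; exact dvd_mul_right N g) ha0 haq (t.val : ℤ) hdvd
  have e4 : (((t.val : ℕ) : ℤ) : ZMod N) = t := by
    push_cast
    rw [ZMod.natCast_zmod_val]
  rw [e4] at hW
  generalize (Nat.digits p a).sum = S at hW ⊢
  have hW' : (2 * (N : ℝ) * (S : ℝ)) =
      ((p : ℝ) - 1) * ((f : ℝ) * N + 2 * (W p N f t : ℝ)) := by
    have := congrArg (Int.cast : ℤ → ℝ) hW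
    push_cast at this
    linarith
  have hN' : (N : ℝ) ≠ 0 := by exact_mod_cast hN0.ne'
  have hp' : (p : ℝ) - 1 ≠ 0 := by
    have : (1 : ℝ) < p := by exact_mod_cast hpp.one_lt
    linarith
  have e5 : (S : ℝ) / ((p : ℝ) - 1) = (f : ℝ) / 2 + (W p N f t : ℝ) / N := by
    rw [div_eq_iff hp']
    field_simp
    linarith
  rw [e5]

end Pool.Agent.CycU
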