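import Pool.Agent.LibCycU.O6

/-! # The criterion for odd `f` and `2` a non-residue -/

set_option autoImplicit false

open Finset

namespace Pool.Agent.CycU

/-- the criterion with sign `ε` -/
def Crit (p N f : ℕ) [Fact N.Prime] (ε : ℤ) : Prop :=
  ∀ u : ZMod N, u ≠ 0 →
    (if quadraticChar (ZMod N) u = ε then -((wN p N : ℤ) * N) else 0) ≤ W p N f u

section

variable {p : ℕ} [Fact p.Prime] {F : Type} [Field F] [Fintype F] [DecidableEq F]
  [Algebra (ZMod p) F] {f : ℕ} {ω : F} {N : ℕ} [Fact N.Prime]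

theorem W_zero (p f : ℕ) : W p N f (0 : ZMod N) = 0 := by
  unfold W; simp

theorem crit_norm (hp : p ≠ 2) (hN : N ≠ 2) (hpN : p ≠ N) (hF : Fintype.card F = p ^ f) (hf : Odd f)
    (hNp : ¬ N ∣ p - 1) (hω : IsPrimitiveRoot ω (Fintype.card F - 1))
    (hd : N ∣ Fintype.card F - 1) {Ω : Type} [NormedField Ω]
    [IsUltrametricDist Ω] [CharZero Ω] [IsAlgClosed Ω] (hpn : ‖(p : Ω)‖ = (p : ℝ)⁻¹)
    {ζ : Ω} (hζ : IsPrimitiveRoot ζ p) :
    ∃ ε : ℤ, (ε = 1 ∨ ε = -1) ∧ ∀ s : ℤ, (s = 1 ∨ s = -1) →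
      ((∀ v : ZMod N, (p : ℤ) ^ ((f - 1) / 2) ∣ mm p N s ω v) ↔ Crit p N f (s * ε)) := by
  have hpp := (Fact.out : p.Prime)
  have hNN := (Fact.out : N.Prime)
  have hp0 : (0 : ℝ) < p := by exact_mod_cast hpp.pos
  have hp1 : (1 : ℝ) < p := by exact_mod_cast hpp.one_lt
  have hN0 : (0 : ℝ) < N := by exact_mod_cast hNN.pos
  obtain ⟨z, hz, hG⟩ := stick hp hN hpn hF hω hd hζ
  obtain ⟨ε, hε, hk⟩ := khat_norm hp hN hpn hz
  have hlm : quadraticChar (ZMod N) (-1) = 1 ∨ quadraticChar (ZMod N) (-1) = -1 :=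
    quadraticChar_dichotomy (by simp)
  refine ⟨quadraticChar (ZMod N) (-1) * ε, ?_, ?_⟩
  · rcases hlm with h | h <;> rcases hε with h' | h' <;> simp [h, h']
  intro s hs
  obtain ⟨k, hk2⟩ := hf
  have hkk : (f - 1) / 2 = k := by omega
  have hfr : (f : ℝ) = 2 * k + 1 := by rw [hk2]; push_cast; ring
  have hτ := norm_tau hp hpn hζ
  set τ := tau hζ.pow_eq_one with hτdef
  set K : ZMod N → Ω := fun t => ∑ u : ZMod N, (kap N s u : Ω) * chN hz.pow_eq_one (-t * u) with hK
  have hF4 := fun t => mm_four (Ω := Ω) hζ.pow_eq_one hz.pow_eq_one hp hF ⟨k, hk2⟩ hNp hω hd s t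
  -- norm of `K t`
  have hK0 : K 0 = s := by
    simp only [hK, neg_zero, zero_mul, AddChar.map_zero_eq_one, mul_one]
    have : ∑ u : ZMod N, kap N s u = s := by
      have h1 : ∀ u : ZMod N, kap N s u = (if u = 0 then s else 0) - quadraticChar (ZMod N) u := by
        intro u
        unfold kap
        by_cases h : u = 0
        · subst h; simp
        · rw [if_neg h, if_neg h]; ring
      rw [Finset.sum_congr rfl fun u _ => h1 u, Finset.sum_sub_distrib,
        quadraticChar_sum_zero (by rwa [ZMod.ringChar_zmod_n])]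
      simp
    exact_mod_cast congrArg (Int.cast : ℤ → Ω) this
  have hKt : ∀ t : ZMod N, t ≠ 0 → ‖K t‖ =
      if s * quadraticChar (ZMod N) (-t) = ε then (p : ℝ) ^ (-(wN p N : ℝ)) else 1 := by
    intro t ht
    rw [hK]
    simp only
    rw [kap_four s hz.pow_eq_one (neg_ne_zero.2 ht)]
    exact hk s hs (-t) (neg_ne_zero.2 ht)
  have hcond : ∀ t : ZMod N, t ≠ 0 → ((s * quadraticChar (ZMod N) (-t) = ε) ↔
      quadraticChar (ZMod N) t = s * (quadraticChar (ZMod N) (-1) * ε)) := by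
    intro t ht
    have e1 : quadraticChar (ZMod N) (-t) = quadraticChar (ZMod N) (-1) *
        quadraticChar (ZMod N) t := by rw [← neg_one_mul, map_mul]
    rw [e1]
    rcases hlm with h | h <;> rcases hs with rfl | rfl <;> rw [h] <;>
      constructor <;> intro h' <;> linarith
  -- the bound for each `t`
  have hiff : ∀ t : ZMod N, t ≠ 0 →
      (‖GG hζ.pow_eq_one hz.pow_eq_one ω t * K t‖ ≤ (p : ℝ) ^ (-((f : ℝ) / 2)) ↔
      (if quadraticChar (ZMod N) t = s * (quadraticChar (ZMod N) (-1) * ε) then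
        -((wN p N : ℤ) * N) else 0) ≤ W p N f t) := by
    intro t ht
    rw [norm_mul, hG, hKt t ht]
    by_cases hc : s * quadraticChar (ZMod N) (-t) = ε
    · rw [if_pos hc, if_pos ((hcond t ht).1 hc), ← Real.rpow_add hp0, Real.rpow_le_rpow_left_iff hp1]
      constructor
      · intro h
        have h1 : -((wN p N : ℝ)) ≤ (W p N f t : ℝ) / N := by linarith
        rw [le_div_iff₀ hN0] at h1
        have h2 : ((-((wN p N : ℤ) * N) : ℤ) : ℝ) ≤ (W p N f t : ℝ) := by
          push_cast; linarith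
        exact_mod_cast h2
      · intro h
        have h2 : ((-((wN p N : ℤ) * N) : ℤ) : ℝ) ≤ (W p N f t : ℝ) := by exact_mod_cast h
        push_cast at h2
        have h1 : -((wN p N : ℝ)) ≤ (W p N f t : ℝ) / N := by
          rw [le_div_iff₀ hN0]; linarith
        linarith
    · rw [if_neg hc, if_neg (fun h => hc ((hcond t ht).2 h)), mul_one,
        Real.rpow_le_rpow_left_iff hp1]
      constructor
      · intro h
        have h1 : 0 ≤ (W p N f t : ℝ) / N := by linarith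
        have h2 : (0 : ℝ) ≤ (W p N f t : ℝ) := by
          by_contra hneg
          push Not at hneg
          have := div_neg_of_neg_of_pos hneg hN0
          linarith
        exact_mod_cast h2
      · intro h
        have h2 : (0 : ℝ) ≤ (W p N f t : ℝ) := by exact_mod_cast h
        have h1 : 0 ≤ (W p N f t : ℝ) / N := div_nonneg h2 hN0.le
        linarith
  rw [hkk]
  constructor
  · intro h t ht
    rw [← hiff t ht, ← hF4 t, norm_mul, hτ]
    have h1 : ‖∑ v : ZMod N, (mm p N s ω v : Ω) * chN hz.pow_eq_one (t * v)‖ ≤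
        (p : ℝ) ^ (-(k : ℝ)) := by
      apply norm_sum_le _ _ (by positivity)
      intro v _
      rw [norm_mul, norm_chN, mul_one]
      exact norm_le_of_dvd hpn (h v)
    calc _ ≤ (p : ℝ) ^ (-(k : ℝ)) * (p : ℝ) ^ (-(1 / 2 : ℝ)) := by
          gcongr
      _ = _ := by
          rw [← Real.rpow_add hp0, hfr]
          congr 1
          ring
  · intro h v
    apply dvd_of_norm_le hpn
    have hall : ∀ t : ZMod N, ‖GG hζ.pow_eq_one hz.pow_eq_one ω t * K t‖ ≤
        (p : ℝ) ^ (-((f : ℝ) / 2)) := by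
      intro t
      by_cases ht : t = 0
      · subst ht
        rw [hK0, norm_mul, hG, W_zero]
        have : ‖((s : ℤ) : Ω)‖ = 1 := by
          rcases hs with rfl | rfl <;> simp
        rw [this]
        simp
      · exact (hiff t ht).2 (h t ht)
    have hinv := mm_inv hz (fun v => (mm p N s ω v : Ω)) v
    have h1 : (N : Ω) * (mm p N s ω v : Ω) * τ = ∑ t : ZMod N,
        GG hζ.pow_eq_one hz.pow_eq_one ω t * K t * chN hz.pow_eq_one (-(t * v)) := by
      rw [hinv, Finset.sum_mul]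
      apply Finset.sum_congr rfl
      intro t _
      rw [← hF4 t]
      ring
    have h2 : ‖(N : Ω) * (mm p N s ω v : Ω) * τ‖ ≤ (p : ℝ) ^ (-((f : ℝ) / 2)) := by
      rw [h1]
      apply norm_sum_le _ _ (by positivity)
      intro t _
      rw [norm_mul, norm_chN, mul_one]
      exact hall t
    have hNn : ‖(N : Ω)‖ = 1 := by
      apply norm_nat_eq_one hpn
      intro hdv
      exact hpN ((Nat.prime_dvd_prime_iff_eq hpp hNN).1 hdv)
    rw [norm_mul, norm_mul, hNn, one_mul, hτ] at h2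
    have h3 : (p : ℝ) ^ (-((f : ℝ) / 2)) = (p : ℝ) ^ (-(k : ℝ)) * (p : ℝ) ^ (-(1 / 2 : ℝ)) := by
      rw [← Real.rpow_add hp0, hfr]
      congr 1
      ring
    rw [h3] at h2
    exact le_of_mul_le_mul_right h2 (by positivity)

/-- the criterion for odd `f > 1`, `2` a non-residue -/
theorem odd_crit (hp : p ≠ 2) (hN : N ≠ 2) (hpN : p ≠ N) (hF : Fintype.card F = p ^ f) (hf : Odd f)
    (hNp : ¬ N ∣ p - 1) (hω : IsPrimitiveRoot ω (Fintype.card F - 1))
    (hd : 2 * N ∣ Fintype.card F - 1) (Q : Subgroup (ZMod (2 * N))ˣ) (hQ : Q.index = 2)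
    (h2 : quadraticChar (ZMod N) 2 = -1) :
    (Admissible (DD N Q ω 0) ∨ Admissible (DD N Q ω (N : ZMod (2 * N)))) ↔
      Crit p N f 1 ∨ Crit p N f (-1) := by
  have hd' : N ∣ Fintype.card F - 1 := (dvd_mul_left N 2).trans hd
  have hpn : ‖(p : PadicAlgCl p)‖ = (p : ℝ)⁻¹ := by
    have := PadicAlgCl.norm_extends p (p : ℚ_[p])
    rw [Padic.norm_p] at this
    rw [← this]
    congr 1
  have hpne : NeZero ((p : ℕ) : PadicAlgCl p) := ⟨by exact_mod_cast (Fact.out : p.Prime).ne_zero⟩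
  obtain ⟨ζ, hζ⟩ := HasEnoughRootsOfUnity.exists_primitiveRoot (PadicAlgCl p) p
  obtain ⟨ε, hε, hcr⟩ := crit_norm hp hN hpN hF hf hNp hω hd' hpn hζ
  have hb1 : base N 1 = 0 := by unfold base; simp
  have hb2 : base N (-1) = (N : ZMod (2 * N)) := by unfold base; simp
  have h1 := adm_iff_m hp hN hF hf hNp hω hd Q hQ (s := 1) (Or.inl rfl) h2 hζ
  have h3 := adm_iff_m hp hN hF hf hNp hω hd Q hQ (s := -1) (Or.inr rfl) h2 hζ
  rw [m_iff_dvd hp hN hF hf hNp hω hd' (Or.inl rfl) hζ, hcr 1 (Or.inl rfl), hb1] at h1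
  rw [m_iff_dvd hp hN hF hf hNp hω hd' (Or.inr rfl) hζ, hcr (-1) (Or.inr rfl), hb2] at h3
  rw [h1, h3]
  rcases hε with rfl | rfl
  · simp
  · simp [or_comm]

end

end Pool.Agent.CycU
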