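import Pool.Agent.LibCycU.O7

/-! # The integers `n(v)` and the inversion formula -/

set_option autoImplicit false

open Finset

namespace Pool.Agent.CycU

/-- Jacobi-type sum of the quadratic character of `Z/N` -/
theorem quad_conv {N : ℕ} [Fact N.Prime] (hN : N ≠ 2) (x : ZMod N) :
    ∑ u : ZMod N, quadraticChar (ZMod N) (x - u) * quadraticChar (ZMod N) u =
      (if x = 0 then (N : ℤ) * quadraticChar (ZMod N) (-1) else 0) -
        quadraticChar (ZMod N) (-1) := by
  set lam := quadraticChar (ZMod N) with hlam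
  by_cases hx : x = 0
  · subst hx
    rw [if_pos rfl]
    have h1 : ∀ u : ZMod N, lam (0 - u) * lam u = lam (-1) - if u = 0 then lam (-1) else 0 := by
      intro u
      by_cases hu : u = 0
      · subst hu; simp [hlam]
      · rw [if_neg hu, sub_zero, show (0 : ZMod N) - u = -1 * u by ring, map_mul, mul_assoc,
          ← pow_two, hlam, quadraticChar_sq_one hu, mul_one]
    rw [Finset.sum_congr rfl fun u _ => h1 u, Finset.sum_sub_distrib]
    simp [ZMod.card]
  · rw [if_neg hx, zero_sub]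
    have h1 : ∑ u : ZMod N, lam (x - u) * lam u = ∑ u : ZMod N, lam (1 - u) * lam u := by
      rw [← Equiv.sum_comp (Equiv.mulLeft₀ x hx)]
      apply Finset.sum_congr rfl
      intro u _
      have e1 : Equiv.mulLeft₀ x hx u = x * u := rfl
      rw [e1, show x - x * u = x * (1 - u) by ring, map_mul, map_mul]
      have := quadraticChar_sq_one (F := ZMod N) hx
      linear_combination (lam (1 - u) * lam u) * this
    rw [h1]
    have h2 : lam ≠ 1 := by
      intro h
      obtain ⟨a, ha⟩ := quadraticChar_exists_neg_one (F := ZMod N) (by rwa [ZMod.ringChar_zmod_n])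
      have h3 := congrArg (fun φ : MulChar (ZMod N) ℤ => φ a) h
      simp only [hlam, ha] at h3
      have ha0 : IsUnit a := by
        rw [isUnit_iff_ne_zero]; intro h0; rw [h0] at ha; simp at ha
      rw [MulChar.one_apply ha0] at h3
      norm_num at h3
    have h4 := jacobiSum_nontrivial_inv h2
    have h5 : lam⁻¹ = lam := (quadraticChar_isQuadratic (ZMod N)).inv
    rw [h5] at h4
    unfold jacobiSum at h4
    rw [← h4]
    apply Finset.sum_congr rfl
    intro u _
    ring

section

variable {p : ℕ} [Fact p.Prime] {F : Type} [Field F] [Fintype F] [DecidableEq F]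
  [Algebra (ZMod p) F] {f : ℕ} {ω : F} {N : ℕ} [Fact N.Prime]

/-- `E'_v(y)` -/
noncomputable def EN (N : ℕ) [Fact N.Prime] (ω : F) (v : ZMod N) (y : F) : ℤ :=
  quadraticChar F y * (if ix N ω y = v then 1 else 0)

/-- the integers `n(v)` -/
noncomputable def nn (p : ℕ) [Fact p.Prime] [Algebra (ZMod p) F] (N : ℕ) [Fact N.Prime]
    (ω : F) (v : ZMod N) : ℤ := trs p (EN N ω v) 1

theorem mm_eq_nn (s : ℤ) (v : ZMod N) :
    mm p N s ω v = ∑ u : ZMod N, nn p N ω u * kap N s (u - v) := by
  unfold mm nn trs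
  simp only [Finset.sum_mul]
  rw [Finset.sum_comm]
  apply Finset.sum_congr rfl
  intro y _
  rw [Finset.sum_eq_single (ix N ω y)]
  · unfold EE EN
    rw [if_pos rfl]
    split_ifs <;> ring
  · intro u _ hu
    unfold EN
    rw [if_neg (Ne.symm hu)]
    simp
  · intro h; exact absurd (mem_univ _) h

theorem EN_smul (hp : p ≠ 2) (hF : Fintype.card F = p ^ f) (hf : Odd f)
    (hNp : ¬ N ∣ p - 1) (hω : IsPrimitiveRoot ω (Fintype.card F - 1))
    (hd : N ∣ Fintype.card F - 1) (v : ZMod N) {c : ZMod p} (hc : c ≠ 0) (y : F) :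
    EN N ω v (algebraMap (ZMod p) F c * y) = quadraticChar (ZMod p) c * EN N ω v y := by
  unfold EN
  by_cases hy : y = 0
  · subst hy; simp
  have hc' : algebraMap (ZMod p) F c ≠ 0 := by
    intro h0; exact hc ((map_eq_zero _).1 h0)
  rw [map_mul, quadChar_algebraMap hp hF hf, ix_mul hω hd hc' hy, ix_algebraMap hNp hω hd hc,
    zero_add, mul_assoc]

theorem GG_eq_nn {Ω : Type} [Field Ω] {ζ z : Ω} (hζ : ζ ^ p = 1) (hz : z ^ N = 1)
    (hp : p ≠ 2) (hF : Fintype.card F = p ^ f) (hf : Odd f)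
    (hNp : ¬ N ∣ p - 1) (hω : IsPrimitiveRoot ω (Fintype.card F - 1))
    (hd : N ∣ Fintype.card F - 1) (t : ZMod N) :
    GG hζ hz ω t = tau hζ * ∑ u : ZMod N, (nn p N ω u : Ω) * chN hz (t * u) := by
  have h1 : ∀ u : ZMod N, ∑ y : F, (EN N ω u y : Ω) * psi hζ F y = (nn p N ω u : Ω) * tau hζ :=
    fun u => sum_twisted hp hζ _ fun _ hc y => EN_smul hp hF hf hNp hω hd u hc y
  rw [Finset.mul_sum]
  have h2 : ∀ u : ZMod N, tau hζ * ((nn p N ω u : Ω) * chN hz (t * u)) =
      ∑ y : F, (EN N ω u y : Ω) * psi hζ F y * chN hz (t * u) := by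
    intro u
    rw [← Finset.sum_mul, h1 u]
    ring
  rw [Finset.sum_congr rfl fun u _ => h2 u, Finset.sum_comm]
  unfold GG
  apply Finset.sum_congr rfl
  intro y _
  rw [Finset.sum_eq_single (ix N ω y)]
  · unfold EN
    rw [if_pos rfl]
    push_cast
    ring
  · intro u _ hu
    unfold EN
    rw [if_neg (Ne.symm hu)]
    simp
  · intro h; exact absurd (mem_univ _) h

omit [DecidableEq F] in
theorem trs_frob (E E' : F → ℤ) (h : ∀ y, E (y ^ p) = E' y) : trs p E 1 = trs p E' 1 := by
  unfold trs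
  have hbij : Function.Bijective (FiniteField.frobeniusAlgEquivOfAlgebraic (ZMod p) F) :=
    (FiniteField.frobeniusAlgEquivOfAlgebraic (ZMod p) F).bijective
  rw [← Function.Bijective.sum_comp hbij]
  apply Finset.sum_congr rfl
  intro y _
  have hfx : (FiniteField.frobeniusAlgEquivOfAlgebraic (ZMod p) F) y = y ^ p := by
    rw [FiniteField.coe_frobeniusAlgEquivOfAlgebraic]; simp [ZMod.card]
  have htr : Algebra.trace (ZMod p) F
      ((FiniteField.frobeniusAlgEquivOfAlgebraic (ZMod p) F) y) = Algebra.trace (ZMod p) F y :=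
    Algebra.trace_eq_of_algEquiv _ y
  rw [htr, hfx, h y]

theorem nn_frob (hp : p ≠ 2) (hω : IsPrimitiveRoot ω (Fintype.card F - 1))
    (hd : N ∣ Fintype.card F - 1) (hpN : p ≠ N) (v : ZMod N) :
    nn p N ω (p * v) = nn p N ω v := by
  have hpp := (Fact.out : p.Prime)
  have hNN := (Fact.out : N.Prime)
  have hp0 : (p : ZMod N) ≠ 0 := by
    intro h
    rw [ZMod.natCast_eq_zero_iff] at h
    exact hpN ((Nat.prime_dvd_prime_iff_eq hNN hpp).1 h).symm
  apply trs_frob
  intro y
  unfold EN
  by_cases hy : y = 0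
  · subst hy
    rw [zero_pow hpp.ne_zero]; simp
  rw [ix_npow hω hd hy]
  have h1 : quadraticChar F (y ^ p) = quadraticChar F y := by
    rw [map_pow]
    obtain ⟨k, hk⟩ := hpp.odd_of_ne_two hp
    rw [hk, pow_succ, pow_mul, quadraticChar_sq_one hy, one_pow, one_mul]
  rw [h1]
  congr 1
  by_cases h : ix N ω y = v
  · rw [if_pos h, if_pos (by rw [h])]
  · rw [if_neg h, if_neg (fun h' => h (mul_left_cancel₀ hp0 h'))]

omit [Fact p.Prime] in
theorem kap_frob {hf0 : Odd f} (hf : (p : ZMod N) ^ f = 1) (s : ℤ) (v : ZMod N) :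
    kap N s (p * v) = kap N s v := by
  have hp0 : (p : ZMod N) ≠ 0 := by
    intro h
    rw [h, zero_pow (by rintro rfl; exact absurd hf0 (by decide))] at hf
    exact zero_ne_one hf
  have h1 : quadraticChar (ZMod N) (p : ZMod N) = 1 := by
    have h2 := congrArg (quadraticChar (ZMod N)) hf
    rw [map_pow, map_one] at h2
    rcases quadraticChar_dichotomy hp0 with h | h
    · exact h
    · rw [h, hf0.neg_one_pow] at h2; norm_num at h2
  unfold kap
  by_cases hv : v = 0
  · subst hv; simp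
  · rw [if_neg hv, if_neg (mul_ne_zero hp0 hv), map_mul, h1, one_mul]

theorem mm_frob (hp : p ≠ 2) (hf0 : Odd f) (hf : (p : ZMod N) ^ f = 1)
    (hω : IsPrimitiveRoot ω (Fintype.card F - 1))
    (hd : N ∣ Fintype.card F - 1) (hpN : p ≠ N) (s : ℤ) (v : ZMod N) :
    mm p N s ω (p * v) = mm p N s ω v := by
  have hp0 : (p : ZMod N) ≠ 0 := by
    intro h
    rw [h, zero_pow (by rintro rfl; exact absurd hf0 (by decide))] at hf
    exact zero_ne_one hf
  rw [mm_eq_nn, mm_eq_nn, ← Equiv.sum_comp (Equiv.mulLeft₀ _ hp0)]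
  apply Finset.sum_congr rfl
  intro u _
  have e1 : Equiv.mulLeft₀ _ hp0 u = (p : ZMod N) * u := rfl
  rw [e1, nn_frob hp hω hd hpN, ← mul_sub, kap_frob (hf0 := hf0) hf]

/-- inversion formula -/
theorem mm_inv_nn (hN : N ≠ 2) {s : ℤ} (hs : s = 1 ∨ s = -1) (v : ZMod N) :
    s * mm p N s ω v + ∑ u : ZMod N, mm p N s ω u * quadraticChar (ZMod N) (u - v) =
      (1 - quadraticChar (ZMod N) (-1) * N) * nn p N ω v +
        quadraticChar (ZMod N) (-1) * ∑ u : ZMod N, nn p N ω u := by
  set lam := quadraticChar (ZMod N) with hlam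
  set n := fun v : ZMod N => nn p N ω v with hn
  have hs2 : s ^ 2 = 1 := by rcases hs with rfl | rfl <;> norm_num
  have hkap : ∀ x : ZMod N, kap N s x = (if x = 0 then s else 0) - lam x := by
    intro x
    unfold kap
    by_cases hx : x = 0
    · subst hx; simp [hlam]
    · rw [if_neg hx, if_neg hx]; ring
  have hm : ∀ v : ZMod N, mm p N s ω v = s * n v - ∑ u : ZMod N, n u * lam (u - v) := by
    intro v
    rw [mm_eq_nn]
    have h1 : ∀ u : ZMod N, nn p N ω u * kap N s (u - v) =
        (if u = v then s * n u else 0) - n u * lam (u - v) := by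
      intro u
      rw [hkap]
      by_cases hu : u = v
      · rw [if_pos hu, if_pos (sub_eq_zero.2 hu)]; ring
      · rw [if_neg hu, if_neg (sub_ne_zero.2 hu)]; ring
    rw [Finset.sum_congr rfl fun u _ => h1 u, Finset.sum_sub_distrib]
    simp
  have h2 : ∑ u : ZMod N, mm p N s ω u * lam (u - v) =
      s * ∑ u : ZMod N, n u * lam (u - v) -
        ∑ w : ZMod N, n w * ∑ u : ZMod N, lam (w - u) * lam (u - v) := by
    have h3 : ∀ u : ZMod N, mm p N s ω u * lam (u - v) =
        s * (n u * lam (u - v)) - ∑ w : ZMod N, n w * (lam (w - u) * lam (u - v)) := by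
      intro u
      rw [hm u, sub_mul, Finset.sum_mul]
      congr 1
      · ring
      · apply Finset.sum_congr rfl
        intro w _
        ring
    rw [Finset.sum_congr rfl fun u _ => h3 u, Finset.sum_sub_distrib, ← Finset.mul_sum,
      Finset.sum_comm]
    congr 1
    apply Finset.sum_congr rfl
    intro w _
    rw [Finset.mul_sum]
  have h4 : ∀ w : ZMod N, ∑ u : ZMod N, lam (w - u) * lam (u - v) =
      (if w = v then (N : ℤ) * lam (-1) else 0) - lam (-1) := by
    intro w
    rw [← Equiv.sum_comp (Equiv.addRight v)]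
    have := quad_conv hN (w - v)
    rw [← hlam] at this
    have e : (if w = v then (N : ℤ) * lam (-1) else 0) =
        if w - v = 0 then (N : ℤ) * lam (-1) else 0 := by
      by_cases h : w = v
      · rw [if_pos h, if_pos (sub_eq_zero.2 h)]
      · rw [if_neg h, if_neg (sub_ne_zero.2 h)]
    rw [e, ← this]
    apply Finset.sum_congr rfl
    intro u _
    rw [Equiv.coe_addRight, show w - (u + v) = w - v - u by ring, add_sub_cancel_right]
  have h4' : ∑ w : ZMod N, n w * ∑ u : ZMod N, lam (w - u) * lam (u - v) =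
      ∑ w : ZMod N, n w * ((if w = v then (N : ℤ) * lam (-1) else 0) - lam (-1)) :=
    Finset.sum_congr rfl fun w _ => by rw [h4 w]
  rw [h2, hm v, h4']
  have h5 : ∑ w : ZMod N, n w * ((if w = v then (N : ℤ) * lam (-1) else 0) - lam (-1)) =
      n v * (N * lam (-1)) - lam (-1) * ∑ w : ZMod N, n w := by
    have : ∀ w : ZMod N, n w * ((if w = v then (N : ℤ) * lam (-1) else 0) - lam (-1)) =
        (if w = v then n w * (N * lam (-1)) else 0) - lam (-1) * n w := by
      intro w
      split_ifs <;> ring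
    rw [Finset.sum_congr rfl fun w _ => this w, Finset.sum_sub_distrib, ← Finset.mul_sum]
    simp
  rw [h5]
  simp only [hn]
  linear_combination (nn p N ω v) * hs2

theorem sum_mm (hN : N ≠ 2) (s : ℤ) :
    ∑ v : ZMod N, mm p N s ω v = s * ∑ u : ZMod N, nn p N ω u := by
  have h1 : ∀ v : ZMod N, mm p N s ω v = ∑ u : ZMod N, nn p N ω u * kap N s (u - v) :=
    fun v => mm_eq_nn s v
  rw [Finset.sum_congr rfl fun v _ => h1 v, Finset.sum_comm, Finset.mul_sum]
  apply Finset.sum_congr rfl
  intro u _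
  rw [← Finset.mul_sum]
  have h2 : ∑ v : ZMod N, kap N s (u - v) = s := by
    rw [← Equiv.sum_comp (Equiv.subLeft u)]
    have : ∀ v : ZMod N, kap N s (u - (Equiv.subLeft u) v) =
        (if v = 0 then s else 0) - quadraticChar (ZMod N) v := by
      intro v
      have e1 : (Equiv.subLeft u) v = u - v := rfl
      rw [e1, sub_sub_cancel]
      unfold kap
      by_cases hv : v = 0
      · subst hv; simp
      · rw [if_neg hv, if_neg hv]; ring
    rw [Finset.sum_congr rfl fun v _ => this v, Finset.sum_sub_distrib,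
      quadraticChar_sum_zero (by rwa [ZMod.ringChar_zmod_n])]
    simp
  rw [h2]
  ring

/-- the total sum -/
theorem sum_nn_sq (hp : p ≠ 2) (hF : Fintype.card F = p ^ f) (hf : Odd f)
    (hNp : ¬ N ∣ p - 1) (hω : IsPrimitiveRoot ω (Fintype.card F - 1))
    (hd : N ∣ Fintype.card F - 1) {Ω : Type} [Field Ω] [CharZero Ω] {ζ : Ω}
    (hζ : IsPrimitiveRoot ζ p) :
    (∑ u : ZMod N, nn p N ω u) ^ 2 = (p : ℤ) ^ (f - 1) := by
  have hpp := (Fact.out : p.Prime)
  have hch : ringChar F ≠ 2 := by rwa [ringChar_eq p F]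
  have h1 := GG_eq_nn hζ.pow_eq_one (one_pow N : (1 : Ω) ^ N = 1) hp hF hf hNp hω hd 0
  simp only [zero_mul, AddChar.map_zero_eq_one, mul_one] at h1
  have h2 : GG hζ.pow_eq_one (one_pow N : (1 : Ω) ^ N = 1) ω (0 : ZMod N) =
      gaussSum (rho F Ω) (psi hζ.pow_eq_one F) := by
    unfold GG gaussSum
    apply Finset.sum_congr rfl
    intro y _
    simp only [zero_mul, AddChar.map_zero_eq_one, mul_one, rho_apply]
  have h3 : gaussSum (rho F Ω) (psi hζ.pow_eq_one F) ^ 2 =
      rho F Ω (-1) * (Fintype.card F : Ω) := by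
    apply gaussSum_sq
    · intro h
      obtain ⟨a, ha⟩ := quadraticChar_exists_neg_one hch
      have h1 := congrArg (fun χ : MulChar F Ω => χ a) h
      simp only [rho_apply, ha] at h1
      have ha0 : IsUnit a := by
        rw [isUnit_iff_ne_zero]; intro h0; rw [h0] at ha; simp at ha
      rw [MulChar.one_apply ha0] at h1
      norm_num at h1
    · exact (quadraticChar_isQuadratic F).comp _
    · exact psi_primitive hζ
  have e4 : quadraticChar F (-1) = quadraticChar (ZMod p) (-1) := by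
    have := quadChar_algebraMap hp hF hf (-1 : ZMod p)
    rwa [map_neg, map_one] at this
  have e5 : tau hζ.pow_eq_one ^ 2 = (Nst p : Ω) := tau_sq hp hζ
  have e6 : (quadraticChar (ZMod p) (-1) : Ω) ^ 2 = 1 := by
    have := congrArg (Int.cast : ℤ → Ω) (quadraticChar_sq_one (F := ZMod p) (a := -1) (by simp))
    push_cast at this
    exact this
  rw [← h2, h1, rho_apply, e4, hF, mul_pow, e5] at h3
  unfold Nst at h3
  push_cast at h3
  have h7 : ((p : Ω)) * ((∑ u : ZMod N, (nn p N ω u : Ω)) ^ 2) = (p : Ω) ^ f := by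
    have := congrArg (fun x => (quadraticChar (ZMod p) (-1) : Ω) * x) h3
    beta_reduce at this
    linear_combination this + ((p : Ω) ^ f - (p : Ω) * (∑ u : ZMod N, (nn p N ω u : Ω)) ^ 2) * e6
  obtain ⟨k, hk⟩ := hf
  have h8 : ((p : ℤ)) * ((∑ u : ZMod N, nn p N ω u) ^ 2) = (p : ℤ) ^ f := by
    have : (((p : ℤ) * ((∑ u : ZMod N, nn p N ω u) ^ 2) : ℤ) : Ω) = (((p : ℤ) ^ f : ℤ) : Ω) := by
      push_cast
      exact h7
    exact_mod_cast this
  apply mul_left_cancel₀ (show (p : ℤ) ≠ 0 by exact_mod_cast hpp.ne_zero)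
  rw [h8, hk, Nat.add_sub_cancel, pow_succ]
  ring

end

end Pool.Agent.CycU
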