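import Pool.Agent.LibCycU.P1

/-! # Residue sums and classes -/

set_option autoImplicit false

open Finset

namespace Pool.Agent.CycU

section

variable {p N f : ℕ} [Fact N.Prime]

theorem valMinAbs_eq (hN : N ≠ 2) (x : ZMod N) :
    x.valMinAbs = ((2 * x).val : ℤ) - (x.val : ℤ) := by
  have hNN := (Fact.out : N.Prime)
  have hodd : N % 2 = 1 := (Nat.Prime.eq_two_or_odd hNN).resolve_left hN
  have hx := ZMod.val_lt x
  have h2 : (2 * x).val = (2 * x.val) % N := by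
    rw [ZMod.val_mul]
    have : (2 : ZMod N).val = 2 % N := by
      have := ZMod.val_natCast N 2
      exact_mod_cast this
    rw [this, Nat.mod_mul_mod]
  rw [h2, ZMod.valMinAbs_def_pos]
  split_ifs with h
  · rw [Nat.mod_eq_of_lt (by omega)]
    push_cast; ring
  · have : (2 * x.val) % N = 2 * x.val - N := by
      rw [Nat.mod_eq_sub_mod (by omega), Nat.mod_eq_of_lt (by omega)]
    rw [this, Nat.cast_sub (by omega)]
    push_cast; ring

theorem W_eq_L (hN : N ≠ 2) (s : ZMod N) :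
    W p N f s = (L p N f (2 * s) : ℤ) - (L p N f s : ℤ) := by
  unfold W L
  push_cast
  rw [← Finset.sum_sub_distrib]
  apply Finset.sum_congr rfl
  intro i _
  rw [valMinAbs_eq hN, show (2 : ZMod N) * ((p : ZMod N) ^ i * s) = (p : ZMod N) ^ i * (2 * s) by ring]

theorem L_neg (hp0 : (p : ZMod N) ≠ 0) {s : ZMod N} (hs : s ≠ 0) :
    L p N f (-s) + L p N f s = f * N := by
  unfold L
  rw [← Finset.sum_add_distrib]
  have : ∀ i ∈ range f, ((p : ZMod N) ^ i * -s).val + ((p : ZMod N) ^ i * s).val = N := by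
    intro i _
    rw [mul_neg]
    have h0 : (p : ZMod N) ^ i * s ≠ 0 := mul_ne_zero (pow_ne_zero i hp0) hs
    rw [ZMod.neg_val, if_neg h0]
    have := ZMod.val_lt ((p : ZMod N) ^ i * s)
    omega
  rw [Finset.sum_congr rfl this]
  simp

theorem W_neg (hN : N ≠ 2) (hp0 : (p : ZMod N) ≠ 0) {s : ZMod N} (hs : s ≠ 0) :
    W p N f (-s) = -W p N f s := by
  have h2 : (2 : ZMod N) ≠ 0 := Ring.two_ne_zero (by rwa [ZMod.ringChar_zmod_n])
  rw [W_eq_L hN, W_eq_L hN]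
  have h3 := L_neg (f := f) hp0 (mul_ne_zero h2 hs)
  have h4 := L_neg (f := f) hp0 hs
  rw [show (2 : ZMod N) * -s = -(2 * s) by ring]
  have h3' : (L p N f (-(2 * s)) : ℤ) + L p N f (2 * s) = f * N := by exact_mod_cast h3
  have h4' : (L p N f (-s) : ℤ) + L p N f s = f * N := by exact_mod_cast h4
  linarith

theorem L_frob (hf : (p : ZMod N) ^ f = 1) (s : ZMod N) : L p N f (p * s) = L p N f s := by
  rcases Nat.eq_zero_or_pos f with h0 | h0
  · subst h0; simp [L]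
  obtain ⟨g, rfl⟩ : ∃ g, f = g + 1 := ⟨f - 1, by omega⟩
  unfold L
  rw [Finset.sum_range_succ, Finset.sum_range_succ' (fun i => ((p : ZMod N) ^ i * s).val)]
  congr 1
  · apply Finset.sum_congr rfl
    intro i _
    congr 1
    ring
  · rw [← mul_assoc, ← pow_succ, hf, pow_zero]

theorem L_pow (hf : (p : ZMod N) ^ f = 1) (s : ZMod N) (j : ℕ) :
    L p N f ((p : ZMod N) ^ j * s) = L p N f s := by
  induction j with
  | zero => simp
  | succ j ih => rw [pow_succ', mul_assoc, L_frob hf, ih]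

theorem inv_pow_of_frob {α : Type} {φ : ZMod N → α} (h : ∀ v, φ (p * v) = φ v) (j : ℕ)
    (v : ZMod N) : φ ((p : ZMod N) ^ j * v) = φ v := by
  induction j with
  | zero => simp
  | succ j ih => rw [pow_succ', mul_assoc, h, ih]

theorem W_frob (hN : N ≠ 2) (hf : (p : ZMod N) ^ f = 1) (s : ZMod N) :
    W p N f (p * s) = W p N f s := by
  rw [W_eq_L hN, W_eq_L hN, show (2 : ZMod N) * (p * s) = p * (2 * s) by ring, L_frob hf,
    L_frob hf]

theorem N_dvd_L (hf : (p : ZMod N) ^ f = 1) (hp1 : (p : ZMod N) ≠ 1) (s : ZMod N) :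
    N ∣ L p N f s := by
  rw [← ZMod.natCast_eq_zero_iff]
  unfold L
  push_cast
  simp only [ZMod.natCast_val, ZMod.cast_id', id_eq]
  rw [← Finset.sum_mul]
  have h1 := geom_sum_mul (p : ZMod N) f
  rw [hf, sub_self] at h1
  rcases mul_eq_zero.1 h1 with h | h
  · rw [h, zero_mul]
  · exact absurd (sub_eq_zero.1 h) hp1

/-- `u ∈ c ⟨p⟩` from `u^f = c^f` -/
theorem cls_of_pow (hf : f = orderOf (p : ZMod N)) (hf0 : f ≠ 0) {u c : ZMod N} (hc : c ≠ 0)
    (h : u ^ f = c ^ f) : ∃ j : ℕ, u = (p : ZMod N) ^ j * c := by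
  have h1 : IsPrimitiveRoot (p : ZMod N) f := by rw [hf]; exact IsPrimitiveRoot.orderOf _
  have : NeZero f := ⟨hf0⟩
  obtain ⟨i, _, hi⟩ := h1.eq_pow_of_pow_eq_one (ξ := u / c) (by
    rw [div_pow, h, div_self (pow_ne_zero f hc)])
  exact ⟨i, by rw [hi, div_mul_cancel₀ _ hc]⟩

theorem pow_card {u : ZMod N} (hu : u ≠ 0) {e : ℕ} (he : e * f = N - 1) : (u ^ f) ^ e = 1 := by
  rw [← pow_mul, mul_comm, he]
  exact ZMod.pow_card_sub_one_eq_one hu

theorem cls2 (hf : f = orderOf (p : ZMod N)) (hfo : Odd f) (he : 2 * f = N - 1) {u : ZMod N}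
    (hu : u ≠ 0) : ∃ j : ℕ, u = (p : ZMod N) ^ j * 1 ∨ u = (p : ZMod N) ^ j * (-1) := by
  have hf0 : f ≠ 0 := by rintro rfl; exact absurd hfo (by decide)
  have h1 := pow_card hu he
  rcases sq_eq_one_iff.mp h1 with h | h
  · obtain ⟨j, hj⟩ := cls_of_pow (u := u) (c := 1) hf hf0 one_ne_zero (by rw [h, one_pow])
    exact ⟨j, Or.inl hj⟩
  · obtain ⟨j, hj⟩ := cls_of_pow (u := u) (c := -1) hf hf0 (neg_ne_zero.2 one_ne_zero)
      (by rw [h, hfo.neg_one_pow])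
    exact ⟨j, Or.inr hj⟩

theorem two_pow (hN : N ≠ 2) (h2 : quadraticChar (ZMod N) 2 = -1) : (2 : ZMod N) ^ (N / 2) = -1 := by
  have h1 := quadraticChar_eq_pow_of_char_ne_two' (F := ZMod N) (by rwa [ZMod.ringChar_zmod_n]) 2
  rw [h2, ZMod.card] at h1
  rw [← h1]; simp

theorem two_cls2 (hN : N ≠ 2) (hf : f = orderOf (p : ZMod N)) (hfo : Odd f) (he : 2 * f = N - 1)
    (h2 : quadraticChar (ZMod N) 2 = -1) : ∃ j : ℕ, (2 : ZMod N) = (p : ZMod N) ^ j * (-1) := by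
  have hf0 : f ≠ 0 := by rintro rfl; exact absurd hfo (by decide)
  apply cls_of_pow hf hf0 (neg_ne_zero.2 one_ne_zero)
  have h3 : N / 2 = f := by
    have := (Nat.Prime.eq_two_or_odd (Fact.out : N.Prime)).resolve_left hN
    omega
  rw [← h3, two_pow hN h2, h3, hfo.neg_one_pow]

theorem cls4 (hN : N ≠ 2) (hf : f = orderOf (p : ZMod N)) (hfo : Odd f) (he : 4 * f = N - 1)
    (h2 : quadraticChar (ZMod N) 2 = -1) {u : ZMod N} (hu : u ≠ 0) :
    ∃ j : ℕ, (u = (p : ZMod N) ^ j * 1 ∨ u = (p : ZMod N) ^ j * (-1)) ∨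
      (u = (p : ZMod N) ^ j * 2 ∨ u = (p : ZMod N) ^ j * (-2)) := by
  have hf0 : f ≠ 0 := by rintro rfl; exact absurd hfo (by decide)
  have hNo := (Nat.Prime.eq_two_or_odd (Fact.out : N.Prime)).resolve_left hN
  have h20 : (2 : ZMod N) ≠ 0 := Ring.two_ne_zero (by rwa [ZMod.ringChar_zmod_n])
  have hi : ((2 : ZMod N) ^ f) ^ 2 = -1 := by
    rw [← pow_mul, show f * 2 = N / 2 by omega]
    exact two_pow hN h2
  have h1 : (u ^ f) ^ 4 = 1 := pow_card hu he
  have h3 : ((u ^ f) ^ 2) ^ 2 = 1 := by rw [← pow_mul]; exact h1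
  rcases sq_eq_one_iff.mp h3 with h | h
  · rcases sq_eq_one_iff.mp h with h | h
    · obtain ⟨j, hj⟩ := cls_of_pow (u := u) (c := 1) hf hf0 one_ne_zero (by rw [h, one_pow])
      exact ⟨j, Or.inl (Or.inl hj)⟩
    · obtain ⟨j, hj⟩ := cls_of_pow (u := u) (c := -1) hf hf0 (neg_ne_zero.2 one_ne_zero)
        (by rw [h, hfo.neg_one_pow])
      exact ⟨j, Or.inl (Or.inr hj)⟩
  · rw [← hi] at h
    rcases sq_eq_sq_iff_eq_or_eq_neg.1 h with h | h
    · obtain ⟨j, hj⟩ := cls_of_pow (u := u) (c := 2) hf hf0 h20 h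
      exact ⟨j, Or.inr (Or.inl hj)⟩
    · obtain ⟨j, hj⟩ := cls_of_pow (u := u) (c := -2) hf hf0 (neg_ne_zero.2 h20)
        (by rw [h, hfo.neg_pow])
      exact ⟨j, Or.inr (Or.inr hj)⟩

theorem four_cls4 (hN : N ≠ 2) (hf : f = orderOf (p : ZMod N)) (hfo : Odd f) (he : 4 * f = N - 1)
    (h2 : quadraticChar (ZMod N) 2 = -1) : ∃ j : ℕ, (2 : ZMod N) * 2 = (p : ZMod N) ^ j * (-1) := by
  have hf0 : f ≠ 0 := by rintro rfl; exact absurd hfo (by decide)
  have hNo := (Nat.Prime.eq_two_or_odd (Fact.out : N.Prime)).resolve_left hN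
  apply cls_of_pow hf hf0 (neg_ne_zero.2 one_ne_zero)
  rw [hfo.neg_one_pow, mul_pow, ← pow_two, ← pow_mul, show f * 2 = N / 2 by omega]
  exact two_pow hN h2

/-- index 2: `W(1) = f N - 2 L(1)` -/
theorem W_one_two (hN : N ≠ 2) (hp0 : (p : ZMod N) ≠ 0) (hf : f = orderOf (p : ZMod N))
    (hfo : Odd f) (he : 2 * f = N - 1)
    (h2 : quadraticChar (ZMod N) 2 = -1) : W p N f 1 = (f : ℤ) * N - 2 * L p N f 1 := by
  have hf1 : (p : ZMod N) ^ f = 1 := by rw [hf]; exact pow_orderOf_eq_one _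
  obtain ⟨j, hj⟩ := two_cls2 hN hf hfo he h2
  rw [W_eq_L hN, mul_one, hj, L_pow hf1]
  have := L_neg (f := f) hp0 (one_ne_zero (α := ZMod N))
  have h' : (L p N f (-1) : ℤ) + L p N f 1 = f * N := by exact_mod_cast this
  linarith

/-- index 4: `W(1) + W(2) = f N - 2 L(1)` -/
theorem W_one_four (hN : N ≠ 2) (hp0 : (p : ZMod N) ≠ 0) (hf : f = orderOf (p : ZMod N))
    (hfo : Odd f) (he : 4 * f = N - 1)
    (h2 : quadraticChar (ZMod N) 2 = -1) :
    W p N f 1 + W p N f 2 = (f : ℤ) * N - 2 * L p N f 1 := by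
  have hf1 : (p : ZMod N) ^ f = 1 := by rw [hf]; exact pow_orderOf_eq_one _
  obtain ⟨j, hj⟩ := four_cls4 hN hf hfo he h2
  rw [W_eq_L hN, W_eq_L hN, mul_one, hj, L_pow hf1]
  have := L_neg (f := f) hp0 (one_ne_zero (α := ZMod N))
  have h' : (L p N f (-1) : ℤ) + L p N f 1 = f * N := by exact_mod_cast this
  linarith

theorem odd_ne (hN : N ≠ 2) (hfo : Odd f) (x : ℤ) : (f : ℤ) * N - 2 * x ≠ 0 := by
  intro h
  have h1 : Odd ((f : ℤ) * N) := by
    apply Odd.mul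
    · exact_mod_cast hfo
    · exact_mod_cast (Fact.out : N.Prime).odd_of_ne_two hN
  obtain ⟨k, hk⟩ := h1
  omega

end

end Pool.Agent.CycU
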