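import Pool.Agent.LibCycU.P2

/-! # Necessary conditions for index 2 and index 4 -/

set_option autoImplicit false

open Finset

namespace Pool.Agent.CycU

section

variable {p : ℕ} [Fact p.Prime] {F : Type} [Field F] [Fintype F] [DecidableEq F]
  [Algebra (ZMod p) F] {f : ℕ} {ω : F} {N : ℕ} [Fact N.Prime]

/-- If `n` is even then all the `W(t)` vanish. -/
theorem W_zero_of_even (hp : p ≠ 2) (hN : N ≠ 2) (hpN : p ≠ N) (hF : Fintype.card F = p ^ f)
    (hf : Odd f) (hNp : ¬ N ∣ p - 1) (hω : IsPrimitiveRoot ω (Fintype.card F - 1))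
    (hd : N ∣ Fintype.card F - 1) {Ω : Type} [NormedField Ω]
    [IsUltrametricDist Ω] [CharZero Ω] [IsAlgClosed Ω] (hpn : ‖(p : Ω)‖ = (p : ℝ)⁻¹)
    {ζ : Ω} (hζ : IsPrimitiveRoot ζ p) (hev : ∀ v : ZMod N, nn p N ω (-v) = nn p N ω v)
    {t : ZMod N} (ht : t ≠ 0) : W p N f t = 0 := by
  have hpp := (Fact.out : p.Prime)
  have hNN := (Fact.out : N.Prime)
  have hp0 : (0 : ℝ) < p := by exact_mod_cast hpp.pos
  have hp1 : (1 : ℝ) < p := by exact_mod_cast hpp.one_lt
  have hN0 : (0 : ℝ) < N := by exact_mod_cast hNN.pos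
  have hpz : (p : ZMod N) ≠ 0 := by
    intro h
    rw [ZMod.natCast_eq_zero_iff] at h
    exact hpN ((Nat.prime_dvd_prime_iff_eq hNN hpp).1 h).symm
  obtain ⟨z, hz, hG⟩ := stick hp hN hpn hF hω hd hζ
  have h1 : GG hζ.pow_eq_one hz.pow_eq_one ω (-t) = GG hζ.pow_eq_one hz.pow_eq_one ω t := by
    rw [GG_eq_nn _ _ hp hF hf hNp hω hd, GG_eq_nn _ _ hp hF hf hNp hω hd]
    congr 1
    rw [← Equiv.sum_comp (Equiv.neg (ZMod N))]
    apply Finset.sum_congr rfl
    intro v _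
    rw [Equiv.neg_apply, hev, show -t * -v = t * v by ring]
  have h2 := hG (-t)
  rw [h1, hG t, W_neg hN hpz ht] at h2
  have h3 := le_antisymm ((Real.rpow_le_rpow_left_iff hp1).1 h2.le)
    ((Real.rpow_le_rpow_left_iff hp1).1 h2.ge)
  have h4 : (W p N f t : ℝ) / N = 0 := by
    push_cast at h3
    have : -(W p N f t : ℝ) / N = -((W p N f t : ℝ) / N) := by ring
    linarith
  rcases div_eq_zero_iff.1 h4 with h | h
  · exact_mod_cast h
  · exact absurd h hN0.ne'

/-- If `h` is odd off zero: the valuations. -/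
theorem val_of_odd (hp : p ≠ 2) (hN : N ≠ 2) (hF : Fintype.card F = p ^ f)
    (hf : Odd f) (hNp : ¬ N ∣ p - 1) (hω : IsPrimitiveRoot ω (Fintype.card F - 1))
    (hd : N ∣ Fintype.card F - 1) {Ω : Type} [NormedField Ω]
    [IsUltrametricDist Ω] [CharZero Ω] [IsAlgClosed Ω] (hpn : ‖(p : Ω)‖ = (p : ℝ)⁻¹)
    {ζ : Ω} (hζ : IsPrimitiveRoot ζ p) {s : ℤ} (hs : s = 1 ∨ s = -1) (h : ZMod N → ℤ)
    (hh : ∀ v, mm p N s ω v = p ^ ((f - 1) / 2) * h v) (h0 : h 0 = 1 ∨ h 0 = -1)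
    (hodd : ∀ v : ZMod N, v ≠ 0 → h (-v) = -h v) :
    ∃ ε : ℤ, (ε = 1 ∨ ε = -1) ∧ ∀ t : ZMod N, t ≠ 0 →
      0 ≤ W p N f t + (if quadraticChar (ZMod N) t = ε then (wN p N : ℤ) * N else 0) ∧
      (W p N f t + (if quadraticChar (ZMod N) t = ε then (wN p N : ℤ) * N else 0) = 0 ∨
       W p N f (-t) + (if quadraticChar (ZMod N) (-t) = ε then (wN p N : ℤ) * N else 0) = 0) := by
  have hpp := (Fact.out : p.Prime)
  have hNN := (Fact.out : N.Prime)
  have hp0 : (0 : ℝ) < p := by exact_mod_cast hpp.pos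
  have hp1 : (1 : ℝ) < p := by exact_mod_cast hpp.one_lt
  have hN0 : (0 : ℝ) < N := by exact_mod_cast hNN.pos
  obtain ⟨z, hz, hG⟩ := stick hp hN hpn hF hω hd hζ
  obtain ⟨ε, hε, hk⟩ := khat_norm hp hN hpn hz
  have hlm : quadraticChar (ZMod N) (-1) = 1 ∨ quadraticChar (ZMod N) (-1) = -1 :=
    quadraticChar_dichotomy (by simp)
  obtain ⟨k, hk2⟩ := hf
  have hkk : (f - 1) / 2 = k := by omega
  have hfr : (f : ℝ) = 2 * k + 1 := by rw [hk2]; push_cast; ring
  have hτ := norm_tau hp hpn hζ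
  rw [hkk] at hh
  set δ := s * (quadraticChar (ZMod N) (-1) * ε) with hδ
  have hcond : ∀ t : ZMod N, t ≠ 0 → ((s * quadraticChar (ZMod N) (-t) = ε) ↔
      quadraticChar (ZMod N) t = δ) := by
    intro t ht
    have e1 : quadraticChar (ZMod N) (-t) = quadraticChar (ZMod N) (-1) *
        quadraticChar (ZMod N) t := by rw [← neg_one_mul, map_mul]
    rw [e1, hδ]
    rcases hlm with h | h <;> rcases hs with rfl | rfl <;> rw [h] <;>
      constructor <;> intro h' <;> linarith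
  refine ⟨δ, ?_, ?_⟩
  · rw [hδ]
    rcases hlm with h | h <;> rcases hε with h' | h' <;> rcases hs with rfl | rfl <;> simp [h, h']
  -- the function `X`
  set X : ZMod N → Ω := fun t => ∑ v : ZMod N, (h v : Ω) * chN hz.pow_eq_one (t * v) with hX
  set a : ZMod N → ℤ := fun t =>
    W p N f t + (if quadraticChar (ZMod N) t = δ then (wN p N : ℤ) * N else 0) with ha
  have hXn : ∀ t : ZMod N, t ≠ 0 → ‖X t‖ = (p : ℝ) ^ (-((a t : ℝ) / N)) := by
    intro t ht
    have h1 := mm_four (Ω := Ω) hζ.pow_eq_one hz.pow_eq_one hp hF ⟨k, hk2⟩ hNp hω hd s t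
    rw [kap_four s hz.pow_eq_one (neg_ne_zero.2 ht)] at h1
    have h2 : ∑ v : ZMod N, (mm p N s ω v : Ω) * chN hz.pow_eq_one (t * v) = (p : Ω) ^ k * X t := by
      rw [hX, Finset.mul_sum]
      apply Finset.sum_congr rfl
      intro v _
      rw [hh v]; push_cast; ring
    rw [h2] at h1
    have h3 := congrArg norm h1
    rw [norm_mul, norm_mul, norm_mul, norm_pow, hpn, hτ, hG, hk s hs (-t) (neg_ne_zero.2 ht)] at h3
    have h4 : ((p : ℝ)⁻¹) ^ k = (p : ℝ) ^ (-(k : ℝ)) := by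
      rw [Real.rpow_neg hp0.le, Real.rpow_natCast, inv_pow]
    rw [h4] at h3
    have h5 : (p : ℝ) ^ (-(k : ℝ)) * (p : ℝ) ^ (-(1 / 2 : ℝ)) = (p : ℝ) ^ (-((f : ℝ) / 2)) := by
      rw [← Real.rpow_add hp0, hfr]
      congr 1
      ring
    have h6 : (if s * quadraticChar (ZMod N) (-t) = ε then (p : ℝ) ^ (-(wN p N : ℝ)) else 1) =
        (p : ℝ) ^ (-(((if quadraticChar (ZMod N) t = δ then (wN p N : ℤ) * N else 0 : ℤ) : ℝ) / N)) := by
      by_cases hc : s * quadraticChar (ZMod N) (-t) = ε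
      · rw [if_pos hc, if_pos ((hcond t ht).1 hc)]
        push_cast
        rw [mul_div_cancel_right₀ _ hN0.ne']
      · rw [if_neg hc, if_neg (fun h => hc ((hcond t ht).2 h))]
        simp
    rw [h6, ← Real.rpow_add hp0] at h3
    have h7 : (p : ℝ) ^ (-(k : ℝ)) * ‖X t‖ * (p : ℝ) ^ (-(1 / 2 : ℝ)) =
        (p : ℝ) ^ (-((f : ℝ) / 2)) * ‖X t‖ := by rw [← h5]; ring
    rw [h7] at h3
    have h8 : (p : ℝ) ^ (-((f : ℝ) / 2)) ≠ 0 := (Real.rpow_pos_of_pos hp0 _).ne'
    apply mul_left_cancel₀ h8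
    rw [h3, ← Real.rpow_add hp0]
    congr 1
    rw [ha]
    push_cast
    ring
  have hXle : ∀ t : ZMod N, ‖X t‖ ≤ 1 := by
    intro t
    apply norm_sum_le _ _ zero_le_one
    intro v _
    rw [norm_mul, norm_chN, mul_one]
    exact norm_int_le_one _
  have hpos : ∀ t : ZMod N, t ≠ 0 → 0 ≤ a t := by
    intro t ht
    have h1 := hXle t
    rw [hXn t ht] at h1
    by_contra hneg
    push Not at hneg
    have h2 : (0 : ℝ) < -((a t : ℝ) / N) := by
      have : (a t : ℝ) < 0 := by exact_mod_cast hneg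
      have := div_neg_of_neg_of_pos this hN0
      linarith
    have := Real.one_lt_rpow hp1 h2
    linarith
  have hzero : ∀ t : ZMod N, t ≠ 0 → 1 ≤ ‖X t‖ → a t = 0 := by
    intro t ht h1
    rw [hXn t ht] at h1
    have h2 := hpos t ht
    by_contra hne
    have h3 : 0 < a t := lt_of_le_of_ne h2 (Ne.symm hne)
    have h4 : -((a t : ℝ) / N) < 0 := by
      have : (0 : ℝ) < a t := by exact_mod_cast h3
      have := div_pos this hN0
      linarith
    have := Real.rpow_lt_one_of_one_lt_of_neg hp1 h4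
    linarith
  intro t ht
  refine ⟨hpos t ht, ?_⟩
  have hsum : X t + X (-t) = ((2 * h 0 : ℤ) : Ω) := by
    rw [hX]
    simp only
    have e1 : ∑ v : ZMod N, (h v : Ω) * chN hz.pow_eq_one (-t * v) =
        ∑ v : ZMod N, (h (-v) : Ω) * chN hz.pow_eq_one (t * v) := by
      rw [← Equiv.sum_comp (Equiv.neg (ZMod N))]
      apply Finset.sum_congr rfl
      intro v _
      rw [Equiv.neg_apply, show -t * -v = t * v by ring]
    rw [e1, ← Finset.sum_add_distrib, Finset.sum_eq_single 0]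
    · rw [neg_zero, mul_zero, AddChar.map_zero_eq_one]; push_cast; ring
    · intro v _ hv
      rw [hodd v hv]; push_cast; ring
    · intro h; exact absurd (mem_univ _) h
  have hone : ‖((2 * h 0 : ℤ) : Ω)‖ = 1 := by
    apply norm_int_eq_one hpn
    intro hdv
    have hpodd : Odd p := hpp.odd_of_ne_two hp
    have h3 : 2 < p := lt_of_le_of_ne hpp.two_le (Ne.symm hp)
    rcases h0 with h0 | h0
    · rw [h0] at hdv
      have := Int.le_of_dvd (by norm_num) hdv
      omega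
    · rw [h0] at hdv
      have := Int.le_of_dvd (by norm_num) ((dvd_neg).2 hdv)
      omega
  have hmax : 1 ≤ max ‖X t‖ ‖X (-t)‖ := by
    rw [← hone, ← hsum]
    exact IsUltrametricDist.norm_add_le_max _ _
  rcases le_max_iff.1 hmax with h1 | h1
  · exact Or.inl (hzero t ht h1)
  · exact Or.inr (hzero (-t) (neg_ne_zero.2 ht) h1)

end

end Pool.Agent.CycU
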