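import Pool.Agent.LibCycU.P4b

/-! # Index 4: condition (ii) implies (iii) and the values of the residue sums -/

set_option autoImplicit false

open Finset

namespace Pool.Agent.CycU

theorem exists_prim (F : Type) [Field F] [Fintype F] :
    ∃ ω : F, IsPrimitiveRoot ω (Fintype.card F - 1) := by
  classical
  obtain ⟨g, hg⟩ := IsCyclic.exists_generator (α := Fˣ)
  refine ⟨(g : F), ?_⟩
  have h1 : orderOf g = Fintype.card F - 1 := by
    rw [orderOf_eq_card_of_forall_mem_zpowers hg, Nat.card_eq_fintype_card, Fintype.card_units]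
  rw [← h1]
  exact IsPrimitiveRoot.coe_units_iff.2 (IsPrimitiveRoot.orderOf g)

theorem e4_back_aux {p N f b : ℕ} [Fact p.Prime] [Fact N.Prime] (hp : p ≠ 2) (hN : N ≠ 2)
    (hpN : p ≠ N) (hf : f = orderOf (p : ZMod N)) (hfo : Odd f) (he : 4 * f = N - 1)
    (hf3 : 3 ≤ f) (hNp : ¬ N ∣ p - 1)
    (hb1 : ∀ s : ZMod N, s ≠ 0 → N * b ≤ L p N f s)
    (hii : N = 4 * p ^ (f - 2 * b) + 1)
    {Ω : Type} [NormedField Ω]
    [IsUltrametricDist Ω] [CharZero Ω] [IsAlgClosed Ω] (hpn : ‖(p : Ω)‖ = (p : ℝ)⁻¹)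
    {F : Type} [Field F] [Fintype F] [DecidableEq F] [Algebra (ZMod p) F]
    (hF : Fintype.card F = p ^ f) {ζ : Ω} (hζ : IsPrimitiveRoot ζ p) :
    (∃ A : ℤ, (N : ℤ) = A ^ 2 + 4) ∧
      ∀ s : ZMod N, s ≠ 0 → L p N f s = N * b ∨ L p N f s + N * b = N * f := by
  have hpp := (Fact.out : p.Prime)
  have hNN := (Fact.out : N.Prime)
  have hp0 : (0 : ℝ) < p := by exact_mod_cast hpp.pos
  have hp1 : (1 : ℝ) < p := by exact_mod_cast hpp.one_lt
  have hN0 : (0 : ℝ) < N := by exact_mod_cast hNN.pos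
  have hf1 : (p : ZMod N) ^ f = 1 := by rw [hf]; exact pow_orderOf_eq_one _
  have hpz : (p : ZMod N) ≠ 0 := by
    intro h
    rw [h, zero_pow (by omega)] at hf1
    exact zero_ne_one hf1
  obtain ⟨ω, hω⟩ := exists_prim F
  have hNd : N ∣ Fintype.card F - 1 := by
    rw [hF]
    have h1 : ((p ^ f - 1 : ℕ) : ZMod N) = 0 := by
      rw [Nat.cast_sub (Nat.one_le_pow _ _ hpp.pos)]
      push_cast
      rw [hf1]; ring
    exact (ZMod.natCast_eq_zero_iff _ _).1 h1
  have hff : f = p ^ (f - 2 * b) := by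
    have := hNN.one_lt
    omega
  have hw : Odd (f - 2 * b) := by
    rcases Nat.lt_or_ge (2 * b) f with h | h
    · obtain ⟨k, hk⟩ := hfo
      exact ⟨k - b, by omega⟩
    · exfalso
      rw [Nat.sub_eq_zero_of_le h, pow_zero] at hff
      omega
  have h2b : 2 * b < f := by
    by_contra h
    push Not at h
    rw [Nat.sub_eq_zero_of_le h] at hw
    exact absurd hw (by decide)
  obtain ⟨z, hz, hst⟩ := stickU hp hpn hF hω hNd hζ
  choose χ hχ1 hχ2 using hst
  set γ : ZMod N → Ω := fun t => gaussSum (χ t) (psi hζ.pow_eq_one F) with hγ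
  have hγmu : ∀ t, γ t = ∑ v : ZMod N, (mu p N ω v : Ω) * chN hz.pow_eq_one (t * v) :=
    fun t => gauss_mu hζ hz.pow_eq_one hNp hω hNd t (χ t) (hχ1 t)
  have hγn : ∀ t, t ≠ 0 → ‖γ t‖ = (p : ℝ) ^ (-((L p N f t : ℝ) / N)) := fun t ht => (hχ2 t ht).2
  -- divisibility
  have hdv : ∀ v : ZMod N, (p : ℤ) ^ b ∣ mu p N ω v - mu p N ω 0 := by
    intro v
    apply dvd_of_norm_le hpn
    have i1 := mm_inv hz (fun v => (mu p N ω v : Ω)) v
    have i2 := mm_inv hz (fun v => (mu p N ω v : Ω)) 0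
    have e1 : (N : Ω) * ((mu p N ω v - mu p N ω 0 : ℤ) : Ω) = ∑ t : ZMod N,
        γ t * (chN hz.pow_eq_one (-(t * v)) - 1) := by
      push_cast
      rw [mul_sub, i1, i2, ← Finset.sum_sub_distrib]
      apply Finset.sum_congr rfl
      intro t _
      rw [mul_zero, neg_zero, AddChar.map_zero_eq_one, ← hγmu t]
      ring
    have e2 : ‖(N : Ω) * ((mu p N ω v - mu p N ω 0 : ℤ) : Ω)‖ ≤ (p : ℝ) ^ (-(b : ℝ)) := by
      rw [e1]
      apply norm_sum_le _ _ (by positivity)
      intro t _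
      by_cases ht : t = 0
      · subst ht
        rw [zero_mul, neg_zero, AddChar.map_zero_eq_one, sub_self, mul_zero, norm_zero]
        positivity
      · rw [norm_mul, hγn t ht]
        have e3 : ‖chN hz.pow_eq_one (-(t * v)) - (1 : Ω)‖ ≤ 1 := by
          have := IsUltrametricDist.norm_add_le_max (chN hz.pow_eq_one (-(t * v))) (-(1 : Ω))
          rw [norm_neg, norm_one, norm_chN, max_self, ← sub_eq_add_neg] at this
          exact this
        have e4 : (b : ℝ) ≤ (L p N f t : ℝ) / N := by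
          rw [le_div_iff₀ hN0]
          have := hb1 t ht
          have : ((N * b : ℕ) : ℝ) ≤ (L p N f t : ℝ) := by exact_mod_cast this
          push_cast at this
          linarith
        calc _ ≤ (p : ℝ) ^ (-((L p N f t : ℝ) / N)) * 1 := by
              gcongr
          _ ≤ _ := by
              rw [mul_one]
              exact Real.rpow_le_rpow_of_exponent_le hp1.le (by linarith)
    have hNn : ‖(N : Ω)‖ = 1 := by
      apply norm_nat_eq_one hpn
      intro hdv
      exact hpN ((Nat.prime_dvd_prime_iff_eq hpp hNN).1 hdv)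
    rw [norm_mul, hNn, one_mul] at e2
    exact e2
  choose d hd using hdv
  have hpb : (p : ℤ) ^ b ≠ 0 := pow_ne_zero b (by exact_mod_cast hpp.ne_zero)
  have hd0 : d 0 = 0 := by
    have := hd 0
    rw [sub_self] at this
    rcases mul_eq_zero.1 this.symm with h | h
    · exact absurd h hpb
    · exact h
  have hdp : ∀ v, d (p * v) = d v := by
    intro v
    have e1 := hd (p * v)
    rw [mu_frob hω hNd hpz, hd v] at e1
    exact (mul_left_cancel₀ hpb e1).symm
  have hδ : ∀ t : ZMod N, t ≠ 0 → γ t = (p : Ω) ^ b *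
      ∑ v : ZMod N, (d v : Ω) * chN hz.pow_eq_one (t * v) := by
    intro t ht
    have e3 : ∑ v : ZMod N, chN hz.pow_eq_one (t * v) = 0 := by
      have := AddChar.sum_mulShift (R := ZMod N) t
        (AddChar.zmodChar_primitive_of_primitive_root N hz)
      rw [if_neg ht] at this
      rw [← Nat.cast_zero (R := Ω), ← this]
      apply Finset.sum_congr rfl
      intro v _
      rw [mul_comm]
    rw [hγmu t, Finset.mul_sum]
    have e4 : ∀ v : ZMod N, (p : Ω) ^ b * ((d v : Ω) * chN hz.pow_eq_one (t * v)) =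
        (mu p N ω v : Ω) * chN hz.pow_eq_one (t * v) -
          (mu p N ω 0 : Ω) * chN hz.pow_eq_one (t * v) := by
      intro v
      have := congrArg (Int.cast : ℤ → Ω) (hd v)
      push_cast at this
      linear_combination (-chN hz.pow_eq_one (t * v)) * this
    rw [Finset.sum_congr rfl fun v _ => e4 v, Finset.sum_sub_distrib, ← Finset.mul_sum, e3]
    ring
  -- products
  have hprod : ∀ t : ZMod N, t ≠ 0 → (∑ u : ZMod N, (d u : Ω) * chN hz.pow_eq_one (t * u)) *
      (∑ u : ZMod N, (d u : Ω) * chN hz.pow_eq_one (-t * u)) = (f : Ω) := by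
    intro t ht
    have hinv : χ (-t) = (χ t)⁻¹ := by
      ext u
      have hu : (u : F) ≠ 0 := u.ne_zero
      rw [hχ1 (-t) _ hu, MulChar.inv_apply', hχ1 t _ (inv_ne_zero hu), ix_inv hω hNd hu]
      congr 1
      ring
    have h1 : γ t * γ (-t) = (Fintype.card F : Ω) := by
      have h2 := gaussSum_mul_gaussSum_eq_card (hχ2 t ht).1 (psi_primitive (F := F) hζ)
      rw [← h2, hγ]
      simp only
      rw [hinv]
      congr 1
      rw [← mul_gaussSum_inv_eq_gaussSum (χ t)⁻¹ (psi hζ.pow_eq_one F)]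
      have h3 : (χ t)⁻¹ (-1) = 1 := by
        rw [← hinv, hχ1 (-t) _ (neg_ne_zero.2 one_ne_zero), ix_neg_one hN hω hNd, mul_zero,
          AddChar.map_zero_eq_one]
      rw [h3, one_mul]
    rw [hδ t ht, hδ (-t) (neg_ne_zero.2 ht), hF] at h1
    have hpb' : (p : Ω) ^ (2 * b) ≠ 0 :=
      pow_ne_zero _ (by exact_mod_cast hpp.ne_zero)
    apply mul_left_cancel₀ hpb'
    have h4 : (p : Ω) ^ (2 * b) * (f : Ω) = ((p ^ f : ℕ) : Ω) := by
      have : (f : Ω) = (p : Ω) ^ (f - 2 * b) := by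
        conv_lhs => rw [hff]
        push_cast
        rfl
      rw [this, ← pow_add]
      push_cast
      congr 1
      omega
    rw [h4, ← h1]
    ring
  obtain ⟨hA, hmax⟩ := e4_comb hN hf hfo he hf3 hw hff hz d hd0 hdp hprod
  refine ⟨hA, ?_⟩
  intro t ht
  have key : ∀ t : ZMod N, t ≠ 0 → 1 ≤ ‖∑ u : ZMod N, (d u : Ω) * chN hz.pow_eq_one (t * u)‖ →
      L p N f t = N * b := by
    intro t ht h1
    have h2 := congrArg norm (hδ t ht)
    rw [hγn t ht, norm_mul, norm_pow, hpn] at h2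
    have h3 : ((p : ℝ)⁻¹) ^ b = (p : ℝ) ^ (-(b : ℝ)) := by
      rw [Real.rpow_neg hp0.le, Real.rpow_natCast, inv_pow]
    rw [h3] at h2
    have h4 : (p : ℝ) ^ (-(b : ℝ)) ≤ (p : ℝ) ^ (-((L p N f t : ℝ) / N)) := by
      rw [h2]
      have : (0 : ℝ) < (p : ℝ) ^ (-(b : ℝ)) := Real.rpow_pos_of_pos hp0 _
      nlinarith
    rw [Real.rpow_le_rpow_left_iff hp1] at h4
    have h5 : (L p N f t : ℝ) / N ≤ b := by linarith
    rw [div_le_iff₀ hN0] at h5
    have h6 : L p N f t ≤ b * N := by exact_mod_cast h5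
    have h7 := hb1 t ht
    nlinarith
  have hLn := L_neg (f := f) hpz ht
  rcases le_max_iff.1 (hmax t ht) with h | h
  · exact Or.inl (key t ht h)
  · right
    have := key (-t) (neg_ne_zero.2 ht) h
    rw [this] at hLn
    linarith

theorem e4_back {p N f b : ℕ} [Fact p.Prime] [Fact N.Prime] (hp : p ≠ 2) (hN : N ≠ 2)
    (hpN : p ≠ N) (hf : f = orderOf (p : ZMod N)) (hfo : Odd f) (he : 4 * f = N - 1)
    (hb1 : ∀ s : ZMod N, s ≠ 0 → N * b ≤ L p N f s)
    (hb2 : ∃ s : ZMod N, s ≠ 0 ∧ L p N f s = N * b)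
    (hii : N = 4 * p ^ (f - 2 * b) + 1) :
    (∃ A : ℤ, (N : ℤ) = A ^ 2 + 4) ∧
      ∀ s : ZMod N, s ≠ 0 → L p N f s = N * b ∨ L p N f s + N * b = N * f := by
  classical
  have hpp := (Fact.out : p.Prime)
  have hNN := (Fact.out : N.Prime)
  have hf1 : (p : ZMod N) ^ f = 1 := by rw [hf]; exact pow_orderOf_eq_one _
  have hfne : f ≠ 1 := by
    intro h
    obtain ⟨s, hs, hL⟩ := hb2
    have h1 : L p N f s = s.val := by
      rw [h]; unfold L; simp
    rw [h1] at hL
    have h2 := ZMod.val_lt s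
    have h3 : s.val = 0 := by
      rcases Nat.eq_zero_or_pos b with h0 | h0
      · rw [hL, h0, mul_zero]
      · have : N * 1 ≤ N * b := Nat.mul_le_mul_left N h0
        omega
    exact hs ((ZMod.val_eq_zero s).1 h3)
  have hf3 : 3 ≤ f := by
    obtain ⟨k, hk⟩ := hfo
    omega
  have hNp : ¬ N ∣ p - 1 := by
    intro hdv
    apply hfne
    rw [hf, orderOf_eq_one_iff]
    have h1 : ((p - 1 : ℕ) : ZMod N) = 0 := (ZMod.natCast_eq_zero_iff _ _).2 hdv
    rw [Nat.cast_sub hpp.one_le] at h1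
    push_cast at h1
    exact sub_eq_zero.1 h1
  have hpn : ‖(p : PadicAlgCl p)‖ = (p : ℝ)⁻¹ := by
    have := PadicAlgCl.norm_extends p (p : ℚ_[p])
    rw [Padic.norm_p] at this
    rw [← this]
    congr 1
  have hpne : NeZero ((p : ℕ) : PadicAlgCl p) := ⟨by exact_mod_cast hpp.ne_zero⟩
  obtain ⟨ζ, hζ⟩ := HasEnoughRootsOfUnity.exists_primitiveRoot (PadicAlgCl p) p
  let _ : Fintype (GaloisField p f) := Fintype.ofFinite _
  have hF : Fintype.card (GaloisField p f) = p ^ f := by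
    rw [← Nat.card_eq_fintype_card]
    exact GaloisField.card p f (by omega)
  exact e4_back_aux hp hN hpN hf hfo he hf3 hNp hb1 hii hpn hF hζ

end Pool.Agent.CycU
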