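import Pool.Agent.LibCycU.P5

/-! # Index 4: the combinatorial part of the converse -/

set_option autoImplicit false

open Finset

namespace Pool.Agent.CycU

theorem parsevalN {N : ℕ} [Fact N.Prime] {Ω : Type} [Field Ω] {z : Ω} (hz : IsPrimitiveRoot z N)
    (m : ZMod N → Ω) :
    ∑ t : ZMod N, (∑ u : ZMod N, m u * chN hz.pow_eq_one (t * u)) *
      (∑ u : ZMod N, m u * chN hz.pow_eq_one (-t * u)) = (N : Ω) * ∑ v, m v ^ 2 := by
  have h1 : ∀ v : ZMod N, (N : Ω) * m v ^ 2 = ∑ t : ZMod N,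
      (∑ u : ZMod N, m u * chN hz.pow_eq_one (t * u)) * (m v * chN hz.pow_eq_one (-t * v)) := by
    intro v
    have := mm_inv hz m v
    rw [show (N : Ω) * m v ^ 2 = (N * m v) * m v by ring, this, Finset.sum_mul]
    apply Finset.sum_congr rfl
    intro t _
    rw [show -t * v = -(t * v) by ring]
    ring
  rw [Finset.mul_sum, Finset.sum_congr rfl fun v _ => h1 v, Finset.sum_comm]
  apply Finset.sum_congr rfl
  intro t _
  rw [Finset.mul_sum]

theorem sq_le_three {X : ℤ} (h : X ^ 2 ≤ 3) : X ≤ 1 ∧ -1 ≤ X := by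
  constructor <;> nlinarith

/-- integer part of the argument -/
theorem e4_arith {p N f w : ℕ} (hp : p.Prime) (hNN : N.Prime) (he : 4 * f = N - 1) (hf3 : 3 ≤ f)
    (hfo : Odd f) (hw : Odd w) (hfw : f = p ^ w) {a b c e : ℤ}
    (h : (f : ℤ) * (4 + (a + b + c + e) ^ 2) = N * (a ^ 2 + b ^ 2 + c ^ 2 + e ^ 2)) :
    (a + b + c + e) ^ 2 + 4 = N ∧ ((a + b) - (c + e)) ^ 2 = 1 := by
  have hNf : N = 4 * f + 1 := by have := hNN.one_lt; omega
  have h85 : N % 8 = 5 := by
    obtain ⟨k, hk⟩ := hfo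
    omega
  set D := a + b + c + e with hD
  set S := a ^ 2 + b ^ 2 + c ^ 2 + e ^ 2 with hS
  have hNz : (0 : ℤ) < N := by exact_mod_cast hNN.pos
  have hfz : (0 : ℤ) < f := by positivity
  have hNf' : (N : ℤ) = 4 * f + 1 := by exact_mod_cast hNf
  have hnd : ¬ (N : ℤ) ∣ f := by
    intro hd
    have := Int.le_of_dvd hfz hd
    linarith
  have hNp : Prime (N : ℤ) := Nat.prime_iff_prime_int.1 hNN
  have hdv : (N : ℤ) ∣ 4 + D ^ 2 := by
    have : (N : ℤ) ∣ f * (4 + D ^ 2) := ⟨S, h⟩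
    exact (hNp.dvd_or_dvd this).resolve_left hnd
  obtain ⟨j, hj⟩ := hdv
  have hSj : S = f * j := by
    rw [hj] at h
    have : (N : ℤ) * S = N * (f * j) := by linear_combination -h
    exact mul_left_cancel₀ hNz.ne' this
  have hj1 : 1 ≤ j := by
    by_contra hc
    push Not at hc
    have h5 : j ≤ 0 := by omega
    have h6 : (N : ℤ) * j ≤ 0 := mul_nonpos_of_nonneg_of_nonpos hNz.le h5
    have h7 := sq_nonneg D
    linarith
  have hid : 4 * S - D ^ 2 = ((a + b) - (c + e)) ^ 2 + 2 * (a - b) ^ 2 + 2 * (c - e) ^ 2 := by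
    rw [hS, hD]; ring
  have h4j : 4 * S - D ^ 2 = 4 - j := by
    have : D ^ 2 = N * j - 4 := by linarith
    rw [this, hSj, hNf']; ring
  have hj4 : j ≤ 4 := by
    have := sq_nonneg ((a + b) - (c + e))
    have := sq_nonneg (a - b)
    have := sq_nonneg (c - e)
    linarith
  obtain ⟨n8, hn8⟩ : ∃ n8 : ℤ, (N : ℤ) = 8 * n8 + 5 := ⟨(N : ℤ) / 8, by omega⟩
  have hsq8 : D ^ 2 % 8 = 0 ∨ D ^ 2 % 8 = 1 ∨ D ^ 2 % 8 = 4 := by
    have : D % 8 = 0 ∨ D % 8 = 1 ∨ D % 8 = 2 ∨ D % 8 = 3 ∨ D % 8 = 4 ∨ D % 8 = 5 ∨ D % 8 = 6 ∨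
        D % 8 = 7 := by omega
    rcases this with h | h | h | h | h | h | h | h <;> simp [pow_two, Int.mul_emod, h]
  have hD2 : D ^ 2 = N * j - 4 := by linarith
  have hcases : j = 1 ∨ j = 2 ∨ j = 3 ∨ j = 4 := by omega
  rcases hcases with rfl | rfl | rfl | rfl
  · refine ⟨by linarith, ?_⟩
    have h3 : ((a + b) - (c + e)) ^ 2 + 2 * (a - b) ^ 2 + 2 * (c - e) ^ 2 = 3 := by
      rw [← hid, h4j]; norm_num
    have hodd : Odd (D ^ 2) := by
      rw [hD2, mul_one, hn8]
      exact ⟨4 * n8, by ring⟩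
    have hDodd : Odd D := by
      rcases Int.even_or_odd D with h | h
      · have := h.pow_of_ne_zero (n := 2) (by norm_num)
        exact absurd hodd (Int.not_odd_iff_even.2 this)
      · exact h
    have hXodd : Odd ((a + b) - (c + e)) := by
      have : (a + b) - (c + e) = D - 2 * (c + e) := by rw [hD]; ring
      rw [this]
      exact hDodd.sub_even (even_two_mul _)
    set X := (a + b) - (c + e) with hX
    have hXle : X ^ 2 ≤ 3 := by
      have := sq_nonneg (a - b)
      have := sq_nonneg (c - e)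
      linarith
    obtain ⟨hX2, hX3⟩ := sq_le_three hXle
    obtain ⟨k, hk⟩ := hXodd
    have : X = 1 ∨ X = -1 := by omega
    rcases this with h | h <;> rw [h] <;> norm_num
  · exfalso
    rw [hn8] at hD2
    omega
  · exfalso
    rw [hn8] at hD2
    omega
  · exfalso
    have h0 : ((a + b) - (c + e)) ^ 2 + 2 * (a - b) ^ 2 + 2 * (c - e) ^ 2 = 0 := by
      rw [← hid, h4j]; norm_num
    have e1 : (a - b) ^ 2 = 0 := by
      have := sq_nonneg ((a + b) - (c + e))
      have := sq_nonneg (a - b)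
      have := sq_nonneg (c - e)
      linarith
    have e2 : (c - e) ^ 2 = 0 := by
      have := sq_nonneg ((a + b) - (c + e))
      have := sq_nonneg (a - b)
      have := sq_nonneg (c - e)
      linarith
    have e3 : ((a + b) - (c + e)) ^ 2 = 0 := by
      have := sq_nonneg ((a + b) - (c + e))
      have := sq_nonneg (a - b)
      have := sq_nonneg (c - e)
      linarith
    have q1 : a - b = 0 := pow_eq_zero_iff (n := 2) (by norm_num) |>.1 e1
    have q2 : c - e = 0 := pow_eq_zero_iff (n := 2) (by norm_num) |>.1 e2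
    have q3 : (a + b) - (c + e) = 0 := pow_eq_zero_iff (n := 2) (by norm_num) |>.1 e3
    have r1 : b = a := by linarith
    have r2 : c = a := by linarith
    have r3 : e = a := by linarith
    have hfa : (f : ℤ) = a ^ 2 := by
      have : S = 4 * a ^ 2 := by rw [hS, r1, r2, r3]; ring
      linarith
    have hfa' : f = a.natAbs ^ 2 := by
      have : (f : ℤ) = ((a.natAbs ^ 2 : ℕ) : ℤ) := by
        push_cast
        rw [sq_abs]; exact hfa
      exact_mod_cast this
    rw [hfw] at hfa'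
    have ha0 : a.natAbs ≠ 0 := by
      intro h0
      rw [h0] at hfa'
      exact absurd hfa' (pow_ne_zero _ hp.ne_zero)
    have hfp : Fact p.Prime := ⟨hp⟩
    have hv := congrArg (padicValNat p) hfa'
    rw [padicValNat.prime_pow, padicValNat.pow] at hv
    obtain ⟨k, hk⟩ := hw
    omega

theorem e4_comb {p N f w : ℕ} [Fact p.Prime] [Fact N.Prime] (hN : N ≠ 2)
    (hford : f = orderOf (p : ZMod N)) (hfo : Odd f) (he : 4 * f = N - 1) (hf3 : 3 ≤ f)
    (hw : Odd w) (hfw : f = p ^ w) {Ω : Type} [NormedField Ω] [IsUltrametricDist Ω] [CharZero Ω]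
    {z : Ω} (hz : IsPrimitiveRoot z N) (d : ZMod N → ℤ) (hd0 : d 0 = 0)
    (hdp : ∀ v, d (p * v) = d v)
    (hprod : ∀ t : ZMod N, t ≠ 0 → (∑ u : ZMod N, (d u : Ω) * chN hz.pow_eq_one (t * u)) *
      (∑ u : ZMod N, (d u : Ω) * chN hz.pow_eq_one (-t * u)) = (f : Ω)) :
    (∃ A : ℤ, (N : ℤ) = A ^ 2 + 4) ∧ ∀ t : ZMod N, t ≠ 0 →
      1 ≤ max ‖∑ u : ZMod N, (d u : Ω) * chN hz.pow_eq_one (t * u)‖
        ‖∑ u : ZMod N, (d u : Ω) * chN hz.pow_eq_one (-t * u)‖ := by
  have hpp := (Fact.out : p.Prime)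
  have hNN := (Fact.out : N.Prime)
  have h85 : N % 8 = 5 := by
    obtain ⟨k, hk⟩ := hfo
    omega
  have h2 : quadraticChar (ZMod N) 2 = -1 := by
    rw [quadChar_two' hN, if_pos (Or.inr h85)]
  have hlm : quadraticChar (ZMod N) (-1) = 1 := by
    rw [quadraticChar_neg_one (by rwa [ZMod.ringChar_zmod_n]), ZMod.card,
      ZMod.χ₄_nat_one_mod_four (by omega)]
  have h20 : (2 : ZMod N) ≠ 0 := Ring.two_ne_zero (by rwa [ZMod.ringChar_zmod_n])
  have hf1 : (p : ZMod N) ^ f = 1 := by rw [hford]; exact pow_orderOf_eq_one _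
  have hpz : (p : ZMod N) ≠ 0 := by
    intro h
    rw [h, zero_pow (by omega)] at hf1
    exact zero_ne_one hf1
  obtain ⟨j4, hj4⟩ := four_cls4 hN hford hfo he h2
  -- sums over classes
  have hclass : ∀ g : ZMod N → ℤ, (∀ v, g (p * v) = g v) →
      ∑ v, g v = g 0 + f * (g 1 + g (-1) + g 2 + g (-2)) := by
    intro g hg
    have h4v : g (2 * 2) = g (-1) := by rw [hj4, inv_pow_of_frob hg]
    have h4v' : g (-(2 * 2)) = g 1 := by
      rw [hj4, ← mul_neg, inv_pow_of_frob hg, neg_neg]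
    have hcls : ∀ v : ZMod N, v ≠ 0 → g v + g (-v) + g (2 * v) + g (-(2 * v)) =
        g 1 + g (-1) + g 2 + g (-2) := by
      intro v hv
      have key : ∀ (c : ZMod N) (j : ℕ), v = (p : ZMod N) ^ j * c →
          g v + g (-v) + g (2 * v) + g (-(2 * v)) = g c + g (-c) + g (2 * c) + g (-(2 * c)) := by
        intro c j hj
        rw [hj, ← mul_neg,
          show (2 : ZMod N) * ((p : ZMod N) ^ j * c) = (p : ZMod N) ^ j * (2 * c) by ring,
          ← mul_neg, inv_pow_of_frob hg, inv_pow_of_frob hg, inv_pow_of_frob hg,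
          inv_pow_of_frob hg]
      obtain ⟨j, (hj | hj) | (hj | hj)⟩ := cls4 hN hford hfo he h2 hv
      · rw [key _ j hj, mul_one]
      · rw [key _ j hj, neg_neg, mul_neg, mul_one, neg_neg]; ring
      · rw [key _ j hj, h4v, h4v']; ring
      · rw [key _ j hj, neg_neg, mul_neg, h4v', neg_neg, h4v]; ring
    have e1 : ∑ v : ZMod N, (g v + g (-v) + g (2 * v) + g (-(2 * v))) = 4 * ∑ v, g v := by
      rw [Finset.sum_add_distrib, Finset.sum_add_distrib, Finset.sum_add_distrib]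
      have q1 : ∑ v : ZMod N, g (-v) = ∑ v, g v := Equiv.sum_comp (Equiv.neg (ZMod N)) g
      have q2 : ∑ v : ZMod N, g (2 * v) = ∑ v, g v := Equiv.sum_comp (Equiv.mulLeft₀ 2 h20) g
      have q3 : ∑ v : ZMod N, g (-(2 * v)) = ∑ v, g v := by
        rw [← q1]
        exact Equiv.sum_comp (Equiv.mulLeft₀ 2 h20) (fun v => g (-v))
      rw [q1, q2, q3]; ring
    have e2 : ∑ v : ZMod N, (g v + g (-v) + g (2 * v) + g (-(2 * v))) =
        4 * g 0 + (N - 1 : ℕ) * (g 1 + g (-1) + g 2 + g (-2)) := by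
      rw [sum_ne_zero_split (fun v => g v + g (-v) + g (2 * v) + g (-(2 * v))),
        Finset.sum_congr rfl fun v hv => hcls v (Finset.ne_of_mem_erase hv), Finset.sum_const,
        Finset.card_erase_of_mem (mem_univ _), Finset.card_univ, ZMod.card, mul_zero, neg_zero,
        nsmul_eq_mul]
      ring
    rw [e1, ← he] at e2
    push_cast at e2
    linarith
  set δ : ZMod N → Ω := fun t => ∑ u : ZMod N, (d u : Ω) * chN hz.pow_eq_one (t * u) with hδ
  have hD := hclass d hdp
  rw [hd0, zero_add] at hD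
  have hS := hclass (fun v => d v ^ 2) (fun v => by simp only [hdp])
  simp only [hd0] at hS
  have hpars := parsevalN hz (fun v => (d v : Ω))
  -- evaluate the left side
  have hL : ∑ t : ZMod N, (∑ u : ZMod N, (d u : Ω) * chN hz.pow_eq_one (t * u)) *
      (∑ u : ZMod N, (d u : Ω) * chN hz.pow_eq_one (-t * u)) =
      (((∑ v, d v) ^ 2 + (N - 1 : ℕ) * f : ℤ) : Ω) := by
    rw [← Finset.add_sum_erase _ _ (mem_univ (0 : ZMod N)),
      Finset.sum_congr rfl fun t ht => hprod t (Finset.ne_of_mem_erase ht), Finset.sum_const,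
        Finset.card_erase_of_mem (mem_univ _), Finset.card_univ, ZMod.card, nsmul_eq_mul]
    simp only [neg_zero, zero_mul, AddChar.map_zero_eq_one, mul_one]
    push_cast
    ring
  rw [hL] at hpars
  have hmain : (∑ v, d v) ^ 2 + (N - 1 : ℕ) * f = (N : ℤ) * ∑ v, d v ^ 2 := by
    exact_mod_cast hpars
  rw [hD, hS, ← he] at hmain
  have hfz : (f : ℤ) ≠ 0 := by
    have : 0 < f := by omega
    exact_mod_cast this.ne'
  have har : (f : ℤ) * (4 + (d 1 + d (-1) + d 2 + d (-2)) ^ 2) =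
      N * (d 1 ^ 2 + d (-1) ^ 2 + d 2 ^ 2 + d (-2) ^ 2) := by
    apply mul_left_cancel₀ hfz
    push_cast at hmain
    linear_combination hmain
  obtain ⟨hA, hX⟩ := e4_arith hpp hNN he hf3 hfo hw hfw har
  refine ⟨⟨d 1 + d (-1) + d 2 + d (-2), hA.symm⟩, ?_⟩
  -- the sums `δ(t) + δ(-t)`
  set D := d 1 + d (-1) + d 2 + d (-2) with hDdef
  set X := (d 1 + d (-1)) - (d 2 + d (-2)) with hXdef
  set τ := tau hz.pow_eq_one with hτdef
  have hτ2 : τ ^ 2 = (N : Ω) := by
    rw [hτdef, tau_sq hN hz]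
    unfold Nst
    rw [hlm]; simp
  have hresp : ∀ j : ℕ, quadraticChar (ZMod N) ((p : ZMod N) ^ j) = 1 := res_p hfo hf1 hpz
  have hl2 : quadraticChar (ZMod N) (-2) = -1 := by
    rw [show (-2 : ZMod N) = -1 * 2 by ring, map_mul, hlm, h2]; norm_num
  have hev : ∀ v : ZMod N, v ≠ 0 → 2 * (d v + d (-v)) = D + quadraticChar (ZMod N) v * X := by
    intro v hv
    obtain ⟨j, (hj | hj) | (hj | hj)⟩ := cls4 hN hford hfo he h2 hv
    · rw [hj, ← mul_neg, inv_pow_of_frob hdp, inv_pow_of_frob hdp, map_mul, hresp, map_one, hDdef,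
        hXdef]
      ring
    · rw [hj, ← mul_neg, inv_pow_of_frob hdp, inv_pow_of_frob hdp, map_mul, hresp, hlm, neg_neg,
        hDdef, hXdef]
      ring
    · rw [hj, ← mul_neg, inv_pow_of_frob hdp, inv_pow_of_frob hdp, map_mul, hresp, h2, hDdef,
        hXdef]
      ring
    · rw [hj, ← mul_neg, inv_pow_of_frob hdp, inv_pow_of_frob hdp, map_mul, hresp, hl2, neg_neg,
        hDdef, hXdef]
      ring
  have hpsum : ∀ t : ZMod N, t ≠ 0 → 2 * (δ t + δ (-t)) =
      -(D : Ω) + (quadraticChar (ZMod N) t : Ω) * X * τ := by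
    intro t ht
    have e1 : δ (-t) = ∑ u : ZMod N, (d (-u) : Ω) * chN hz.pow_eq_one (t * u) := by
      rw [hδ]
      simp only
      rw [← Equiv.sum_comp (Equiv.neg (ZMod N))]
      apply Finset.sum_congr rfl
      intro v _
      rw [Equiv.neg_apply, show -t * -v = t * v by ring]
    have e2 : ∀ v : ZMod N, 2 * ((d v : Ω) * chN hz.pow_eq_one (t * v)) +
        2 * ((d (-v) : Ω) * chN hz.pow_eq_one (t * v)) =
        (D : Ω) * chN hz.pow_eq_one (t * v) +
          (X : Ω) * ((quadraticChar (ZMod N) v : Ω) * chN hz.pow_eq_one (t * v)) -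
          (if v = 0 then (D : Ω) else 0) := by
      intro v
      by_cases hv : v = 0
      · subst hv
        rw [if_pos rfl, neg_zero, hd0]
        simp
      · rw [if_neg hv]
        have := congrArg (Int.cast : ℤ → Ω) (hev v hv)
        push_cast at this
        linear_combination (chN hz.pow_eq_one (t * v)) * this
    have e3 : ∑ v : ZMod N, chN hz.pow_eq_one (t * v) = 0 := by
      have := AddChar.sum_mulShift (R := ZMod N) t
        (AddChar.zmodChar_primitive_of_primitive_root N hz)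
      rw [if_neg ht] at this
      rw [← Nat.cast_zero (R := Ω), ← this]
      apply Finset.sum_congr rfl
      intro v _
      rw [mul_comm]
    rw [e1, mul_add, hδ]
    simp only
    rw [Finset.mul_sum, Finset.mul_sum, ← Finset.sum_add_distrib,
      Finset.sum_congr rfl fun v _ => e2 v, Finset.sum_sub_distrib, Finset.sum_add_distrib,
      ← Finset.mul_sum, ← Finset.mul_sum, e3, tau_mul hz.pow_eq_one ht]
    simp
    ring
  intro t ht
  have h2t : (2 : ZMod N) * t ≠ 0 := mul_ne_zero h20 ht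
  have hq1 := hpsum t ht
  have hq2 := hpsum (2 * t) h2t
  rw [map_mul, h2] at hq2
  have hlt : (quadraticChar (ZMod N) t : Ω) ^ 2 = 1 := by
    have := congrArg (Int.cast : ℤ → Ω) (quadraticChar_sq_one ht)
    push_cast at this
    exact this
  have hXΩ : (X : Ω) ^ 2 = 1 := by exact_mod_cast congrArg (Int.cast : ℤ → Ω) hX
  have hDΩ : (D : Ω) ^ 2 + 4 = N := by exact_mod_cast congrArg (Int.cast : ℤ → Ω) hA
  have hmul : (δ t + δ (-t)) * (δ (2 * t) + δ (-(2 * t))) = -1 := by
    have e4 : (2 * (δ t + δ (-t))) * (2 * (δ (2 * t) + δ (-(2 * t)))) = -4 := by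
      rw [hq1, hq2]
      push_cast
      calc _ = (D : Ω) ^ 2 - (quadraticChar (ZMod N) t : Ω) ^ 2 * (X : Ω) ^ 2 * τ ^ 2 := by ring
        _ = _ := by rw [hlt, hXΩ, hτ2]; linear_combination hDΩ
    have h4 : (4 : Ω) ≠ 0 := by norm_num
    apply mul_left_cancel₀ h4
    linear_combination e4
  have hle : ∀ t : ZMod N, ‖δ t‖ ≤ 1 := by
    intro t
    apply norm_sum_le _ _ zero_le_one
    intro v _
    rw [norm_mul, norm_chN, mul_one]
    exact norm_int_le_one _
  have hn : ‖δ t + δ (-t)‖ * ‖δ (2 * t) + δ (-(2 * t))‖ = 1 := by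
    rw [← norm_mul, hmul, norm_neg, norm_one]
  have hle2 : ‖δ (2 * t) + δ (-(2 * t))‖ ≤ 1 :=
    (IsUltrametricDist.norm_add_le_max _ _).trans (max_le (hle _) (hle _))
  have hge : 1 ≤ ‖δ t + δ (-t)‖ := by
    by_contra hc
    push Not at hc
    have h0 := norm_nonneg (δ t + δ (-t))
    have h0' := norm_nonneg (δ (2 * t) + δ (-(2 * t)))
    nlinarith
  exact hge.trans (IsUltrametricDist.norm_add_le_max _ _)

end Pool.Agent.CycU
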