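import Pool.Agent.LibCycU.P4a

/-! # Untwisted Gauss sums -/

set_option autoImplicit false

open Finset

namespace Pool.Agent.CycU

theorem stickU {p : ℕ} [Fact p.Prime] (hp : p ≠ 2) {N : ℕ} [Fact N.Prime]
    {Ω : Type} [NormedField Ω]
    [IsUltrametricDist Ω] [CharZero Ω] [IsAlgClosed Ω] (hpn : ‖(p : Ω)‖ = (p : ℝ)⁻¹)
    {F : Type} [Field F] [Fintype F] [DecidableEq F] [Algebra (ZMod p) F] {f : ℕ}
    (hF : Fintype.card F = p ^ f) {ω : F} (hω : IsPrimitiveRoot ω (Fintype.card F - 1))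
    (hd : N ∣ Fintype.card F - 1) {ζ : Ω} (hζ : IsPrimitiveRoot ζ p) :
    ∃ (z : Ω) (hz : IsPrimitiveRoot z N), ∀ t : ZMod N, ∃ χ : MulChar F Ω,
      (∀ y : F, y ≠ 0 → χ y = chN hz.pow_eq_one (t * ix N ω y)) ∧ (t ≠ 0 → χ ≠ 1 ∧
      ‖gaussSum χ (psi hζ.pow_eq_one F)‖ = (p : ℝ) ^ (-((L p N f t : ℝ) / N))) := by
  have hpp := (Fact.out : p.Prime)
  have hNN := (Fact.out : N.Prime)
  obtain ⟨χ, hχ, hnorm⟩ := stick1 hp hpn hF hζ
  set q := p ^ f with hq
  have hF1 : Fintype.card F - 1 = q - 1 := by rw [hF]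
  have hq1 : 1 < q := by rw [← hF]; exact Fintype.one_lt_card
  have hω0 : ω ≠ 0 := hω.ne_zero (by omega)
  have hωu : IsUnit ω := isUnit_iff_ne_zero.2 hω0
  have hξ : IsPrimitiveRoot (χ ω) (q - 1) := by
    have key : ∀ k : ℕ, (χ ω) ^ k = 1 → χ ^ k = 1 := by
      intro k h
      ext a
      have ha : (a : F) ≠ 0 := a.ne_zero
      obtain ⟨i, hi⟩ := exists_pow_eq hω ha
      rw [MulChar.pow_apply_coe, MulChar.one_apply a.isUnit, ← hi, map_pow, ← pow_mul, mul_comm,
        pow_mul, h, one_pow]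
    refine ⟨?_, ?_⟩
    · have h1 : χ ^ (q - 1) = 1 := by rw [← hχ]; exact pow_orderOf_eq_one χ
      have h2 := congrArg (fun φ : MulChar F Ω => φ ω) h1
      simp only [MulChar.one_apply hωu] at h2
      rw [MulChar.pow_apply' χ (by omega)] at h2
      exact h2
    · intro k hk
      rw [← hχ]
      exact orderOf_dvd_of_pow_eq_one (key k hk)
  set ξ := χ ω with hξdef
  have hN0 : 0 < N := hNN.pos
  rw [hF1] at hd
  obtain ⟨g, hg⟩ := hd
  have hg0 : 0 < g := by
    rcases Nat.eq_zero_or_pos g with h | h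
    · subst h; omega
    · exact h
  have hz : IsPrimitiveRoot (ξ ^ g) N := hξ.pow (by omega) (by rw [hg]; ring)
  refine ⟨ξ ^ g, hz, ?_⟩
  intro t
  set a := t.val * g with ha
  refine ⟨χ ^ a, ?_, ?_⟩
  · intro y hy
    obtain ⟨i, rfl⟩ := exists_pow_eq hω hy
    have hyu : IsUnit (ω ^ i) := hωu.pow i
    obtain ⟨u, hu⟩ := hyu
    rw [← hu, MulChar.pow_apply_coe, hu,
      ix_pow hω (by rw [hF1, hg]; exact dvd_mul_right N g), map_pow, ← hξdef]
    have e1 : t * (i : ZMod N) = ((t.val * i : ℕ) : ZMod N) := by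
      push_cast
      rw [ZMod.natCast_zmod_val]
    rw [e1]
    have e2 : chN hz.pow_eq_one ((t.val * i : ℕ) : ZMod N) = (ξ ^ g) ^ (t.val * i) :=
      AddChar.zmodChar_apply' hz.pow_eq_one _
    rw [e2, ha, ← pow_mul, ← pow_mul]
    congr 1
    ring
  · intro ht
    have htv : 0 < t.val := by
      rcases Nat.eq_zero_or_pos t.val with h | h
      · exact absurd ((ZMod.val_eq_zero t).1 h) ht
      · exact h
    have htN := ZMod.val_lt t
    have ha0 : 0 < a := Nat.mul_pos htv hg0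
    have haq : a < q - 1 := by
      rw [hg, ha]
      exact Nat.mul_lt_mul_of_pos_right htN hg0
    refine ⟨?_, ?_⟩
    · intro h1
      have h2 := orderOf_dvd_of_pow_eq_one h1
      rw [hχ] at h2
      have := Nat.le_of_dvd ha0 h2
      omega
    rw [hnorm a ha0 haq]
    congr 1
    -- digits
    have hdc := digits_cyc (p := p) (f := f) (a := a) hpp.one_lt haq
    have hmod : ∀ i ∈ range f, (p ^ i * a) % (p ^ f - 1) = g * ((p : ZMod N) ^ i * t).val := by
      intro i _
      rw [← hq, hg, ha]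
      have e1 : p ^ i * (t.val * g) = g * (p ^ i * t.val) := by ring
      rw [e1, mul_comm N g, Nat.mul_mod_mul_left]
      congr 1
      have e2 : (p : ZMod N) ^ i * t = ((p ^ i * t.val : ℕ) : ZMod N) := by
        push_cast
        rw [ZMod.natCast_zmod_val]
      rw [e2, ZMod.val_natCast]
    rw [Finset.sum_congr rfl hmod, ← Finset.mul_sum] at hdc
    have hL : ∑ i ∈ range f, ((p : ZMod N) ^ i * t).val = L p N f t := rfl
    rw [hL, ← hq, hg] at hdc
    generalize (Nat.digits p a).sum = S at hdc ⊢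
    have h1 : S * N = (p - 1) * L p N f t := by
      apply Nat.eq_of_mul_eq_mul_right hg0
      linarith
    have h2 : (S : ℝ) * N = ((p : ℝ) - 1) * L p N f t := by
      have := congrArg (Nat.cast : ℕ → ℝ) h1
      rw [Nat.cast_mul, Nat.cast_mul, Nat.cast_sub hpp.one_le] at this
      simpa using this
    have hN' : (N : ℝ) ≠ 0 := by exact_mod_cast hN0.ne'
    have hp' : (p : ℝ) - 1 ≠ 0 := by
      have : (1 : ℝ) < p := by exact_mod_cast hpp.one_lt
      linarith
    have e5 : (S : ℝ) / ((p : ℝ) - 1) = (L p N f t : ℝ) / N := by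
      rw [div_eq_div_iff hp' hN', h2]; ring
    rw [e5]

section

variable {p : ℕ} [Fact p.Prime] {F : Type} [Field F] [Fintype F] [DecidableEq F]
  [Algebra (ZMod p) F] {f : ℕ} {ω : F} {N : ℕ} [Fact N.Prime]

/-- indicator of the class `v` -/
noncomputable def EU (N : ℕ) (ω : F) (v : ZMod N) (y : F) : ℤ :=
  if y = 0 then 0 else if ix N ω y = v then 1 else 0

/-- coefficients of the untwisted Gauss sums -/
noncomputable def mu (p : ℕ) [Fact p.Prime] [Algebra (ZMod p) F] (N : ℕ) (ω : F) (v : ZMod N) : ℤ :=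
  trs p (EU N ω v) 0 - trs p (EU N ω v) 1

theorem EU_smul (hNp : ¬ N ∣ p - 1) (hω : IsPrimitiveRoot ω (Fintype.card F - 1))
    (hd : N ∣ Fintype.card F - 1) (v : ZMod N) {c : ZMod p} (hc : c ≠ 0) (y : F) :
    EU N ω v (algebraMap (ZMod p) F c * y) = EU N ω v y := by
  unfold EU
  by_cases hy : y = 0
  · subst hy; simp
  have hc' : algebraMap (ZMod p) F c ≠ 0 := by
    intro h0; exact hc ((map_eq_zero _).1 h0)
  rw [if_neg hy, if_neg (mul_ne_zero hc' hy), ix_mul hω hd hc' hy, ix_algebraMap hNp hω hd hc,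
    zero_add]

theorem gauss_mu {Ω : Type} [Field Ω] {ζ z : Ω} (hζ : IsPrimitiveRoot ζ p) (hz : z ^ N = 1)
    (hNp : ¬ N ∣ p - 1) (hω : IsPrimitiveRoot ω (Fintype.card F - 1))
    (hd : N ∣ Fintype.card F - 1) (t : ZMod N) (χ : MulChar F Ω)
    (hχ : ∀ y : F, y ≠ 0 → χ y = chN hz (t * ix N ω y)) :
    gaussSum χ (psi hζ.pow_eq_one F) = ∑ v : ZMod N, (mu p N ω v : Ω) * chN hz (t * v) := by
  have h1 : ∀ v : ZMod N, (mu p N ω v : Ω) =
      ∑ y : F, (EU N ω v y : Ω) * psi hζ.pow_eq_one F y := by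
    intro v
    rw [sum_untwisted hζ (EU N ω v) (fun c hc y => EU_smul hNp hω hd v hc y)]
    rfl
  rw [Finset.sum_congr rfl fun v _ => by rw [h1 v, Finset.sum_mul], Finset.sum_comm]
  unfold gaussSum
  apply Finset.sum_congr rfl
  intro y _
  by_cases hy : y = 0
  · subst hy
    rw [MulChar.map_zero]
    simp [EU]
  · rw [hχ y hy, Finset.sum_eq_single (ix N ω y)]
    · unfold EU
      rw [if_neg hy, if_pos rfl]
      push_cast; ring
    · intro v _ hv
      unfold EU
      rw [if_neg hy, if_neg (Ne.symm hv)]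
      simp
    · intro h; exact absurd (mem_univ _) h

omit [DecidableEq F] in
theorem trs_frob' (E E' : F → ℤ) (h : ∀ y, E (y ^ p) = E' y) (c : ZMod p) :
    trs p E c = trs p E' c := by
  unfold trs
  have hbij : Function.Bijective (FiniteField.frobeniusAlgEquivOfAlgebraic (ZMod p) F) :=
    (FiniteField.frobeniusAlgEquivOfAlgebraic (ZMod p) F).bijective
  rw [← Function.Bijective.sum_comp hbij]
  apply Finset.sum_congr rfl
  intro y _
  have hfx : (FiniteField.frobeniusAlgEquivOfAlgebraic (ZMod p) F) y = y ^ p := by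
    rw [FiniteField.coe_frobeniusAlgEquivOfAlgebraic]; simp [ZMod.card]
  have htr : Algebra.trace (ZMod p) F
      ((FiniteField.frobeniusAlgEquivOfAlgebraic (ZMod p) F) y) = Algebra.trace (ZMod p) F y :=
    Algebra.trace_eq_of_algEquiv _ y
  rw [htr, hfx, h y]

theorem mu_frob (hω : IsPrimitiveRoot ω (Fintype.card F - 1))
    (hd : N ∣ Fintype.card F - 1) (hp0 : (p : ZMod N) ≠ 0) (v : ZMod N) :
    mu p N ω (p * v) = mu p N ω v := by
  have hpp := (Fact.out : p.Prime)
  have key : ∀ y : F, EU N ω (p * v) (y ^ p) = EU N ω v y := by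
    intro y
    unfold EU
    by_cases hy : y = 0
    · subst hy
      rw [zero_pow hpp.ne_zero, if_pos rfl, if_pos rfl]
    rw [if_neg hy, if_neg (pow_ne_zero p hy), ix_npow hω hd hy]
    by_cases h : ix N ω y = v
    · rw [if_pos h, if_pos (by rw [h])]
    · rw [if_neg h, if_neg (fun h' => h (mul_left_cancel₀ hp0 h'))]
  unfold mu
  rw [trs_frob' _ _ key, trs_frob' _ _ key]

end

end Pool.Agent.CycU
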