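import Pool.Agent.LibCycU.P3

/-! # Necessary conditions for index 2 and index 4, continued -/

set_option autoImplicit false

open Finset

namespace Pool.Agent.CycU

theorem quadChar_two' {N : ℕ} [Fact N.Prime] (hN : N ≠ 2) :
    quadraticChar (ZMod N) 2 = if N % 8 = 3 ∨ N % 8 = 5 then -1 else 1 := by
  have hodd : N % 2 = 1 := (Nat.Prime.eq_two_or_odd (Fact.out : N.Prime)).resolve_left hN
  rw [quadraticChar_two (by rwa [ZMod.ringChar_zmod_n]), ZMod.card, ZMod.χ₈_nat_eq_if_mod_eight]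
  split_ifs <;> omega

section

variable {p : ℕ} [Fact p.Prime] {F : Type} [Field F] [Fintype F] [DecidableEq F]
  [Algebra (ZMod p) F] {f : ℕ} {ω : F} {N : ℕ} [Fact N.Prime]

theorem sum_even_kernel (m K : ZMod N → ℤ) (hK : ∀ u, K (-u) = K u)
    (hm : ∀ u : ZMod N, u ≠ 0 → m (-u) = -m u) : ∑ u, m u * K u = m 0 * K 0 := by
  have h1 : ∑ u, m u * K u = ∑ u, m (-u) * K u := by
    rw [← Equiv.sum_comp (Equiv.neg (ZMod N))]
    apply Finset.sum_congr rfl
    intro u _
    rw [Equiv.neg_apply, hK]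
  have h2 : ∑ u, m u * K u + ∑ u, m (-u) * K u = 2 * (m 0 * K 0) := by
    rw [← Finset.sum_add_distrib, Finset.sum_eq_single 0]
    · rw [neg_zero]; ring
    · intro u _ hu
      rw [hm u hu]; ring
    · intro h; exact absurd (mem_univ _) h
  linarith

theorem sum_ne_zero_split (h : ZMod N → ℤ) : ∑ v, h v = h 0 + ∑ v ∈ univ.erase 0, h v :=
  (Finset.add_sum_erase _ _ (mem_univ _)).symm

/-- the signs `h(v)` -/
theorem exists_h (hp : p ≠ 2) (hN : N ≠ 2) (hpN : p ≠ N) (hF : Fintype.card F = p ^ f)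
    (hf : Odd f) (hf1 : (p : ZMod N) ^ f = 1)
    (hNp : ¬ N ∣ p - 1) (hω : IsPrimitiveRoot ω (Fintype.card F - 1))
    (hd : N ∣ Fintype.card F - 1) {Ω : Type} [Field Ω] [CharZero Ω] {ζ : Ω}
    (hζ : IsPrimitiveRoot ζ p) {s : ℤ} (hs : s = 1 ∨ s = -1)
    (hm : ∀ v : ZMod N, (p : ℤ) * mm p N s ω v ^ 2 = p ^ f) :
    ∃ h : ZMod N → ℤ, (∀ v, mm p N s ω v = p ^ ((f - 1) / 2) * h v) ∧
      (∀ v, h v = 1 ∨ h v = -1) ∧ (∀ v, h (p * v) = h v) ∧
      (∑ v, h v = 1 ∨ ∑ v, h v = -1) := by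
  have hpp := (Fact.out : p.Prime)
  have hpz : (p : ℤ) ≠ 0 := by exact_mod_cast hpp.ne_zero
  obtain ⟨k, hk⟩ := hf
  have hkk : (f - 1) / 2 = k := by omega
  have hsq : ∀ v : ZMod N, mm p N s ω v ^ 2 = ((p : ℤ) ^ k) ^ 2 := by
    intro v
    apply mul_left_cancel₀ hpz
    rw [hm v, hk]; ring
  have hdv : ∀ v : ZMod N, (p : ℤ) ^ k ∣ mm p N s ω v := by
    intro v
    exact (Int.pow_dvd_pow_iff (n := 2) (by norm_num)).1 (by rw [hsq v])
  choose h hh using hdv
  rw [hkk]
  have hpk : (p : ℤ) ^ k ≠ 0 := pow_ne_zero k hpz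
  refine ⟨h, hh, ?_, ?_, ?_⟩
  · intro v
    have h1 := hsq v
    rw [hh v, mul_pow] at h1
    have h2 : h v ^ 2 = 1 := by
      apply mul_left_cancel₀ (pow_ne_zero 2 hpk)
      rw [h1, mul_one]
    exact sq_eq_one_iff.mp h2
  · intro v
    have h1 := mm_frob (s := s) hp ⟨k, hk⟩ hf1 hω hd hpN v
    rw [hh, hh] at h1
    exact mul_left_cancel₀ hpk h1
  · have h1 := sum_nn_sq hp hF ⟨k, hk⟩ hNp hω hd hζ
    have h2 := sum_mm (p := p) (ω := ω) hN s
    have h3 : ∑ v : ZMod N, mm p N s ω v = (p : ℤ) ^ k * ∑ v, h v := by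
      rw [Finset.mul_sum]
      exact Finset.sum_congr rfl fun v _ => hh v
    have hs2 : s ^ 2 = 1 := by rcases hs with rfl | rfl <;> norm_num
    have h4 : (∑ v, h v) ^ 2 = 1 := by
      apply mul_left_cancel₀ (pow_ne_zero 2 hpk)
      rw [← mul_pow, ← h3, h2, mul_pow, hs2, one_mul, h1, hk, Nat.add_sub_cancel]
      ring
    exact sq_eq_one_iff.mp h4

omit [Fact p.Prime] in
theorem res_p (hf : Odd f) (hf1 : (p : ZMod N) ^ f = 1) (hp0 : (p : ZMod N) ≠ 0) (j : ℕ) :
    quadraticChar (ZMod N) ((p : ZMod N) ^ j) = 1 := by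
  have h1 : quadraticChar (ZMod N) (p : ZMod N) = 1 := by
    have h2 := congrArg (quadraticChar (ZMod N)) hf1
    rw [map_pow, map_one] at h2
    rcases quadraticChar_dichotomy hp0 with h | h
    · exact h
    · rw [h, hf.neg_one_pow] at h2; norm_num at h2
  rw [map_pow, h1, one_pow]

theorem two_f_le {x y : ℤ} {f : ℕ} (hf3 : 3 ≤ f) (hx : x = 1 ∨ x = -1)
    (h : x + f * y = 1 ∨ x + f * y = -1) : y = 0 := by
  by_contra hy
  have hf3' : (3 : ℤ) ≤ f := by exact_mod_cast hf3
  have h1 : (3 : ℤ) ≤ f * y ∨ (f : ℤ) * y ≤ -3 := by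
    rcases lt_or_gt_of_ne hy with h | h
    · right; nlinarith
    · left; nlinarith
  omega

/-- index 2: necessary conditions -/
theorem e2_fwd (hp : p ≠ 2) (hN : N ≠ 2) (hpN : p ≠ N) (hF : Fintype.card F = p ^ f)
    (hf : Odd f) (hford : f = orderOf (p : ZMod N)) (he : 2 * f = N - 1)
    (hNp : ¬ N ∣ p - 1) (hω : IsPrimitiveRoot ω (Fintype.card F - 1))
    (hd : N ∣ Fintype.card F - 1) {Ω : Type} [NormedField Ω]
    [IsUltrametricDist Ω] [CharZero Ω] [IsAlgClosed Ω] (hpn : ‖(p : Ω)‖ = (p : ℝ)⁻¹)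
    {ζ : Ω} (hζ : IsPrimitiveRoot ζ p) {s : ℤ} (hs : s = 1 ∨ s = -1)
    (h2 : quadraticChar (ZMod N) 2 = -1)
    (hm : ∀ v : ZMod N, (p : ℤ) * mm p N s ω v ^ 2 = p ^ f) :
    ∃ a : ℕ, N + 1 = 4 * p ^ a ∧ (W p N f 1 = a * N ∨ W p N f 1 = -(a * N)) := by
  have hpp := (Fact.out : p.Prime)
  have hNN := (Fact.out : N.Prime)
  have hf1 : (p : ZMod N) ^ f = 1 := by rw [hford]; exact pow_orderOf_eq_one _
  have hpz : (p : ZMod N) ≠ 0 := by
    intro h
    rw [ZMod.natCast_eq_zero_iff] at h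
    exact hpN ((Nat.prime_dvd_prime_iff_eq hNN hpp).1 h).symm
  have hfne : f ≠ 1 := by
    intro h
    rw [h, pow_one] at hf1
    apply hNp
    rw [← ZMod.natCast_eq_zero_iff, Nat.cast_sub hpp.one_le, hf1]
    simp
  have hf3 : 3 ≤ f := by
    obtain ⟨k, hk⟩ := hf
    omega
  have h8 : N % 8 = 3 ∨ N % 8 = 5 := by
    by_contra hc
    have := quadChar_two' hN
    rw [if_neg hc, h2] at this
    norm_num at this
  have h83 : N % 8 = 3 := by
    obtain ⟨k, hk⟩ := hf
    omega
  have hlm : quadraticChar (ZMod N) (-1) = -1 := by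
    rw [quadraticChar_neg_one (by rwa [ZMod.ringChar_zmod_n]), ZMod.card,
      ZMod.χ₄_nat_three_mod_four (by omega)]
  obtain ⟨h, hh, hpm, hfr, hsum⟩ := exists_h hp hN hpN hF hf hf1 hNp hω hd hζ hs hm
  set k := (f - 1) / 2 with hk
  -- `h` on classes
  have hcls : ∀ v : ZMod N, v ≠ 0 → h v + h (-v) = h 1 + h (-1) := by
    intro v hv
    obtain ⟨j, hj | hj⟩ := cls2 hford hf he hv
    · rw [hj, ← mul_neg, inv_pow_of_frob hfr, inv_pow_of_frob hfr]
    · rw [hj, ← mul_neg, inv_pow_of_frob hfr, inv_pow_of_frob hfr, neg_neg, add_comm]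
  have hsum2 : ∑ v, h v = h 0 + f * (h 1 + h (-1)) := by
    have e1 : ∑ v : ZMod N, (h v + h (-v)) = 2 * ∑ v, h v := by
      rw [Finset.sum_add_distrib]
      have : ∑ v : ZMod N, h (-v) = ∑ v, h v := Equiv.sum_comp (Equiv.neg (ZMod N)) h
      rw [this]; ring
    have e2 : ∑ v : ZMod N, (h v + h (-v)) = 2 * h 0 + (N - 1 : ℕ) * (h 1 + h (-1)) := by
      rw [sum_ne_zero_split (fun v => h v + h (-v)),
        Finset.sum_congr rfl fun v hv => hcls v (Finset.ne_of_mem_erase hv), Finset.sum_const,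
        Finset.card_erase_of_mem (mem_univ _), Finset.card_univ, ZMod.card, neg_zero,
        nsmul_eq_mul]
      ring
    rw [e1, ← he] at e2
    push_cast at e2
    linarith
  have hD : h 1 + h (-1) = 0 := by
    rw [hsum2] at hsum
    exact two_f_le hf3 (hpm 0) hsum
  have hodd : ∀ v : ZMod N, v ≠ 0 → h (-v) = -h v := by
    intro v hv
    have := hcls v hv
    linarith
  have hW0 : W p N f (1 : ZMod N) ≠ 0 := by
    rw [W_one_two hN hpz hford hf he h2]
    exact odd_ne hN hf _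
  -- valuations
  obtain ⟨ε, hε, hval⟩ := val_of_odd hp hN hF hf hNp hω hd hpn hζ hs h hh (hpm 0) hodd
  have h1 := (hval 1 one_ne_zero).2
  rw [W_neg hN hpz one_ne_zero, hlm, map_one] at h1
  have hWw : W p N f (1 : ZMod N) = wN p N * N ∨ W p N f (1 : ZMod N) = -(wN p N * N) := by
    rcases hε with rfl | rfl
    · rw [if_pos rfl, if_neg (by norm_num)] at h1
      rcases h1 with h1 | h1
      · right; linarith
      · exfalso; apply hW0; linarith
    · rw [if_neg (by norm_num), if_pos rfl] at h1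
      rcases h1 with h1 | h1
      · exfalso; apply hW0; linarith
      · left; linarith
  -- the identity
  have hmodd : ∀ v : ZMod N, v ≠ 0 → mm p N s ω (-v) = -mm p N s ω v := by
    intro v hv
    rw [hh, hh, hodd v hv]; ring
  have hid : ∀ v : ZMod N, v ≠ 0 →
      2 * (p : ℤ) ^ k * (s * h v - quadraticChar (ZMod N) v * h 0) =
      (1 + N) * (nn p N ω v - nn p N ω (-v)) := by
    intro v hv
    have i1 := mm_inv_nn (p := p) (ω := ω) hN hs v
    have i2 := mm_inv_nn (p := p) (ω := ω) hN hs (-v)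
    have hker := sum_even_kernel (fun u => mm p N s ω u)
      (fun u => quadraticChar (ZMod N) (u - v) - quadraticChar (ZMod N) (u - -v))
      (by
        intro u
        have e1 : quadraticChar (ZMod N) (-u - v) = -quadraticChar (ZMod N) (u - -v) := by
          rw [show -u - v = -1 * (u - -v) by ring, map_mul, hlm]; ring
        have e2 : quadraticChar (ZMod N) (-u - -v) = -quadraticChar (ZMod N) (u - v) := by
          rw [show -u - -v = -1 * (u - v) by ring, map_mul, hlm]; ring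
        rw [e1, e2]; ring) hmodd
    simp only [mul_sub, Finset.sum_sub_distrib] at hker
    have e3 : quadraticChar (ZMod N) (0 - v) = -quadraticChar (ZMod N) v := by
      rw [show (0 : ZMod N) - v = -1 * v by ring, map_mul, hlm]; ring
    have e4 : quadraticChar (ZMod N) (0 - -v) = quadraticChar (ZMod N) v := by
      rw [show (0 : ZMod N) - -v = v by ring]
    rw [e3, e4] at hker
    rw [hlm] at i1 i2
    rw [hmodd v hv] at i2
    have hm0 := hh 0
    have hmv := hh v
    rw [hm0] at hker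
    rw [hmv] at i1 i2
    linear_combination i1 - i2 - hker
  by_cases hcase : s * h 1 = h 0
  · exfalso
    have hpair : ∀ v : ZMod N, v ≠ 0 → s * h v = quadraticChar (ZMod N) v * h 0 := by
      intro v hv
      obtain ⟨j, hj | hj⟩ := cls2 hford hf he hv
      · rw [hj, inv_pow_of_frob hfr, map_mul, res_p hf hf1 hpz, map_one, one_mul, one_mul, hcase]
      · rw [hj, inv_pow_of_frob hfr, map_mul, res_p hf hf1 hpz, hlm, one_mul,
          show h (-1) = -h 1 from hodd 1 one_ne_zero, ← hcase]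
        ring
    have hev : ∀ v : ZMod N, nn p N ω (-v) = nn p N ω v := by
      intro v
      by_cases hv : v = 0
      · rw [hv, neg_zero]
      have h3 := hid v hv
      rw [hpair v hv, sub_self, mul_zero] at h3
      rcases mul_eq_zero.1 h3.symm with h4 | h4
      · have : (0 : ℤ) < 1 + N := by positivity
        exact absurd h4 this.ne'
      · linarith
    exact hW0 (W_zero_of_even hp hN hpN hF hf hNp hω hd hpn hζ hev one_ne_zero)
  · have h3 := hid 1 one_ne_zero
    rw [map_one, one_mul] at h3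
    have h4 : s * h 1 - h 0 = 2 ∨ s * h 1 - h 0 = -2 := by
      rcases hs with rfl | rfl <;> rcases hpm 1 with e1 | e1 <;> rcases hpm 0 with e0 | e0 <;>
        rw [e1, e0] at hcase ⊢ <;> omega
    have h5 : ((N + 1 : ℕ) : ℤ) ∣ ((4 * p ^ k : ℕ) : ℤ) := by
      push_cast
      rcases h4 with h4 | h4
      · rw [h4] at h3
        exact ⟨nn p N ω 1 - nn p N ω (-1), by linear_combination h3⟩
      · rw [h4] at h3
        exact ⟨-(nn p N ω 1 - nn p N ω (-1)), by linear_combination -h3⟩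
    have h6 : N + 1 ∣ 4 * p ^ k := Int.natCast_dvd_natCast.1 h5
    obtain ⟨m, hm4⟩ : ∃ m, N + 1 = 4 * m := ⟨(N + 1) / 4, by omega⟩
    rw [hm4] at h6
    have h7 : m ∣ p ^ k := Nat.dvd_of_mul_dvd_mul_left (by norm_num) h6
    obtain ⟨a, _, ha⟩ := (Nat.dvd_prime_pow hpp).1 h7
    have hwa : wN p N = a := by
      unfold wN
      rw [if_pos (by omega), hm4, ha]
      have h4p : ¬ p ∣ 4 := by
        intro hdv
        have : p ∣ 2 ^ 2 := by norm_num; exact hdv
        have := hpp.dvd_of_dvd_pow this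
        exact hp ((Nat.prime_dvd_prime_iff_eq hpp Nat.prime_two).1 this)
      rw [padicValNat.mul (by norm_num) (pow_ne_zero _ hpp.ne_zero),
        padicValNat.eq_zero_of_not_dvd h4p, padicValNat.prime_pow, zero_add]
    refine ⟨a, by rw [hm4, ha], ?_⟩
    rw [hwa] at hWw
    exact hWw

end

end Pool.Agent.CycU
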