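import Pool.Agent.LibCycU.P5

/-! # Necessary conditions for index 4 -/

set_option autoImplicit false

open Finset

namespace Pool.Agent.CycU

section

variable {p : ℕ} [Fact p.Prime] {F : Type} [Field F] [Fintype F] [DecidableEq F]
  [Algebra (ZMod p) F] {f : ℕ} {ω : F} {N : ℕ} [Fact N.Prime]

/-- index 4: necessary conditions -/
theorem e4_fwd (hp : p ≠ 2) (hN : N ≠ 2) (hpN : p ≠ N) (hF : Fintype.card F = p ^ f)
    (hf : Odd f) (hford : f = orderOf (p : ZMod N)) (he : 4 * f = N - 1)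
    (hNp : ¬ N ∣ p - 1) (hω : IsPrimitiveRoot ω (Fintype.card F - 1))
    (hd : N ∣ Fintype.card F - 1) {Ω : Type} [NormedField Ω]
    [IsUltrametricDist Ω] [CharZero Ω] [IsAlgClosed Ω] (hpn : ‖(p : Ω)‖ = (p : ℝ)⁻¹)
    {ζ : Ω} (hζ : IsPrimitiveRoot ζ p) {s : ℤ} (hs : s = 1 ∨ s = -1)
    (hm : ∀ v : ZMod N, (p : ℤ) * mm p N s ω v ^ 2 = p ^ f) :
    ∃ a : ℕ, N = 4 * p ^ a + 1 ∧
      ((W p N f 1 = 0 ∧ (W p N f 2 = a * N ∨ W p N f 2 = -(a * N))) ∨
       (W p N f 2 = 0 ∧ (W p N f 1 = a * N ∨ W p N f 1 = -(a * N)))) := by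
  have hpp := (Fact.out : p.Prime)
  have hNN := (Fact.out : N.Prime)
  have hf1 : (p : ZMod N) ^ f = 1 := by rw [hford]; exact pow_orderOf_eq_one _
  have hpz : (p : ZMod N) ≠ 0 := by
    intro h
    rw [ZMod.natCast_eq_zero_iff] at h
    exact hpN ((Nat.prime_dvd_prime_iff_eq hNN hpp).1 h).symm
  have hfne : f ≠ 1 := by
    intro h
    rw [h, pow_one] at hf1
    apply hNp
    rw [← ZMod.natCast_eq_zero_iff, Nat.cast_sub hpp.one_le, hf1]
    simp
  have hf3 : 3 ≤ f := by
    obtain ⟨k, hk⟩ := hf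
    omega
  have h85 : N % 8 = 5 := by
    obtain ⟨k, hk⟩ := hf
    omega
  have h2 : quadraticChar (ZMod N) 2 = -1 := by
    rw [quadChar_two' hN, if_pos (Or.inr h85)]
  have hlm : quadraticChar (ZMod N) (-1) = 1 := by
    rw [quadraticChar_neg_one (by rwa [ZMod.ringChar_zmod_n]), ZMod.card,
      ZMod.χ₄_nat_one_mod_four (by omega)]
  have h20 : (2 : ZMod N) ≠ 0 := Ring.two_ne_zero (by rwa [ZMod.ringChar_zmod_n])
  obtain ⟨h, hh, hpm, hfr, hsum⟩ := exists_h hp hN hpN hF hf hf1 hNp hω hd hζ hs hm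
  set k := (f - 1) / 2 with hk
  obtain ⟨j4, hj4⟩ := four_cls4 hN hford hf he h2
  have h4v : h (2 * 2) = h (-1) := by rw [hj4, inv_pow_of_frob hfr]
  have h4v' : h (-(2 * 2)) = h 1 := by
    rw [hj4, ← mul_neg, inv_pow_of_frob hfr, neg_neg]
  -- `h` on classes
  have hcls : ∀ v : ZMod N, v ≠ 0 → h v + h (-v) + h (2 * v) + h (-(2 * v)) =
      h 1 + h (-1) + h 2 + h (-2) := by
    intro v hv
    have key : ∀ (c : ZMod N) (j : ℕ), v = (p : ZMod N) ^ j * c →
        h v + h (-v) + h (2 * v) + h (-(2 * v)) = h c + h (-c) + h (2 * c) + h (-(2 * c)) := by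
      intro c j hj
      rw [hj, ← mul_neg, show (2 : ZMod N) * ((p : ZMod N) ^ j * c) = (p : ZMod N) ^ j * (2 * c) by ring,
        ← mul_neg, inv_pow_of_frob hfr, inv_pow_of_frob hfr, inv_pow_of_frob hfr,
        inv_pow_of_frob hfr]
    obtain ⟨j, (hj | hj) | (hj | hj)⟩ := cls4 hN hford hf he h2 hv
    · rw [key _ j hj, mul_one]
    · rw [key _ j hj, neg_neg, mul_neg, mul_one, neg_neg]; ring
    · rw [key _ j hj, h4v, h4v']; ring
    · rw [key _ j hj, neg_neg, mul_neg, h4v', neg_neg, h4v]; ring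
  have hsum2 : ∑ v, h v = h 0 + f * (h 1 + h (-1) + h 2 + h (-2)) := by
    have e1 : ∑ v : ZMod N, (h v + h (-v) + h (2 * v) + h (-(2 * v))) = 4 * ∑ v, h v := by
      rw [Finset.sum_add_distrib, Finset.sum_add_distrib, Finset.sum_add_distrib]
      have q1 : ∑ v : ZMod N, h (-v) = ∑ v, h v := Equiv.sum_comp (Equiv.neg (ZMod N)) h
      have q2 : ∑ v : ZMod N, h (2 * v) = ∑ v, h v := Equiv.sum_comp (Equiv.mulLeft₀ 2 h20) h
      have q3 : ∑ v : ZMod N, h (-(2 * v)) = ∑ v, h v := by
        rw [← q1]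
        exact Equiv.sum_comp (Equiv.mulLeft₀ 2 h20) (fun v => h (-v))
      rw [q1, q2, q3]; ring
    have e2 : ∑ v : ZMod N, (h v + h (-v) + h (2 * v) + h (-(2 * v))) =
        4 * h 0 + (N - 1 : ℕ) * (h 1 + h (-1) + h 2 + h (-2)) := by
      rw [sum_ne_zero_split (fun v => h v + h (-v) + h (2 * v) + h (-(2 * v))),
        Finset.sum_congr rfl fun v hv => hcls v (Finset.ne_of_mem_erase hv), Finset.sum_const,
        Finset.card_erase_of_mem (mem_univ _), Finset.card_univ, ZMod.card, mul_zero, neg_zero,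
        nsmul_eq_mul]
      ring
    rw [e1, ← he] at e2
    push_cast at e2
    linarith
  have hD : h 1 + h (-1) + h 2 + h (-2) = 0 := by
    rw [hsum2] at hsum
    exact two_f_le hf3 (hpm 0) hsum
  have hWne : W p N f (1 : ZMod N) + W p N f (2 : ZMod N) ≠ 0 := by
    rw [W_one_four hN hpz hford hf he h2]
    exact odd_ne hN hf _
  -- the even pattern is impossible
  by_cases heven : h (-1) = h 1
  · exfalso
    have h22 : h (-2) = h 2 := by
      have := hpm 1
      have := hpm 2
      have := hpm (-2)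
      omega
    have hevh : ∀ v : ZMod N, h (-v) = h v := by
      intro v
      by_cases hv : v = 0
      · rw [hv, neg_zero]
      obtain ⟨j, (hj | hj) | (hj | hj)⟩ := cls4 hN hford hf he h2 hv
      · rw [hj, ← mul_neg, inv_pow_of_frob hfr, inv_pow_of_frob hfr, heven]
      · rw [hj, ← mul_neg, inv_pow_of_frob hfr, inv_pow_of_frob hfr, neg_neg, heven]
      · rw [hj, ← mul_neg, inv_pow_of_frob hfr, inv_pow_of_frob hfr, h22]
      · rw [hj, ← mul_neg, inv_pow_of_frob hfr, inv_pow_of_frob hfr, neg_neg, h22]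
    have hevm : ∀ v : ZMod N, mm p N s ω (-v) = mm p N s ω v := by
      intro v; rw [hh, hh, hevh]
    have hev : ∀ v : ZMod N, nn p N ω (-v) = nn p N ω v := by
      intro v
      have i1 := mm_inv_nn (p := p) (ω := ω) hN hs v
      have i2 := mm_inv_nn (p := p) (ω := ω) hN hs (-v)
      have e1 : ∑ u : ZMod N, mm p N s ω u * quadraticChar (ZMod N) (u - -v) =
          ∑ u : ZMod N, mm p N s ω u * quadraticChar (ZMod N) (u - v) := by
        rw [← Equiv.sum_comp (Equiv.neg (ZMod N))]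
        apply Finset.sum_congr rfl
        intro u _
        rw [Equiv.neg_apply, hevm, show -u - -v = -1 * (u - v) by ring, map_mul, hlm, one_mul]
      rw [e1, hevm v, hlm] at i2
      rw [hlm] at i1
      have h3 : (1 - 1 * (N : ℤ)) * (nn p N ω (-v) - nn p N ω v) = 0 := by
        linear_combination i1 - i2
      rcases mul_eq_zero.1 h3 with h4 | h4
      · have : (1 : ℤ) < N := by exact_mod_cast hNN.one_lt
        exfalso; linarith
      · linarith
    have w1 := W_zero_of_even hp hN hpN hF hf hNp hω hd hpn hζ hev one_ne_zero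
    have w2 := W_zero_of_even hp hN hpN hF hf hNp hω hd hpn hζ hev h20
    apply hWne
    rw [w1, w2, add_zero]
  -- the odd pattern
  have h11 : h (-1) = -h 1 := by
    have := hpm 1
    have := hpm (-1)
    omega
  have h22 : h (-2) = -h 2 := by linarith
  have hodd : ∀ v : ZMod N, v ≠ 0 → h (-v) = -h v := by
    intro v hv
    obtain ⟨j, (hj | hj) | (hj | hj)⟩ := cls4 hN hford hf he h2 hv
    · rw [hj, ← mul_neg, inv_pow_of_frob hfr, inv_pow_of_frob hfr, h11]
    · rw [hj, ← mul_neg, inv_pow_of_frob hfr, inv_pow_of_frob hfr, neg_neg, h11, neg_neg]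
    · rw [hj, ← mul_neg, inv_pow_of_frob hfr, inv_pow_of_frob hfr, h22]
    · rw [hj, ← mul_neg, inv_pow_of_frob hfr, inv_pow_of_frob hfr, neg_neg, h22, neg_neg]
  obtain ⟨ε, hε, hval⟩ := val_of_odd hp hN hF hf hNp hω hd hpn hζ hs h hh (hpm 0) hodd
  have a1 := hval 1 one_ne_zero
  have a1' := hval (-1) (neg_ne_zero.2 one_ne_zero)
  have a2 := hval 2 h20
  have a2' := hval (-2) (neg_ne_zero.2 h20)
  have hl2 : quadraticChar (ZMod N) (-2) = -1 := by
    rw [show (-2 : ZMod N) = -1 * 2 by ring, map_mul, hlm, h2]; norm_num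
  rw [neg_neg] at a1' a2'
  rw [W_neg hN hpz one_ne_zero, hlm, map_one] at a1 a1'
  rw [W_neg hN hpz h20, hl2, h2] at a2 a2'
  have hWw : (W p N f 1 = 0 ∧ (W p N f 2 = wN p N * N ∨ W p N f 2 = -(wN p N * N))) ∨
       (W p N f 2 = 0 ∧ (W p N f 1 = wN p N * N ∨ W p N f 1 = -(wN p N * N))) := by
    rcases hε with rfl | rfl
    · right
      simp only [if_pos] at a1 a1'
      rw [if_neg (by norm_num)] at a2 a2'
      refine ⟨by linarith [a2.1, a2'.1], ?_⟩
      rcases a1.2 with h3 | h3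
      · right; linarith
      · left; linarith
    · left
      rw [if_neg (by norm_num)] at a1 a1'
      simp only [if_pos] at a2 a2'
      refine ⟨by linarith [a1.1, a1'.1], ?_⟩
      rcases a2.2 with h3 | h3
      · right; linarith
      · left; linarith
  -- the identity
  have hmodd : ∀ v : ZMod N, v ≠ 0 → mm p N s ω (-v) = -mm p N s ω v := by
    intro v hv
    rw [hh, hh, hodd v hv]; ring
  have hS : ∑ u : ZMod N, nn p N ω u = s * mm p N s ω 0 := by
    have e1 := sum_mm (p := p) (ω := ω) hN s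
    have e2 : ∑ v : ZMod N, mm p N s ω v = mm p N s ω 0 := by
      have : ∑ v : ZMod N, mm p N s ω v = (p : ℤ) ^ k * ∑ v, h v := by
        rw [Finset.mul_sum]
        exact Finset.sum_congr rfl fun v _ => hh v
      rw [this, hsum2, hD, hh]; ring
    rw [e2] at e1
    have hs2 : s ^ 2 = 1 := by rcases hs with rfl | rfl <;> norm_num
    linear_combination (-s) * e1 - (∑ u : ZMod N, nn p N ω u) * hs2
  have hid : ∀ v : ZMod N, v ≠ 0 →
      2 * (p : ℤ) ^ k * (h 0 * (quadraticChar (ZMod N) v - s)) =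
      (1 - N) * (nn p N ω v + nn p N ω (-v)) := by
    intro v hv
    have i1 := mm_inv_nn (p := p) (ω := ω) hN hs v
    have i2 := mm_inv_nn (p := p) (ω := ω) hN hs (-v)
    have hker := sum_even_kernel (fun u => mm p N s ω u)
      (fun u => quadraticChar (ZMod N) (u - v) + quadraticChar (ZMod N) (u - -v))
      (by
        intro u
        have e1 : quadraticChar (ZMod N) (-u - v) = quadraticChar (ZMod N) (u - -v) := by
          rw [show -u - v = -1 * (u - -v) by ring, map_mul, hlm]; ring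
        have e2 : quadraticChar (ZMod N) (-u - -v) = quadraticChar (ZMod N) (u - v) := by
          rw [show -u - -v = -1 * (u - v) by ring, map_mul, hlm]; ring
        rw [e1, e2]; ring) hmodd
    simp only [mul_add, Finset.sum_add_distrib] at hker
    have e3 : quadraticChar (ZMod N) (0 - v) = quadraticChar (ZMod N) v := by
      rw [show (0 : ZMod N) - v = -1 * v by ring, map_mul, hlm]; ring
    have e4 : quadraticChar (ZMod N) (0 - -v) = quadraticChar (ZMod N) v := by
      rw [show (0 : ZMod N) - -v = v by ring]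
    rw [e3, e4] at hker
    rw [hlm, hS] at i1 i2
    rw [hmodd v hv] at i2
    have hm0 := hh 0
    rw [hm0] at hker i1 i2
    linear_combination i1 + i2 - hker
  have h4dvd : ((N : ℤ) - 1) ∣ 4 * (p : ℤ) ^ k := by
    rcases hs with rfl | rfl
    · have h3 := hid 2 h20
      rw [h2] at h3
      rcases hpm 0 with h0 | h0
      · rw [h0] at h3
        exact ⟨nn p N ω 2 + nn p N ω (-2), by linear_combination -h3⟩
      · rw [h0] at h3
        exact ⟨-(nn p N ω 2 + nn p N ω (-2)), by linear_combination h3⟩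
    · have h3 := hid 1 one_ne_zero
      rw [map_one] at h3
      rcases hpm 0 with h0 | h0
      · rw [h0] at h3
        exact ⟨-(nn p N ω 1 + nn p N ω (-1)), by linear_combination h3⟩
      · rw [h0] at h3
        exact ⟨nn p N ω 1 + nn p N ω (-1), by linear_combination -h3⟩
  have hN1 : ((N : ℤ) - 1) = ((4 * f : ℕ) : ℤ) := by
    rw [he, Nat.cast_sub hNN.one_le]; push_cast; ring
  rw [hN1] at h4dvd
  have h6 : 4 * f ∣ 4 * p ^ k := by exact_mod_cast h4dvd
  have h7 : f ∣ p ^ k := Nat.dvd_of_mul_dvd_mul_left (by norm_num) h6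
  obtain ⟨a, _, ha⟩ := (Nat.dvd_prime_pow hpp).1 h7
  have hwa : wN p N = a := by
    unfold wN
    rw [if_neg (by omega), ← he, ha]
    have h4p : ¬ p ∣ 4 := by
      intro hdv
      have : p ∣ 2 ^ 2 := by norm_num; exact hdv
      have := hpp.dvd_of_dvd_pow this
      exact hp ((Nat.prime_dvd_prime_iff_eq hpp Nat.prime_two).1 this)
    rw [padicValNat.mul (by norm_num) (pow_ne_zero _ hpp.ne_zero),
      padicValNat.eq_zero_of_not_dvd h4p, padicValNat.prime_pow, zero_add]
  refine ⟨a, by rw [← ha]; have := hNN.one_lt; omega, ?_⟩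
  rw [hwa] at hWw
  exact hWw

end

end Pool.Agent.CycU
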