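import Pool.Agent.LibCycU.O10
import Pool.Agent.LibCycU.P6
import Pool.Agent.LibCycU.P4

/-! # The explicit answers for index 2 and index 4 -/

set_option autoImplicit false

open Finset

namespace Pool.Agent.CycU

/-- `b` is the least value of `L(s)/N`, `s ≠ 0` -/
def IsB (p N f b : ℕ) : Prop :=
  (∀ s : ZMod N, s ≠ 0 → N * b ≤ L p N f s) ∧ ∃ s : ZMod N, s ≠ 0 ∧ L p N f s = N * b

section arith

variable {p N f : ℕ} [Fact p.Prime] [Fact N.Prime]

theorem four_not_dvd (hp : p ≠ 2) : ¬ p ∣ 4 := by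
  have hpp := (Fact.out : p.Prime)
  intro hdv
  have : p ∣ 2 ^ 2 := by norm_num; exact hdv
  have := hpp.dvd_of_dvd_pow this
  exact hp ((Nat.prime_dvd_prime_iff_eq hpp Nat.prime_two).1 this)

theorem val_four_pow (hp : p ≠ 2) (a : ℕ) : padicValNat p (4 * p ^ a) = a := by
  have hpp := (Fact.out : p.Prime)
  rw [padicValNat.mul (by norm_num) (pow_ne_zero _ hpp.ne_zero),
    padicValNat.eq_zero_of_not_dvd (four_not_dvd hp), padicValNat.prime_pow, zero_add]

omit [Fact p.Prime] in
theorem W_pow (hN : N ≠ 2) (hf1 : (p : ZMod N) ^ f = 1) (j : ℕ) (s : ZMod N) :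
    W p N f ((p : ZMod N) ^ j * s) = W p N f s :=
  inv_pow_of_frob (φ := fun v => W p N f v) (fun v => W_frob hN hf1 v) j s

end arith

section

variable {p N f : ℕ} [Fact p.Prime] [Fact N.Prime]

/-- the criterion gives `m`-data; necessary direction packaged -/
theorem adm_data (hp : p ≠ 2) (hN : N ≠ 2) (hpN : p ≠ N) (hf : f = orderOf (p : ZMod N))
    (hfo : Odd f) {F : Type} [Field F] [Fintype F] [DecidableEq F] [Algebra (ZMod p) F]
    (hF : Fintype.card F = p ^ f)
    (Q : Subgroup (ZMod (2 * N))ˣ) (hQ : Q.index = 2) {ω : F}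
    (hω : IsPrimitiveRoot ω (Fintype.card F - 1))
    {Ω : Type} [Field Ω] [CharZero Ω] {ζ : Ω} (hζ : IsPrimitiveRoot ζ p)
    (hA : Admissible (DD N Q ω 0) ∨ Admissible (DD N Q ω (N : ZMod (2 * N)))) :
    N ∣ Fintype.card F - 1 ∧ ¬ N ∣ p - 1 ∧ quadraticChar (ZMod N) 2 = -1 ∧
      ∃ s : ℤ, (s = 1 ∨ s = -1) ∧ ∀ v : ZMod N, (p : ℤ) * mm p N s ω v ^ 2 = p ^ f := by
  have hpp := (Fact.out : p.Prime)
  have hNN := (Fact.out : N.Prime)
  have hpodd : Odd p := hpp.odd_of_ne_two hp
  have hNd : N ∣ p ^ f - 1 := by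
    have h1 : ((p ^ f - 1 : ℕ) : ZMod N) = 0 := by
      rw [Nat.cast_sub (Nat.one_le_pow _ _ hpp.pos)]
      push_cast
      rw [hf, pow_orderOf_eq_one]
      ring
    exact (ZMod.natCast_eq_zero_iff _ _).1 h1
  have h2d : 2 ∣ p ^ f - 1 := by
    obtain ⟨k, hk⟩ := (hpodd.pow : Odd (p ^ f))
    exact ⟨k, by omega⟩
  have hd : 2 * N ∣ Fintype.card F - 1 := by
    rw [hF]
    exact Nat.Coprime.mul_dvd_of_dvd_of_dvd
      ((Nat.coprime_primes Nat.prime_two hNN).mpr (Ne.symm hN)) h2d hNd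
  have hb1 : base N 1 = 0 := by unfold base; simp
  have hb2 : base N (-1) = (N : ZMod (2 * N)) := by unfold base; simp
  have hf1 : f ≠ 1 := by
    rintro rfl
    have hF1 : Fintype.card F = p := by rw [hF, pow_one]
    have n1 := one_case hp hN hF1 hω hd Q hQ (s := 1) (Or.inl rfl) hζ
    have n2 := one_case hp hN hF1 hω hd Q hQ (s := -1) (Or.inr rfl) hζ
    rw [hb1] at n1
    rw [hb2] at n2
    rcases hA with h | h
    · exact n1 h
    · exact n2 h
  have hNp : ¬ N ∣ p - 1 := by
    intro hdv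
    apply hf1
    rw [hf, orderOf_eq_one_iff]
    have h1 : ((p - 1 : ℕ) : ZMod N) = 0 := (ZMod.natCast_eq_zero_iff _ _).2 hdv
    rw [Nat.cast_sub hpp.one_le] at h1
    push_cast at h1
    exact sub_eq_zero.1 h1
  have h2 : quadraticChar (ZMod N) 2 = -1 := by
    rw [quadChar_two hN]
    by_contra hc
    have h8 : ¬ (N % 8 = 3 ∨ N % 8 = 5) := by
      intro h
      apply hc
      rw [if_pos h]
    have h2' : quadraticChar (ZMod N) 2 = 1 := by rw [quadChar_two hN, if_neg h8]
    have n1 := res_case hp hN hF hfo hNp hω hd Q hQ (s := 1) (Or.inl rfl) h2' hζ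
    have n2 := res_case hp hN hF hfo hNp hω hd Q hQ (s := -1) (Or.inr rfl) h2' hζ
    rw [hb1] at n1
    rw [hb2] at n2
    rcases hA with h | h
    · exact n1 h
    · exact n2 h
  refine ⟨(dvd_mul_left N 2).trans hd, hNp, h2, ?_⟩
  rcases hA with h | h
  · rw [← hb1] at h
    exact ⟨1, Or.inl rfl,
      (adm_iff_m hp hN hF hfo hNp hω hd Q hQ (s := 1) (Or.inl rfl) h2 hζ).1 h⟩
  · rw [← hb2] at h
    exact ⟨-1, Or.inr rfl,
      (adm_iff_m hp hN hF hfo hNp hω hd Q hQ (s := -1) (Or.inr rfl) h2 hζ).1 h⟩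

theorem charP_of_card {F : Type} [Field F] [Fintype F] (hF : Fintype.card F = p ^ f) :
    CharP F p := by
  have hpp := (Fact.out : p.Prime)
  obtain ⟨r, hr⟩ := CharP.exists F
  have hrp : r.Prime := CharP.char_is_prime F r
  obtain ⟨n, _, hn⟩ := FiniteField.card F r
  have h1 : r ∣ p ^ f := by
    rw [← hF, hn]
    exact dvd_pow_self r n.pos.ne'
  have h2 := (Nat.prime_dvd_prime_iff_eq hrp hpp).1 (hrp.dvd_of_dvd_pow h1)
  subst h2
  exact hr

theorem norm_p_alg (p : ℕ) [Fact p.Prime] : ‖(p : PadicAlgCl p)‖ = (p : ℝ)⁻¹ := by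
  have := PadicAlgCl.norm_extends p (p : ℚ_[p])
  rw [Padic.norm_p] at this
  rw [← this]
  congr 1

/-- index 2 -/
theorem adm_e2 (hp : p ≠ 2) (hN : N ≠ 2) (hpN : p ≠ N) (hf : f = orderOf (p : ZMod N))
    (hfo : Odd f) (he : 2 * f = N - 1) {F : Type} [Field F] [Fintype F]
    (hF : Fintype.card F = p ^ f)
    (Q : Subgroup (ZMod (2 * N))ˣ) (hQ : Q.index = 2) {ω : F}
    (hω : IsPrimitiveRoot ω (p ^ f - 1)) {b : ℕ} (hb : IsB p N f b) :
    (Admissible (DD N Q ω 0) ∨ Admissible (DD N Q ω (N : ZMod (2 * N)))) ↔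
      N + 1 = 4 * p ^ (f - 2 * b) := by
  classical
  have hpp := (Fact.out : p.Prime)
  have hNN := (Fact.out : N.Prime)
  have hN0 : 0 < N := hNN.pos
  have hf1 : (p : ZMod N) ^ f = 1 := by rw [hf]; exact pow_orderOf_eq_one _
  have hpz : (p : ZMod N) ≠ 0 := by
    intro h
    rw [ZMod.natCast_eq_zero_iff] at h
    exact hpN ((Nat.prime_dvd_prime_iff_eq hNN hpp).1 h).symm
  have hNodd : N % 2 = 1 := (Nat.Prime.eq_two_or_odd hNN).resolve_left hN
  obtain ⟨hb1, s0, hs0, hLs⟩ := hb
  have hLn := L_neg (p := p) (f := f) hpz (one_ne_zero (α := ZMod N))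
  -- `b` in terms of `L 1`
  have hbL : L p N f (1 : ZMod N) = N * b ∨ L p N f (-1 : ZMod N) = N * b := by
    obtain ⟨j, hj | hj⟩ := cls2 hf hfo he hs0
    · left; rw [hj, L_pow hf1] at hLs; exact hLs
    · right; rw [hj, L_pow hf1] at hLs; exact hLs
  have h2b : 2 * b ≤ f := by
    have h1 := hb1 1 one_ne_zero
    have h2 := hb1 (-1) (neg_ne_zero.2 one_ne_zero)
    have h3 : N * (2 * b) ≤ N * f := by nlinarith
    exact Nat.le_of_mul_le_mul_left h3 hN0
  obtain ⟨w, hw⟩ : ∃ w, f = 2 * b + w := ⟨f - 2 * b, by omega⟩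
  have hfw : f - 2 * b = w := by omega
  rw [hfw]
  have hw0 : w ≠ 0 := by
    intro h
    rw [h] at hw
    obtain ⟨k, hk⟩ := hfo
    omega
  have hWval : quadraticChar (ZMod N) 2 = -1 →
      (W p N f (1 : ZMod N) = w * N ∨ W p N f (1 : ZMod N) = -(w * N)) := by
    intro h2
    rw [W_one_two hN hpz hf hfo he h2]
    have hLn' : (L p N f (-1 : ZMod N) : ℤ) + L p N f (1 : ZMod N) = f * N := by exact_mod_cast hLn
    have hfz : (f : ℤ) = 2 * b + w := by exact_mod_cast hw
    rcases hbL with h | h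
    · left
      have : (L p N f (1 : ZMod N) : ℤ) = N * b := by exact_mod_cast h
      rw [this, hfz]; ring
    · right
      have : (L p N f (-1 : ZMod N) : ℤ) = N * b := by exact_mod_cast h
      rw [this] at hLn'
      have h3 : (L p N f (1 : ZMod N) : ℤ) = f * N - N * b := by linarith
      rw [h3, hfz]; ring
  constructor
  · intro hA
    have hchar : CharP F p := charP_of_card hF
    let _ : Algebra (ZMod p) F := ZMod.algebra F p
    have hω' : IsPrimitiveRoot ω (Fintype.card F - 1) := by rw [hF]; exact hω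
    have hpn := norm_p_alg p
    have hpne : NeZero ((p : ℕ) : PadicAlgCl p) := ⟨by exact_mod_cast hpp.ne_zero⟩
    obtain ⟨ζ, hζ⟩ := HasEnoughRootsOfUnity.exists_primitiveRoot (PadicAlgCl p) p
    obtain ⟨hNd, hNp, h2, s, hs, hm⟩ := adm_data hp hN hpN hf hfo hF Q hQ hω' hζ hA
    obtain ⟨a, ha1, ha2⟩ := e2_fwd hp hN hpN hF hfo hf he hNp hω' hNd hpn hζ hs h2 hm
    have h3 := hWval h2
    have hNz : (0 : ℤ) < N := by exact_mod_cast hN0
    have haw : a = w := by
      have h5 : (a : ℤ) * N = w * N ∨ (a : ℤ) * N = -(w * N) := by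
        rcases ha2 with h | h <;> rcases h3 with h' | h' <;> rw [h] at h'
        · left; exact h'
        · right; exact h'
        · right; linarith
        · left; linarith
      rcases h5 with h | h
      · exact_mod_cast mul_right_cancel₀ hNz.ne' h
      · exfalso
        have h6 : (a : ℤ) * N = (-w) * N := by linarith
        have h7 := mul_right_cancel₀ hNz.ne' h6
        omega
    rw [ha1, haw]
  · intro hN4
    have h83 : N % 8 = 3 := by
      have hpo : Odd (p ^ w) := (hpp.odd_of_ne_two hp).pow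
      obtain ⟨k, hk⟩ := hpo
      omega
    have h2 : quadraticChar (ZMod N) 2 = -1 := by rw [quadChar_two hN, if_pos (Or.inl h83)]
    have hlm : quadraticChar (ZMod N) (-1) = -1 := by
      rw [quadraticChar_neg_one (by rwa [ZMod.ringChar_zmod_n]), ZMod.card,
        ZMod.χ₄_nat_three_mod_four (by omega)]
    have hwN : wN p N = w := by
      unfold wN
      rw [if_pos (by omega), hN4, val_four_pow hp]
    rw [main_crit hp hN hpN hf hF Q hQ hω]
    right
    refine ⟨hfo, Or.inl h83, ?_⟩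
    have hNz : (0 : ℤ) < N := by exact_mod_cast hN0
    have hwz : (0 : ℤ) ≤ w * N := by positivity
    have hres : ∀ j : ℕ, quadraticChar (ZMod N) ((p : ZMod N) ^ j) = 1 := res_p hfo hf1 hpz
    rcases hWval h2 with h | h
    · right
      intro u hu
      rw [hwN]
      obtain ⟨j, hj | hj⟩ := cls2 hf hfo he hu
      · rw [hj, map_mul, hres, map_one, if_neg (by norm_num), W_pow hN hf1, h]
        exact hwz
      · rw [hj, map_mul, hres, hlm, if_pos (by norm_num), W_pow hN hf1,
          W_neg hN hpz one_ne_zero, h]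
    · left
      intro u hu
      rw [hwN]
      obtain ⟨j, hj | hj⟩ := cls2 hf hfo he hu
      · rw [hj, map_mul, hres, map_one, if_pos (by norm_num), W_pow hN hf1, h]
      · rw [hj, map_mul, hres, hlm, if_neg (by norm_num), W_pow hN hf1,
          W_neg hN hpz one_ne_zero, h, neg_neg]
        exact hwz

/-- index 4 -/
theorem adm_e4 (hp : p ≠ 2) (hN : N ≠ 2) (hpN : p ≠ N) (hf : f = orderOf (p : ZMod N))
    (hfo : Odd f) (he : 4 * f = N - 1) {F : Type} [Field F] [Fintype F]
    (hF : Fintype.card F = p ^ f)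
    (Q : Subgroup (ZMod (2 * N))ˣ) (hQ : Q.index = 2) {ω : F}
    (hω : IsPrimitiveRoot ω (p ^ f - 1)) {b : ℕ} (hb : IsB p N f b) :
    (Admissible (DD N Q ω 0) ∨ Admissible (DD N Q ω (N : ZMod (2 * N)))) ↔
      N = 4 * p ^ (f - 2 * b) + 1 := by
  classical
  have hpp := (Fact.out : p.Prime)
  have hNN := (Fact.out : N.Prime)
  have hN0 : 0 < N := hNN.pos
  have hNz : (0 : ℤ) < N := by exact_mod_cast hN0
  have hf1 : (p : ZMod N) ^ f = 1 := by rw [hf]; exact pow_orderOf_eq_one _
  have hpz : (p : ZMod N) ≠ 0 := by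
    intro h
    rw [ZMod.natCast_eq_zero_iff] at h
    exact hpN ((Nat.prime_dvd_prime_iff_eq hNN hpp).1 h).symm
  have h20 : (2 : ZMod N) ≠ 0 := Ring.two_ne_zero (by rwa [ZMod.ringChar_zmod_n])
  have h85 : N % 8 = 5 := by
    obtain ⟨k, hk⟩ := hfo
    have := hNN.one_lt
    omega
  have h2 : quadraticChar (ZMod N) 2 = -1 := by rw [quadChar_two hN, if_pos (Or.inr h85)]
  have hlm : quadraticChar (ZMod N) (-1) = 1 := by
    rw [quadraticChar_neg_one (by rwa [ZMod.ringChar_zmod_n]), ZMod.card,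
      ZMod.χ₄_nat_one_mod_four (by omega)]
  have hl2 : quadraticChar (ZMod N) (-2) = -1 := by
    rw [show (-2 : ZMod N) = -1 * 2 by ring, map_mul, hlm, h2]; norm_num
  have hLn1 := L_neg (p := p) (f := f) hpz (one_ne_zero (α := ZMod N))
  have hLn2 := L_neg (p := p) (f := f) hpz h20
  have hLn1' : (L p N f (-1 : ZMod N) : ℤ) + L p N f (1 : ZMod N) = f * N := by exact_mod_cast hLn1
  have hLn2' : (L p N f (-2 : ZMod N) : ℤ) + L p N f (2 : ZMod N) = f * N := by exact_mod_cast hLn2
  have hW1 : W p N f (1 : ZMod N) = (L p N f (2 : ZMod N) : ℤ) - L p N f (1 : ZMod N) := by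
    have := W_eq_L (p := p) (f := f) hN (1 : ZMod N)
    rwa [mul_one] at this
  have hW12 := W_one_four (p := p) hN hpz hf hfo he h2
  have hb0 := hb
  obtain ⟨hb1, s0, hs0, hLs⟩ := hb
  constructor
  · intro hA
    have hchar : CharP F p := charP_of_card hF
    let _ : Algebra (ZMod p) F := ZMod.algebra F p
    have hω' : IsPrimitiveRoot ω (Fintype.card F - 1) := by rw [hF]; exact hω
    have hpn := norm_p_alg p
    have hpne : NeZero ((p : ℕ) : PadicAlgCl p) := ⟨by exact_mod_cast hpp.ne_zero⟩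
    obtain ⟨ζ, hζ⟩ := HasEnoughRootsOfUnity.exists_primitiveRoot (PadicAlgCl p) p
    obtain ⟨hNd, hNp, _, s, hs, hm⟩ := adm_data hp hN hpN hf hfo hF Q hQ hω' hζ hA
    obtain ⟨a, ha1, ha2⟩ := e4_fwd hp hN hpN hF hfo hf he hNp hω' hNd hpn hζ hs hm
    -- all values of `L` are `x` or `f N - x`
    set x : ℤ := (L p N f (1 : ZMod N) : ℤ) with hx
    have hval : ∀ s : ZMod N, s ≠ 0 → ((L p N f s : ℤ) = x ∨ (L p N f s : ℤ) = f * N - x) := by
      have hL2 : (L p N f (2 : ZMod N) : ℤ) = x ∨ (L p N f (2 : ZMod N) : ℤ) = f * N - x := by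
        rcases ha2 with ⟨h, _⟩ | ⟨h, _⟩
        · left; linarith
        · right; linarith
      intro s hs
      obtain ⟨j, (hj | hj) | (hj | hj)⟩ := cls4 hN hf hfo he h2 hs
      · left; rw [hj, L_pow hf1]
      · right; rw [hj, L_pow hf1]; linarith
      · rw [hj, L_pow hf1]; exact hL2
      · rw [hj, L_pow hf1]
        rcases hL2 with h | h
        · right; linarith
        · left; linarith
    have hdiff : (f : ℤ) * N - 2 * x = a * N ∨ (f : ℤ) * N - 2 * x = -(a * N) := by
      rcases ha2 with ⟨h, h' | h'⟩ | ⟨h, h' | h'⟩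
      · left; linarith
      · right; linarith
      · left; linarith
      · right; linarith
    have hNb : ((N * b : ℕ) : ℤ) = x ∨ ((N * b : ℕ) : ℤ) = f * N - x := by
      rw [← hLs]; exact hval s0 hs0
    have hle1 : ((N * b : ℕ) : ℤ) ≤ x := by
      rw [hx]
      exact_mod_cast hb1 1 one_ne_zero
    have hle2 : ((N * b : ℕ) : ℤ) ≤ f * N - x := by
      have := hb1 (-1) (neg_ne_zero.2 one_ne_zero)
      have h3 : ((N * b : ℕ) : ℤ) ≤ (L p N f (-1 : ZMod N) : ℤ) := by exact_mod_cast this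
      linarith
    have hkey : ((f : ℤ) - 2 * b) * N = a * N := by
      push_cast at hNb hle1 hle2
      have haN : (0 : ℤ) ≤ a * N := by positivity
      have e : ((f : ℤ) - 2 * b) * N = f * N - 2 * (N * b) := by ring
      rw [e]
      rcases hNb with h | h <;> rcases hdiff with h' | h' <;> linarith
    have h5 := mul_right_cancel₀ hNz.ne' hkey
    have h6 : f - 2 * b = a := by omega
    rw [h6]
    exact ha1
  · intro hN4
    obtain ⟨_, hvals⟩ := e4_back hp hN hpN hf hfo he hb1 ⟨s0, hs0, hLs⟩ hN4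
    set w := f - 2 * b with hw
    have hwN : wN p N = w := by
      unfold wN
      rw [if_neg (by omega)]
      have : N - 1 = 4 * p ^ w := by omega
      rw [this, val_four_pow hp]
    have h2b : 2 * b ≤ f := by
      have h1 := hb1 1 one_ne_zero
      have h2 := hb1 (-1) (neg_ne_zero.2 one_ne_zero)
      have h3 : N * (2 * b) ≤ N * f := by nlinarith
      exact Nat.le_of_mul_le_mul_left h3 hN0
    have hfw : (f : ℤ) = 2 * b + w := by
      have : f = 2 * b + w := by omega
      exact_mod_cast this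
    have hv1 : (L p N f (1 : ZMod N) : ℤ) = N * b ∨ (L p N f (1 : ZMod N) : ℤ) + N * b = N * f := by
      have := hvals 1 one_ne_zero
      exact_mod_cast this
    have hv2 : (L p N f (2 : ZMod N) : ℤ) = N * b ∨ (L p N f (2 : ZMod N) : ℤ) + N * b = N * f := by
      have := hvals 2 h20
      exact_mod_cast this
    have hwz : (0 : ℤ) ≤ w * N := by positivity
    have hW : (W p N f (1 : ZMod N) = 0 ∧ -(w * N : ℤ) ≤ W p N f (2 : ZMod N) ∧
          W p N f (2 : ZMod N) ≤ w * N) ∨
        (W p N f (2 : ZMod N) = 0 ∧ -(w * N : ℤ) ≤ W p N f (1 : ZMod N) ∧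
          W p N f (1 : ZMod N) ≤ w * N) := by
      have q1 : (f : ℤ) * N = 2 * (N * b) + w * N := by rw [hfw]; ring
      have q2 : (N : ℤ) * f = 2 * (N * b) + w * N := by rw [hfw]; ring
      rw [q2] at hv1 hv2
      rw [q1] at hW12
      rcases hv1 with h | h <;> rcases hv2 with h' | h'
      · left
        refine ⟨by linarith, ?_, ?_⟩ <;> linarith
      · right
        refine ⟨by linarith, ?_, ?_⟩ <;> linarith
      · right
        refine ⟨by linarith, ?_, ?_⟩ <;> linarith
      · left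
        refine ⟨by linarith, ?_, ?_⟩ <;> linarith
    have hres : ∀ j : ℕ, quadraticChar (ZMod N) ((p : ZMod N) ^ j) = 1 := res_p hfo hf1 hpz
    rw [main_crit hp hN hpN hf hF Q hQ hω]
    right
    refine ⟨hfo, Or.inr h85, ?_⟩
    rcases hW with ⟨e1, e2, e3⟩ | ⟨e1, e2, e3⟩
    · right
      intro u hu
      rw [hwN]
      obtain ⟨j, (hj | hj) | (hj | hj)⟩ := cls4 hN hf hfo he h2 hu
      · rw [hj, map_mul, hres, map_one, if_neg (by norm_num), W_pow hN hf1, e1]
      · rw [hj, map_mul, hres, hlm, if_neg (by norm_num), W_pow hN hf1,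
          W_neg hN hpz one_ne_zero, e1, neg_zero]
      · rw [hj, map_mul, hres, h2, if_pos (by norm_num), W_pow hN hf1]
        exact e2
      · rw [hj, map_mul, hres, hl2, if_pos (by norm_num), W_pow hN hf1, W_neg hN hpz h20]
        linarith
    · left
      intro u hu
      rw [hwN]
      obtain ⟨j, (hj | hj) | (hj | hj)⟩ := cls4 hN hf hfo he h2 hu
      · rw [hj, map_mul, hres, map_one, if_pos (by norm_num), W_pow hN hf1]
        exact e2
      · rw [hj, map_mul, hres, hlm, if_pos (by norm_num), W_pow hN hf1,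
          W_neg hN hpz one_ne_zero]
        linarith
      · rw [hj, map_mul, hres, h2, if_neg (by norm_num), W_pow hN hf1, e1]
      · rw [hj, map_mul, hres, hl2, if_neg (by norm_num), W_pow hN hf1, W_neg hN hpz h20, e1,
          neg_zero]

end

end Pool.Agent.CycU
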