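import Pool.Agent.LibCycU.P7

/-! # Existence lemmas for the final statement -/

set_option autoImplicit false

open Finset

namespace Pool.Agent.CycU

/-- a subgroup of index two exists -/
theorem exists_Q {N : ℕ} [Fact N.Prime] (hN : N ≠ 2) :
    ∃ Q : Subgroup (ZMod (2 * N))ˣ, Q.index = 2 := by
  classical
  have hch : ringChar (ZMod N) ≠ 2 := by rwa [ZMod.ringChar_zmod_n]
  set φ : (ZMod (2 * N))ˣ →* ℤˣ :=
    (MulChar.toUnitHom (quadraticChar (ZMod N))).comp
      (Units.map (ZMod.castHom (dvd_mul_left N 2) (ZMod N)).toMonoidHom) with hφ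
  refine ⟨φ.ker, ?_⟩
  rw [Subgroup.index_ker]
  have hsurj : Function.Surjective φ := by
    intro x
    have hx : ∃ r : ZMod N, r ≠ 0 ∧ quadraticChar (ZMod N) r = (x : ℤ) := by
      rcases Int.units_eq_one_or x with rfl | rfl
      · exact ⟨1, one_ne_zero, by simp⟩
      · obtain ⟨a, ha⟩ := quadraticChar_exists_neg_one hch
        refine ⟨a, ?_, by simpa using ha⟩
        intro h0; rw [h0] at ha; simp at ha
    obtain ⟨r, hr, hr2⟩ := hx
    obtain ⟨u, hu, _⟩ := exists_unit hN hr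
    refine ⟨u, ?_⟩
    apply Units.ext
    rw [← hr2, ← hu]
    rfl
  rw [MonoidHom.range_eq_top.2 hsurj]
  simp

theorem exists_B {p N f : ℕ} [Fact p.Prime] [Fact N.Prime] (hf : f = orderOf (p : ZMod N))
    (hf1 : f ≠ 1) : ∃ b, IsB p N f b := by
  classical
  have hNN := (Fact.out : N.Prime)
  have hpow : (p : ZMod N) ^ f = 1 := by rw [hf]; exact pow_orderOf_eq_one _
  have hp1 : (p : ZMod N) ≠ 1 := by
    intro h
    apply hf1
    rw [hf, h, orderOf_one]
  obtain ⟨s, hs, hmin⟩ := Finset.exists_min_image (univ.erase (0 : ZMod N)) (fun s => L p N f s)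
    ⟨1, by simp⟩
  obtain ⟨b, hb⟩ := N_dvd_L (f := f) hpow hp1 s
  refine ⟨b, ?_, s, Finset.ne_of_mem_erase hs, hb⟩
  intro t ht
  rw [← hb]
  exact hmin t (Finset.mem_erase.2 ⟨ht, mem_univ _⟩)

theorem A_mod_four {A : ℤ} (h : Odd A) : A % 4 = 3 ∨ (-A) % 4 = 3 := by
  obtain ⟨k, hk⟩ := h
  omega

end Pool.Agent.CycU
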