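import Pool.Agent.LibCycU.P8

/-! # A necessary condition for every index -/

set_option autoImplicit false

open Finset

namespace Pool.Agent.CycU

/-- the sum over nonzero residues of a function invariant under `v ↦ p v` is divisible by `f` -/
theorem dvd_sum_ne_zero {p N f : ℕ} [Fact N.Prime] (hf : f = orderOf (p : ZMod N))
    (hp0 : (p : ZMod N) ≠ 0) (g : ZMod N → ℤ) (hg : ∀ v, g (p * v) = g v) :
    (f : ℤ) ∣ ∑ v ∈ univ.erase (0 : ZMod N), g v := by
  classical
  set P : (ZMod N)ˣ := Units.mk0 (p : ZMod N) hp0 with hP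
  have hPord : orderOf P = f := by
    rw [hf, ← orderOf_units, hP, Units.val_mk0]
  set H : Subgroup (ZMod N)ˣ := Subgroup.zpowers P with hH
  have hHcard : Nat.card H = f := by rw [hH, Nat.card_zpowers, hPord]
  -- `g` is invariant under `H`
  have hinv : ∀ (x : (ZMod N)ˣ) (y : (ZMod N)ˣ), y ∈ H → g ((x * y : (ZMod N)ˣ) : ZMod N) = g x := by
    intro x y hy
    rw [hH, mem_zpowers_iff_mem_range_orderOf] at hy
    obtain ⟨j, _, hj⟩ := Finset.mem_image.1 hy
    rw [← hj, Units.val_mul, Units.val_pow_eq_pow_val, hP, Units.val_mk0, mul_comm]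
    exact inv_pow_of_frob hg j x
  have h1 : ∑ v ∈ univ.erase (0 : ZMod N), g v = ∑ x : (ZMod N)ˣ, g x := by
    symm
    apply Finset.sum_bij (fun (x : (ZMod N)ˣ) _ => (x : ZMod N))
    · intro x _
      exact Finset.mem_erase.2 ⟨x.ne_zero, mem_univ _⟩
    · intro x _ y _ hxy
      exact Units.ext hxy
    · intro v hv
      exact ⟨Units.mk0 v (Finset.ne_of_mem_erase hv), mem_univ _, rfl⟩
    · intro x _; rfl
  rw [h1]
  have h2 : ∑ x : (ZMod N)ˣ, g x = ∑ q : (ZMod N)ˣ ⧸ H,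
      ∑ x ∈ univ.filter (fun x : (ZMod N)ˣ => (QuotientGroup.mk x : (ZMod N)ˣ ⧸ H) = q), g x :=
    (Finset.sum_fiberwise _ _ _).symm
  rw [h2]
  apply Finset.dvd_sum
  intro q _
  obtain ⟨x0, rfl⟩ := QuotientGroup.mk_surjective q
  have h3 : ∀ x ∈ univ.filter (fun x : (ZMod N)ˣ =>
      (QuotientGroup.mk x : (ZMod N)ˣ ⧸ H) = QuotientGroup.mk x0), g x = g x0 := by
    intro x hx
    rw [Finset.mem_filter] at hx
    have h4 : x0⁻¹ * x ∈ H := QuotientGroup.eq.1 hx.2.symm
    have h5 := hinv x0 _ h4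
    rwa [mul_inv_cancel_left] at h5
  rw [Finset.sum_congr rfl h3, Finset.sum_const, nsmul_eq_mul]
  have h4 : (univ.filter (fun x : (ZMod N)ˣ =>
      (QuotientGroup.mk x : (ZMod N)ˣ ⧸ H) = QuotientGroup.mk x0)).card = f := by
    rw [← hHcard, Nat.card_eq_fintype_card, ← Finset.card_univ]
    symm
    apply Finset.card_bij (fun (y : H) _ => x0 * (y : (ZMod N)ˣ))
    · intro y _
      rw [Finset.mem_filter]
      refine ⟨mem_univ _, ?_⟩
      rw [eq_comm, QuotientGroup.eq, inv_mul_cancel_left]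
      exact y.2
    · intro y _ y' _ h
      exact Subtype.ext (mul_left_cancel h)
    · intro x hx
      rw [Finset.mem_filter] at hx
      have h4 : x0⁻¹ * x ∈ H := QuotientGroup.eq.1 hx.2.symm
      exact ⟨⟨_, h4⟩, mem_univ _, by simp⟩
  rw [h4]
  exact dvd_mul_right _ _

/-- not all `W(u)` vanish -/
theorem exists_W_ne {p N f : ℕ} [Fact N.Prime] (hN : N ≠ 2)
    (hp0 : (p : ZMod N) ≠ 0) (hfo : Odd f) (h2 : quadraticChar (ZMod N) 2 = -1) :
    ¬ ∀ u : ZMod N, u ≠ 0 → W p N f u = 0 := by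
  intro hall
  have h20 : (2 : ZMod N) ≠ 0 := Ring.two_ne_zero (by rwa [ZMod.ringChar_zmod_n])
  have h3 : ∀ i : ℕ, L p N f ((2 : ZMod N) ^ i) = L p N f (1 : ZMod N) := by
    intro i
    induction i with
    | zero => simp
    | succ i ih =>
      have h4 := hall ((2 : ZMod N) ^ i) (pow_ne_zero i h20)
      rw [W_eq_L hN, ← pow_succ'] at h4
      have : (L p N f ((2 : ZMod N) ^ (i + 1)) : ℤ) = L p N f ((2 : ZMod N) ^ i) := by linarith
      rw [← ih]
      exact_mod_cast this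
  have h4 := h3 (N / 2)
  rw [two_pow hN h2] at h4
  have h5 := L_neg (p := p) (f := f) hp0 (one_ne_zero (α := ZMod N))
  rw [h4] at h5
  apply odd_ne (f := f) hN hfo (L p N f (1 : ZMod N) : ℤ)
  have : ((L p N f (1 : ZMod N) + L p N f (1 : ZMod N) : ℕ) : ℤ) = ((f * N : ℕ) : ℤ) := by rw [h5]
  push_cast at this
  linarith

section

variable {p : ℕ} [Fact p.Prime] {F : Type} [Field F] [Fintype F] [DecidableEq F]
  [Algebra (ZMod p) F] {f : ℕ} {ω : F} {N : ℕ} [Fact N.Prime]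

theorem all_eq_of_sum {N : ℕ} [Fact N.Prime] (h : ZMod N → ℤ) (lam : MulChar (ZMod N) ℤ)
    (hterm : ∀ v : ZMod N, v ≠ 0 → h v * lam v = 1 ∨ h v * lam v = -1) {c : ℤ}
    (hc : c = 1 ∨ c = -1) (hsum : ∑ v ∈ univ.erase (0 : ZMod N), (h v * lam v + c) = 0) :
    ∀ v : ZMod N, v ≠ 0 → h v * lam v = -c := by
  have hmemb : ∀ v ∈ univ.erase (0 : ZMod N), h v * lam v + c = 0 := by
    rcases hc with hc | hc
    · apply (Finset.sum_eq_zero_iff_of_nonneg ?_).1 hsum
      intro v hv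
      rcases hterm v (Finset.ne_of_mem_erase hv) with h1 | h1 <;> rw [h1, hc] <;> norm_num
    · have hneg : ∑ v ∈ univ.erase (0 : ZMod N), -(h v * lam v + c) = 0 := by
        rw [Finset.sum_neg_distrib, hsum, neg_zero]
      have := (Finset.sum_eq_zero_iff_of_nonneg (by
        intro v hv
        rcases hterm v (Finset.ne_of_mem_erase hv) with h1 | h1 <;> rw [h1, hc] <;>
          norm_num)).1 hneg
      intro v hv
      have := this v hv
      linarith
  intro v hv
  have := hmemb v (Finset.mem_erase.2 ⟨hv, mem_univ _⟩)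
  linarith

/-- if `h` is a multiple of the quadratic character off zero, with the right sign, `n` is even -/
theorem nn_even (hN : N ≠ 2) {s : ℤ} (hs : s = 1 ∨ s = -1) {k : ℕ} (h : ZMod N → ℤ)
    (hh : ∀ v, mm p N s ω v = p ^ k * h v)
    (hhv : ∀ v : ZMod N, v ≠ 0 → h v =
      -(quadraticChar (ZMod N) (-1) * s * h 0) * quadraticChar (ZMod N) v)
    (hδv : quadraticChar (ZMod N) (-1) = if N % 4 = 3 then -1 else 1) (v : ZMod N) :
    nn p N ω (-v) = nn p N ω v := by
  have hNN := (Fact.out : N.Prime)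
  have hs2 : s ^ 2 = 1 := by rcases hs with rfl | rfl <;> norm_num
  set lam := quadraticChar (ZMod N) with hlam
  set δ : ℤ := lam (-1) with hδ
  have hδ2 : δ ^ 2 = 1 := by rw [hδv]; split_ifs <;> norm_num
  have hlneg : ∀ v : ZMod N, lam (-v) = δ * lam v := by
    intro v
    rw [← neg_one_mul, hlam, map_mul]
  by_cases hv : v = 0
  · rw [hv, neg_zero]
  have i1 := mm_inv_nn (p := p) (ω := ω) hN hs v
  have i2 := mm_inv_nn (p := p) (ω := ω) hN hs (-v)
  rw [← hlam] at i1 i2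
  have q : ∀ x : ZMod N, x ≠ 0 → ∑ u : ZMod N, mm p N s ω u * lam (u - x) =
      (p : ℤ) ^ k * (h 0 * (δ * lam x) + (δ * s * h 0)) := by
    intro x hx
    have q1 : ∀ u : ZMod N, mm p N s ω u * lam (u - x) =
        (p : ℤ) ^ k * ((if u = 0 then h 0 * lam (-x) else 0) -
          (s * h 0) * (lam (x - u) * lam u)) := by
      intro u
      have e1 : lam (u - x) = δ * lam (x - u) := by
        rw [show u - x = -(x - u) by ring, hlneg]
      by_cases hu : u = 0
      · rw [hu, hh, if_pos rfl, zero_sub, hlam, MulChar.map_zero]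
        ring
      · rw [hh, if_neg hu, hhv u hu, e1]
        linear_combination (-(p : ℤ) ^ k * s * h 0 * lam u * lam (x - u)) * hδ2
    rw [Finset.sum_congr rfl fun u _ => q1 u, ← Finset.mul_sum, Finset.sum_sub_distrib,
      ← Finset.mul_sum, quad_conv hN x, if_neg hx, hlneg]
    rw [Finset.sum_ite_eq', if_pos (Finset.mem_univ _), ← hlam, ← hδ]
    ring
  rw [q v hv, hh v] at i1
  rw [q (-v) (neg_ne_zero.2 hv), hh (-v), hhv (-v) (neg_ne_zero.2 hv), hlneg] at i2
  rw [hhv v hv] at i1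
  have h3 : (1 - δ * (N : ℤ)) * (nn p N ω (-v) - nn p N ω v) = 0 := by
    linear_combination i1 - i2 - ((p : ℤ) ^ k * h 0 * lam v * (δ ^ 2 - δ)) * hs2
  rcases mul_eq_zero.1 h3 with h4 | h4
  · exfalso
    have hN1 : (1 : ℤ) < N := by exact_mod_cast hNN.one_lt
    rw [hδv] at h4
    split_ifs at h4 <;> linarith
  · linarith

/-- every index: necessary condition -/
theorem gen_nec {e : ℕ} (hp : p ≠ 2) (hN : N ≠ 2) (hpN : p ≠ N) (hF : Fintype.card F = p ^ f)
    (hf : Odd f) (hford : f = orderOf (p : ZMod N)) (he : e * f = N - 1)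
    (hNp : ¬ N ∣ p - 1) (hω : IsPrimitiveRoot ω (Fintype.card F - 1))
    (hd : N ∣ Fintype.card F - 1) {Ω : Type} [NormedField Ω]
    [IsUltrametricDist Ω] [CharZero Ω] [IsAlgClosed Ω] (hpn : ‖(p : Ω)‖ = (p : ℝ)⁻¹)
    {ζ : Ω} (hζ : IsPrimitiveRoot ζ p) {s : ℤ} (hs : s = 1 ∨ s = -1)
    (h2 : quadraticChar (ZMod N) 2 = -1)
    (hm : ∀ v : ZMod N, (p : ℤ) * mm p N s ω v ^ 2 = p ^ f) :
    ∃ m w : ℕ, Odd m ∧ ¬ p ∣ m ∧ 2 * m ≤ e ∧
      (if N % 4 = 3 then N + 1 else N - 1) = 4 * m * p ^ w := by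
  have hpp := (Fact.out : p.Prime)
  have hNN := (Fact.out : N.Prime)
  have hf1 : (p : ZMod N) ^ f = 1 := by rw [hford]; exact pow_orderOf_eq_one _
  have hpz : (p : ZMod N) ≠ 0 := by
    intro h
    rw [ZMod.natCast_eq_zero_iff] at h
    exact hpN ((Nat.prime_dvd_prime_iff_eq hNN hpp).1 h).symm
  have hfne : f ≠ 1 := by
    intro h
    rw [h, pow_one] at hf1
    apply hNp
    rw [← ZMod.natCast_eq_zero_iff, Nat.cast_sub hpp.one_le, hf1]
    simp
  have hf3 : 3 ≤ f := by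
    obtain ⟨k, hk⟩ := hf
    omega
  have h8 : N % 8 = 3 ∨ N % 8 = 5 := by
    by_contra hc
    have := quadChar_two' hN
    rw [if_neg hc, h2] at this
    norm_num at this
  set lam := quadraticChar (ZMod N) with hlam
  set δ : ℤ := lam (-1) with hδ
  have hδv : δ = if N % 4 = 3 then -1 else 1 := by
    rw [hδ, hlam, quadraticChar_neg_one (by rwa [ZMod.ringChar_zmod_n]), ZMod.card]
    split_ifs with h
    · rw [ZMod.χ₄_nat_three_mod_four h]
    · rw [ZMod.χ₄_nat_one_mod_four (by omega)]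
  have hδ2 : δ ^ 2 = 1 := by rw [hδv]; split_ifs <;> norm_num
  obtain ⟨h, hh, hpm, hfr, hsum⟩ := exists_h hp hN hpN hF hf hf1 hNp hω hd hζ hs hm
  set k := (f - 1) / 2 with hk
  have hfz : (f : ℤ) ≠ 0 := by
    have : 0 < f := by omega
    exact_mod_cast this.ne'
  -- `∑_{v≠0} h(v) = 0`
  obtain ⟨M0, hM0⟩ := dvd_sum_ne_zero hford hpz h hfr
  have hM00 : M0 = 0 := by
    rw [sum_ne_zero_split h, hM0] at hsum
    exact two_f_le hf3 (hpm 0) hsum
  have hsumh : ∑ v, h v = h 0 := by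
    rw [sum_ne_zero_split h, hM0, hM00]; ring
  -- `S`
  have hs2 : s ^ 2 = 1 := by rcases hs with rfl | rfl <;> norm_num
  have hS : ∑ u : ZMod N, nn p N ω u = s * ((p : ℤ) ^ k * h 0) := by
    have e1 := sum_mm (p := p) (ω := ω) hN s
    have e2 : ∑ v : ZMod N, mm p N s ω v = (p : ℤ) ^ k * h 0 := by
      rw [← hsumh, Finset.mul_sum]
      exact Finset.sum_congr rfl fun v _ => hh v
    rw [e2] at e1
    linear_combination (-s) * e1 - (∑ u : ZMod N, nn p N ω u) * hs2
  -- `M`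
  have hresp : ∀ v : ZMod N, lam (p * v) = lam v := by
    intro v
    have h1 := res_p hf hf1 hpz 1
    rw [pow_one] at h1
    rw [hlam, map_mul, h1, one_mul]
  obtain ⟨M, hM⟩ := dvd_sum_ne_zero hford hpz (fun v => h v * lam v)
    (fun v => by simp only [hfr, hresp])
  obtain ⟨Y, hY⟩ := dvd_sum_ne_zero hford hpz (fun v => nn p N ω v)
    (fun v => nn_frob hp hω hd hpN v)
  -- the relation at `0`
  have i0 := mm_inv_nn (p := p) (ω := ω) hN hs 0
  have hT0 : ∑ u : ZMod N, mm p N s ω u * lam (u - 0) = (p : ℤ) ^ k * (f * M) := by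
    rw [← hM, Finset.mul_sum, sum_ne_zero_split (fun u => mm p N s ω u * lam (u - 0))]
    rw [sub_zero, hlam, MulChar.map_zero, mul_zero, zero_add]
    apply Finset.sum_congr rfl
    intro u _
    rw [hh u, sub_zero]; ring
  have hnn0 : nn p N ω 0 + f * Y = s * ((p : ℤ) ^ k * h 0) := by
    rw [← hS, sum_ne_zero_split (fun v => nn p N ω v), ← hY]
  rw [← hlam, hT0, hS, hh 0] at i0
  have heN : (e : ℤ) * f = N - 1 := by
    have := hNN.one_le
    have h1 : ((e * f : ℕ) : ℤ) = ((N - 1 : ℕ) : ℤ) := by rw [he]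
    rw [Nat.cast_sub this] at h1
    push_cast at h1
    exact h1
  have hkey : ((N : ℤ) - δ) * Y = (p : ℤ) ^ k * (s * h 0 * e + δ * M) := by
    apply mul_left_cancel₀ hfz
    have e1 : (f : ℤ) * Y = s * ((p : ℤ) ^ k * h 0) - nn p N ω 0 := by linarith
    have e2 : (1 - δ * N) * nn p N ω 0 = s * ((p : ℤ) ^ k * h 0) + (p : ℤ) ^ k * (f * M) -
        δ * (s * ((p : ℤ) ^ k * h 0)) := by linarith
    have e3 : ((N : ℤ) - δ) * nn p N ω 0 = -δ * (s * ((p : ℤ) ^ k * h 0) +
        (p : ℤ) ^ k * (f * M) - δ * (s * ((p : ℤ) ^ k * h 0))) := by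
      rw [← e2]
      linear_combination (-(N : ℤ) * nn p N ω 0) * hδ2
    calc (f : ℤ) * (((N : ℤ) - δ) * Y) = ((N : ℤ) - δ) * (f * Y) := by ring
      _ = ((N : ℤ) - δ) * (s * ((p : ℤ) ^ k * h 0)) - ((N : ℤ) - δ) * nn p N ω 0 := by
          rw [e1]; ring
      _ = _ := by
          rw [e3]
          linear_combination (-(s * (p : ℤ) ^ k * h 0)) * hδ2 - (s * (p : ℤ) ^ k * h 0) * heN
  -- factor `N - δ`
  set A : ℕ := if N % 4 = 3 then N + 1 else N - 1 with hA
  have hAz : (A : ℤ) = N - δ := by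
    rw [hA, hδv]
    split_ifs with h4
    · push_cast; ring
    · rw [Nat.cast_sub hNN.one_le]; push_cast; ring
  have hA8 : A % 8 = 4 := by
    rw [hA]
    split_ifs with h4 <;> omega
  have hA0 : A ≠ 0 := by omega
  set w := padicValNat p A with hw
  obtain ⟨n, hn⟩ : p ^ w ∣ A := pow_padicValNat_dvd
  have hpodd : Odd (p ^ w) := (hpp.odd_of_ne_two hp).pow
  have hpn' : ¬ p ∣ n := by
    intro hdv
    obtain ⟨n', hn'⟩ := hdv
    apply pow_succ_padicValNat_not_dvd (p := p) hA0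
    rw [← hw]
    exact ⟨n', by rw [hn, hn']; ring⟩
  have h4n : 4 ∣ n := by
    have h4A : 4 ∣ p ^ w * n := by rw [← hn]; omega
    have hc : Nat.Coprime 4 (p ^ w) := by
      have : Nat.Coprime 2 (p ^ w) := (Nat.coprime_two_left).2 hpodd
      exact Nat.Coprime.pow_left 2 this
    exact hc.dvd_of_dvd_mul_left h4A
  obtain ⟨m, hm4⟩ := h4n
  have hmodd : Odd m := by
    obtain ⟨r, hr⟩ := hpodd
    rcases Nat.even_or_odd m with h | h
    · exfalso
      obtain ⟨t, ht⟩ := h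
      have : A = 8 * (p ^ w * t) := by rw [hn, hm4, ht]; ring
      omega
    · exact h
  have hpm' : ¬ p ∣ m := fun h => hpn' (by rw [hm4]; exact Dvd.dvd.mul_left h 4)
  refine ⟨m, w, hmodd, hpm', ?_, by rw [hn, hm4]; ring⟩
  -- `4 m ∣ Z`
  set Z : ℤ := s * h 0 * e + δ * M with hZ
  have hdvZ : ((4 * m : ℕ) : ℤ) ∣ Z := by
    have h1 : ((4 * m : ℕ) : ℤ) ∣ (p : ℤ) ^ k * Z := by
      rw [← hkey, ← hAz, hn, hm4]
      exact ⟨(p ^ w : ℕ) * Y, by push_cast; ring⟩
    have hc : IsCoprime ((4 * m : ℕ) : ℤ) ((p : ℤ) ^ k) := by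
      apply IsCoprime.pow_right
      rw [Nat.isCoprime_iff_coprime]
      rw [← hm4]
      exact ((Nat.Prime.coprime_iff_not_dvd hpp).2 hpn').symm
    exact hc.dvd_of_dvd_mul_left h1
  -- bound of `Z`
  have hterm : ∀ v : ZMod N, v ≠ 0 → h v * lam v = 1 ∨ h v * lam v = -1 := by
    intro v hv
    rcases hpm v with h1 | h1 <;> rcases quadraticChar_dichotomy hv with h2 | h2 <;>
      rw [h1, hlam, h2] <;> norm_num
  have hMabs : |(f : ℤ) * M| ≤ e * f := by
    rw [← hM, heN]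
    refine (Finset.abs_sum_le_sum_abs _ _).trans ?_
    have habs : ∀ v ∈ univ.erase (0 : ZMod N), |h v * lam v| = 1 := by
      intro v hv
      rcases hterm v (Finset.ne_of_mem_erase hv) with h1 | h1 <;> rw [h1] <;> norm_num
    rw [Finset.sum_congr rfl habs, Finset.sum_const, Finset.card_erase_of_mem (mem_univ _),
      Finset.card_univ, ZMod.card, nsmul_eq_mul, mul_one, Nat.cast_sub hNN.one_le]
    simp
  have hMe : |M| ≤ e := by
    rw [abs_mul, Nat.abs_cast] at hMabs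
    have hfpos : (0 : ℤ) < f := by
      have : 0 < f := by omega
      exact_mod_cast this
    nlinarith
  have hZabs : |Z| ≤ 2 * e := by
    have a1 : |s| = 1 := by rcases hs with rfl | rfl <;> norm_num
    have a2 : |h 0| = 1 := by rcases hpm 0 with h0 | h0 <;> rw [h0] <;> norm_num
    have a3 : |δ| = 1 := by rcases sq_eq_one_iff.mp hδ2 with h0 | h0 <;> rw [h0] <;> norm_num
    refine (abs_add_le _ _).trans ?_
    rw [abs_mul, abs_mul, abs_mul, a1, a2, a3, Nat.abs_cast, one_mul, one_mul, one_mul]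
    linarith
  by_cases hZ0 : Z = 0
  · exfalso
    -- all `h v * lam v` are equal
    have hMe' : δ * M = -(s * h 0 * e) := by linarith
    have hsumval : ∑ v ∈ univ.erase (0 : ZMod N), (h v * lam v + δ * s * h 0) = 0 := by
      rw [Finset.sum_add_distrib, hM, Finset.sum_const, Finset.card_erase_of_mem (mem_univ _),
        Finset.card_univ, ZMod.card, nsmul_eq_mul, Nat.cast_sub hNN.one_le, Nat.cast_one, ← heN]
      have : M = -δ * (s * h 0 * e) := by
        linear_combination δ * hMe' - M * hδ2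
      rw [this]; ring
    have hc : δ * s * h 0 = 1 ∨ δ * s * h 0 = -1 := by
      apply sq_eq_one_iff.mp
      have a2 : h 0 ^ 2 = 1 := by rcases hpm 0 with h0 | h0 <;> rw [h0] <;> norm_num
      rw [mul_pow, mul_pow, hδ2, hs2, a2]; norm_num
    have heach : ∀ v : ZMod N, v ≠ 0 → h v * lam v = -(δ * s * h 0) :=
      all_eq_of_sum h lam hterm hc hsumval
    have hhv : ∀ v : ZMod N, v ≠ 0 → h v = -(δ * s * h 0) * lam v := by
      intro v hv
      have h1 := heach v hv
      have h3 := quadraticChar_sq_one (F := ZMod N) hv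
      rw [← hlam] at h3
      linear_combination (lam v) * h1 - (h v) * h3
    have hev : ∀ v : ZMod N, nn p N ω (-v) = nn p N ω v :=
      nn_even hN hs (k := k) h hh hhv hδv
    apply exists_W_ne (p := p) (f := f) hN hpz hf h2
    intro u hu
    exact W_zero_of_even hp hN hpN hF hf hNp hω hd hpn hζ hev hu
  · have h1 : ((4 * m : ℕ) : ℤ) ≤ |Z| := by
      apply Int.le_of_dvd (abs_pos.2 hZ0)
      exact (dvd_abs _ _).2 hdvZ
    have h2 : ((4 * m : ℕ) : ℤ) ≤ 2 * e := h1.trans hZabs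
    push_cast at h2
    omega

end

end Pool.Agent.CycU
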